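import Mathlib
import Pool.Agent.Lib.MP_8b9a2e_co.Defs

section

set_option autoImplicit false

namespace Pool.Agent.SG

theorem gs_nonneg {l : ℝ} {f : Fo} (h : PP l f) : 0 ≤ gs l f := by
  induction f with
  | nil => simp [gs]
  | cons c r ihc ihr =>
    obtain ⟨h1, h2, h3⟩ := h
    have := ihr h3
    simp only [gs]
    positivity

theorem gs_pos {l : ℝ} {f : Fo} (h : PP l f) (hf : f ≠ .nil) : 0 < gs l f := by
  cases f with
  | nil => exact absurd rfl hf
  | cons c r =>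
    obtain ⟨h1, h2, h3⟩ := h
    have := gs_nonneg h3
    simp only [gs]
    positivity

theorem ds_nonneg (l : ℝ) (f : Fo) : 0 ≤ ds l f := by
  induction f with
  | nil => simp [ds]
  | cons c r ihc ihr =>
    simp only [ds]
    positivity

theorem Basic_mono {l l' : ℝ} {f : Fo} (h : PP l f) (hl : l ≤ l') :
    PP l' f ∧ gs l' f ≤ gs l f := by
  induction f with
  | nil => simp [gs, PP]
  | cons c r ihc ihr =>
    obtain ⟨h1, h2, h3⟩ := h
    obtain ⟨a1, a2⟩ := ihc h1
    obtain ⟨b1, b2⟩ := ihr h3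
    have hp : l - gs l c ≤ l' - gs l' c := by linarith
    refine ⟨⟨a1, by linarith, b1⟩, ?_⟩
    simp only [gs]
    have := one_div_le_one_div_of_le h2 hp
    linarith

theorem PP_mono {l l' : ℝ} {f : Fo} (h : PP l f) (hl : l ≤ l') : PP l' f :=
  (Basic_mono h hl).1

theorem gs_anti {l l' : ℝ} {f : Fo} (h : PP l f) (hl : l ≤ l') : gs l' f ≤ gs l f :=
  (Basic_mono h hl).2

theorem ds_anti {l l' : ℝ} {f : Fo} (h : PP l f) (hl : l ≤ l') : ds l' f ≤ ds l f := by
  induction f with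
  | nil => simp [ds]
  | cons c r ihc ihr =>
    obtain ⟨h1, h2, h3⟩ := h
    have a := ihc h1
    have b := ihr h3
    have hp : l - gs l c ≤ l' - gs l' c := by linarith [gs_anti h1 hl]
    have hd := ds_nonneg l c
    simp only [ds]
    have : (1 + ds l' c) / (l' - gs l' c) ^ 2 ≤ (1 + ds l c) / (l - gs l c) ^ 2 := by
      gcongr
    linarith

theorem PP_pos {l : ℝ} {f : Fo} (h : PP l f) (hf : f ≠ .nil) : 0 < l := by
  cases f with
  | nil => exact absurd rfl hf
  | cons c r =>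
    obtain ⟨h1, h2, h3⟩ := h
    have := gs_nonneg h1
    linarith

/-- mixed second resolvent sum -/
noncomputable def Basic_ds2 (l l' : ℝ) : Fo → ℝ
  | .nil => 0
  | .cons c r => (1 + Basic_ds2 l l' c) / ((l - gs l c) * (l' - gs l' c)) + Basic_ds2 l l' r

theorem Basic_ds2_spec {l l' : ℝ} {f : Fo} (h : PP l f) (hl : l ≤ l') :
    0 ≤ Basic_ds2 l l' f ∧ gs l f - gs l' f = (l' - l) * Basic_ds2 l l' f := by
  induction f with
  | nil => simp [gs, Basic_ds2]
  | cons c r ihc ihr =>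
    obtain ⟨h1, h2, h3⟩ := h
    obtain ⟨a1, a2⟩ := ihc h1
    obtain ⟨b1, b2⟩ := ihr h3
    have hp : l - gs l c ≤ l' - gs l' c := by linarith [gs_anti h1 hl]
    have hp' : 0 < l' - gs l' c := by linarith
    simp only [gs, Basic_ds2]
    refine ⟨by positivity, ?_⟩
    have e1 : l' - gs l' c = (l - gs l c) + (l' - l) * (1 + Basic_ds2 l l' c) := by
      linarith
    have e2 : 1 / (l - gs l c) - 1 / (l' - gs l' c) =
        (l' - l) * ((1 + Basic_ds2 l l' c) / ((l - gs l c) * (l' - gs l' c))) := by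
      rw [div_sub_div _ _ h2.ne' hp'.ne', ← mul_div_assoc]
      congr 1
      linarith
    rw [mul_add, ← e2, ← b2]
    ring

/-- Cauchy-Schwarz in two steps -/
theorem Basic_add_sq {a c b d x z : ℝ} (ha : 0 ≤ a) (hc : 0 ≤ c) (hb : 0 ≤ b) (hd : 0 ≤ d)
    (hx : 0 ≤ x) (hz : 0 ≤ z) (h1 : a ^ 2 ≤ b * x) (h2 : c ^ 2 ≤ d * z) :
    (a + c) ^ 2 ≤ (b + d) * (x + z) := by
  have h3 : (a * c) ^ 2 ≤ (b * z) * (d * x) := by
    calc (a * c) ^ 2 = a ^ 2 * c ^ 2 := by ring
      _ ≤ (b * x) * (d * z) := by gcongr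
      _ = (b * z) * (d * x) := by ring
  have h4 : 2 * (a * c) ≤ b * z + d * x := by
    apply le_of_sq_le_sq _ (by positivity)
    nlinarith [sq_nonneg (b * z - d * x)]
  nlinarith

theorem Basic_ds2_sq {l l' : ℝ} {f : Fo} (h : PP l f) (hl : l ≤ l') :
    Basic_ds2 l l' f ^ 2 ≤ ds l f * ds l' f := by
  induction f with
  | nil => simp [ds, Basic_ds2]
  | cons c r ihc ihr =>
    obtain ⟨h1, h2, h3⟩ := h
    have a := ihc h1
    have b := ihr h3
    obtain ⟨a1, a2⟩ := Basic_ds2_spec h1 hl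
    obtain ⟨b1, b2⟩ := Basic_ds2_spec h3 hl
    have hp' : 0 < l' - gs l' c := by linarith [gs_anti h1 hl]
    have d1 := ds_nonneg l c
    have d2 := ds_nonneg l' c
    have d3 := ds_nonneg l r
    have d4 := ds_nonneg l' r
    simp only [ds, Basic_ds2]
    apply Basic_add_sq (by positivity) b1 (by positivity) d3 (by positivity) d4 _ b
    have e : (1 + Basic_ds2 l l' c) ^ 2 ≤ (1 + ds l c) * (1 + ds l' c) := by
      apply Basic_add_sq zero_le_one a1 zero_le_one d1 zero_le_one d2 _ a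
      norm_num
    calc ((1 + Basic_ds2 l l' c) / ((l - gs l c) * (l' - gs l' c))) ^ 2
        = (1 + Basic_ds2 l l' c) ^ 2 / ((l - gs l c) ^ 2 * (l' - gs l' c) ^ 2) := by
          rw [div_pow, mul_pow]
      _ ≤ ((1 + ds l c) * (1 + ds l' c)) / ((l - gs l c) ^ 2 * (l' - gs l' c) ^ 2) := by
          gcongr
      _ = (1 + ds l c) / (l - gs l c) ^ 2 * ((1 + ds l' c) / (l' - gs l' c) ^ 2) := by
          rw [div_mul_div_comm]

/-- mean value form of Cauchy-Schwarz for `φ = l - gs l f` -/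
theorem cs {l l' : ℝ} {f : Fo} (h : PP l f) (hl : l ≤ l') :
    (l' - l + (gs l f - gs l' f)) ^ 2 ≤ (l' - l) ^ 2 * ((1 + ds l f) * (1 + ds l' f)) := by
  obtain ⟨a1, a2⟩ := Basic_ds2_spec h hl
  have e : (1 + Basic_ds2 l l' f) ^ 2 ≤ (1 + ds l f) * (1 + ds l' f) := by
    apply Basic_add_sq zero_le_one a1 zero_le_one (ds_nonneg _ _) zero_le_one (ds_nonneg _ _) _
      (Basic_ds2_sq h hl)
    norm_num
  rw [a2]
  calc (l' - l + (l' - l) * Basic_ds2 l l' f) ^ 2
      = (l' - l) ^ 2 * (1 + Basic_ds2 l l' f) ^ 2 := by ring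
    _ ≤ _ := by gcongr

theorem Basic_ds2_le {l l' : ℝ} {f : Fo} (h : PP l f) (hl : l ≤ l') :
    Basic_ds2 l l' f ≤ ds l f := by
  induction f with
  | nil => simp [ds, Basic_ds2]
  | cons c r ihc ihr =>
    obtain ⟨h1, h2, h3⟩ := h
    have a := ihc h1
    have b := ihr h3
    have hp : l - gs l c ≤ l' - gs l' c := by linarith [gs_anti h1 hl]
    have d1 := ds_nonneg l c
    simp only [ds, Basic_ds2]
    have : (1 + Basic_ds2 l l' c) / ((l - gs l c) * (l' - gs l' c)) ≤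
        (1 + ds l c) / (l - gs l c) ^ 2 := by
      rw [sq]
      gcongr
    linarith

/-- concavity of `1 / gs` (tangent at the left point) -/
theorem conc {l l' : ℝ} {f : Fo} (h : PP l f) (hl : l ≤ l') :
    (gs l f) ^ 2 ≤ gs l' f * (gs l f + (l' - l) * ds l f) := by
  induction f with
  | nil => simp [gs]
  | cons c r ihc ihr =>
    obtain ⟨h1, h2, h3⟩ := h
    have b := ihr h3
    obtain ⟨a1, a2⟩ := Basic_ds2_spec h1 hl
    have a3 := Basic_ds2_le h1 hl
    have hp : l - gs l c ≤ l' - gs l' c := by linarith [gs_anti h1 hl]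
    have hp' : 0 < l' - gs l' c := by linarith
    have d1 := ds_nonneg l c
    have d3 := ds_nonneg l r
    have g1 := gs_nonneg h3
    have g2 := gs_nonneg (PP_mono h3 hl)
    have hl' : 0 ≤ l' - l := by linarith
    have key : l' - gs l' c ≤ (l - gs l c) + (l' - l) * (1 + ds l c) := by
      have : (l' - l) * Basic_ds2 l l' c ≤ (l' - l) * ds l c := by gcongr
      linarith
    have e := Basic_add_sq (a := 1 / (l - gs l c)) (c := gs l r) (b := 1 / (l' - gs l' c))
      (d := gs l' r) (x := 1 / (l - gs l c) + (l' - l) * ((1 + ds l c) / (l - gs l c) ^ 2))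
      (z := gs l r + (l' - l) * ds l r) (by positivity) g1 (by positivity) g2 (by positivity)
      (by positivity) ?_ b
    · simp only [gs, ds]
      refine e.trans (le_of_eq ?_)
      ring
    · have e1 : 1 / (l - gs l c) + (l' - l) * ((1 + ds l c) / (l - gs l c) ^ 2) =
          ((l - gs l c) + (l' - l) * (1 + ds l c)) / (l - gs l c) ^ 2 := by
        field_simp
      rw [e1, one_div_mul_eq_div, div_pow, one_pow, div_div, div_le_div_iff₀ (by positivity)
        (by positivity), one_mul, mul_comm]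
      gcongr

theorem gs_continuousOn {l : ℝ} {f : Fo} (h : PP l f) :
    ContinuousOn (fun x => gs x f) (Set.Ici l) := by
  induction f with
  | nil => simp only [gs]; exact continuousOn_const
  | cons c r ihc ihr =>
    obtain ⟨h1, h2, h3⟩ := h
    simp only [gs]
    refine ContinuousOn.add (ContinuousOn.div continuousOn_const
      (continuousOn_id.sub (ihc h1)) ?_) (ihr h3)
    intro x hx
    have := gs_anti h1 (Set.mem_Ici.1 hx)
    have hx' : l ≤ x := hx
    have h5 : 0 < x - gs x c := by linarith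
    exact h5.ne'

theorem exists_gs_eq {l l' s : ℝ} {f : Fo} (h : PP l f) (hl : l ≤ l')
    (h1 : gs l' f ≤ s) (h2 : s ≤ gs l f) : ∃ x, l ≤ x ∧ x ≤ l' ∧ gs x f = s := by
  have hc : ContinuousOn (fun x => gs x f) (Set.Icc l l') :=
    (gs_continuousOn h).mono Set.Icc_subset_Ici_self
  obtain ⟨x, hx, hx'⟩ := intermediate_value_Icc' hl hc ⟨h1, h2⟩
  exact ⟨x, hx.1, hx.2, hx'⟩

theorem size_leaves (k : ℕ) : (leaves k).size = k := by
  induction k with
  | zero => rfl
  | succ k ih => simp only [leaves, Fo.size, ih]; omega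

theorem size_comet (k j : ℕ) : (comet k j).size = k + j := by
  induction j with
  | zero => exact size_leaves k
  | succ j ih => simp only [comet, Fo.size, ih]; omega

theorem comet_one (j : ℕ) : comet 1 j = comet 0 (j + 1) := by
  induction j with
  | zero => rfl
  | succ j ih => rw [comet, ih]; rfl

theorem Mem_size {c h : Fo} (hm : Mem c h) : c.size + 1 ≤ h.size := by
  induction h with
  | nil => exact absurd hm (by simp [Mem])
  | cons d r ihd ihr =>
    simp only [Fo.size]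
    rcases hm with rfl | hm
    · omega
    · have := ihr hm
      omega

theorem Basic_size_zero {r : Fo} (h : r.size = 0) : r = .nil := by
  cases r with
  | nil => rfl
  | cons c r => simp only [Fo.size] at h; omega

/-- if the size is extremal the forest is a single tree -/
theorem Mem_size_eq {c h : Fo} (hm : Mem c h) (hs : h.size = c.size + 1) : h = .cons c .nil := by
  cases h with
  | nil => exact absurd hm (by simp [Mem])
  | cons d r =>
    simp only [Fo.size] at hs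
    rcases hm with rfl | hm
    · rw [Basic_size_zero (r := r) (by omega)]
    · have := Mem_size hm
      omega

theorem Mem_PP {l : ℝ} {c h : Fo} (hm : Mem c h) (hp : PP l h) :
    PP l c ∧ 0 < l - gs l c ∧ 1 / (l - gs l c) ≤ gs l h := by
  induction h with
  | nil => exact absurd hm (by simp [Mem])
  | cons d r ihd ihr =>
    obtain ⟨h1, h2, h3⟩ := hp
    simp only [gs]
    rcases hm with rfl | hm
    · exact ⟨h1, h2, by linarith [gs_nonneg h3]⟩
    · obtain ⟨a1, a2, a3⟩ := ihr hm h3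
      refine ⟨a1, a2, ?_⟩
      have : 0 ≤ 1 / (l - gs l d) := by positivity
      linarith

theorem leaves_PP {l : ℝ} (hl : 0 < l) (k : ℕ) : PP l (leaves k) := by
  induction k with
  | zero => trivial
  | succ k ih => exact ⟨trivial, by simpa [gs] using hl, ih⟩

theorem leaves_gs (l : ℝ) (k : ℕ) : gs l (leaves k) = k / l := by
  induction k with
  | zero => simp [leaves, gs]
  | succ k ih =>
    simp only [leaves, gs, ih, sub_zero]
    push_cast
    ring

theorem leaves_ds (l : ℝ) (k : ℕ) : ds l (leaves k) = k / l ^ 2 := by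
  induction k with
  | zero => simp [leaves, ds]
  | succ k ih =>
    simp only [leaves, ds, gs, ih, sub_zero]
    push_cast
    ring

end Pool.Agent.SG
end

section

set_option autoImplicit false
open Classical

namespace Pool.Agent.SG

/-- The spectral decomposition in coordinates. -/
theorem cgSpec_decomp {n : ℕ} (A : Matrix (Fin n) (Fin n) ℝ) (hA : A.IsHermitian) :
    ∃ e : Fin (Fintype.card (Fin n)) → Fin n → ℝ,
      (∀ k l, e k ⬝ᵥ e l = if k = l then 1 else 0) ∧
      (∀ k, A.mulVec (e k) = hA.eigenvalues₀ k • e k) ∧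
      (∀ g : Fin n → ℝ, g = ∑ k, (e k ⬝ᵥ g) • e k) := by
  obtain ⟨σ, hσ⟩ : ∃ σ : Fin (Fintype.card (Fin n)) ≃ Fin n,
    σ = Fintype.equivOfCardEq (Fintype.card_fin _) := ⟨_, rfl⟩
  have hinner : ∀ x y : EuclideanSpace ℝ (Fin n),
      inner ℝ x y = WithLp.ofLp x ⬝ᵥ WithLp.ofLp y := by
    intro x y
    rw [EuclideanSpace.inner_eq_star_dotProduct]
    simp [dotProduct_comm]
  refine ⟨fun k => WithLp.ofLp (hA.eigenvectorBasis (σ k)), ?_, ?_, ?_⟩
  · intro k l
    rw [← hinner]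
    have := (orthonormal_iff_ite.1 hA.eigenvectorBasis.orthonormal) (σ k) (σ l)
    rw [this]
    simp [σ.injective.eq_iff]
  · intro k
    have h1 := hA.mulVec_eigenvectorBasis (σ k)
    have h2 : hA.eigenvalues (σ k) = hA.eigenvalues₀ k := by
      unfold Matrix.IsHermitian.eigenvalues
      rw [← hσ, Equiv.symm_apply_apply]
    rw [h2] at h1
    exact h1
  · intro g
    have h1 := hA.eigenvectorBasis.sum_repr' (WithLp.toLp 2 g)
    have h2 := congrArg WithLp.ofLp h1
    rw [WithLp.ofLp_sum] at h2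
    rw [← Equiv.sum_comp σ] at h2
    conv_lhs => rw [← WithLp.ofLp_toLp 2 g, ← h2]
    refine Finset.sum_congr rfl fun k _ => ?_
    rw [WithLp.ofLp_smul, hinner]

/-- Bounding the quadratic form. -/
theorem cgSpec_form {n : ℕ} {A : Matrix (Fin n) (Fin n) ℝ} {κ : Type*} [Fintype κ]
    {e : κ → Fin n → ℝ} {lm : κ → ℝ} (he : ∀ k, A.mulVec (e k) = lm k • e k)
    (hs : ∀ g : Fin n → ℝ, g = ∑ k, (e k ⬝ᵥ g) • e k) (g : Fin n → ℝ) (M : ℝ)
    (hM : ∀ k, e k ⬝ᵥ g ≠ 0 → lm k ≤ M) :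
    g ⬝ᵥ A.mulVec g ≤ M * (g ⬝ᵥ g) ∧
      (g ⬝ᵥ A.mulVec g = M * (g ⬝ᵥ g) → A.mulVec g = M • g) := by
  have h1 : g ⬝ᵥ g = ∑ k, (e k ⬝ᵥ g) ^ 2 := by
    calc g ⬝ᵥ g = g ⬝ᵥ (∑ k, (e k ⬝ᵥ g) • e k) := by rw [← hs g]
      _ = ∑ k, (e k ⬝ᵥ g) ^ 2 := by
        rw [dotProduct_sum]
        refine Finset.sum_congr rfl fun k _ => ?_
        rw [dotProduct_smul, dotProduct_comm g (e k), smul_eq_mul, sq]
  have h2 : A.mulVec g = ∑ k, (lm k * (e k ⬝ᵥ g)) • e k := by
    calc A.mulVec g = A.mulVec (∑ k, (e k ⬝ᵥ g) • e k) := by rw [← hs g]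
      _ = ∑ k, (lm k * (e k ⬝ᵥ g)) • e k := by
        rw [Matrix.mulVec_sum]
        refine Finset.sum_congr rfl fun k _ => ?_
        rw [Matrix.mulVec_smul, he, smul_smul, mul_comm]
  have h3 : g ⬝ᵥ A.mulVec g = ∑ k, lm k * (e k ⬝ᵥ g) ^ 2 := by
    rw [h2, dotProduct_sum]
    refine Finset.sum_congr rfl fun k _ => ?_
    rw [dotProduct_smul, dotProduct_comm g (e k), smul_eq_mul, sq, mul_assoc]
  have h4 : ∀ k, 0 ≤ (M - lm k) * (e k ⬝ᵥ g) ^ 2 := by
    intro k
    by_cases hk : e k ⬝ᵥ g = 0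
    · rw [hk]; simp
    · exact mul_nonneg (sub_nonneg.2 (hM k hk)) (sq_nonneg _)
  have h5 : M * (g ⬝ᵥ g) - g ⬝ᵥ A.mulVec g = ∑ k, (M - lm k) * (e k ⬝ᵥ g) ^ 2 := by
    rw [h1, h3, Finset.mul_sum, ← Finset.sum_sub_distrib]
    refine Finset.sum_congr rfl fun k _ => ?_
    ring
  constructor
  · have := Finset.sum_nonneg (fun k (_ : k ∈ Finset.univ) => h4 k)
    linarith
  · intro heq
    rw [heq, sub_self] at h5
    have h6 := (Finset.sum_eq_zero_iff_of_nonneg (fun k _ => h4 k)).1 h5.symm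
    rw [h2]
    conv_rhs => rw [hs g, Finset.smul_sum]
    refine Finset.sum_congr rfl fun k _ => ?_
    rw [smul_smul]
    congr 1
    have h7 := h6 k (Finset.mem_univ k)
    rcases mul_eq_zero.1 h7 with h | h
    · rw [sub_eq_zero.1 h]
    · rw [pow_eq_zero_iff (by norm_num)] at h
      rw [h]; ring

/-- supersolution bound -/
theorem eig_le {n : ℕ} {A : Matrix (Fin n) (Fin n) ℝ} (hA : A.IsHermitian)
    (hnn : ∀ i j, 0 ≤ A i j) {x : Fin n → ℝ} (hx : ∀ i, 0 < x i) {ν : ℝ}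
    (h : ∀ i, (A.mulVec x) i ≤ ν * x i) (i : Fin (Fintype.card (Fin n))) :
    hA.eigenvalues₀ i ≤ ν := by
  obtain ⟨e, horth, heig, -⟩ := cgSpec_decomp A hA
  have hne : e i ≠ 0 := by
    intro hk
    have := horth i i
    rw [hk] at this
    simp at this
  obtain ⟨c, hc⟩ : ∃ c, e i c ≠ 0 := by
    by_contra hcon
    push Not at hcon
    exact hne (funext hcon)
  obtain ⟨a, -, ha⟩ := Finset.exists_max_image Finset.univ (fun b => |e i b| / x b)
    ⟨c, Finset.mem_univ c⟩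
  have hpos : 0 < |e i a| := by
    have h1 := ha c (Finset.mem_univ c)
    have h2 : 0 < |e i c| / x c := div_pos (abs_pos.2 hc) (hx c)
    have h3 : 0 < |e i a| / x a := lt_of_lt_of_le h2 h1
    by_contra hcon
    push Not at hcon
    have : |e i a| / x a ≤ 0 := div_nonpos_of_nonpos_of_nonneg hcon (hx a).le
    linarith
  have hb : ∀ b, |e i b| ≤ |e i a| / x a * x b := by
    intro b
    have h1 := ha b (Finset.mem_univ b)
    rwa [div_le_iff₀ (hx b)] at h1
  have h1 := congrFun (heig i) a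
  rw [Pi.smul_apply, smul_eq_mul] at h1
  have h2 : |(A.mulVec (e i)) a| ≤ ∑ b, A a b * |e i b| := by
    unfold Matrix.mulVec dotProduct
    refine (Finset.abs_sum_le_sum_abs _ _).trans (Finset.sum_le_sum fun b _ => ?_)
    rw [abs_mul, abs_of_nonneg (hnn a b)]
  have h3 : ∑ b, A a b * |e i b| ≤ |e i a| / x a * (A.mulVec x) a := by
    unfold Matrix.mulVec dotProduct
    rw [Finset.mul_sum]
    refine Finset.sum_le_sum fun b _ => ?_
    calc A a b * |e i b| ≤ A a b * (|e i a| / x a * x b) :=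
          mul_le_mul_of_nonneg_left (hb b) (hnn a b)
      _ = |e i a| / x a * (A a b * x b) := by ring
  have h4 : |e i a| / x a * (A.mulVec x) a ≤ |e i a| / x a * (ν * x a) :=
    mul_le_mul_of_nonneg_left (h a) (div_nonneg hpos.le (hx a).le)
  have h5 : |e i a| / x a * (ν * x a) = ν * |e i a| := by
    have := (hx a).ne'
    field_simp
  have h6 : hA.eigenvalues₀ i * |e i a| ≤ |(A.mulVec (e i)) a| := by
    rw [h1, abs_mul]
    exact mul_le_mul_of_nonneg_right (le_abs_self _) (abs_nonneg _)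
  have h7 : hA.eigenvalues₀ i * |e i a| ≤ ν * |e i a| := by linarith
  exact le_of_mul_le_mul_right h7 hpos

/-- two dimensional test space -/
theorem le_eig2 {n : ℕ} {A : Matrix (Fin n) (Fin n) ℝ} (hA : A.IsHermitian)
    {x y : Fin n → ℝ} (hxy : LinearIndependent ℝ ![x, y]) {μ : ℝ}
    (h : ∀ a b : ℝ, μ * ((a • x + b • y) ⬝ᵥ (a • x + b • y)) ≤
      (a • x + b • y) ⬝ᵥ (A.mulVec (a • x + b • y)))
    (j : Fin (Fintype.card (Fin n))) (hj : j.val = 1) : μ ≤ hA.eigenvalues₀ j := by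
  obtain ⟨e, horth, heig, hspan⟩ := cgSpec_decomp A hA
  have hjlt := j.isLt
  obtain ⟨i, hi⟩ : ∃ i : Fin (Fintype.card (Fin n)), i.val = 0 := ⟨⟨0, by omega⟩, rfl⟩
  have hanti := hA.eigenvalues₀_antitone
  -- a nonzero combination orthogonal to the first eigenvector
  obtain ⟨a, b, hab, hperp⟩ : ∃ a b : ℝ, (a ≠ 0 ∨ b ≠ 0) ∧
      e i ⬝ᵥ (a • x + b • y) = 0 := by
    by_cases hx : e i ⬝ᵥ x = 0
    · exact ⟨1, 0, Or.inl one_ne_zero, by simp [hx]⟩
    · refine ⟨-(e i ⬝ᵥ y), e i ⬝ᵥ x, Or.inr hx, ?_⟩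
      rw [dotProduct_add, dotProduct_smul, dotProduct_smul, smul_eq_mul, smul_eq_mul]
      ring
  have hne : a • x + b • y ≠ 0 := by
    intro h0
    rw [LinearIndependent.pair_iff] at hxy
    have := hxy a b h0
    tauto
  have hpos : 0 < (a • x + b • y) ⬝ᵥ (a • x + b • y) := by
    obtain ⟨c, hc⟩ : ∃ c, (a • x + b • y) c ≠ 0 := by
      by_contra hcon
      push Not at hcon
      exact hne (funext hcon)
    unfold dotProduct
    refine Finset.sum_pos' (fun d _ => mul_self_nonneg _) ⟨c, Finset.mem_univ c, ?_⟩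
    exact mul_self_pos.2 hc
  have h1 := (cgSpec_form heig hspan (a • x + b • y) (hA.eigenvalues₀ j) (fun k hk => hanti (by
    have hki : k ≠ i := by
      rintro rfl
      exact hk hperp
    have : k.val ≠ i.val := fun h => hki (Fin.ext h)
    rw [Fin.le_def]
    omega))).1
  have h2 := (h a b).trans h1
  exact le_of_mul_le_mul_right h2 hpos

end Pool.Agent.SG
end

section

set_option autoImplicit false
open Classical

namespace Pool.Agent.SG

/-- the (unnormalised) radial functions of a comet; `CGu l k i` is the value at vertex `i` -/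
noncomputable def CGu (l : ℝ) (k : ℕ) : ℕ → ℝ
  | 0 => 1
  | 1 => l - k / l
  | i + 2 => l * CGu l k (i + 1) - CGu l k i

theorem CGu_succ {l : ℝ} {k : ℕ} : ∀ {i : ℕ}, PP l (comet k i) →
    CGu l k (i + 1) = (l - gs l (comet k i)) * CGu l k i
  | 0, _ => by
    simp [CGu, comet, leaves_gs]
  | i + 1, h => by
    obtain ⟨h1, h2, -⟩ := h
    have h3 := CGu_succ h1
    have h4 : gs l (comet k (i + 1)) = 1 / (l - gs l (comet k i)) := by
      simp [comet, gs]
    rw [h4]
    have h5 : CGu l k i = CGu l k (i + 1) / (l - gs l (comet k i)) := by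
      rw [h3]; field_simp
    show l * CGu l k (i + 1) - CGu l k i = _
    rw [h5]
    field_simp

theorem CG_PP_le {l : ℝ} {k : ℕ} : ∀ {i p : ℕ}, i ≤ p → PP l (comet k p) → PP l (comet k i)
  | i, 0, h, hp => by
    obtain rfl : i = 0 := by omega
    exact hp
  | i, p + 1, h, hp => by
    by_cases h1 : i = p + 1
    · rw [h1]; exact hp
    · exact CG_PP_le (by omega) hp.1

theorem CGu_pos {l : ℝ} {k : ℕ} : ∀ {i : ℕ}, PP l (comet k i) → 0 < CGu l k i
  | 0, _ => by simp [CGu]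
  | i + 1, h => by
    obtain ⟨h1, h2, -⟩ := h
    rw [CGu_succ h1]
    exact mul_pos h2 (CGu_pos h1)

theorem CG_sum3 {n k ℓ : ℕ} (hn : ℓ + k + k = n) (H : ℕ → ℝ) :
    ∑ m : Fin n, H m.val = ∑ m ∈ Finset.range ℓ, H m + ∑ m ∈ Finset.range k, H (ℓ + m) +
      ∑ m ∈ Finset.range k, H (ℓ + k + m) := by
  rw [Fin.sum_univ_eq_sum_range (fun m => H m) n, ← hn, Finset.sum_range_add,
    Finset.sum_range_add]

theorem CG_mulVec {n k ℓ : ℕ} [DecidableRel (CG n k ℓ).Adj] (G : ℕ → ℝ) (i : Fin n) :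
    (((CG n k ℓ).adjMatrix ℝ).mulVec fun m => G m.val) i =
      ∑ m : Fin n, (if (i.val ≠ m.val ∧
        (((i.val + 1 = m.val ∧ m.val < ℓ) ∨ (ℓ ≤ m.val ∧ m.val < ℓ + k ∧ i.val = 0) ∨
          (ℓ + k ≤ m.val ∧ i.val + 1 = ℓ)) ∨
        ((m.val + 1 = i.val ∧ i.val < ℓ) ∨ (ℓ ≤ i.val ∧ i.val < ℓ + k ∧ m.val = 0) ∨
          (ℓ + k ≤ i.val ∧ m.val + 1 = ℓ)))) then G m.val else 0) := by
  unfold Matrix.mulVec dotProduct
  refine Finset.sum_congr rfl fun m _ => ?_
  show (CG n k ℓ).adjMatrix ℝ i m * G m.val = _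
  rw [SimpleGraph.adjMatrix_apply]
  have : (CG n k ℓ).Adj i m ↔ (i.val ≠ m.val ∧
        (((i.val + 1 = m.val ∧ m.val < ℓ) ∨ (ℓ ≤ m.val ∧ m.val < ℓ + k ∧ i.val = 0) ∨
          (ℓ + k ≤ m.val ∧ i.val + 1 = ℓ)) ∨
        ((m.val + 1 = i.val ∧ i.val < ℓ) ∨ (ℓ ≤ i.val ∧ i.val < ℓ + k ∧ m.val = 0) ∨
          (ℓ + k ≤ i.val ∧ m.val + 1 = ℓ)))) := by
    unfold CG
    rw [SimpleGraph.fromRel_adj, Ne, Fin.ext_iff]
  by_cases h : (CG n k ℓ).Adj i m
  · rw [if_pos h, if_pos (this.1 h), one_mul]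
  · rw [if_neg h, if_neg (fun h' => h (this.2 h')), zero_mul]

theorem CG_mulVec_path {n k ℓ : ℕ} [DecidableRel (CG n k ℓ).Adj] (hn : ℓ + k + k = n)
    (hℓ : 2 ≤ ℓ) (G : ℕ → ℝ) {P Q : ℝ} (hP : ∀ m, ℓ ≤ m → m < ℓ + k → G m = P)
    (hQ : ∀ m, ℓ + k ≤ m → G m = Q) (i : Fin n) (hi : i.val < ℓ) :
    (((CG n k ℓ).adjMatrix ℝ).mulVec fun m => G m.val) i =
      (if i.val + 1 < ℓ then G (i.val + 1) else k * Q) +
      (if 0 < i.val then G (i.val - 1) else k * P) := by
  rw [CG_mulVec]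
  generalize i.val = a at hi
  rw [CG_sum3 hn (fun m => (if (a ≠ m ∧
        (((a + 1 = m ∧ m < ℓ) ∨ (ℓ ≤ m ∧ m < ℓ + k ∧ a = 0) ∨
          (ℓ + k ≤ m ∧ a + 1 = ℓ)) ∨
        ((m + 1 = a ∧ a < ℓ) ∨ (ℓ ≤ a ∧ a < ℓ + k ∧ m = 0) ∨
          (ℓ + k ≤ a ∧ m + 1 = ℓ)))) then G m else 0))]
  have e1 : ∑ m ∈ Finset.range ℓ, (if (a ≠ m ∧
        (((a + 1 = m ∧ m < ℓ) ∨ (ℓ ≤ m ∧ m < ℓ + k ∧ a = 0) ∨
          (ℓ + k ≤ m ∧ a + 1 = ℓ)) ∨
        ((m + 1 = a ∧ a < ℓ) ∨ (ℓ ≤ a ∧ a < ℓ + k ∧ m = 0) ∨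
          (ℓ + k ≤ a ∧ m + 1 = ℓ)))) then G m else 0) =
      ∑ m ∈ Finset.range ℓ, ((if m = a + 1 then G (a + 1) else 0) +
        (if m = a - 1 then (if 0 < a then G (a - 1) else 0) else 0)) := by
    refine Finset.sum_congr rfl fun m hm => ?_
    rw [Finset.mem_range] at hm
    by_cases h1 : m = a + 1
    · subst h1
      rw [if_pos (by omega), if_pos rfl, if_neg (by omega), add_zero]
    · by_cases h2 : 0 < a
      · by_cases h3 : m = a - 1
        · rw [if_pos (by omega), if_neg h1, if_pos h3, if_pos h2, h3, zero_add]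
        · rw [if_neg (by omega), if_neg h1, if_neg h3, zero_add]
      · rw [if_neg (by omega), if_neg h1, if_neg h2, ite_self, zero_add]
  have e2 : ∑ m ∈ Finset.range k, (if (a ≠ ℓ + m ∧
        (((a + 1 = ℓ + m ∧ ℓ + m < ℓ) ∨ (ℓ ≤ ℓ + m ∧ ℓ + m < ℓ + k ∧ a = 0) ∨
          (ℓ + k ≤ ℓ + m ∧ a + 1 = ℓ)) ∨
        ((ℓ + m + 1 = a ∧ a < ℓ) ∨ (ℓ ≤ a ∧ a < ℓ + k ∧ ℓ + m = 0) ∨
          (ℓ + k ≤ a ∧ ℓ + m + 1 = ℓ)))) then G (ℓ + m) else 0) =
      ∑ m ∈ Finset.range k, (if 0 < a then 0 else P) := by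
    refine Finset.sum_congr rfl fun m hm => ?_
    rw [Finset.mem_range] at hm
    by_cases h2 : 0 < a
    · rw [if_neg (by omega), if_pos h2]
    · rw [if_pos (by omega), if_neg h2, hP _ (by omega) (by omega)]
  have e3 : ∑ m ∈ Finset.range k, (if (a ≠ ℓ + k + m ∧
        (((a + 1 = ℓ + k + m ∧ ℓ + k + m < ℓ) ∨ (ℓ ≤ ℓ + k + m ∧ ℓ + k + m < ℓ + k ∧ a = 0) ∨
          (ℓ + k ≤ ℓ + k + m ∧ a + 1 = ℓ)) ∨
        ((ℓ + k + m + 1 = a ∧ a < ℓ) ∨ (ℓ ≤ a ∧ a < ℓ + k ∧ ℓ + k + m = 0) ∨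
          (ℓ + k ≤ a ∧ ℓ + k + m + 1 = ℓ)))) then G (ℓ + k + m) else 0) =
      ∑ m ∈ Finset.range k, (if a + 1 < ℓ then 0 else Q) := by
    refine Finset.sum_congr rfl fun m hm => ?_
    rw [Finset.mem_range] at hm
    by_cases h2 : a + 1 < ℓ
    · rw [if_neg (by omega), if_pos h2]
    · rw [if_pos (by omega), if_neg h2, hQ _ (by omega)]
  rw [e1, e2, e3, Finset.sum_add_distrib, Finset.sum_ite_eq', Finset.sum_ite_eq',
    Finset.sum_const, Finset.sum_const, Finset.card_range]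
  simp only [Finset.mem_range, nsmul_eq_mul]
  have h4 : a - 1 < ℓ := by omega
  by_cases h1 : a + 1 < ℓ <;> by_cases h2 : 0 < a <;> simp [h1, h2, h4] <;> ring

theorem CG_mulVec_left {n k ℓ : ℕ} [DecidableRel (CG n k ℓ).Adj] (hn : ℓ + k + k = n)
    (hℓ : 2 ≤ ℓ) (G : ℕ → ℝ) (i : Fin n) (hi : ℓ ≤ i.val) (hi2 : i.val < ℓ + k) :
    (((CG n k ℓ).adjMatrix ℝ).mulVec fun m => G m.val) i = G 0 := by
  rw [CG_mulVec]
  have h0 : 0 < n := by omega
  rw [Finset.sum_eq_single (⟨0, h0⟩ : Fin n)]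
  · rw [if_pos (by dsimp only; omega)]
  · intro b _ hb
    rw [if_neg]
    have : b.val ≠ 0 := fun h => hb (Fin.ext h)
    omega
  · intro h; exact absurd (Finset.mem_univ _) h

theorem CG_mulVec_right {n k ℓ : ℕ} [DecidableRel (CG n k ℓ).Adj] (hn : ℓ + k + k = n)
    (hℓ : 2 ≤ ℓ) (G : ℕ → ℝ) (i : Fin n) (hi2 : ℓ + k ≤ i.val) :
    (((CG n k ℓ).adjMatrix ℝ).mulVec fun m => G m.val) i = G (ℓ - 1) := by
  rw [CG_mulVec]
  have h0 : ℓ - 1 < n := by omega
  rw [Finset.sum_eq_single (⟨ℓ - 1, h0⟩ : Fin n)]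
  · rw [if_pos (by dsimp only; omega)]
  · intro b _ hb
    rw [if_neg]
    have : b.val ≠ ℓ - 1 := fun h => hb (Fin.ext h)
    omega
  · intro h; exact absurd (Finset.mem_univ _) h

/-- test functions: `a` times the left block `0..p`, `b` times the right block `ℓ-1-q..ℓ-1` -/
noncomputable def CGz (l a b : ℝ) (k p q ℓ i : ℕ) : ℝ :=
  if i < ℓ then
    (if i ≤ p then a * CGu l k i else if ℓ ≤ i + q + 1 then b * CGu l k (ℓ - 1 - i) else 0)
  else if i < ℓ + k then a / l else b / l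

theorem CGu_rec (l : ℝ) (k i : ℕ) (c : ℝ) :
    (if 0 < i then c * CGu l k (i - 1) else k * (c / l)) =
      l * (c * CGu l k i) - c * CGu l k (i + 1) := by
  cases i with
  | zero => simp only [CGu, lt_irrefl, if_false]; ring
  | succ i =>
    rw [if_pos (Nat.succ_pos i), Nat.add_sub_cancel]
    show c * CGu l k i = l * (c * CGu l k (i + 1)) - c * (l * CGu l k (i + 1) - CGu l k i)
    ring

theorem CGz_mulVec {n k ℓ p q : ℕ} [DecidableRel (CG n k ℓ).Adj] (hn : ℓ + k + k = n)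
    (hpq : p + q + 2 ≤ ℓ) {l : ℝ} (hl : 0 < k → l ≠ 0) (a b : ℝ) (i : Fin n)
    (hi : i.val ≤ p ∨ ℓ ≤ i.val + q + 1) :
    (((CG n k ℓ).adjMatrix ℝ).mulVec fun m => CGz l a b k p q ℓ m.val) i =
      l * CGz l a b k p q ℓ i.val +
      (if i.val = p then ((if p + q + 2 = ℓ then b * CGu l k q else 0) - a * CGu l k (p + 1))
        else 0) +
      (if i.val + q + 1 = ℓ then
        ((if p + q + 2 = ℓ then a * CGu l k p else 0) - b * CGu l k (q + 1)) else 0) := by
  have hP : ∀ m, ℓ ≤ m → m < ℓ + k → CGz l a b k p q ℓ m = a / l := by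
    intro m h1 h2
    unfold CGz
    rw [if_neg (by omega), if_pos h2]
  have hQ : ∀ m, ℓ + k ≤ m → CGz l a b k p q ℓ m = b / l := by
    intro m h1
    unfold CGz
    rw [if_neg (by omega), if_neg (by omega)]
  have hL : ∀ m, m ≤ p → CGz l a b k p q ℓ m = a * CGu l k m := by
    intro m h1
    unfold CGz
    rw [if_pos (by omega), if_pos h1]
  have hR : ∀ m, m < ℓ → ℓ ≤ m + q + 1 → CGz l a b k p q ℓ m = b * CGu l k (ℓ - 1 - m) := by
    intro m h1 h2
    unfold CGz
    rw [if_pos h1, if_neg (by omega), if_pos h2]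
  have hM : ∀ m, p < m → m + q + 1 < ℓ → CGz l a b k p q ℓ m = 0 := by
    intro m h1 h2
    unfold CGz
    rw [if_pos (by omega), if_neg (by omega), if_neg (by omega)]
  by_cases h1 : i.val < ℓ
  · rw [CG_mulVec_path hn (by omega) (CGz l a b k p q ℓ) hP hQ i h1]
    generalize i.val = c at hi h1
    by_cases h2 : c ≤ p
    · rw [if_pos (by omega : c + 1 < ℓ), hL c h2,
        if_neg (by omega : ¬ c + q + 1 = ℓ)]
      have e1 : (if 0 < c then CGz l a b k p q ℓ (c - 1) else k * (a / l)) =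
          (if 0 < c then a * CGu l k (c - 1) else k * (a / l)) := by
        rw [hL (c - 1) (by omega)]
      rw [e1, CGu_rec]
      by_cases h3 : c = p
      · subst h3
        rw [if_pos rfl]
        by_cases h4 : c + q + 2 = ℓ
        · rw [if_pos h4, hR _ (by omega) (by omega)]
          have : ℓ - 1 - (c + 1) = q := by omega
          rw [this]; ring
        · rw [if_neg h4, hM _ (by omega) (by omega)]; ring
      · rw [if_neg h3, hL (c + 1) (by omega)]; ring
    · have h3 : ℓ ≤ c + q + 1 := by omega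
      rw [if_pos (by omega : 0 < c), if_neg (by omega : ¬ c = p), hR c h1 h3]
      have e1 : (if c + 1 < ℓ then CGz l a b k p q ℓ (c + 1) else k * (b / l)) =
          (if 0 < ℓ - 1 - c then b * CGu l k (ℓ - 1 - c - 1) else k * (b / l)) := by
        by_cases h4 : c + 1 < ℓ
        · rw [if_pos h4, if_pos (by omega), hR _ h4 (by omega)]
          have : ℓ - 1 - (c + 1) = ℓ - 1 - c - 1 := by omega
          rw [this]
        · rw [if_neg h4, if_neg (by omega)]
      rw [e1, CGu_rec]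
      by_cases h4 : c + q + 1 = ℓ
      · have h5 : ℓ - 1 - c = q := by omega
        rw [if_pos h4, h5]
        by_cases h6 : p + q + 2 = ℓ
        · rw [if_pos h6, hL (c - 1) (by omega)]
          have : c - 1 = p := by omega
          rw [this]; ring
        · rw [if_neg h6, hM _ (by omega) (by omega)]; ring
      · rw [if_neg h4, hR (c - 1) (by omega) (by omega)]
        have : ℓ - 1 - (c - 1) = ℓ - 1 - c + 1 := by omega
        rw [this]; ring
  · rw [if_neg (by omega), if_neg (by omega)]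
    by_cases h2 : i.val < ℓ + k
    · have h3 : l ≠ 0 := hl (by omega)
      rw [CG_mulVec_left hn (by omega) _ i (by omega) h2, hP i.val (by omega) h2, hL 0 (by omega)]
      simp only [CGu]
      field_simp
      ring
    · have h3 : l ≠ 0 := hl (by have := i.isLt; omega)
      rw [CG_mulVec_right hn (by omega) _ i (by omega), hQ i.val (by omega),
        hR (ℓ - 1) (by omega) (by omega)]
      rw [Nat.sub_self]
      simp only [CGu]
      field_simp
      ring

theorem CGz_form {n k ℓ p q : ℕ} [DecidableRel (CG n k ℓ).Adj] (hn : ℓ + k + k = n)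
    (hpq : p + q + 2 ≤ ℓ) {l : ℝ} (hl : 0 < k → l ≠ 0) (a b : ℝ) :
    (fun m : Fin n => CGz l a b k p q ℓ m.val) ⬝ᵥ
      (((CG n k ℓ).adjMatrix ℝ).mulVec fun m => CGz l a b k p q ℓ m.val) =
      l * ((fun m : Fin n => CGz l a b k p q ℓ m.val) ⬝ᵥ
        (fun m : Fin n => CGz l a b k p q ℓ m.val)) +
      (a * CGu l k p * ((if p + q + 2 = ℓ then b * CGu l k q else 0) - a * CGu l k (p + 1)) +
       b * CGu l k q * ((if p + q + 2 = ℓ then a * CGu l k p else 0) - b * CGu l k (q + 1))) := by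
  have key : ∀ i : Fin n, CGz l a b k p q ℓ i.val *
      (((CG n k ℓ).adjMatrix ℝ).mulVec fun m => CGz l a b k p q ℓ m.val) i =
      l * (CGz l a b k p q ℓ i.val * CGz l a b k p q ℓ i.val) +
      ((if i = (⟨p, by omega⟩ : Fin n) then
        (a * CGu l k p * ((if p + q + 2 = ℓ then b * CGu l k q else 0) - a * CGu l k (p + 1)))
        else 0) +
       (if i = (⟨ℓ - 1 - q, by omega⟩ : Fin n) then
        (b * CGu l k q * ((if p + q + 2 = ℓ then a * CGu l k p else 0) - b * CGu l k (q + 1)))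
        else 0)) := by
    intro i
    simp only [Fin.ext_iff]
    by_cases hi : i.val ≤ p ∨ ℓ ≤ i.val + q + 1
    · rw [CGz_mulVec hn hpq hl a b i hi]
      by_cases h1 : i.val = p
      · rw [if_pos h1, if_pos h1, if_neg (show ¬ i.val + q + 1 = ℓ by omega),
          if_neg (show ¬ i.val = ℓ - 1 - q by omega)]
        have : CGz l a b k p q ℓ i.val = a * CGu l k p := by
          unfold CGz
          rw [if_pos (by omega), if_pos (by omega), h1]
        rw [this]; ring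
      · by_cases h2 : i.val + q + 1 = ℓ
        · rw [if_neg h1, if_neg h1, if_pos h2, if_pos (show i.val = ℓ - 1 - q by omega)]
          have : CGz l a b k p q ℓ i.val = b * CGu l k q := by
            unfold CGz
            rw [if_pos (by omega), if_neg (by omega), if_pos (by omega)]
            have : ℓ - 1 - i.val = q := by omega
            rw [this]
          rw [this]; ring
        · rw [if_neg h1, if_neg h1, if_neg h2, if_neg (show ¬ i.val = ℓ - 1 - q by omega)]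
          ring
    · rw [if_neg (show ¬ i.val = p by omega), if_neg (show ¬ i.val = ℓ - 1 - q by omega)]
      have : CGz l a b k p q ℓ i.val = 0 := by
        unfold CGz
        rw [if_pos (by omega), if_neg (by omega), if_neg (by omega)]
      rw [this]; ring
  unfold dotProduct
  rw [Finset.sum_congr rfl fun i _ => key i, Finset.sum_add_distrib, Finset.sum_add_distrib,
    ← Finset.mul_sum, Finset.sum_ite_eq', Finset.sum_ite_eq']
  rw [if_pos (Finset.mem_univ _), if_pos (Finset.mem_univ _)]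

theorem CG_gs_nil {c : Fo} : ∀ {k : ℕ}, Mem c (leaves k) → c = .nil ∧ 0 < k
  | 0, h => h.elim
  | k + 1, h => by
    rcases h with h | h
    · exact ⟨h, Nat.succ_pos k⟩
    · exact ⟨(CG_gs_nil h).1, Nat.succ_pos k⟩

theorem CG_comet_ne {k : ℕ} (hk : 0 < k) : ∀ j, comet k j ≠ .nil
  | 0 => by
    cases k with
    | zero => omega
    | succ k => simp [comet, leaves]
  | j + 1 => by simp [comet]

theorem CG_gs_nonneg {l : ℝ} {k j : ℕ} (h : PP l (comet k j)) (h' : 0 < l - gs l (comet k j)) :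
    0 < l := by
  have := gs_nonneg h
  linarith

theorem CGz_lin (l a b : ℝ) (k p q ℓ i : ℕ) :
    CGz l a b k p q ℓ i = a * CGz l 1 0 k p q ℓ i + b * CGz l 0 1 k p q ℓ i := by
  unfold CGz
  split_ifs <;> ring

/-- lower bound for the second eigenvalue -/
theorem CG_le_eig {n k ℓ p q : ℕ} (hn : ℓ + k + k = n) (hpq : p + q + 2 ≤ ℓ) {μ : ℝ}
    (hp : PP μ (comet k p)) (hq : PP μ (comet k q))
    (hp' : μ - gs μ (comet k p) ≤ 0) (hq' : μ - gs μ (comet k q) ≤ 0)
    (h : p + q + 2 = ℓ → 1 ≤ (μ - gs μ (comet k p)) * (μ - gs μ (comet k q)))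
    [DecidableRel (CG n k ℓ).Adj] (hC : ((CG n k ℓ).adjMatrix ℝ).IsHermitian)
    (j : Fin (Fintype.card (Fin n))) (hj : j.val = 1) : μ ≤ hC.eigenvalues₀ j := by
  have hl : 0 < k → μ ≠ 0 := fun hk => (PP_pos hp (CG_comet_ne hk p)).ne'
  have up := CGu_pos hp
  have uq := CGu_pos hq
  have hvec : ∀ a b : ℝ, a • (fun m : Fin n => CGz μ 1 0 k p q ℓ m.val) +
      b • (fun m : Fin n => CGz μ 0 1 k p q ℓ m.val) =
      fun m : Fin n => CGz μ a b k p q ℓ m.val := by
    intro a b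
    funext m
    rw [CGz_lin μ a b]
    rfl
  refine le_eig2 hC (x := fun m : Fin n => CGz μ 1 0 k p q ℓ m.val)
    (y := fun m : Fin n => CGz μ 0 1 k p q ℓ m.val) ?_ ?_ j hj
  · rw [LinearIndependent.pair_iff]
    intro s t hst
    rw [hvec] at hst
    have h1 := congrFun hst (⟨p, by omega⟩ : Fin n)
    have h2 := congrFun hst (⟨ℓ - 1 - q, by omega⟩ : Fin n)
    have h3 : CGz μ s t k p q ℓ p = s * CGu μ k p := by
      unfold CGz
      rw [if_pos (by omega), if_pos le_rfl]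
    have h4 : CGz μ s t k p q ℓ (ℓ - 1 - q) = t * CGu μ k q := by
      unfold CGz
      rw [if_pos (by omega), if_neg (by omega), if_pos (by omega)]
      have : ℓ - 1 - (ℓ - 1 - q) = q := by omega
      rw [this]
    have h1' : CGz μ s t k p q ℓ p = 0 := h1
    have h2' : CGz μ s t k p q ℓ (ℓ - 1 - q) = 0 := h2
    rw [h3] at h1'
    rw [h4] at h2'
    exact ⟨(mul_eq_zero.1 h1').resolve_right up.ne', (mul_eq_zero.1 h2').resolve_right uq.ne'⟩
  · intro a b
    rw [hvec a b]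
    rw [CGz_form hn hpq hl a b]
    have h1 := CGu_succ hp
    have h2 := CGu_succ hq
    rw [h1, h2]
    set φ := μ - gs μ (comet k p) with hφ
    set ψ := μ - gs μ (comet k q) with hψ
    set u := a * CGu μ k p with hu
    set v := b * CGu μ k q with hv
    have e1 : u * ((if p + q + 2 = ℓ then v else 0) - a * (φ * CGu μ k p)) +
        v * ((if p + q + 2 = ℓ then u else 0) - b * (ψ * CGu μ k q)) =
        (if p + q + 2 = ℓ then 2 * (u * v) else 0) - φ * u ^ 2 - ψ * v ^ 2 := by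
      split_ifs
      · rw [hu, hv]; ring
      · rw [hu, hv]; ring
    rw [e1]
    suffices hs : 0 ≤ (if p + q + 2 = ℓ then 2 * (u * v) else 0) - φ * u ^ 2 - ψ * v ^ 2 by
      linarith
    by_cases hc : p + q + 2 = ℓ
    · rw [if_pos hc]
      have h3 := h hc
      have hφ' : φ < 0 := by
        rcases hp'.lt_or_eq with h4 | h4
        · exact h4
        · rw [h4, zero_mul] at h3; linarith
      -- -φ * (form) = (φ u - v)^2 + (φψ - 1) v^2
      have h4 : -φ * (2 * (u * v) - φ * u ^ 2 - ψ * v ^ 2) =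
          (φ * u - v) ^ 2 + (φ * ψ - 1) * v ^ 2 := by ring
      have h5 : 0 ≤ -φ * (2 * (u * v) - φ * u ^ 2 - ψ * v ^ 2) := by
        rw [h4]
        have : 0 ≤ (φ * ψ - 1) * v ^ 2 := mul_nonneg (by linarith) (sq_nonneg _)
        positivity
      exact nonneg_of_mul_nonneg_right h5 (by linarith)
    · rw [if_neg hc]
      nlinarith [mul_nonneg (neg_nonneg.2 hp') (sq_nonneg u),
        mul_nonneg (neg_nonneg.2 hq') (sq_nonneg v)]

/-- upper bound for the first eigenvalue -/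
theorem CG_eig_le {n k ℓ p q : ℕ} (hn : ℓ + k + k = n) (hpq : p + q + 2 = ℓ) {ν : ℝ}
    (hp : PP ν (comet k p)) (hq : PP ν (comet k q))
    (hp' : 0 < ν - gs ν (comet k p)) (hq' : 0 < ν - gs ν (comet k q))
    (h : 1 ≤ (ν - gs ν (comet k p)) * (ν - gs ν (comet k q)))
    [DecidableRel (CG n k ℓ).Adj] (hC : ((CG n k ℓ).adjMatrix ℝ).IsHermitian)
    (i : Fin (Fintype.card (Fin n))) : hC.eigenvalues₀ i ≤ ν := by
  have hν := CG_gs_nonneg hp hp'
  have up := CGu_pos hp
  have uq := CGu_pos hq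
  set a := (ν - gs ν (comet k q)) / CGu ν k p with ha
  set b := 1 / CGu ν k q with hb
  have ha0 : 0 < a := div_pos hq' up
  have hb0 : 0 < b := div_pos one_pos uq
  refine eig_le hC ?_ (x := fun m : Fin n => CGz ν a b k p q ℓ m.val) ?_ ?_ i
  · intro i j
    rw [SimpleGraph.adjMatrix_apply]
    split_ifs <;> norm_num
  · intro m
    show 0 < CGz ν a b k p q ℓ m.val
    unfold CGz
    split_ifs with h1 h2 h3 h4
    · exact mul_pos ha0 (CGu_pos (CG_PP_le h2 hp))
    · exact mul_pos hb0 (CGu_pos (CG_PP_le (by omega) hq))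
    · omega
    · exact div_pos ha0 hν
    · exact div_pos hb0 hν
  · intro m
    rw [CGz_mulVec hn hpq.le (fun _ => hν.ne') a b m (by omega)]
    rw [if_pos hpq, if_pos hpq, CGu_succ hp, CGu_succ hq]
    show _ ≤ ν * CGz ν a b k p q ℓ m.val
    have e1 : b * CGu ν k q = 1 := by rw [hb]; field_simp
    have e2 : a * CGu ν k p = ν - gs ν (comet k q) := by rw [ha]; field_simp
    have e3 : a * ((ν - gs ν (comet k p)) * CGu ν k p) =
        (ν - gs ν (comet k p)) * (ν - gs ν (comet k q)) := by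
      rw [← e2]; ring
    have e4 : b * ((ν - gs ν (comet k q)) * CGu ν k q) = ν - gs ν (comet k q) := by
      calc b * ((ν - gs ν (comet k q)) * CGu ν k q)
          = (ν - gs ν (comet k q)) * (b * CGu ν k q) := by ring
        _ = _ := by rw [e1, mul_one]
    rw [e1, e2, e3, e4]
    have h1 : (if m.val = p then
        (1 - (ν - gs ν (comet k p)) * (ν - gs ν (comet k q))) else 0) ≤ 0 := by
      split_ifs
      · linarith
      · exact le_rfl
    have h2 : (if m.val + q + 1 = ℓ then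
        (ν - gs ν (comet k q) - (ν - gs ν (comet k q))) else 0) ≤ 0 := by
      split_ifs
      · linarith
      · exact le_rfl
    linarith

/-- upper bound for the gap of a double comet -/
theorem cg_gap {n k j j' : ℕ} (hn : 2 * k + j + j' + 2 = n) {ν μ : ℝ}
    (p1 : PP ν (comet k j)) (p2 : PP ν (comet k j')) (q1 : 0 < ν - gs ν (comet k j))
    (q2 : 0 < ν - gs ν (comet k j')) (q : 1 ≤ (ν - gs ν (comet k j)) * (ν - gs ν (comet k j')))
    (hμ : (PP μ (comet k j) ∧ PP μ (comet k j') ∧ μ - gs μ (comet k j) < 0 ∧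
            μ - gs μ (comet k j') < 0 ∧ 1 ≤ (μ - gs μ (comet k j)) * (μ - gs μ (comet k j'))) ∨
          (PP μ (comet k j) ∧ μ - gs μ (comet k j) ≤ 0 ∧
            ∃ m, j' = m + 1 ∧ PP μ (comet k m) ∧ μ - gs μ (comet k m) ≤ 0)) :
    DcLe n k (j + j' + 2) (ν - μ) := by
  intro hC i i' _ hi'
  have hn' : j + j' + 2 + k + k = n := by omega
  have h1 := CG_eig_le hn' rfl p1 p2 q1 q2 q hC i
  have h2 : μ ≤ hC.eigenvalues₀ i' := by
    rcases hμ with ⟨a1, a2, a3, a4, a5⟩ | ⟨a1, a2, m, rfl, a3, a4⟩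
    · exact CG_le_eig hn' le_rfl a1 a2 a3.le a4.le (fun _ => a5) hC i' hi'
    · exact CG_le_eig hn' (q := m) (by omega) a1 a3 a2 a4 (fun h => by omega) hC i' hi'
  linarith

/-- the case of a tree which is a double comet -/
theorem cg_gap_sp {n k j j' : ℕ} {ν μ : ℝ} (hS : Sp n (comet k j) (comet k j') ν μ) :
    DcLe n k (j + j' + 2) (ν - μ) := by
  have hs := hS.size
  rw [size_comet, size_comet] at hs
  refine cg_gap (by omega) hS.ppf hS.pph hS.posf hS.posh hS.prod.ge ?_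
  rcases hS.ev with ⟨a1, a2, a3, a4, a5⟩ | ⟨a1, a2, c, hc, a3, a4⟩
  · exact Or.inl ⟨a1, a2, a3, a4, a5.ge⟩
  · cases j' with
    | zero =>
      exfalso
      obtain ⟨rfl, hk⟩ := CG_gs_nil (k := k) hc
      have h1 := PP_pos a1 (CG_comet_ne hk j)
      rw [gs] at a4
      linarith
    | succ m =>
      rcases hc with rfl | hc
      · exact Or.inr ⟨a1, a2.le, m, rfl, a3, a4.le⟩
      · exact hc.elim

end Pool.Agent.SG
end

section

set_option autoImplicit false

namespace Pool.Agent.SG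

/-- values along the path of a comet with `K+1` leaves, parameter `t` -/
noncomputable def xx (K : ℕ) (t : ℝ) (i : ℕ) : ℝ :=
  (K * t ^ 2 - 1) * (1 / t) ^ i + (t ^ 2 - K) * t ^ i

theorem CometVal_rec {K : ℕ} {t : ℝ} (ht : t ≠ 0) (i : ℕ) :
    lam t * xx K t (i + 1) - xx K t i = xx K t (i + 2) := by
  unfold xx lam
  simp only [pow_succ, pow_zero, one_div]
  field_simp
  ring

theorem CometVal_one {K : ℕ} {t : ℝ} (ht : t ≠ 0) : xx K t 1 = (t ^ 4 - 1) / t := by
  unfold xx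
  field_simp
  ring

theorem CometVal_zero {K : ℕ} {t : ℝ} (ht : 1 < t) :
    ((K : ℝ) + 1) / lam t * xx K t 1 = xx K t 0 := by
  have h0 : 0 < t := by linarith
  rw [CometVal_one h0.ne']
  unfold xx lam
  have h5 : t + 1 / t ≠ 0 := by positivity
  field_simp
  ring

theorem comet_val {K : ℕ} {t : ℝ} (ht : 1 < t) (j : ℕ)
    (hpos : ∀ i, 1 ≤ i → i ≤ j + 1 → 0 < xx K t i) :
    PP (lam t) (comet (K + 1) j) ∧
      lam t - gs (lam t) (comet (K + 1) j) = xx K t (j + 2) / xx K t (j + 1) := by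
  have h0 : 0 < t := by linarith
  have hl : 0 < lam t := by unfold lam; positivity
  induction j with
  | zero =>
    have h1 := hpos 1 le_rfl le_rfl
    refine ⟨leaves_PP hl _, ?_⟩
    simp only [comet]
    rw [leaves_gs, eq_div_iff h1.ne', sub_mul]
    have := CometVal_zero (K := K) ht
    have h3 := CometVal_rec (K := K) h0.ne' 0
    push_cast
    rw [this]
    exact h3
  | succ j ih =>
    obtain ⟨h1, h2⟩ := ih (fun i hi hj => hpos i hi (by omega))
    have h3 := hpos (j + 1) (by omega) (by omega)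
    have h4 := hpos (j + 2) (by omega) (by omega)
    have h5 : 0 < lam t - gs (lam t) (comet (K + 1) j) := by rw [h2]; positivity
    refine ⟨⟨h1, h5, trivial⟩, ?_⟩
    simp only [comet, gs, add_zero]
    rw [h2, one_div_div, eq_div_iff h4.ne', sub_mul, div_mul_cancel₀ _ h4.ne']
    exact CometVal_rec h0.ne' (j + 1)

end Pool.Agent.SG
end

section

set_option autoImplicit false

namespace Pool.Agent.SG

/-- `B p = 9 (7/5 - min 1 p)^2` -/
noncomputable def CrudeB (p : ℝ) : ℝ := 9 * (7 / 5 - min 1 p) ^ 2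

theorem CrudeB_anti {p q : ℝ} (h : p ≤ q) : CrudeB q ≤ CrudeB p := by
  unfold CrudeB
  have h1 : min 1 p ≤ min 1 q := min_le_min_left 1 h
  have h2 : min 1 q ≤ 1 := min_le_left _ _
  nlinarith

theorem CrudeB_ge (p : ℝ) : 36 / 25 ≤ CrudeB p := by
  unfold CrudeB
  have h2 : min 1 p ≤ 1 := min_le_left _ _
  nlinarith

theorem CrudeB_one {p : ℝ} (h : 1 ≤ p) : CrudeB p = 36 / 25 := by
  unfold CrudeB
  rw [min_eq_left h]; norm_num

theorem CrudeB_lt {p : ℝ} (h : p ≤ 1) : CrudeB p = 9 * (7 / 5 - p) ^ 2 := by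
  unfold CrudeB
  rw [min_eq_right h]

/-- the key estimate -/
theorem Crude_key {l p : ℝ} (hl : l ≤ 51 / 25) (hp : 0 < p) :
    CrudeB p / p ^ 2 + 1 / 2 ≤ 2 * CrudeB (l - 1 / p) := by
  rcases le_or_gt 1 p with h | h
  · rw [CrudeB_one h]
    have h1 := CrudeB_ge (l - 1 / p)
    have h2 : (36 / 25 : ℝ) / p ^ 2 ≤ 36 / 25 := by
      apply div_le_self (by norm_num)
      nlinarith
    linarith
  · rw [CrudeB_lt h.le]
    set u := 1 / p with hu
    have hu1 : 1 < u := by rw [hu, lt_div_iff₀ hp]; linarith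
    have e1 : 9 * (7 / 5 - p) ^ 2 / p ^ 2 = 9 * (7 / 5 * u - 1) ^ 2 := by
      rw [hu]; field_simp
    rw [e1]
    rcases le_or_gt 1 (l - u) with h2 | h2
    · rw [CrudeB_one h2]
      nlinarith
    · rw [CrudeB_lt h2.le]
      have h3 : (u - 16 / 25) ^ 2 ≤ (7 / 5 - (l - u)) ^ 2 := by
        apply pow_le_pow_left₀ (by linarith)
        linarith
      nlinarith

theorem crude_pot {l : ℝ} (hl : l ≤ 51 / 25) {f : Fo} (hp : PP l f) :
    1 + ds l f ≤ 2 ^ (f.size + 1) * (9 * (7 / 5 - min 1 (l - gs l f)) ^ 2) := by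
  show 1 + ds l f ≤ 2 ^ (f.size + 1) * CrudeB (l - gs l f)
  induction f with
  | nil =>
    have := CrudeB_ge (l - gs l .nil)
    simp only [ds, Fo.size, zero_add, pow_one]
    linarith
  | cons c r ihc ihr =>
    obtain ⟨h1, h2, h3⟩ := hp
    have hc := ihc h1
    have hr := ihr h3
    set p := l - gs l c with hp
    have key := Crude_key hl h2
    have hs := gs_nonneg h3
    have hBu := CrudeB_ge (l - 1 / p)
    have hp2 : 0 < p ^ 2 := by positivity
    have e1 : (1 + ds l c) / p ^ 2 ≤ 2 ^ (c.size + 1) * (CrudeB p / p ^ 2) := by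
      rw [← mul_div_assoc]
      exact div_le_div_of_nonneg_right hc hp2.le
    have e2 : (2 : ℝ) ≤ 2 ^ (c.size + 1) := by
      rw [pow_succ]
      have : (1 : ℝ) ≤ 2 ^ c.size := one_le_pow₀ (by norm_num)
      linarith
    have e4 : 2 ^ (c.size + 1) * (CrudeB p / p ^ 2) ≤
        2 ^ (c.size + 1) * (2 * CrudeB (l - 1 / p) - 1 / 2) :=
      mul_le_mul_of_nonneg_left (by linarith) (by positivity)
    have hgs : gs l (.cons c r) = 1 / p + gs l r := rfl
    have hds : ds l (.cons c r) = (1 + ds l c) / p ^ 2 + ds l r := rfl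
    have hsz : (Fo.cons c r).size = 1 + c.size + r.size := rfl
    rw [hgs, hds, hsz]
    cases r with
    | nil =>
      have a1 : gs l .nil = 0 := rfl
      have a2 : ds l .nil = 0 := rfl
      have a3 : (Fo.nil).size = 0 := rfl
      rw [a1, a2, a3, add_zero, add_zero, add_zero]
      have a4 : (2 : ℝ) ^ (1 + c.size + 1) = 2 * 2 ^ (c.size + 1) := by ring
      rw [a4]
      nlinarith
    | cons c' r' =>
      set r := Fo.cons c' r' with hr'
      have hM : 1 ≤ r.size := by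
        have : r.size = 1 + c'.size + r'.size := rfl
        omega
      have e5 : (2 : ℝ) ≤ 2 ^ r.size := by
        obtain ⟨k, hk⟩ : ∃ k, r.size = k + 1 := ⟨r.size - 1, by omega⟩
        rw [hk, pow_succ]
        have : (1 : ℝ) ≤ 2 ^ k := one_le_pow₀ (by norm_num)
        linarith
      have hu : 0 < 1 / p := by positivity
      have b1 : CrudeB (l - gs l r) ≤ CrudeB (l - (1 / p + gs l r)) :=
        CrudeB_anti (by linarith)
      have b2 : CrudeB (l - 1 / p) ≤ CrudeB (l - (1 / p + gs l r)) :=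
        CrudeB_anti (by linarith)
      have b3 := CrudeB_ge (l - (1 / p + gs l r))
      have b4 := CrudeB_ge (l - gs l r)
      set X := CrudeB (l - (1 / p + gs l r)) with hX
      set Y := CrudeB (l - gs l r) with hY
      set Z := CrudeB (l - 1 / p) with hZ
      set A : ℝ := 2 ^ (c.size + 1) with hA
      set R : ℝ := 2 ^ r.size with hR
      have e6 : (2 : ℝ) ^ (r.size + 1) = 2 * R := by rw [hR]; ring
      have e7 : (2 : ℝ) ^ (1 + c.size + r.size + 1) = 2 * (A * R) := by rw [hA, hR]; ring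
      rw [e6] at hr
      rw [e7]
      have c1 : A * (2 * Z - 1 / 2) ≤ A * (2 * X) :=
        mul_le_mul_of_nonneg_left (by linarith) (by linarith)
      have c2 : 2 * R * Y ≤ 2 * R * X := mul_le_mul_of_nonneg_left b1 (by linarith)
      have c3 : 2 * R * X + A * (2 * X) ≤ 2 * (A * R) * X := by
        have : 0 ≤ (A * R - R - A) * X := by
          apply mul_nonneg _ (by linarith)
          nlinarith
        nlinarith
      linarith

theorem Crude_le' {d : ℝ} (h : 49 / 100 ≤ d) (h1 : d ≤ 1) :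
    CrudeB d ≤ 9 * (91 / 100) ^ 2 := by
  rw [CrudeB_lt h1]
  apply mul_le_mul_of_nonneg_left _ (by norm_num)
  apply pow_le_pow_left₀ (by linarith)
  linarith

theorem Crude_pos {a b : ℝ} (h : a * b = 1) (ha : 0 < a) : 0 < b := by
  by_contra hb
  push Not at hb
  have := mul_nonpos_of_nonneg_of_nonpos ha.le hb
  linarith

/-- final algebra in the E-type case -/
theorem Crude_alg {a b c d x : ℝ} (ha : 0 < a) (hb : 0 < b) (hab : a * b = 1) (hc : 1 ≤ c)
    (hd0 : 0 < d) (hcd : c * d = 1) (hc2 : c ≤ 51 / 25) (hx : 0 ≤ x)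
    (s5 : (a + c) * (b + d) ≤ 30 * x * ((7 / 5 + a) * (7 / 5 + b))) : 1 ≤ 165 * x := by
  have t1 : (1 + a) * (1 + b) ≤ 51 / 25 * ((a + c) * (b + d)) := by
    have h1 : (1 + a) ≤ a + c := by linarith
    have h0 : 1 ≤ 51 / 25 * d := by
      calc 1 = c * d := hcd.symm
        _ ≤ 51 / 25 * d := mul_le_mul_of_nonneg_right hc2 hd0.le
    have h2 : 1 + b ≤ 51 / 25 * (b + d) := by linarith
    calc (1 + a) * (1 + b) ≤ (a + c) * (51 / 25 * (b + d)) :=
          mul_le_mul h1 h2 (by linarith) (by linarith)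
      _ = _ := by ring
  have t2 : (7 / 5 + a) * (7 / 5 + b) ≤ 37 / 25 * ((1 + a) * (1 + b)) := by
    have h1 : 4 ≤ (a + b) ^ 2 := by
      have : (a + b) ^ 2 = (a - b) ^ 2 + 4 * (a * b) := by ring
      rw [this, hab]
      have := sq_nonneg (a - b)
      linarith
    have : 2 ≤ a + b := by
      by_contra hcon
      push Not at hcon
      have : (a + b) ^ 2 < 2 ^ 2 := pow_lt_pow_left₀ hcon (by linarith) (by norm_num)
      linarith
    have e1 : (7 / 5 + a) * (7 / 5 + b) = 49 / 25 + 7 / 5 * (a + b) + a * b := by ring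
    have e2 : (1 + a) * (1 + b) = 1 + (a + b) + a * b := by ring
    rw [e1, e2, hab]
    linarith
  have t3 : 0 < (1 + a) * (1 + b) := by positivity
  have t4 : (1 + a) * (1 + b) ≤ (51 / 25 * (30 * (37 / 25)) * x) * ((1 + a) * (1 + b)) := by
    calc (1 + a) * (1 + b) ≤ 51 / 25 * ((a + c) * (b + d)) := t1
      _ ≤ 51 / 25 * (30 * x * ((7 / 5 + a) * (7 / 5 + b))) := by linarith
      _ ≤ 51 / 25 * (30 * x * (37 / 25 * ((1 + a) * (1 + b)))) := by
        have := mul_le_mul_of_nonneg_left t2 (by positivity : 0 ≤ 30 * x)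
        linarith
      _ = _ := by ring
  have t5 : 1 ≤ 51 / 25 * (30 * (37 / 25)) * x := by
    by_contra hcon
    push Not at hcon
    have := mul_lt_mul_of_pos_right hcon t3
    linarith
  linarith

/-- E-type with `φ_f(ν) ≥ 1` -/
theorem Crude_E {f h : Fo} {ν μ : ℝ} {N N' : ℕ} (hN : f.size + 1 = N) (hN' : h.size + 1 = N')
    (lt : μ < ν) (hν : ν ≤ 51 / 25) (ppf : PP ν f) (pph : PP ν h)
    (prod : (ν - gs ν f) * (ν - gs ν h) = 1) (p1 : PP μ f) (p2 : PP μ h)
    (n1 : μ - gs μ f < 0) (prod2 : (μ - gs μ f) * (μ - gs μ h) = 1)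
    (hc : 1 ≤ ν - gs ν f) :
    1 ≤ 165 * ((ν - μ) ^ 2 * 2 ^ (N + N')) := by
  have s1 := cs p1 lt.le
  have s2 := cs p2 lt.le
  have D1 := crude_pot hν ppf
  have D2 := crude_pot hν pph
  have D3 := crude_pot (by linarith : μ ≤ 51 / 25) p1
  have D4 := crude_pot (by linarith : μ ≤ 51 / 25) p2
  change _ ≤ _ * CrudeB _ at D1 D2 D3 D4
  rw [hN] at D1 D3
  rw [hN'] at D2 D4
  have g0 := gs_nonneg ppf
  obtain ⟨a, ha⟩ : ∃ a, a = gs μ f - μ := ⟨_, rfl⟩
  obtain ⟨c, hcc⟩ : ∃ c, c = ν - gs ν f := ⟨_, rfl⟩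
  obtain ⟨b, hb⟩ : ∃ b, b = gs μ h - μ := ⟨_, rfl⟩
  obtain ⟨d, hd⟩ : ∃ d, d = ν - gs ν h := ⟨_, rfl⟩
  have ha0 : 0 < a := by linarith
  have hab : a * b = 1 := by rw [ha, hb]; linarith
  have hcd : c * d = 1 := by rw [hcc, hd]; exact prod
  rw [← hcc] at hc
  have hc2 : c ≤ 51 / 25 := by linarith
  have hb0 : 0 < b := Crude_pos hab ha0
  have hd0 : 0 < d := Crude_pos hcd (by linarith)
  have hd1 : d ≤ 1 := by
    have := mul_le_mul_of_nonneg_right hc hd0.le
    linarith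
  have hd2 : 49 / 100 ≤ d := by
    have := mul_le_mul_of_nonneg_right hc2 hd0.le
    linarith
  have e1 : ν - μ + (gs μ f - gs ν f) = a + c := by rw [ha, hcc]; ring
  have e2 : ν - μ + (gs μ h - gs ν h) = b + d := by rw [hb, hd]; ring
  rw [e1] at s1
  rw [e2] at s2
  have f1 : CrudeB (ν - gs ν f) = 36 / 25 := by rw [← hcc]; exact CrudeB_one hc
  have f2 : CrudeB (ν - gs ν h) ≤ 9 * (91 / 100) ^ 2 := by
    rw [← hd]; exact Crude_le' hd2 hd1
  have f3 : CrudeB (μ - gs μ f) = 9 * (7 / 5 + a) ^ 2 := by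
    have : μ - gs μ f = -a := by rw [ha]; ring
    rw [this, CrudeB_lt (by linarith)]
    ring
  have f4 : CrudeB (μ - gs μ h) = 9 * (7 / 5 + b) ^ 2 := by
    have : μ - gs μ h = -b := by rw [hb]; ring
    rw [this, CrudeB_lt (by linarith)]
    ring
  rw [f1] at D1
  rw [f3] at D3
  rw [f4] at D4
  have D2' : 1 + ds ν h ≤ 2 ^ N' * (9 * (91 / 100) ^ 2) :=
    D2.trans (mul_le_mul_of_nonneg_left f2 (by positivity))
  have g1 := ds_nonneg ν f
  have g2 := ds_nonneg ν h
  have g3 := ds_nonneg μ f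
  have g4 := ds_nonneg μ h
  set g := ν - μ with hg
  set A : ℝ := 2 ^ N with hA
  set A' : ℝ := 2 ^ N' with hA'
  have hA0 : 0 < A := by positivity
  have hA'0 : 0 < A' := by positivity
  have hpow : (2 : ℝ) ^ (N + N') = A * A' := by rw [hA, hA', pow_add]
  rw [hpow]
  set x := g ^ 2 * (A * A') with hx
  have hx0 : 0 ≤ x := by positivity
  -- multiply everything
  have m1 : (1 + ds μ f) * (1 + ds ν f) ≤ (A * (9 * (7 / 5 + a) ^ 2)) * (A * (36 / 25)) :=
    mul_le_mul D3 D1 (by linarith) (by positivity)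
  have m2 : (1 + ds μ h) * (1 + ds ν h) ≤
      (A' * (9 * (7 / 5 + b) ^ 2)) * (A' * (9 * (91 / 100) ^ 2)) :=
    mul_le_mul D4 D2' (by linarith) (by positivity)
  have s1' : (a + c) ^ 2 ≤ g ^ 2 * ((A * (9 * (7 / 5 + a) ^ 2)) * (A * (36 / 25))) :=
    s1.trans (mul_le_mul_of_nonneg_left m1 (by positivity))
  have s2' : (b + d) ^ 2 ≤ g ^ 2 * ((A' * (9 * (7 / 5 + b) ^ 2)) * (A' * (9 * (91 / 100) ^ 2))) :=
    s2.trans (mul_le_mul_of_nonneg_left m2 (by positivity))
  have s3 : (a + c) ^ 2 * (b + d) ^ 2 ≤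
      (g ^ 2 * ((A * (9 * (7 / 5 + a) ^ 2)) * (A * (36 / 25)))) *
      (g ^ 2 * ((A' * (9 * (7 / 5 + b) ^ 2)) * (A' * (9 * (91 / 100) ^ 2)))) :=
    mul_le_mul s1' s2' (by positivity) (by positivity)
  have s4 : ((a + c) * (b + d)) ^ 2 ≤ (30 * x * ((7 / 5 + a) * (7 / 5 + b))) ^ 2 := by
    calc ((a + c) * (b + d)) ^ 2 = (a + c) ^ 2 * (b + d) ^ 2 := by ring
      _ ≤ _ := s3
      _ = (9 * 9 * (36 / 25) * (9 * (91 / 100) ^ 2)) * (x * ((7 / 5 + a) * (7 / 5 + b))) ^ 2 := by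
        rw [hx]; ring
      _ ≤ 30 ^ 2 * (x * ((7 / 5 + a) * (7 / 5 + b))) ^ 2 := by
        apply mul_le_mul_of_nonneg_right _ (by positivity)
        norm_num
      _ = _ := by ring
  have s5 : (a + c) * (b + d) ≤ 30 * x * ((7 / 5 + a) * (7 / 5 + b)) :=
    (pow_le_pow_iff_left₀ (by positivity) (by positivity) (by norm_num)).1 s4
  exact Crude_alg ha0 hb0 hab hc hd0 hcd hc2 hx0 s5

theorem Crude_V {f : Fo} {ν μ : ℝ} {N : ℕ} (hN : f.size + 1 = N) (lt : μ < ν)
    (hν : ν ≤ 51 / 25) (p1 : PP μ f) (n1 : μ - gs μ f = 0) (hpos : 0 < ν - gs ν f) :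
    ν - gs ν f ≤ (ν - μ) * (441 / 25 * 2 ^ N) := by
  have s1 := cs p1 lt.le
  have D3 := crude_pot (by linarith : μ ≤ 51 / 25) p1
  change _ ≤ _ * CrudeB _ at D3
  have f3 : CrudeB (μ - gs μ f) = 441 / 25 := by
    rw [n1, CrudeB_lt (by norm_num)]; norm_num
  rw [f3, hN] at D3
  have D1 : 1 + ds ν f ≤ 2 ^ N * (441 / 25) := by
    have := ds_anti p1 lt.le
    linarith
  have e1 : ν - μ + (gs μ f - gs ν f) = ν - gs ν f := by linarith
  rw [e1] at s1
  have g1 := ds_nonneg ν f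
  have g3 := ds_nonneg μ f
  have m1 : (1 + ds μ f) * (1 + ds ν f) ≤ (2 ^ N * (441 / 25)) * (2 ^ N * (441 / 25)) :=
    mul_le_mul D3 D1 (by linarith) (by positivity)
  have s2 : (ν - gs ν f) ^ 2 ≤ ((ν - μ) * (441 / 25 * 2 ^ N)) ^ 2 := by
    calc (ν - gs ν f) ^ 2 ≤ _ := s1
      _ ≤ (ν - μ) ^ 2 * ((2 ^ N * (441 / 25)) * (2 ^ N * (441 / 25))) :=
        mul_le_mul_of_nonneg_left m1 (by positivity)
      _ = _ := by ring
  have : 0 ≤ (ν - μ) * (441 / 25 * 2 ^ N) := mul_nonneg (by linarith) (by positivity)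
  exact (pow_le_pow_iff_left₀ hpos.le this (by norm_num)).1 s2

theorem crude_low {n : ℕ} {f h : Fo} {ν μ : ℝ} (hS : Sp n f h ν μ) (hν : ν ≤ 51 / 25) :
    1 ≤ 165 * (ν - μ) ^ 2 * 2 ^ n := by
  obtain ⟨size, lt, -, ppf, pph, posf, posh, prod, ev⟩ := hS
  rcases ev with ⟨p1, p2, n1, n2, prod2⟩ | ⟨p1, n1, c, hm, pc, nc⟩
  · rcases le_total 1 (ν - gs ν f) with h1 | h1
    · have := Crude_E (f := f) (h := h) rfl rfl lt hν ppf pph prod p1 p2 n1 prod2 h1
      have e : f.size + 1 + (h.size + 1) = n := by omega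
      rw [e] at this
      linarith
    · have h2 : 1 ≤ ν - gs ν h := by nlinarith
      have := Crude_E (f := h) (h := f) rfl rfl lt hν pph ppf (by rw [mul_comm]; exact prod)
        p2 p1 n2 (by rw [mul_comm]; exact prod2) h2
      have e : h.size + 1 + (f.size + 1) = n := by omega
      rw [e] at this
      linarith
  · obtain ⟨m1, m2, m3⟩ := Mem_PP hm pph
    have v1 := Crude_V (f := f) rfl lt hν p1 n1 posf
    have v2 := Crude_V (f := c) rfl lt hν pc nc m2
    have hsz := Mem_size hm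
    set w := ν - gs ν f with hw
    set z := ν - gs ν c with hz
    have hwz : 1 / w + 1 / z ≤ 51 / 25 := by
      have : 1 / w = ν - gs ν h := by
        rw [div_eq_iff posf.ne']; linarith
      rw [this]; linarith
    have hwz2 : 24 / 25 ≤ w * z := by
      have h1 : w + z ≤ 51 / 25 * (w * z) := by
        have h2 : 1 / w + 1 / z = (w + z) / (w * z) := by field_simp; ring
        rw [h2, div_le_iff₀ (by positivity)] at hwz
        exact hwz
      have h3 : 4 * (w * z) ≤ (w + z) ^ 2 := by nlinarith [sq_nonneg (w - z)]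
      have h4 : 0 < w * z := by positivity
      have h5 : (w + z) ^ 2 ≤ (51 / 25 * (w * z)) ^ 2 := pow_le_pow_left₀ (by positivity) h1 2
      have h6 : 4 * (w * z) ≤ (51 / 25) ^ 2 * (w * z) * (w * z) := by nlinarith
      have h7 : 4 ≤ (51 / 25) ^ 2 * (w * z) := by
        by_contra hcon
        push Not at hcon
        have := mul_lt_mul_of_pos_right hcon h4
        linarith
      nlinarith
    have hprod : w * z ≤ ((ν - μ) * (441 / 25 * 2 ^ (f.size + 1))) *
        ((ν - μ) * (441 / 25 * 2 ^ (c.size + 1))) :=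
      mul_le_mul v1 v2 m2.le (le_trans posf.le v1)
    have e2 : ((ν - μ) * (441 / 25 * 2 ^ (f.size + 1))) *
        ((ν - μ) * (441 / 25 * 2 ^ (c.size + 1))) =
        (441 / 25) ^ 2 * (ν - μ) ^ 2 * 2 ^ (f.size + 1 + (c.size + 1)) := by
      rw [pow_add]; ring
    have e3 : (2 : ℝ) ^ (f.size + 1 + (c.size + 1)) ≤ 2 ^ n / 2 := by
      have h1 : f.size + 1 + (c.size + 1) + 1 ≤ n := by omega
      have h2 : (2 : ℝ) ^ (f.size + 1 + (c.size + 1) + 1) ≤ 2 ^ n :=
        pow_le_pow_right₀ (by norm_num) h1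
      rw [pow_succ] at h2
      linarith
    have e4 : (441 / 25) ^ 2 * (ν - μ) ^ 2 * 2 ^ (f.size + 1 + (c.size + 1)) ≤
        (441 / 25) ^ 2 * (ν - μ) ^ 2 * (2 ^ n / 2) :=
      mul_le_mul_of_nonneg_left e3 (by positivity)
    have e5 : 0 ≤ (ν - μ) ^ 2 * 2 ^ n := by positivity
    nlinarith

end Pool.Agent.SG
end
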