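import Mathlib
import Pool.Agent.Lib.MP_8b9a2e_co.Mg.G001

section

set_option autoImplicit false

/-! Pareto dynamic programme over rooted forests (computational part). -/

namespace Pool.Agent.SG.DP

/-- stands for infinity -/
def INF : ℕ := 1099511627776

/-- a Pareto front: pairs (a,b); a = upper bound (scaled), b = lower bound (scaled) -/
abbrev Fr := List (ℕ × ℕ)

/-- drop the leading elements of `F` which are dominated by `(qa,qb)` -/
def prune (qa qb : ℕ) : Fr → Fr
  | [] => []
  | p :: F => bif Nat.ble p.1 qa && Nat.ble qb p.2 then prune qa qb F else p :: F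

/-- merge, `q` is the last element put out -/
def mg : ℕ → ℕ × ℕ → Fr → Fr → Fr
  | 0, q, F, G => q :: (F ++ G)
  | _ + 1, q, [], G => q :: prune q.1 q.2 G
  | _ + 1, q, F, [] => q :: prune q.1 q.2 F
  | n + 1, q, p :: F, r :: G =>
    bif Nat.ble r.1 p.1 then
      bif Nat.ble p.1 q.1 && Nat.ble q.2 p.2 then mg n q F (r :: G) else q :: mg n p F (r :: G)
    else
      bif Nat.ble r.1 q.1 && Nat.ble q.2 r.2 then mg n q (p :: F) G else q :: mg n r (p :: F) G

def merge (F G : Fr) : Fr :=
  match F, G with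
  | [], G => G
  | F, [] => F
  | p :: F, r :: G =>
    bif Nat.ble r.1 p.1 then mg 1000 p F (r :: G) else mg 1000 r (p :: F) G

/-- shifted front, entries with second coordinate `≥ x1` are dropped -/
def sh (x1 : ℕ) (t : ℕ × ℕ) : Fr → Fr
  | [] => []
  | p :: F =>
    bif Nat.ble x1 (p.2 + t.2) then sh x1 t F
    else (bif Nat.ble INF (p.1 + t.1) then INF else p.1 + t.1, p.2 + t.2) :: sh x1 t F

def ai (S2 x a : ℕ) : ℕ := bif Nat.blt a x then (S2 + (x - a) - 1) / (x - a) else INF
def bi (S2 x1 b : ℕ) : ℕ := S2 / (x1 - b)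

/-- single trees over the forests of a front (entries with result `≥ x1` dropped) -/
def inv (S2 x x1 : ℕ) : Fr → Fr
  | [] => []
  | p :: F =>
    bif Nat.ble x1 p.2 || Nat.ble x1 (bi S2 x1 p.2) then inv S2 x x1 F
    else (ai S2 x p.1, bi S2 x1 p.2) :: inv S2 x x1 F

/-- sum of the fronts of trees and the front of forests -/
def sumAll (x1 : ℕ) (acc : Fr) : Fr → Fr → Fr
  | [], _ => acc
  | t :: T, F => sumAll x1 (merge acc (sh x1 t F)) T F

def sums (x1 : ℕ) (acc : Fr) : List Fr → List Fr → Fr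
  | T :: Ts, F :: Fs => sums x1 (sumAll x1 acc T F) Ts Fs
  | _, _ => acc

/-- comet entries (k,a,b) -/
def invC (S2 x x1 : ℕ) : List (ℕ × ℕ × ℕ) → List (ℕ × ℕ × ℕ)
  | [] => []
  | p :: F =>
    bif Nat.ble x1 p.2.2 || Nat.ble x1 (bi S2 x1 p.2.2) then invC S2 x x1 F
    else (p.1, ai S2 x p.2.1, bi S2 x1 p.2.2) :: invC S2 x x1 F

def addC (F : Fr) : List (ℕ × ℕ × ℕ) → Fr
  | [] => F
  | p :: C => addC (merge F [p.2]) C

structure St where
  m : ℕ
  /-- newest first: all forests -/
  AF : List Fr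
  /-- newest first: forests that are not comets -/
  NF : List Fr
  /-- newest: forests which are not all leaves -/
  NL : Fr
  /-- oldest first: trees of sizes 2,3,... -/
  T : List Fr
  /-- newest first: comets -/
  CM : List (List (ℕ × ℕ × ℕ))

def leafP (S2 x x1 : ℕ) : ℕ × ℕ := (ai S2 x 0, bi S2 x1 0)

/-- the state after sizes 0 and 1 -/
def st1 (S2 x x1 : ℕ) : St :=
  { m := 1
    AF := [[leafP S2 x x1], [(0, 0)]]
    NF := [[], []]
    NL := []
    T := []
    CM := [[(0, leafP S2 x x1)], [(0, 0, 0)]] }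

def hd {α : Type} : List (List α) → List α
  | [] => []
  | a :: _ => a

def step (S2 x x1 : ℕ) (s : St) : St :=
  let m := s.m + 1
  let lf := leafP S2 x x1
  let g := sums x1 (sh x1 lf s.NL) s.T (s.AF.tail)
  let nf := merge g (inv S2 x x1 (hd s.NF))
  let cj := invC S2 x x1 (hd s.CM)
  let nl := addC nf cj
  let la := (bif Nat.ble INF (m * lf.1) then INF else m * lf.1, m * lf.2)
  let af := bif Nat.ble x1 la.2 then nl else merge nl [la]
  let cm := bif Nat.ble x1 la.2 then cj else (m, la) :: cj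
  { m := m
    AF := af :: s.AF
    NF := nf :: s.NF
    NL := nl
    T := s.T ++ [inv S2 x x1 (hd s.AF)]
    CM := cm :: s.CM }

def run (S2 x x1 : ℕ) : ℕ → St
  | 0 => st1 S2 x x1
  | n + 1 => step S2 x x1 (run S2 x x1 n)

/-- pair test: `true` means that the pair is harmless -/
def okp (S2 x x1 : ℕ) (p q : ℕ × ℕ) : Bool :=
  bif Nat.ble x p.1 && Nat.ble x q.1 then
    bif Nat.ble INF p.1 || Nat.ble INF q.1 || Nat.ble S2 ((p.1 - x) * (q.1 - x)) then
      Nat.blt ((x1 - p.2) * (x1 - q.2)) S2
    else true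
  else true

def okFF (S2 x x1 : ℕ) (F G : Fr) : Bool := F.all fun p => G.all fun q => okp S2 x x1 p q
def okFC (S2 x x1 : ℕ) (F : Fr) (C : List (ℕ × ℕ × ℕ)) : Bool :=
  F.all fun p => C.all fun q => okp S2 x x1 p q.2
def okCC (S2 x x1 : ℕ) (C D : List (ℕ × ℕ × ℕ)) : Bool :=
  C.all fun p => D.all fun q => Nat.beq p.1 q.1 || okp S2 x x1 p.2 q.2

/-- no element with first coordinate `≥ x` -/
def light (x : ℕ) (F : Fr) : Bool := F.all fun p => Nat.blt p.1 x

def all2 {α β : Type} (f : α → β → Bool) : List α → List β → Bool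
  | a :: l, b :: l' => f a b && all2 f l l'
  | _, _ => true

/-- certificate for a cell: scale `S`, left end `x`, right end `x1`, all trees on `n` vertices;
sizes up to `M` are computed (`M ≥ 1`), sizes `< n-2-M` are light. -/
def cell (n S x x1 M : ℕ) : Bool :=
  let S2 := S * S
  let s := run S2 x x1 (M - 1)
  let w := 2 * M + 3 - n  -- number of sizes from n-2-M to M
  let NF := s.NF.take w
  let CM := s.CM.take w
  Nat.ble x INF && Nat.ble 1 M && Nat.ble M (n - 2) && Nat.ble n (2 * M + 3) &&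
  (s.AF.drop w).all (light x) &&
  all2 (okFF S2 x x1) NF NF.reverse &&
  all2 (okFC S2 x x1) NF CM.reverse &&
  all2 (okCC S2 x x1) CM CM.reverse

end Pool.Agent.SG.DP
end

section

set_option autoImplicit false
set_option maxRecDepth 100000

namespace Pool.Agent.SG.Run

theorem c18_0 : DP.cell 18 4096 0 8156 16 = true := by decide +kernel
theorem c18_1 : DP.cell 18 4096 8125 8313 12 = true := by decide +kernel
theorem c18_2 : DP.cell 18 4096 8282 8482 10 = true := by decide +kernel
theorem c18_3 : DP.cell 18 4096 8451 8605 11 = true := by decide +kernel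
theorem c18_4 : DP.cell 18 4096 8574 8728 10 = true := by decide +kernel
theorem c18_5 : DP.cell 18 4096 8697 8898 10 = true := by decide +kernel
theorem c18_6 : DP.cell 18 4096 8867 9017 10 = true := by decide +kernel
theorem c18_7 : DP.cell 18 4096 8986 9128 9 = true := by decide +kernel
theorem c18_8 : DP.cell 18 4096 9097 9235 11 = true := by decide +kernel
theorem c18_9 : DP.cell 18 4096 9204 9452 10 = true := by decide +kernel
theorem c18_10 : DP.cell 18 4096 9421 9510 9 = true := by decide +kernel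
theorem c18_11 : DP.cell 18 4096 9479 9649 9 = true := by decide +kernel
theorem c18_12 : DP.cell 18 4096 9618 9771 9 = true := by decide +kernel
theorem c18_13 : DP.cell 18 4096 9740 9959 8 = true := by decide +kernel
theorem c18_14 : DP.cell 18 4096 9928 10262 10 = true := by decide +kernel
theorem c18_15 : DP.cell 18 4096 10231 10456 8 = true := by decide +kernel
theorem c18_16 : DP.cell 18 4096 10425 10999 9 = true := by decide +kernel
theorem c18_17 : DP.cell 18 4096 10968 12700 8 = true := by decide +kernel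
theorem c18_18 : DP.cell 18 4096 12669 73728 8 = true := by decide +kernel

end Pool.Agent.SG.Run
end

section

set_option autoImplicit false

namespace Pool.Agent.SG

open DP

namespace DPSound

/-! ### domination and merging of fronts -/

/-- `q` dominates `p` -/
def Dom (q p : ℕ × ℕ) : Prop := p.1 ≤ q.1 ∧ q.2 ≤ p.2

theorem Dom.refl (p : ℕ × ℕ) : Dom p p := ⟨le_rfl, le_rfl⟩

theorem Dom.trans {a b c : ℕ × ℕ} (h : Dom a b) (h' : Dom b c) : Dom a c :=
  ⟨h'.1.trans h.1, h.2.trans h'.2⟩

def DomL (L : Fr) (p : ℕ × ℕ) : Prop := ∃ q ∈ L, Dom q p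

theorem DomL.of_mem {L : Fr} {p : ℕ × ℕ} (h : p ∈ L) : DomL L p := ⟨p, h, Dom.refl p⟩

theorem DomL.trans {L : Fr} {p q : ℕ × ℕ} (h : DomL L q) (h' : Dom q p) : DomL L p := by
  obtain ⟨r, hr, hrq⟩ := h
  exact ⟨r, hr, hrq.trans h'⟩

theorem DomL.cons {L : Fr} {p q : ℕ × ℕ} (h : DomL L p) : DomL (q :: L) p := by
  obtain ⟨r, hr, hrq⟩ := h
  exact ⟨r, List.mem_cons_of_mem _ hr, hrq⟩

theorem prune_dom (qa qb : ℕ) (F : Fr) (p : ℕ × ℕ) (hp : p ∈ F) :
    Dom (qa, qb) p ∨ p ∈ prune qa qb F := by
  induction F with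
  | nil => simp at hp
  | cons a F ih =>
    unfold prune
    by_cases hc : (Nat.ble a.1 qa && Nat.ble qb a.2) = true
    · rw [hc, cond_true]
      rcases List.mem_cons.1 hp with h | h
      · left
        subst h
        rw [Bool.and_eq_true, Nat.ble_eq, Nat.ble_eq] at hc
        exact hc
      · exact ih h
    · rw [Bool.not_eq_true] at hc
      rw [hc, cond_false]
      right
      exact hp

theorem mg_dom (n : ℕ) : ∀ (q : ℕ × ℕ) (F G : Fr) (p : ℕ × ℕ), (p = q ∨ p ∈ F ∨ p ∈ G) →
    DomL (mg n q F G) p := by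
  induction n with
  | zero =>
    intro q F G p hp
    unfold mg
    refine DomL.of_mem ?_
    simp only [List.mem_cons, List.mem_append]
    exact hp
  | succ n ih =>
    intro q F G p hp
    rcases F with _ | ⟨a, F⟩
    · unfold mg
      rcases hp with h | h | h
      · subst h
        exact DomL.of_mem (List.mem_cons_self ..)
      · simp at h
      · rcases prune_dom q.1 q.2 G p h with h' | h'
        · exact ⟨q, List.mem_cons_self .., h'⟩
        · exact DomL.of_mem (List.mem_cons_of_mem _ h')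
    · rcases G with _ | ⟨b, G⟩
      · unfold mg
        rcases hp with h | h | h
        · subst h
          exact DomL.of_mem (List.mem_cons_self ..)
        · rcases prune_dom q.1 q.2 (a :: F) p h with h' | h'
          · exact ⟨q, List.mem_cons_self .., h'⟩
          · exact DomL.of_mem (List.mem_cons_of_mem _ h')
        · simp at h
      · unfold mg
        by_cases hc : Nat.ble b.1 a.1 = true
        · rw [hc, cond_true]
          by_cases hd : (Nat.ble a.1 q.1 && Nat.ble q.2 a.2) = true
          · rw [hd, cond_true]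
            rw [Bool.and_eq_true, Nat.ble_eq, Nat.ble_eq] at hd
            rcases hp with h | h | h
            · exact ih _ _ _ _ (Or.inl h)
            · rcases List.mem_cons.1 h with h | h
              · subst h
                exact (ih q F (b :: G) q (Or.inl rfl)).trans hd
              · exact ih _ _ _ _ (Or.inr (Or.inl h))
            · exact ih _ _ _ _ (Or.inr (Or.inr h))
          · rw [Bool.not_eq_true] at hd
            rw [hd, cond_false]
            rcases hp with h | h | h
            · subst h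
              exact DomL.of_mem (List.mem_cons_self ..)
            · rcases List.mem_cons.1 h with h | h
              · exact (ih _ _ _ _ (Or.inl h)).cons
              · exact (ih _ _ _ _ (Or.inr (Or.inl h))).cons
            · exact (ih _ _ _ _ (Or.inr (Or.inr h))).cons
        · rw [Bool.not_eq_true] at hc
          rw [hc, cond_false]
          by_cases hd : (Nat.ble b.1 q.1 && Nat.ble q.2 b.2) = true
          · rw [hd, cond_true]
            rw [Bool.and_eq_true, Nat.ble_eq, Nat.ble_eq] at hd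
            rcases hp with h | h | h
            · exact ih _ _ _ _ (Or.inl h)
            · exact ih _ _ _ _ (Or.inr (Or.inl h))
            · rcases List.mem_cons.1 h with h | h
              · subst h
                exact (ih q (a :: F) G q (Or.inl rfl)).trans hd
              · exact ih _ _ _ _ (Or.inr (Or.inr h))
          · rw [Bool.not_eq_true] at hd
            rw [hd, cond_false]
            rcases hp with h | h | h
            · subst h
              exact DomL.of_mem (List.mem_cons_self ..)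
            · exact (ih _ _ _ _ (Or.inr (Or.inl h))).cons
            · rcases List.mem_cons.1 h with h | h
              · exact (ih _ _ _ _ (Or.inl h)).cons
              · exact (ih _ _ _ _ (Or.inr (Or.inr h))).cons

theorem merge_dom (F G : Fr) (p : ℕ × ℕ) (hp : p ∈ F ∨ p ∈ G) : DomL (merge F G) p := by
  rcases F with _ | ⟨a, F⟩
  · unfold merge
    rcases hp with h | h
    · simp at h
    · exact DomL.of_mem h
  · rcases G with _ | ⟨b, G⟩
    · unfold merge
      rcases hp with h | h
      · exact DomL.of_mem h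
      · simp at h
    · unfold merge
      by_cases hc : Nat.ble b.1 a.1 = true
      · simp only [hc, cond_true]
        refine mg_dom 1000 a F (b :: G) p ?_
        rcases hp with h | h
        · rcases List.mem_cons.1 h with h | h
          · exact Or.inl h
          · exact Or.inr (Or.inl h)
        · exact Or.inr (Or.inr h)
      · rw [Bool.not_eq_true] at hc
        simp only [hc, cond_false]
        refine mg_dom 1000 b (a :: F) G p ?_
        rcases hp with h | h
        · exact Or.inr (Or.inl h)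
        · rcases List.mem_cons.1 h with h | h
          · exact Or.inl h
          · exact Or.inr (Or.inr h)

/-! ### covering -/

structure Hyp (S x x1 : ℕ) (ν μ : ℝ) : Prop where
  hS : 0 < S
  hI : x ≤ INF
  hx : (x : ℝ) ≤ S * μ
  hx1 : S * ν ≤ (x1 : ℝ)

def Good (ν : ℝ) (f : Fo) : Prop := PP ν f ∧ gs ν f < ν

theorem Good.child {ν : ℝ} {c r : Fo} (h : Good ν (.cons c r)) : Good ν c := by
  obtain ⟨⟨h1, h2, h3⟩, -⟩ := h
  exact ⟨h1, by linarith⟩

theorem Good.tree {ν : ℝ} {c r : Fo} (h : Good ν (.cons c r)) : Good ν (.cons c .nil) := by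
  obtain ⟨⟨h1, h2, h3⟩, h4⟩ := h
  refine ⟨⟨h1, h2, trivial⟩, ?_⟩
  have := gs_nonneg h3
  simp only [gs] at h4 ⊢
  linarith

theorem Good.rest {ν : ℝ} {c r : Fo} (h : Good ν (.cons c r)) : Good ν r := by
  obtain ⟨⟨h1, h2, h3⟩, h4⟩ := h
  refine ⟨h3, ?_⟩
  have : 0 < 1 / (ν - gs ν c) := by positivity
  simp only [gs] at h4
  linarith

/-- the pair `p` covers the forest `f` -/
def Cv (S : ℕ) (ν μ : ℝ) (p : ℕ × ℕ) (f : Fo) : Prop :=
  (INF ≤ p.1 ∨ (PP μ f ∧ S * gs μ f ≤ p.1)) ∧ (p.2 : ℝ) ≤ S * gs ν f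

def CF (S : ℕ) (ν μ : ℝ) (F : Fr) (f : Fo) : Prop := ∃ p ∈ F, Cv S ν μ p f

theorem Cv.dom {S : ℕ} {ν μ : ℝ} {p q : ℕ × ℕ} {f : Fo} (h : Cv S ν μ p f) (hd : Dom q p) :
    Cv S ν μ q f := by
  obtain ⟨h1, h2⟩ := h
  refine ⟨?_, ?_⟩
  · rcases h1 with h1 | ⟨h1, h3⟩
    · left
      exact h1.trans hd.1
    · right
      refine ⟨h1, h3.trans ?_⟩
      exact_mod_cast hd.1
  · refine le_trans ?_ h2
    exact_mod_cast hd.2

theorem CF.merge_left {S : ℕ} {ν μ : ℝ} {F G : Fr} {f : Fo} (h : CF S ν μ F f) :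
    CF S ν μ (merge F G) f := by
  obtain ⟨p, hp, hc⟩ := h
  obtain ⟨q, hq, hd⟩ := merge_dom F G p (Or.inl hp)
  exact ⟨q, hq, hc.dom hd⟩

theorem CF.merge_right {S : ℕ} {ν μ : ℝ} {F G : Fr} {f : Fo} (h : CF S ν μ G f) :
    CF S ν μ (merge F G) f := by
  obtain ⟨p, hp, hc⟩ := h
  obtain ⟨q, hq, hd⟩ := merge_dom F G p (Or.inr hp)
  exact ⟨q, hq, hc.dom hd⟩

theorem Cv.lt {S x x1 : ℕ} {ν μ : ℝ} (H : Hyp S x x1 ν μ) {p : ℕ × ℕ} {f : Fo}
    (h : Cv S ν μ p f) (hg : Good ν f) : p.2 < x1 := by
  have hS : (0:ℝ) < S := by exact_mod_cast H.hS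
  have h1 : (p.2 : ℝ) < x1 := by
    have h2 : (S : ℝ) * gs ν f < S * ν := mul_lt_mul_of_pos_left hg.2 hS
    have := H.hx1
    have := h.2
    linarith
  exact_mod_cast h1

theorem Cv.sum {S : ℕ} {ν μ : ℝ} {t p : ℕ × ℕ} {c r : Fo}
    (ht : Cv S ν μ t (.cons c .nil)) (hp : Cv S ν μ p r) :
    Cv S ν μ (bif Nat.ble INF (p.1 + t.1) then INF else p.1 + t.1, p.2 + t.2) (.cons c r) := by
  obtain ⟨t1, t2⟩ := ht
  obtain ⟨p1, p2⟩ := hp
  have e : ∀ l : ℝ, gs l (.cons c r) = gs l (.cons c .nil) + gs l r := by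
    intro l
    simp [gs]
  refine ⟨?_, ?_⟩
  · by_cases hc : Nat.ble INF (p.1 + t.1) = true
    · rw [hc, cond_true]
      left
      exact le_rfl
    · rw [Bool.not_eq_true] at hc
      rw [hc, cond_false]
      have hc' : p.1 + t.1 < INF := by
        by_contra hcon
        push Not at hcon
        rw [← Nat.ble_eq] at hcon
        rw [hcon] at hc
        exact absurd hc (by decide)
      rcases t1 with t1 | ⟨t1, t3⟩
      · omega
      · rcases p1 with p1 | ⟨p1, p3⟩
        · omega
        · right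
          refine ⟨⟨t1.1, t1.2.1, p1⟩, ?_⟩
          rw [e, mul_add]
          push_cast
          linarith
  · rw [e, mul_add]
    push_cast
    linarith

theorem CF.sh {S x x1 : ℕ} {ν μ : ℝ} (H : Hyp S x x1 ν μ) {t : ℕ × ℕ} {c r : Fo} {F : Fr}
    (ht : Cv S ν μ t (.cons c .nil)) (hF : CF S ν μ F r) (hg : Good ν (.cons c r)) :
    CF S ν μ (sh x1 t F) (.cons c r) := by
  obtain ⟨p, hp, hc⟩ := hF
  have hs := ht.sum hc
  have hlt := hs.lt H hg
  refine ⟨_, ?_, hs⟩
  clear hs hc
  induction F with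
  | nil => simp at hp
  | cons a F ih =>
    unfold DP.sh
    rcases List.mem_cons.1 hp with h | h
    · subst h
      have : Nat.ble x1 (p.2 + t.2) = false := by
        rw [← Bool.not_eq_true, Nat.ble_eq]
        simp only at hlt
        omega
      rw [this, cond_false]
      exact List.mem_cons_self ..
    · by_cases hc : Nat.ble x1 (a.2 + t.2) = true
      · rw [hc, cond_true]
        exact ih h
      · rw [Bool.not_eq_true] at hc
        rw [hc, cond_false]
        exact List.mem_cons_of_mem _ (ih h)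

theorem Cv.tree {S x x1 : ℕ} {ν μ : ℝ} (H : Hyp S x x1 ν μ) {p : ℕ × ℕ} {f : Fo}
    (h : Cv S ν μ p f) (hg : Good ν (.cons f .nil)) :
    Cv S ν μ (ai (S * S) x p.1, bi (S * S) x1 p.2) (.cons f .nil) := by
  have hlt := h.lt H hg.child
  obtain ⟨⟨hpp, hpos, -⟩, -⟩ := hg
  have hS : (0:ℝ) < S := by exact_mod_cast H.hS
  obtain ⟨h1, h2⟩ := h
  refine ⟨?_, ?_⟩
  · unfold ai
    by_cases hc : Nat.blt p.1 x = true
    · rw [hc, cond_true]
      rw [Nat.blt_eq] at hc
      rcases h1 with h1 | ⟨h1, h3⟩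
      · have := H.hI
        omega
      · right
        have hxp : (0:ℝ) < ((x - p.1 : ℕ) : ℝ) := by
          exact_mod_cast Nat.sub_pos_of_lt hc
        have hxe : ((x - p.1 : ℕ) : ℝ) = (x:ℝ) - p.1 := by
          rw [Nat.cast_sub hc.le]
        have hle : ((x - p.1 : ℕ) : ℝ) ≤ S * (μ - gs μ f) := by
          rw [hxe, mul_sub]
          have := H.hx
          linarith
        have hpos' : 0 < μ - gs μ f := by
          by_contra hcon
          push Not at hcon
          have : (S:ℝ) * (μ - gs μ f) ≤ 0 := mul_nonpos_of_nonneg_of_nonpos hS.le hcon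
          linarith
        refine ⟨⟨h1, hpos', trivial⟩, ?_⟩
        have e : (S:ℝ) * gs μ (.cons f .nil) = (S * S) / (S * (μ - gs μ f)) := by
          simp only [gs]
          field_simp
          simp
        rw [e]
        have h4 : ((S:ℝ) * S) / (S * (μ - gs μ f)) ≤ (S * S) / ((x - p.1 : ℕ) : ℝ) := by
          apply div_le_div_of_nonneg_left _ hxp hle
          positivity
        refine h4.trans ?_
        rw [div_le_iff₀ hxp]
        have hn : 0 < x - p.1 := Nat.sub_pos_of_lt hc
        have h5 : S * S ≤ (S * S + (x - p.1) - 1) / (x - p.1) * (x - p.1) := by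
          have h6 := Nat.div_add_mod (S * S + (x - p.1) - 1) (x - p.1)
          have h7 := Nat.mod_lt (S * S + (x - p.1) - 1) hn
          rw [mul_comm] at h6
          omega
        exact_mod_cast h5
    · rw [Bool.not_eq_true] at hc
      rw [hc, cond_false]
      left
      exact le_rfl
  · unfold bi
    have hxp : (0:ℝ) < ((x1 - p.2 : ℕ) : ℝ) := by
      exact_mod_cast Nat.sub_pos_of_lt hlt
    have hxe : ((x1 - p.2 : ℕ) : ℝ) = (x1:ℝ) - p.2 := by
      rw [Nat.cast_sub hlt.le]
    have e : (S:ℝ) * gs ν (.cons f .nil) = (S * S) / (S * (ν - gs ν f)) := by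
      simp only [gs]
      field_simp
      simp
    rw [e]
    have h3 : ((S * S / (x1 - p.2) : ℕ) : ℝ) ≤ ((S * S : ℕ) : ℝ) / ((x1 - p.2 : ℕ) : ℝ) :=
      Nat.cast_div_le
    refine h3.trans ?_
    push_cast [Nat.cast_mul]
    apply div_le_div_of_nonneg_left
    · positivity
    · positivity
    · rw [hxe, mul_sub]
      have := H.hx1
      linarith

theorem CF.inv {S x x1 : ℕ} {ν μ : ℝ} (H : Hyp S x x1 ν μ) {F : Fr} {f : Fo}
    (h : CF S ν μ F f) (hg : Good ν (.cons f .nil)) :
    CF S ν μ (inv (S * S) x x1 F) (.cons f .nil) := by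
  obtain ⟨p, hp, hc⟩ := h
  have hs := hc.tree H hg
  have hlt := hs.lt H hg
  have hlt' := hc.lt H hg.child
  refine ⟨_, ?_, hs⟩
  clear hs hc
  induction F with
  | nil => simp at hp
  | cons a F ih =>
    unfold DP.inv
    rcases List.mem_cons.1 hp with h | h
    · subst h
      have : (Nat.ble x1 p.2 || Nat.ble x1 (bi (S * S) x1 p.2)) = false := by
        rw [← Bool.not_eq_true, Bool.or_eq_true, Nat.ble_eq, Nat.ble_eq]
        simp only at hlt
        omega
      rw [this, cond_false]
      exact List.mem_cons_self ..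
    · by_cases hc : (Nat.ble x1 a.2 || Nat.ble x1 (bi (S * S) x1 a.2)) = true
      · rw [hc, cond_true]
        exact ih h
      · rw [Bool.not_eq_true] at hc
        rw [hc, cond_false]
        exact List.mem_cons_of_mem _ (ih h)

/-- comet entries: `C` has an entry for `comet k j` -/
def CC (S : ℕ) (ν μ : ℝ) (C : List (ℕ × ℕ × ℕ)) (k : ℕ) (f : Fo) : Prop :=
  ∃ p ∈ C, p.1 = k ∧ Cv S ν μ p.2 f

theorem CC.inv {S x x1 : ℕ} {ν μ : ℝ} (H : Hyp S x x1 ν μ) {F : List (ℕ × ℕ × ℕ)} {k : ℕ}
    {f : Fo} (h : CC S ν μ F k f) (hg : Good ν (.cons f .nil)) :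
    CC S ν μ (invC (S * S) x x1 F) k (.cons f .nil) := by
  obtain ⟨p, hp, hk, hc⟩ := h
  have hs := hc.tree H hg
  have hlt := hs.lt H hg
  have hlt' := hc.lt H hg.child
  refine ⟨(p.1, ai (S * S) x p.2.1, bi (S * S) x1 p.2.2), ?_, hk, hs⟩
  clear hs hc
  induction F with
  | nil => simp at hp
  | cons a F ih =>
    unfold DP.invC
    rcases List.mem_cons.1 hp with h | h
    · subst h
      have : (Nat.ble x1 p.2.2 || Nat.ble x1 (bi (S * S) x1 p.2.2)) = false := by
        rw [← Bool.not_eq_true, Bool.or_eq_true, Nat.ble_eq, Nat.ble_eq]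
        simp only at hlt
        omega
      rw [this, cond_false]
      exact List.mem_cons_self ..
    · by_cases hc : (Nat.ble x1 a.2.2 || Nat.ble x1 (bi (S * S) x1 a.2.2)) = true
      · rw [hc, cond_true]
        exact ih h
      · rw [Bool.not_eq_true] at hc
        rw [hc, cond_false]
        exact List.mem_cons_of_mem _ (ih h)

theorem CF.addC_left {S : ℕ} {ν μ : ℝ} {C : List (ℕ × ℕ × ℕ)} {f : Fo} :
    ∀ {F : Fr}, CF S ν μ F f → CF S ν μ (addC F C) f := by
  induction C with
  | nil => exact fun h => h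
  | cons a C ih =>
    intro F h
    unfold addC
    exact ih h.merge_left

theorem CF.addC_right {S : ℕ} {ν μ : ℝ} {C : List (ℕ × ℕ × ℕ)} {f : Fo} {k : ℕ} :
    ∀ {F : Fr}, CC S ν μ C k f → CF S ν μ (addC F C) f := by
  induction C with
  | nil =>
    rintro F ⟨p, hp, -⟩
    simp at hp
  | cons a C ih =>
    rintro F ⟨p, hp, hk, hc⟩
    unfold addC
    rcases List.mem_cons.1 hp with h | h
    · subst h
      apply CF.addC_left
      apply CF.merge_right
      exact ⟨p.2, List.mem_singleton.2 rfl, hc⟩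
    · exact ih ⟨p, h, hk, hc⟩

theorem CF.sumAll_acc {S x1 : ℕ} {ν μ : ℝ} {T F : Fr} {f : Fo} :
    ∀ {acc : Fr}, CF S ν μ acc f → CF S ν μ (sumAll x1 acc T F) f := by
  induction T with
  | nil => exact fun h => h
  | cons t T ih =>
    intro acc h
    unfold sumAll
    exact ih h.merge_left

theorem CF.sumAll {S x x1 : ℕ} {ν μ : ℝ} (H : Hyp S x x1 ν μ) {T F : Fr} {c r : Fo}
    (hF : CF S ν μ F r) (hg : Good ν (.cons c r)) :
    ∀ {acc : Fr}, CF S ν μ T (.cons c .nil) → CF S ν μ (sumAll x1 acc T F) (.cons c r) := by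
  induction T with
  | nil =>
    rintro acc ⟨p, hp, -⟩
    simp at hp
  | cons t T ih =>
    rintro acc ⟨p, hp, hc⟩
    unfold DP.sumAll
    rcases List.mem_cons.1 hp with h | h
    · subst h
      exact CF.sumAll_acc (CF.merge_right (CF.sh H hc hF hg))
    · exact ih ⟨p, h, hc⟩

theorem CF.sums_acc {S x1 : ℕ} {ν μ : ℝ} {f : Fo} :
    ∀ {Ts Fs : List Fr} {acc : Fr}, CF S ν μ acc f → CF S ν μ (sums x1 acc Ts Fs) f := by
  intro Ts
  induction Ts with
  | nil =>
    intro Fs acc h
    unfold sums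
    exact h
  | cons T Ts ih =>
    intro Fs acc h
    rcases Fs with _ | ⟨F, Fs⟩
    · unfold sums
      exact h
    · unfold sums
      exact ih h.sumAll_acc

theorem CF.sums {S x x1 : ℕ} {ν μ : ℝ} (H : Hyp S x x1 ν μ) {c r : Fo}
    (hg : Good ν (.cons c r)) :
    ∀ {Ts Fs : List Fr} {acc : Fr} {i : ℕ} {T F : Fr}, Ts[i]? = some T → Fs[i]? = some F →
      CF S ν μ T (.cons c .nil) → CF S ν μ F r → CF S ν μ (sums x1 acc Ts Fs) (.cons c r) := by
  intro Ts
  induction Ts with
  | nil =>
    intro Fs acc i T F hT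
    simp at hT
  | cons T Ts ih =>
    intro Fs acc i T' F' hT hF h1 h2
    rcases Fs with _ | ⟨F, Fs⟩
    · simp at hF
    · unfold DP.sums
      rcases i with _ | i
      · simp only [List.getElem?_cons_zero, Option.some.injEq] at hT hF
        subst hT hF
        exact CF.sums_acc (CF.sumAll H h2 hg h1)
      · simp only [List.getElem?_cons_succ] at hT hF
        exact ih hT hF h1 h2

/-! ### the invariant -/

def IsCo (f : Fo) : Prop := ∃ k j : ℕ, f = comet k j

theorem IsCo.exists_ne {f : Fo} (h : IsCo f) : ∃ k j : ℕ, k ≠ 1 ∧ f = comet k j := by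
  obtain ⟨k, j, rfl⟩ := h
  by_cases hk : k = 1
  · subst hk
    exact ⟨0, j + 1, by decide, comet_one j⟩
  · exact ⟨k, j, hk, rfl⟩

theorem Cv.nil {S : ℕ} {ν μ : ℝ} : Cv S ν μ (0, 0) .nil := by
  refine ⟨Or.inr ⟨trivial, ?_⟩, ?_⟩ <;> simp [gs]

theorem Cv.leaf {S x x1 : ℕ} {ν μ : ℝ} (H : Hyp S x x1 ν μ)
    (hg : Good ν (.cons .nil .nil)) :
    Cv S ν μ (leafP (S * S) x x1) (.cons .nil .nil) :=
  Cv.nil.tree H hg

theorem leaves_good_leaf {ν : ℝ} {k : ℕ} (hg : Good ν (leaves (k + 1))) :
    Good ν (.cons .nil .nil) := hg.tree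

theorem Cv.lvs {S x x1 : ℕ} {ν μ : ℝ} (H : Hyp S x x1 ν μ) {k : ℕ}
    (hg : Good ν (leaves (k + 1))) :
    Cv S ν μ (bif Nat.ble INF ((k + 1) * (leafP (S * S) x x1).1) then INF
      else (k + 1) * (leafP (S * S) x x1).1, (k + 1) * (leafP (S * S) x x1).2)
      (leaves (k + 1)) := by
  have hl := Cv.leaf H (leaves_good_leaf hg)
  set lf := leafP (S * S) x x1 with hlf
  obtain ⟨h1, h2⟩ := hl
  have e : ∀ l : ℝ, gs l (leaves (k + 1)) = ((k + 1 : ℕ) : ℝ) * gs l (.cons .nil .nil) := by
    intro l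
    rw [leaves_gs]
    simp [gs]
    ring
  refine ⟨?_, ?_⟩
  · by_cases hc : Nat.ble INF ((k + 1) * lf.1) = true
    · rw [hc, cond_true]
      left
      exact le_rfl
    · rw [Bool.not_eq_true] at hc
      rw [hc, cond_false]
      have hc' : (k + 1) * lf.1 < INF := by
        by_contra hcon
        push Not at hcon
        rw [← Nat.ble_eq] at hcon
        rw [hcon] at hc
        exact absurd hc (by decide)
      rcases h1 with h1 | ⟨h1, h3⟩
      · exfalso
        have : lf.1 ≤ (k + 1) * lf.1 := Nat.le_mul_of_pos_left _ (Nat.succ_pos k)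
        omega
      · right
        have hμ : 0 < μ := by
          have := h1.2.1
          simpa [gs] using this
        refine ⟨leaves_PP hμ _, ?_⟩
        rw [e, Nat.cast_mul]
        have hk : (0:ℝ) ≤ ((k + 1 : ℕ) : ℝ) := Nat.cast_nonneg _
        nlinarith [mul_le_mul_of_nonneg_left h3 hk]
  · rw [e]
    simp only
    rw [Nat.cast_mul]
    have hk : (0:ℝ) ≤ ((k + 1 : ℕ) : ℝ) := Nat.cast_nonneg _
    nlinarith [mul_le_mul_of_nonneg_left h2 hk]

structure Inv (S : ℕ) (ν μ : ℝ) (s : St) (M : ℕ) : Prop where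
  m_eq : s.m = M
  lenAF : s.AF.length = M + 1
  af : ∀ (i : ℕ) (F : Fr), s.AF[i]? = some F → ∀ f : Fo, f.size + i = M → Good ν f →
    CF S ν μ F f
  lenNF : s.NF.length = M + 1
  nf : ∀ (i : ℕ) (F : Fr), s.NF[i]? = some F → ∀ f : Fo, f.size + i = M → Good ν f →
    ¬ IsCo f → CF S ν μ F f
  nl : ∀ f : Fo, f.size = M → Good ν f → (¬ ∃ k, f = SG.leaves k) → CF S ν μ s.NL f
  lenT : s.T.length + 1 = M
  t : ∀ (i : ℕ) (F : Fr), s.T[i]? = some F → ∀ c : Fo, c.size = i + 1 →
    Good ν (.cons c .nil) → CF S ν μ F (.cons c .nil)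
  lenCM : s.CM.length = M + 1
  cm : ∀ (i : ℕ) (C : List (ℕ × ℕ × ℕ)), s.CM[i]? = some C → ∀ k j : ℕ, k ≠ 1 →
    k + j + i = M → Good ν (comet k j) → CC S ν μ C k (comet k j)

theorem size_eq_zero {f : Fo} (h : f.size = 0) : f = .nil := by
  rcases f with _ | ⟨c, r⟩
  · rfl
  · simp only [Fo.size] at h
    omega

theorem size_eq_one {f : Fo} (h : f.size = 1) : f = .cons .nil .nil := by
  rcases f with _ | ⟨c, r⟩
  · simp only [Fo.size] at h
    omega
  · simp only [Fo.size] at h
    rw [size_eq_zero (f := c) (by omega), size_eq_zero (f := r) (by omega)]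

theorem size_pos {f : Fo} (h : f ≠ .nil) : 1 ≤ f.size := by
  rcases f with _ | ⟨c, r⟩
  · exact absurd rfl h
  · simp only [Fo.size]
    omega

theorem inv_st1 {S x x1 : ℕ} {ν μ : ℝ} (H : Hyp S x x1 ν μ) :
    Inv S ν μ (st1 (S * S) x x1) 1 := by
  refine ⟨rfl, rfl, ?_, rfl, ?_, ?_, rfl, ?_, rfl, ?_⟩
  · intro i F hF f hf hg
    rcases i with _ | _ | i
    · simp only [st1, List.getElem?_cons_zero, Option.some.injEq] at hF
      subst hF
      have := size_eq_one (f := f) (by omega)
      subst this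
      exact ⟨_, List.mem_singleton.2 rfl, Cv.leaf H hg⟩
    · simp only [st1, List.getElem?_cons_succ, List.getElem?_cons_zero,
        Option.some.injEq] at hF
      subst hF
      have := size_eq_zero (f := f) (by omega)
      subst this
      exact ⟨_, List.mem_singleton.2 rfl, Cv.nil⟩
    · omega
  · intro i F hF f hf hg hc
    exfalso
    rcases i with _ | _ | i
    · have := size_eq_one (f := f) (by omega)
      subst this
      exact hc ⟨0, 1, rfl⟩
    · have := size_eq_zero (f := f) (by omega)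
      subst this
      exact hc ⟨0, 0, rfl⟩
    · omega
  · intro f hf hg hc
    exfalso
    have := size_eq_one (f := f) (by omega)
    subst this
    exact hc ⟨1, rfl⟩
  · intro i F hF
    simp [st1] at hF
  · intro i C hC k j hk hkj hg
    rcases i with _ | _ | i
    · simp only [st1, List.getElem?_cons_zero, Option.some.injEq] at hC
      subst hC
      have h1 : k = 0 := by omega
      have h2 : j = 1 := by omega
      subst h1 h2
      exact ⟨_, List.mem_singleton.2 rfl, rfl, Cv.leaf H hg⟩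
    · simp only [st1, List.getElem?_cons_succ, List.getElem?_cons_zero,
        Option.some.injEq] at hC
      subst hC
      have h1 : k = 0 := by omega
      have h2 : j = 0 := by omega
      subst h1 h2
      exact ⟨_, List.mem_singleton.2 rfl, rfl, Cv.nil⟩
    · omega

theorem hd_of_get {α : Type} {L : List (List α)} {n : ℕ} (h : L.length = n + 1) :
    L[0]? = some (hd L) := by
  rcases L with _ | ⟨a, L⟩
  · simp at h
  · rfl

theorem inv_step {S x x1 : ℕ} {ν μ : ℝ} (H : Hyp S x x1 ν μ) {s : St} {M : ℕ}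
    (hM : 1 ≤ M) (I : Inv S ν μ s M) : Inv S ν μ (step (S * S) x x1 s) (M + 1) := by
  have hAF0 := hd_of_get I.lenAF
  have hNF0 := hd_of_get I.lenNF
  have hCM0 := hd_of_get I.lenCM
  set lf := leafP (S * S) x x1 with hlf
  set g := sums x1 (sh x1 lf s.NL) s.T (s.AF.tail) with hgdef
  set nf := merge g (inv (S * S) x x1 (hd s.NF)) with hnf
  set cj := invC (S * S) x x1 (hd s.CM) with hcj
  set nl := addC nf cj with hnl
  set la : ℕ × ℕ := (bif Nat.ble INF ((M + 1) * lf.1) then INF else (M + 1) * lf.1, (M + 1) * lf.2)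
    with hla
  set af := bif Nat.ble x1 la.2 then nl else merge nl [la] with haf
  set cm := bif Nat.ble x1 la.2 then cj else (M + 1, la) :: cj with hcm
  have hstep : step (S * S) x x1 s = St.mk (M + 1) (af :: s.AF) (nf :: s.NF) nl
      (s.T ++ [inv (S * S) x x1 (hd s.AF)]) (cm :: s.CM) := by
    unfold step
    simp only [I.m_eq]
    rfl
  -- non-comets of size M + 1
  have hnfc : ∀ f : Fo, f.size = M + 1 → Good ν f → ¬ IsCo f → CF S ν μ nf f := by
    intro f hf hg hc
    rcases f with _ | ⟨c, r⟩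
    · simp [Fo.size] at hf
    · simp only [Fo.size] at hf
      by_cases hr : r = .nil
      · subst hr
        have hcc : ¬ IsCo c := by
          rintro ⟨k, j, rfl⟩
          exact hc ⟨k, j + 1, rfl⟩
        have hcs : c.size + 0 = M := by
          simp only [Fo.size] at hf
          omega
        exact CF.merge_right (CF.inv H (I.nf 0 _ hNF0 c hcs hg.child hcc) hg)
      · have hr1 := size_pos hr
        apply CF.merge_left
        by_cases hcn : c = .nil
        · subst hcn
          simp only [Fo.size] at hf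
          have hrl : ¬ ∃ k, r = SG.leaves k := by
            rintro ⟨k, rfl⟩
            exact hc ⟨k + 1, 0, rfl⟩
          exact CF.sums_acc (CF.sh H (Cv.leaf H hg.tree) (I.nl r (by omega) hg.rest hrl) hg)
        · have hc1 := size_pos hcn
          have hT : c.size - 1 < s.T.length := by
            have := I.lenT
            omega
          have hF : c.size - 1 < s.AF.tail.length := by
            rw [List.length_tail, I.lenAF]
            omega
          refine CF.sums H hg (i := c.size - 1) (List.getElem?_eq_getElem hT)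
            (List.getElem?_eq_getElem hF) ?_ ?_
          · exact I.t _ _ (List.getElem?_eq_getElem hT) c (by omega) hg.tree
          · have hF' : c.size - 1 + 1 < s.AF.length := by
              rw [I.lenAF]
              omega
            have : s.AF.tail[c.size - 1] = s.AF[c.size - 1 + 1] := by
              rw [List.getElem_tail]
            rw [this]
            exact I.af _ _ (List.getElem?_eq_getElem hF') r (by omega) hg.rest
  -- comets
  have hcjc : ∀ k j : ℕ, k ≠ 1 → k + (j + 1) = M + 1 → Good ν (comet k (j + 1)) →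
      CC S ν μ cj k (comet k (j + 1)) := by
    intro k j hk hkj hg
    exact CC.inv H (I.cm 0 _ hCM0 k j hk (by omega) hg.child) hg
  have hlac : Good ν (SG.leaves (M + 1)) → Cv S ν μ la (SG.leaves (M + 1)) := by
    intro hg
    exact Cv.lvs H hg
  have hlalt : Good ν (SG.leaves (M + 1)) → Nat.ble x1 la.2 = false := by
    intro hg
    have := (hlac hg).lt H hg
    rw [← Bool.not_eq_true, Nat.ble_eq]
    omega
  have hnlc : ∀ f : Fo, f.size = M + 1 → Good ν f → (¬ ∃ k, f = SG.leaves k) →
      CF S ν μ nl f := by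
    intro f hf hg hl
    by_cases hc : IsCo f
    · obtain ⟨k, j, hk, rfl⟩ := hc.exists_ne
      rcases j with _ | j
      · exact absurd ⟨k, rfl⟩ hl
      · rw [size_comet] at hf
        exact CF.addC_right (hcjc k j hk hf hg)
    · exact CF.addC_left (hnfc f hf hg hc)
  have hafc : ∀ f : Fo, f.size = M + 1 → Good ν f → CF S ν μ af f := by
    intro f hf hg
    by_cases hl : ∃ k, f = SG.leaves k
    · obtain ⟨k, rfl⟩ := hl
      rw [size_leaves] at hf
      subst hf
      rw [haf, hlalt hg, cond_false]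
      exact CF.merge_right ⟨la, List.mem_singleton.2 rfl, hlac hg⟩
    · have := hnlc f hf hg hl
      rw [haf]
      by_cases hc : Nat.ble x1 la.2 = true
      · rw [hc, cond_true]
        exact this
      · rw [Bool.not_eq_true] at hc
        rw [hc, cond_false]
        exact this.merge_left
  have hcmc : ∀ k j : ℕ, k ≠ 1 → k + j = M + 1 → Good ν (comet k j) →
      CC S ν μ cm k (comet k j) := by
    intro k j hk hkj hg
    rcases j with _ | j
    · simp only [Nat.add_zero] at hkj
      subst hkj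
      rw [hcm, hlalt hg, cond_false]
      exact ⟨_, List.mem_cons_self .., rfl, hlac hg⟩
    · have := hcjc k j hk hkj hg
      rw [hcm]
      by_cases hc : Nat.ble x1 la.2 = true
      · rw [hc, cond_true]
        exact this
      · rw [Bool.not_eq_true] at hc
        rw [hc, cond_false]
        obtain ⟨p, hp, h2⟩ := this
        exact ⟨p, List.mem_cons_of_mem _ hp, h2⟩
  rw [hstep]
  refine ⟨rfl, ?_, ?_, ?_, ?_, hnlc, ?_, ?_, ?_, ?_⟩
  · simp [I.lenAF]
  · intro i F hF f hf hg
    rcases i with _ | i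
    · simp only [List.getElem?_cons_zero, Option.some.injEq] at hF
      subst hF
      exact hafc f (by omega) hg
    · simp only [List.getElem?_cons_succ] at hF
      exact I.af i F hF f (by omega) hg
  · simp [I.lenNF]
  · intro i F hF f hf hg hc
    rcases i with _ | i
    · simp only [List.getElem?_cons_zero, Option.some.injEq] at hF
      subst hF
      exact hnfc f (by omega) hg hc
    · simp only [List.getElem?_cons_succ] at hF
      exact I.nf i F hF f (by omega) hg hc
  · simp [I.lenT]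
  · intro i F hF c hc hg
    simp only at hF
    rw [List.getElem?_append] at hF
    split_ifs at hF with hi
    · exact I.t i F hF c hc hg
    · have hlt := I.lenT
      rcases Nat.eq_zero_or_pos (i - s.T.length) with h0 | h0
      · rw [h0, List.getElem?_cons_zero, Option.some.injEq] at hF
        subst hF
        exact CF.inv H (I.af 0 _ hAF0 c (by omega) hg.child) hg
      · obtain ⟨j, hj⟩ : ∃ j, i - s.T.length = j + 1 := ⟨i - s.T.length - 1, by omega⟩
        rw [hj] at hF
        simp at hF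
  · simp [I.lenCM]
  · intro i C hC k j hk hkj hg
    rcases i with _ | i
    · simp only [List.getElem?_cons_zero, Option.some.injEq] at hC
      subst hC
      exact hcmc k j hk (by omega) hg
    · simp only [List.getElem?_cons_succ] at hC
      exact I.cm i C hC k j hk (by omega) hg

theorem inv_run {S x x1 : ℕ} {ν μ : ℝ} (H : Hyp S x x1 ν μ) (m : ℕ) :
    Inv S ν μ (run (S * S) x x1 m) (m + 1) := by
  induction m with
  | zero => exact inv_st1 H
  | succ m ih => exact inv_step H (Nat.succ_le_succ (Nat.zero_le _)) ih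

/-! ### the final tests -/

theorem all2_get {α β : Type} {f : α → β → Bool} {l : List α} :
    ∀ {l' : List β}, all2 f l l' = true → ∀ {i : ℕ} {a : α} {b : β}, l[i]? = some a →
      l'[i]? = some b → f a b = true := by
  induction l with
  | nil =>
    intro l' _ i a b ha
    simp at ha
  | cons c l ih =>
    intro l' h i a b ha hb
    rcases l' with _ | ⟨d, l'⟩
    · simp at hb
    · unfold all2 at h
      rw [Bool.and_eq_true] at h
      rcases i with _ | i
      · simp only [List.getElem?_cons_zero, Option.some.injEq] at ha hb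
        subst ha hb
        exact h.1
      · simp only [List.getElem?_cons_succ] at ha hb
        exact ih h.2 ha hb

theorem okp_symm (S2 x x1 : ℕ) (p q : ℕ × ℕ) : okp S2 x x1 p q = okp S2 x x1 q p := by
  unfold okp
  rw [Bool.and_comm (Nat.ble x p.1), Bool.or_comm (Nat.ble INF p.1), mul_comm (p.1 - x),
    mul_comm (x1 - p.2)]

theorem ge_of_cv {S x x1 : ℕ} {ν μ : ℝ} (H : Hyp S x x1 ν μ) {p : ℕ × ℕ} {f : Fo}
    (h : Cv S ν μ p f) (hf : PP μ f → μ ≤ gs μ f) : x ≤ p.1 := by
  have hS : (0:ℝ) < S := by exact_mod_cast H.hS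
  rcases h.1 with h1 | ⟨h1, h2⟩
  · exact H.hI.trans h1
  · have h3 := mul_le_mul_of_nonneg_left (hf h1) hS.le
    have := H.hx
    have h4 : (x : ℝ) ≤ p.1 := by linarith
    exact_mod_cast h4

/-- the pair of covering elements of the two sides is never harmless -/
theorem okp_false {S x x1 : ℕ} {ν μ : ℝ} (H : Hyp S x x1 ν μ) {n : ℕ} {f h : Fo}
    (hSp : Sp n f h ν μ) {p q : ℕ × ℕ} (hp : Cv S ν μ p f) (hq : Cv S ν μ q h) :
    x ≤ p.1 ∧ x ≤ q.1 ∧ okp (S * S) x x1 p q = false := by
  have hS : (0:ℝ) < S := by exact_mod_cast H.hS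
  have hgf : Good ν f := ⟨hSp.ppf, by have := hSp.posf; linarith⟩
  have hgh : Good ν h := ⟨hSp.pph, by have := hSp.posh; linarith⟩
  have hp2 := hp.lt H hgf
  have hq2 := hq.lt H hgh
  -- the upper test fails
  have hup : Nat.blt ((x1 - p.2) * (x1 - q.2)) (S * S) = false := by
    rw [← Bool.not_eq_true, Nat.blt_eq, not_lt]
    have e1 : ((x1 - p.2 : ℕ) : ℝ) = (x1:ℝ) - p.2 := by rw [Nat.cast_sub hp2.le]
    have e2 : ((x1 - q.2 : ℕ) : ℝ) = (x1:ℝ) - q.2 := by rw [Nat.cast_sub hq2.le]
    have h1 : (S:ℝ) * (ν - gs ν f) ≤ ((x1 - p.2 : ℕ) : ℝ) := by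
      rw [e1, mul_sub]
      have := H.hx1
      have := hp.2
      linarith
    have h2 : (S:ℝ) * (ν - gs ν h) ≤ ((x1 - q.2 : ℕ) : ℝ) := by
      rw [e2, mul_sub]
      have := H.hx1
      have := hq.2
      linarith
    have h3 : (S:ℝ) * (ν - gs ν f) * (S * (ν - gs ν h)) ≤
        ((x1 - p.2 : ℕ) : ℝ) * ((x1 - q.2 : ℕ) : ℝ) := by
      apply mul_le_mul h1 h2
      · exact mul_nonneg hS.le hSp.posh.le
      · exact Nat.cast_nonneg _
    have h4 : (S:ℝ) * (ν - gs ν f) * (S * (ν - gs ν h)) = S * S := by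
      have := hSp.prod
      calc (S:ℝ) * (ν - gs ν f) * (S * (ν - gs ν h))
          = S * S * ((ν - gs ν f) * (ν - gs ν h)) := by ring
        _ = S * S := by rw [this, mul_one]
    rw [h4] at h3
    exact_mod_cast h3
  have hfin : x ≤ p.1 → x ≤ q.1 →
      (INF ≤ p.1 ∨ INF ≤ q.1 ∨ S * S ≤ (p.1 - x) * (q.1 - x)) →
      x ≤ p.1 ∧ x ≤ q.1 ∧ okp (S * S) x x1 p q = false := by
    intro h1 h2 h3
    refine ⟨h1, h2, ?_⟩
    unfold okp
    have e1 : (Nat.ble x p.1 && Nat.ble x q.1) = true := by
      rw [Bool.and_eq_true, Nat.ble_eq, Nat.ble_eq]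
      exact ⟨h1, h2⟩
    have e2 : (Nat.ble INF p.1 || Nat.ble INF q.1 || Nat.ble (S * S) ((p.1 - x) * (q.1 - x)))
        = true := by
      rw [Bool.or_eq_true, Bool.or_eq_true, Nat.ble_eq, Nat.ble_eq, Nat.ble_eq, or_assoc]
      exact h3
    rw [e1, cond_true, e2, cond_true]
    exact hup
  rcases hSp.ev with ⟨h1, h2, h3, h4, h5⟩ | ⟨h1, h2, c, h3, h4, h5⟩
  · have hx1 : x ≤ p.1 := ge_of_cv H hp (fun _ => by linarith)
    have hx2 : x ≤ q.1 := ge_of_cv H hq (fun _ => by linarith)
    refine hfin hx1 hx2 ?_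
    rcases hp.1 with h6 | ⟨-, h6⟩
    · exact Or.inl h6
    · rcases hq.1 with h7 | ⟨-, h7⟩
      · exact Or.inr (Or.inl h7)
      · right
        right
        have e1 : ((p.1 - x : ℕ) : ℝ) = (p.1:ℝ) - x := by rw [Nat.cast_sub hx1]
        have e2 : ((q.1 - x : ℕ) : ℝ) = (q.1:ℝ) - x := by rw [Nat.cast_sub hx2]
        have g1 : (S:ℝ) * (gs μ f - μ) ≤ ((p.1 - x : ℕ) : ℝ) := by
          rw [e1, mul_sub]
          have := H.hx
          linarith
        have g2 : (S:ℝ) * (gs μ h - μ) ≤ ((q.1 - x : ℕ) : ℝ) := by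
          rw [e2, mul_sub]
          have := H.hx
          linarith
        have g3 : (S:ℝ) * (gs μ f - μ) * (S * (gs μ h - μ)) ≤
            ((p.1 - x : ℕ) : ℝ) * ((q.1 - x : ℕ) : ℝ) := by
          apply mul_le_mul g1 g2
          · exact mul_nonneg hS.le (by linarith)
          · exact Nat.cast_nonneg _
        have g4 : (S:ℝ) * (gs μ f - μ) * (S * (gs μ h - μ)) = S * S := by
          calc (S:ℝ) * (gs μ f - μ) * (S * (gs μ h - μ))
              = S * S * ((μ - gs μ f) * (μ - gs μ h)) := by ring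
            _ = S * S := by rw [h5, mul_one]
        rw [g4] at g3
        exact_mod_cast g3
  · have hnp : ¬ PP μ h := by
      intro hh
      have := (Mem_PP h3 hh).2.1
      linarith
    have hx1 : x ≤ p.1 := ge_of_cv H hp (fun _ => by linarith)
    have hx2 : x ≤ q.1 := ge_of_cv H hq (fun hh => absurd hh hnp)
    refine hfin hx1 hx2 ?_
    rcases hq.1 with h7 | ⟨h7, -⟩
    · exact Or.inr (Or.inl h7)
    · exact absurd h7 hnp

theorem okFF_get {S2 x x1 : ℕ} {F G : Fr} (h : okFF S2 x x1 F G = true) {p q : ℕ × ℕ}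
    (hp : p ∈ F) (hq : q ∈ G) : okp S2 x x1 p q = true := by
  unfold okFF at h
  exact List.all_eq_true.1 (List.all_eq_true.1 h p hp) q hq

theorem okFC_get {S2 x x1 : ℕ} {F : Fr} {C : List (ℕ × ℕ × ℕ)}
    (h : okFC S2 x x1 F C = true) {p : ℕ × ℕ} {q : ℕ × ℕ × ℕ}
    (hp : p ∈ F) (hq : q ∈ C) : okp S2 x x1 p q.2 = true := by
  unfold okFC at h
  exact List.all_eq_true.1 (List.all_eq_true.1 h p hp) q hq

theorem okCC_get {S2 x x1 : ℕ} {C D : List (ℕ × ℕ × ℕ)}
    (h : okCC S2 x x1 C D = true) {p q : ℕ × ℕ × ℕ}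
    (hp : p ∈ C) (hq : q ∈ D) : p.1 = q.1 ∨ okp S2 x x1 p.2 q.2 = true := by
  unfold okCC at h
  have := List.all_eq_true.1 (List.all_eq_true.1 h p hp) q hq
  rw [Bool.or_eq_true, Nat.beq_eq] at this
  exact this

/-- an element of the reversed truncated list -/
theorem get_rev {α : Type} {L : List α} {w i : ℕ} (hw : w ≤ L.length) (hi : i < w) :
    (L.take w).reverse[i]? = L[w - 1 - i]? := by
  have hl : (L.take w).length = w := by
    rw [List.length_take]
    omega
  rw [List.getElem?_reverse (by omega), hl, List.getElem?_take]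
  simp only [ite_eq_left_iff, not_lt]
  intro h
  omega

theorem get_take {α : Type} {L : List α} {w i : ℕ} (hi : i < w) :
    (L.take w)[i]? = L[i]? := by
  rw [List.getElem?_take]
  simp only [ite_eq_left_iff, not_lt]
  intro h
  omega

end DPSound

open DPSound in
theorem cell_sound {n S x x1 M : ℕ} (hS : 0 < S) (hn : 4 ≤ n)
    (hc : DP.cell n S x x1 M = true) {f h : Fo} {ν μ : ℝ} (hSp : Sp n f h ν μ)
    (hx : (x : ℝ) ≤ S * μ) (hx1 : S * ν ≤ (x1 : ℝ)) : IsDC f h := by
  unfold cell at hc
  simp only [Bool.and_eq_true, Nat.ble_eq] at hc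
  obtain ⟨⟨⟨⟨⟨⟨⟨hI, hM1⟩, hM2⟩, hM3⟩, hlight⟩, hFF⟩, hFC⟩, hCC⟩ := hc
  have H : Hyp S x x1 ν μ := ⟨hS, hI, hx, hx1⟩
  have I := inv_run H (M - 1)
  have hMM : M - 1 + 1 = M := by omega
  rw [hMM] at I
  set s := run (S * S) x x1 (M - 1) with hs
  set w := 2 * M + 3 - n with hw
  have hsize := hSp.size
  have hgf : Good ν f := ⟨hSp.ppf, by have := hSp.posf; linarith⟩
  have hgh : Good ν h := ⟨hSp.pph, by have := hSp.posh; linarith⟩
  -- sizes
  have key : ∀ {a b : Fo}, a.size + b.size + 2 = n → Good ν b →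
      (∀ q, Cv S ν μ q b → x ≤ q.1) → a.size ≤ M := by
    intro a b hab hb hq
    by_contra hcon
    push Not at hcon
    have hbM : M - b.size < s.AF.length := by
      rw [I.lenAF]
      omega
    obtain ⟨q, hqm, hqc⟩ := I.af (M - b.size) _ (List.getElem?_eq_getElem hbM) b (by omega) hb
    have h1 := hq q hqc
    have h2 : s.AF[M - b.size] ∈ s.AF.drop w := by
      rw [List.mem_iff_getElem?]
      refine ⟨M - b.size - w, ?_⟩
      rw [List.getElem?_drop, List.getElem?_eq_getElem (by omega)]
      congr 1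
      congr 1
      omega
    have h3 := List.all_eq_true.1 hlight _ h2
    unfold light at h3
    have h4 := List.all_eq_true.1 h3 q hqm
    rw [Nat.blt_eq] at h4
    omega
  have hqh : ∀ q, Cv S ν μ q h → x ≤ q.1 := by
    intro q hq
    apply ge_of_cv H hq
    intro hpp
    rcases hSp.ev with ⟨h1, h2, h3, h4, h5⟩ | ⟨h1, h2, c, h3, h4, h5⟩
    · linarith
    · have := (Mem_PP h3 hpp).2.1
      linarith
  have hqf : ∀ q, Cv S ν μ q f → x ≤ q.1 := by
    intro q hq
    apply ge_of_cv H hq
    intro hpp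
    rcases hSp.ev with ⟨h1, h2, h3, h4, h5⟩ | ⟨h1, h2, c, h3, h4, h5⟩
    · linarith
    · linarith
  have hfM : f.size ≤ M := key hsize hgh hqh
  have hhM : h.size ≤ M := key (a := h) (b := f) (by omega) hgf hqf
  have hwM : w ≤ M + 1 := by omega
  -- positions in the lists
  have gNF : ∀ i, i ≤ M → ∃ F, s.NF[i]? = some F := by
    intro i hi
    have : i < s.NF.length := by
      rw [I.lenNF]
      omega
    exact ⟨_, List.getElem?_eq_getElem this⟩
  have gCM : ∀ i, i ≤ M → ∃ C, s.CM[i]? = some C := by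
    intro i hi
    have : i < s.CM.length := by
      rw [I.lenCM]
      omega
    exact ⟨_, List.getElem?_eq_getElem this⟩
  obtain ⟨Nf, hNf⟩ := gNF (M - f.size) (by omega)
  obtain ⟨Nh, hNh⟩ := gNF (M - h.size) (by omega)
  obtain ⟨Cf, hCf⟩ := gCM (M - f.size) (by omega)
  obtain ⟨Ch, hCh⟩ := gCM (M - h.size) (by omega)
  have iw : M - f.size < w := by omega
  have iw' : M - h.size < w := by omega
  have e1 : w - 1 - (M - f.size) = M - h.size := by omega
  have e2 : w - 1 - (M - h.size) = M - f.size := by omega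
  by_cases cf : IsCo f
  · obtain ⟨k, j, hk, rfl⟩ := cf.exists_ne
    rw [size_comet] at *
    obtain ⟨p, hp, hpk, hpc⟩ := I.cm _ _ hCf k j hk (by omega) hgf
    by_cases ch : IsCo h
    · obtain ⟨k', j', hk', rfl⟩ := ch.exists_ne
      rw [size_comet] at *
      obtain ⟨q, hq, hqk, hqc⟩ := I.cm _ _ hCh k' j' hk' (by omega) hgh
      have h1 := all2_get hCC (i := M - (k + j)) (a := Cf) (b := Ch)
        (by rw [get_take iw]; exact hCf)
        (by rw [get_rev (by rw [I.lenCM]; omega) iw, e1]; exact hCh)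
      rcases okCC_get h1 hp hq with h2 | h2
      · rw [hpk, hqk] at h2
        subst h2
        exact ⟨k, j, j', rfl, rfl⟩
      · rw [(okp_false H hSp hpc hqc).2.2] at h2
        exact absurd h2 (by decide)
    · obtain ⟨q, hq, hqc⟩ := I.nf _ _ hNh h (by omega) hgh ch
      have h1 := all2_get hFC (i := M - h.size) (a := Nh) (b := Cf)
        (by rw [get_take iw']; exact hNh)
        (by rw [get_rev (by rw [I.lenCM]; omega) iw', e2]; exact hCf)
      have h2 := okFC_get h1 hq hp
      rw [okp_symm, (okp_false H hSp hpc hqc).2.2] at h2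
      exact absurd h2 (by decide)
  · obtain ⟨p, hp, hpc⟩ := I.nf _ _ hNf f (by omega) hgf cf
    by_cases ch : IsCo h
    · obtain ⟨k', j', hk', rfl⟩ := ch.exists_ne
      rw [size_comet] at *
      obtain ⟨q, hq, hqk, hqc⟩ := I.cm _ _ hCh k' j' hk' (by omega) hgh
      have h1 := all2_get hFC (i := M - f.size) (a := Nf) (b := Ch)
        (by rw [get_take iw]; exact hNf)
        (by rw [get_rev (by rw [I.lenCM]; omega) iw, e1]; exact hCh)
      have h2 := okFC_get h1 hp hq
      rw [(okp_false H hSp hpc hqc).2.2] at h2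
      exact absurd h2 (by decide)
    · obtain ⟨q, hq, hqc⟩ := I.nf _ _ hNh h (by omega) hgh ch
      have h1 := all2_get hFF (i := M - f.size) (a := Nf) (b := Nh)
        (by rw [get_take iw]; exact hNf)
        (by rw [get_rev (by rw [I.lenNF]; omega) iw, e1]; exact hNh)
      have h2 := okFF_get h1 hp hq
      rw [(okp_false H hSp hpc hqc).2.2] at h2
      exact absurd h2 (by decide)

end Pool.Agent.SG
end

section

set_option autoImplicit false

namespace Pool.Agent.SG

/-- all trees with `cur ≤ S μ`, `S (ν - μ) ≤ g`, `S ν ≤ top` are double comets -/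
def Cov (n S g top cur : ℕ) : Prop :=
  ∀ (f h : Fo) (ν μ : ℝ), Sp n f h ν μ → (cur : ℝ) ≤ S * μ → S * (ν - μ) ≤ g →
    S * ν ≤ top → IsDC f h

theorem Cov.last {n S g top cur x x1 M : ℕ} (hS : 0 < S) (hn : 4 ≤ n)
    (hc : DP.cell n S x x1 M = true) (hx : x ≤ cur) (ht : top ≤ x1) : Cov n S g top cur := by
  intro f h ν μ hSp h1 h2 h3
  refine cell_sound hS hn hc hSp ?_ ?_
  · have : (x : ℝ) ≤ cur := by exact_mod_cast hx
    linarith
  · have : (top : ℝ) ≤ x1 := by exact_mod_cast ht
    linarith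

theorem Cov.cons {n S g top cur x x1 M : ℕ} (hS : 0 < S) (hn : 4 ≤ n)
    (hc : DP.cell n S x x1 M = true) (hx : x ≤ cur) (hg : g ≤ x1)
    (h : Cov n S g top (x1 - g)) : Cov n S g top cur := by
  intro f h' ν μ hSp h1 h2 h3
  by_cases h4 : S * ν ≤ (x1 : ℝ)
  · refine cell_sound hS hn hc hSp ?_ h4
    have : (x : ℝ) ≤ cur := by exact_mod_cast hx
    linarith
  · refine h f h' ν μ hSp ?_ h2 h3
    push_cast [Nat.cast_sub hg]
    push Not at h4
    linarith

end Pool.Agent.SG
end
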