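import Pool.Agent.Lib.MP_8b9a2e_co.Mg.G001
import Pool.Agent.Lib.MP_8b9a2e_co.Mg.G003

section

set_option autoImplicit false

namespace Pool.Agent.SG

/-- the values `l - gs l (comet k j)` in rational arithmetic -/
def CmpSmall_ph (l : ℚ) (k : ℕ) : ℕ → ℚ
  | 0 => l - k / l
  | j + 1 => l - 1 / CmpSmall_ph l k j

theorem CmpSmall_spec {l : ℚ} (hl : 0 < l) {k j : ℕ} (h : ∀ i < j, 0 < CmpSmall_ph l k i) :
    PP (l : ℝ) (comet k j) ∧ (l : ℝ) - gs (l : ℝ) (comet k j) = (CmpSmall_ph l k j : ℚ) := by
  have hl' : (0 : ℝ) < l := by exact_mod_cast hl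
  induction j with
  | zero =>
    refine ⟨leaves_PP hl' k, ?_⟩
    simp only [comet, CmpSmall_ph]
    rw [leaves_gs]
    push_cast
    rfl
  | succ j ih =>
    obtain ⟨h1, h2⟩ := ih (fun i hi => h i (by omega))
    have h3 : (0 : ℝ) < (CmpSmall_ph l k j : ℚ) := by exact_mod_cast h j (by omega)
    refine ⟨⟨h1, by rw [h2]; exact h3, trivial⟩, ?_⟩
    simp only [comet, gs, add_zero, CmpSmall_ph]
    rw [h2]
    push_cast
    rfl

/-- positivity of the first values -/
def CmpSmall_pos (l : ℚ) (k j : ℕ) : Bool :=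
  decide (0 < l) && (List.range j).all fun i => decide (0 < CmpSmall_ph l k i)

theorem CmpSmall_pos_spec {l : ℚ} {k j : ℕ} (h : CmpSmall_pos l k j = true) :
    PP (l : ℝ) (comet k j) ∧ (l : ℝ) - gs (l : ℝ) (comet k j) = (CmpSmall_ph l k j : ℚ) := by
  rw [CmpSmall_pos, Bool.and_eq_true, decide_eq_true_eq, List.all_eq_true] at h
  refine CmpSmall_spec h.1 fun i hi => ?_
  have := h.2 i (List.mem_range.2 hi)
  exact of_decide_eq_true this

/-- the check -/
def CmpSmall_chk (k j j' : ℕ) (ν μ : ℚ) : Bool :=
  (CmpSmall_pos ν k j && CmpSmall_pos ν k j' &&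
    decide (0 < CmpSmall_ph ν k j) && decide (0 < CmpSmall_ph ν k j') &&
    decide (1 ≤ CmpSmall_ph ν k j * CmpSmall_ph ν k j') && CmpSmall_pos μ k j) &&
  ((decide (j = j') && decide (CmpSmall_ph μ k j < 0) &&
      decide (1 ≤ CmpSmall_ph μ k j * CmpSmall_ph μ k j)) ||
    (decide (j' = j + 1) && decide (CmpSmall_ph μ k j ≤ 0)))

theorem CmpSmall_tool {n k j j' : ℕ} (hn : 2 * k + j + j' + 2 = n) (ν μ b : ℚ)
    (h : CmpSmall_chk k j j' ν μ = true) (hb : ν - μ ≤ b) : DcLe n k (j + j' + 2) (b : ℝ) := by
  simp only [CmpSmall_chk, Bool.and_eq_true, Bool.or_eq_true, decide_eq_true_eq] at h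
  obtain ⟨⟨⟨⟨⟨⟨h1, h2⟩, h3⟩, h4⟩, h5⟩, h6⟩, h7⟩ := h
  obtain ⟨p1, v1⟩ := CmpSmall_pos_spec h1
  obtain ⟨p2, v2⟩ := CmpSmall_pos_spec h2
  obtain ⟨p3, v3⟩ := CmpSmall_pos_spec h6
  have key : DcLe n k (j + j' + 2) ((ν : ℝ) - (μ : ℝ)) := by
    apply cg_gap hn p1 p2
    · rw [v1]; exact_mod_cast h3
    · rw [v2]; exact_mod_cast h4
    · rw [v1, v2]; exact_mod_cast h5
    · rcases h7 with ⟨⟨h8, h9⟩, h10⟩ | ⟨h8, h9⟩
      · left
        subst h8
        refine ⟨p3, p3, ?_, ?_, ?_⟩
        · rw [v3]; exact_mod_cast h9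
        · rw [v3]; exact_mod_cast h9
        · rw [v3]; exact_mod_cast h10
      · right
        refine ⟨p3, ?_, j, h8, p3, ?_⟩
        · rw [v3]; exact_mod_cast h9
        · rw [v3]; exact_mod_cast h9
  intro hC i i' hi hi'
  refine (key hC i i' hi hi').trans ?_
  exact_mod_cast hb

/-! explicit upper bounds for the gaps of the best double comets, `4 ≤ n ≤ 20` -/

theorem cmp4 : DcLe 4 0 4 (4097 / 4096) := by
  have h := CmpSmall_tool (n := 4) (k := 0) (j := 1) (j' := 1) rfl (161804/100000) (61803/100000)
    (4097 / 4096) (by decide +kernel) (by norm_num)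
  simpa using h

theorem cmp5 : DcLe 5 0 5 (2999 / 4096) := by
  have h := CmpSmall_tool (n := 5) (k := 0) (j := 1) (j' := 2) rfl (173206/100000) (1)
    (2999 / 4096) (by decide +kernel) (by norm_num)
  simpa using h

theorem cmp6 : DcLe 6 0 6 (2274 / 4096) := by
  have h := CmpSmall_tool (n := 6) (k := 0) (j := 2) (j' := 2) rfl (180194/100000) (124697/100000)
    (2274 / 4096) (by decide +kernel) (by norm_num)
  simpa using h

theorem cmp7 : DcLe 7 0 7 (1776 / 4096) := by
  have h := CmpSmall_tool (n := 7) (k := 0) (j := 2) (j' := 3) rfl (184776/100000) (141421/100000)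
    (1776 / 4096) (by decide +kernel) (by norm_num)
  simpa using h

theorem cmp8 : DcLe 8 0 8 (1423 / 4096) := by
  have h := CmpSmall_tool (n := 8) (k := 0) (j := 3) (j' := 3) rfl (187939/100000) (153208/100000)
    (1423 / 4096) (by decide +kernel) (by norm_num)
  simpa using h

theorem cmp9 : DcLe 9 2 5 (1098 / 4096) := by
  have h := CmpSmall_tool (n := 9) (k := 2) (j := 1) (j' := 2) rfl (2) (173205/100000)
    (1098 / 4096) (by decide +kernel) (by norm_num)
  simpa using h

theorem cmp10 : DcLe 10 2 6 (812 / 4096) := by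
  have h := CmpSmall_tool (n := 10) (k := 2) (j := 2) (j' := 2) rfl (2) (180193/100000)
    (812 / 4096) (by decide +kernel) (by norm_num)
  simpa using h

theorem cmp11 : DcLe 11 2 7 (624 / 4096) := by
  have h := CmpSmall_tool (n := 11) (k := 2) (j := 2) (j' := 3) rfl (2) (184775/100000)
    (624 / 4096) (by decide +kernel) (by norm_num)
  simpa using h

theorem cmp12 : DcLe 12 3 6 (462 / 4096) := by
  have h := CmpSmall_tool (n := 12) (k := 3) (j := 2) (j' := 2) rfl (215976/100000) (204717/100000)
    (462 / 4096) (by decide +kernel) (by norm_num)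
  simpa using h

theorem cmp13 : DcLe 13 3 7 (306 / 4096) := by
  have h := CmpSmall_tool (n := 13) (k := 3) (j := 2) (j' := 3) rfl (214897/100000) (207431/100000)
    (306 / 4096) (by decide +kernel) (by norm_num)
  simpa using h

theorem cmp14 : DcLe 14 3 8 (208 / 4096) := by
  have h := CmpSmall_tool (n := 14) (k := 3) (j := 3) (j' := 3) rfl (214130/100000) (209071/100000)
    (208 / 4096) (by decide +kernel) (by norm_num)
  simpa using h

theorem cmp15 : DcLe 15 3 9 (143 / 4096) := by
  have h := CmpSmall_tool (n := 15) (k := 3) (j := 3) (j' := 4) rfl (213578/100000) (210100/100000)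
    (143 / 4096) (by decide +kernel) (by norm_num)
  simpa using h

theorem cmp16 : DcLe 16 4 8 (91 / 4096) := by
  have h := CmpSmall_tool (n := 16) (k := 4) (j := 3) (j' := 3) rfl (231974/100000) (229763/100000)
    (91 / 4096) (by decide +kernel) (by norm_num)
  simpa using h

theorem cmp17 : DcLe 17 4 9 (53 / 4096) := by
  have h := CmpSmall_tool (n := 17) (k := 4) (j := 3) (j' := 4) rfl (231549/100000) (230277/100000)
    (53 / 4096) (by decide +kernel) (by norm_num)
  simpa using h

theorem cmp18 : DcLe 18 4 10 (31 / 4096) := by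
  have h := CmpSmall_tool (n := 18) (k := 4) (j := 4) (j' := 4) rfl (231297/100000) (230563/100000)
    (31 / 4096) (by decide +kernel) (by norm_num)
  simpa using h

theorem cmp19 : DcLe 19 4 11 (18 / 4096) := by
  have h := CmpSmall_tool (n := 19) (k := 4) (j := 4) (j' := 5) rfl (231148/100000) (230725/100000)
    (18 / 4096) (by decide +kernel) (by norm_num)
  simpa using h

theorem cmp20 : DcLe 20 4 12 (21 / 8192) := by
  have h := CmpSmall_tool (n := 20) (k := 4) (j := 5) (j' := 5) rfl (231061/100000) (230816/100000)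
    (21 / 8192) (by decide +kernel) (by norm_num)
  simpa using h

end Pool.Agent.SG
end

section

set_option autoImplicit false
set_option maxRecDepth 100000

namespace Pool.Agent.SG.Run

theorem c19_0 : DP.cell 19 4096 0 8160 17 = true := by decide +kernel
theorem c19_2 : DP.cell 19 4096 8290 8446 11 = true := by decide +kernel
theorem c19_4 : DP.cell 19 4096 8550 8691 11 = true := by decide +kernel
theorem c19_6 : DP.cell 19 4096 8729 8898 11 = true := by decide +kernel
theorem c19_8 : DP.cell 19 4096 8957 9098 10 = true := by decide +kernel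
theorem c19_10 : DP.cell 19 4096 9178 9289 9 = true := by decide +kernel
theorem c19_12 : DP.cell 19 4096 9394 9484 10 = true := by decide +kernel
theorem c19_14 : DP.cell 19 4096 9583 9652 9 = true := by decide +kernel
theorem c19_16 : DP.cell 19 4096 9757 9895 9 = true := by decide +kernel
theorem c19_18 : DP.cell 19 4096 10194 10278 9 = true := by decide +kernel
theorem c19_20 : DP.cell 19 4096 10389 10512 9 = true := by decide +kernel
theorem c19_22 : DP.cell 19 4096 10976 11707 9 = true := by decide +kernel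

end Pool.Agent.SG.Run
end

section

set_option autoImplicit false
set_option maxRecDepth 100000

namespace Pool.Agent.SG.Run

theorem c19_1 : DP.cell 19 4096 8142 8308 13 = true := by decide +kernel
theorem c19_3 : DP.cell 19 4096 8428 8568 12 = true := by decide +kernel
theorem c19_5 : DP.cell 19 4096 8673 8747 9 = true := by decide +kernel
theorem c19_7 : DP.cell 19 4096 8880 8975 11 = true := by decide +kernel
theorem c19_9 : DP.cell 19 4096 9080 9196 12 = true := by decide +kernel
theorem c19_11 : DP.cell 19 4096 9271 9412 11 = true := by decide +kernel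
theorem c19_13 : DP.cell 19 4096 9466 9601 10 = true := by decide +kernel
theorem c19_15 : DP.cell 19 4096 9634 9775 10 = true := by decide +kernel
theorem c19_17 : DP.cell 19 4096 9877 10212 11 = true := by decide +kernel
theorem c19_19 : DP.cell 19 4096 10260 10407 9 = true := by decide +kernel
theorem c19_21 : DP.cell 19 4096 10494 10994 10 = true := by decide +kernel
theorem c19_23 : DP.cell 19 4096 11689 77824 8 = true := by decide +kernel

end Pool.Agent.SG.Run
end
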