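import Pool.Agent.Lib.MP_8b9a2e_co.Mg.G003
import Pool.Agent.Lib.MP_8b9a2e_co.Mg.G002

section

set_option autoImplicit false
set_option maxRecDepth 100000

namespace Pool.Agent.SG.Run

theorem c20_0 : DP.cell 20 8192 0 16327 18 = true := by decide +kernel
theorem c20_6 : DP.cell 20 8192 17369 17535 12 = true := by decide +kernel
theorem c20_12 : DP.cell 20 8192 18214 18406 13 = true := by decide +kernel
theorem c20_18 : DP.cell 20 8192 19178 19284 10 = true := by decide +kernel
theorem c20_24 : DP.cell 20 8192 20163 20385 9 = true := by decide +kernel
theorem c20_30 : DP.cell 20 8192 21245 21992 11 = true := by decide +kernel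

end Pool.Agent.SG.Run
end

section

set_option autoImplicit false
set_option maxRecDepth 100000

namespace Pool.Agent.SG.Run

theorem c20_1 : DP.cell 20 8192 16306 16607 14 = true := by decide +kernel
theorem c20_7 : DP.cell 20 8192 17514 17770 11 = true := by decide +kernel
theorem c20_13 : DP.cell 20 8192 18385 18544 10 = true := by decide +kernel
theorem c20_19 : DP.cell 20 8192 19263 19422 11 = true := by decide +kernel
theorem c20_25 : DP.cell 20 8192 20364 20492 11 = true := by decide +kernel
theorem c20_31 : DP.cell 20 8192 21971 22322 9 = true := by decide +kernel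

end Pool.Agent.SG.Run
end
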