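import Pool.Agent.Lib.MP_8b9a2e_co.Mg.G003

section

set_option autoImplicit false
set_option maxRecDepth 100000

namespace Pool.Agent.SG.Run

theorem c20_3 : DP.cell 20 8192 16860 17101 13 = true := by decide +kernel
theorem c20_9 : DP.cell 20 8192 17784 17920 12 = true := by decide +kernel
theorem c20_15 : DP.cell 20 8192 18742 18927 12 = true := by decide +kernel
theorem c20_21 : DP.cell 20 8192 19527 19710 10 = true := by decide +kernel
theorem c20_27 : DP.cell 20 8192 20584 20776 10 = true := by decide +kernel
theorem c20_33 : DP.cell 20 8192 23428 26693 9 = true := by decide +kernel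

end Pool.Agent.SG.Run
end

section

set_option autoImplicit false
set_option maxRecDepth 100000

namespace Pool.Agent.SG.Run

theorem c20_4 : DP.cell 20 8192 17080 17195 11 = true := by decide +kernel
theorem c20_10 : DP.cell 20 8192 17899 18158 11 = true := by decide +kernel
theorem c20_16 : DP.cell 20 8192 18906 19010 9 = true := by decide +kernel
theorem c20_22 : DP.cell 20 8192 19689 19846 9 = true := by decide +kernel
theorem c20_28 : DP.cell 20 8192 20755 20970 10 = true := by decide +kernel
theorem c20_34 : DP.cell 20 8192 26672 163840 9 = true := by decide +kernel

end Pool.Agent.SG.Run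
end
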