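import Pool.Agent.Lib.MP_8b9a2e_co.Defs
import Pool.Agent.Lib.MP_8b9a2e_co.Mg.G001

section

set_option autoImplicit false

namespace Pool.Agent.SG

lemma mIneqV_M0 {y : ℝ} (hy : 36 / 25 ≤ y) : 0 ≤ Mlow y := by
  unfold Mlow Mf
  split_ifs
  · positivity
  · norm_num

lemma mIneqV_key1 {y : ℝ} (hy : 36 / 25 ≤ y) : Mlow y * (y + 1 / y) ^ 2 ≤ 4 * y ^ 2 := by
  have hy0 : 0 < y := by linarith
  have e : (y + 1 / y) ^ 2 = (y ^ 2 + 1) ^ 2 / y ^ 2 := by field_simp
  rw [e, mul_div_assoc', div_le_iff₀ (by positivity)]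
  unfold Mlow Mf
  split_ifs with h
  · rw [div_mul_eq_mul_div, div_le_iff₀ (by positivity)]
    have h1 : (y + 1) * (y ^ 2 + 1) ^ 2 ≤ y * (y ^ 2 + y + 1) ^ 2 := by
      nlinarith [pow_pos hy0 3, pow_pos hy0 4]
    have h2 : 0 ≤ 4 * y ^ 3 := by positivity
    nlinarith [mul_le_mul_of_nonneg_left h1 h2]
  · have h1 : (y ^ 2 + 1) ≤ 3 / 2 * y ^ 2 := by nlinarith
    have h2 : 2 ≤ y ^ 2 := by nlinarith
    nlinarith [sq_nonneg (y ^ 2 - 2)]

lemma mIneqV_key2 {y : ℝ} (hy : 36 / 25 ≤ y) : Mlow y ≤ y ^ 2 := by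
  have hy0 : 0 < y := by linarith
  unfold Mlow Mf
  split_ifs with h
  · rw [div_le_iff₀ (by positivity)]
    have h1 : 4 * (y * (y + 1)) ≤ (y ^ 2 + y + 1) ^ 2 := by nlinarith [sq_nonneg (y ^ 2 + y - 1)]
    have h2 : 0 ≤ y ^ 2 := by positivity
    nlinarith [mul_le_mul_of_nonneg_left h1 h2]
  · nlinarith

lemma mIneqV_L1 {t c : ℝ} (ht : 0 < t) (hc : 0 < c) (h : 1 / t ≤ c) :
    Lf t 0 c = (t - 1 / t) / (lam t * (1 / c) - 1) := by
  unfold Lf
  rw [if_pos h]
  have e : lam t * (1 / c) - 1 = (lam t - c) / c := by field_simp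
  rw [e]
  by_cases h0 : lam t - c = 0
  · rw [h0]; simp
  · field_simp
    ring

lemma mIneqV_L2 {t c : ℝ} (ht : 0 < t) (hc : 0 < c) (h : ¬ 1 / t ≤ c) :
    Lf t 0 c = (t - 1 / t) ^ 2 / (t * (t * (1 / c) - 1)) := by
  unfold Lf
  rw [if_neg h]
  have e : t * (1 / c) - 1 = (t - c) / c := by field_simp
  rw [e]
  by_cases h0 : t - c = 0
  · rw [h0]; simp
  · field_simp
    ring

lemma mIneqV_B {t c d : ℝ} (ht : 6 / 5 ≤ t) (hc : 0 < c) (hd : 0 < d)
    (hd1 : d < lam t) (hcd : 1 / c + 1 / d ≤ lam t) (hlt : ¬ 1 / t ≤ c) :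
    Mlow (t ^ 2) * (t - 1 / t) ^ 2 / t ^ 4 ≤ Lf t 0 c * Lf t 0 d := by
  have ht0 : 0 < t := by linarith
  have hy : (36 : ℝ) / 25 ≤ t ^ 2 := by nlinarith
  have hl : lam t = t + 1 / t := rfl
  have hct : c < 1 / t := not_le.1 hlt
  have hw1 : t < 1 / c := by
    rw [lt_div_iff₀ hc]
    rw [lt_div_iff₀ ht0] at hct
    linarith
  have hd2 : 1 / t ≤ d := by
    have h1 : 1 / d < 1 / t := by linarith
    have h2 : t < d := by
      rw [div_lt_div_iff₀ hd ht0] at h1
      linarith
    have h3 : 1 / t ≤ 1 := by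
      rw [div_le_one ht0]; linarith
    linarith
  rw [mIneqV_L2 ht0 hc hlt, mIneqV_L1 ht0 hd hd2]
  set w1 := 1 / c with hw1d
  set w2 := 1 / d with hw2d
  set δ := t - 1 / t with hδ
  have hδ1 : δ = (t ^ 2 - 1) / t := by rw [hδ]; field_simp
  have hδ0 : 0 < δ := by
    rw [hδ1]; apply div_pos _ ht0; nlinarith
  have hq : 0 < lam t * w2 - 1 := by
    have : 1 < lam t * w2 := by
      rw [hw2d, mul_one_div, lt_div_iff₀ hd]; linarith
    linarith
  have hp : 0 < t * w1 - 1 := by
    have : t * t < t * w1 := mul_lt_mul_of_pos_left hw1 ht0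
    nlinarith
  -- main bound
  have hlt2 : t * lam t = t ^ 2 + 1 := by rw [hl]; field_simp
  have hmain : t * (t * w1 - 1) * (lam t * w2 - 1) ≤ δ := by
    have h1 : lam t * w2 - 1 ≤ lam t * (lam t - w1) - 1 := by
      have : w2 ≤ lam t - w1 := by linarith
      have hl0 : 0 < lam t := by rw [hl]; positivity
      nlinarith [mul_le_mul_of_nonneg_left this hl0.le]
    have h2 : t * (t * w1 - 1) * (lam t * w2 - 1) ≤ t * (t * w1 - 1) * (lam t * (lam t - w1) - 1) :=
      mul_le_mul_of_nonneg_left h1 (by positivity)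
    refine h2.trans ?_
    have h3 : t * (lam t * (lam t - w1) - 1) = (t ^ 2 + 1) * (lam t - w1) - t := by
      rw [← hlt2]; ring
    have h4 : t * (t * w1 - 1) * (lam t * (lam t - w1) - 1)
        = (t * w1 - 1) * ((t ^ 2 + 1) * (lam t - w1) - t) := by
      rw [← h3]; ring
    rw [h4, hδ1, le_div_iff₀ ht0]
    have h5 : (t * w1 - 1) * ((t ^ 2 + 1) * (lam t - w1) - t) * t
        = (t * w1 - 1) * ((t ^ 2 + 1) * (t ^ 2 + 1 - t * w1) - t ^ 2) := by
      rw [← hlt2]; ring
    rw [h5]
    obtain ⟨s, hs⟩ : ∃ s, t * w1 = t ^ 2 + s := ⟨t * w1 - t ^ 2, by ring⟩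
    have hs0 : 0 ≤ s := by nlinarith [mul_lt_mul_of_pos_left hw1 ht0]
    rw [hs]
    have hy2 : 2 ≤ (t ^ 2) ^ 2 := by nlinarith
    nlinarith [mul_nonneg hs0 hs0, mul_nonneg hs0 (sub_nonneg.2 hy2), mul_nonneg (mul_nonneg hs0 hs0) (by positivity : (0:ℝ) ≤ t ^ 2)]
  have hprod : δ ^ 2 ≤ δ ^ 2 / (t * (t * w1 - 1)) * (δ / (lam t * w2 - 1)) := by
    rw [div_mul_div_comm, le_div_iff₀ (by positivity)]
    have := mul_le_mul_of_nonneg_left hmain (sq_nonneg δ)
    linarith
  refine le_trans ?_ hprod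
  have hk := mIneqV_key2 hy
  rw [div_le_iff₀ (by positivity)]
  have : Mlow (t ^ 2) * δ ^ 2 ≤ (t ^ 2) ^ 2 * δ ^ 2 := mul_le_mul_of_nonneg_right hk (sq_nonneg δ)
  nlinarith

/-- vertex type -/
theorem mV {t c d : ℝ} (ht : 6 / 5 ≤ t) (hc : 0 < c) (hd : 0 < d) (hc1 : c < lam t)
    (hd1 : d < lam t) (hcd : 1 / c + 1 / d ≤ lam t) :
    Mlow (t ^ 2) * (t - 1 / t) ^ 2 / t ^ 4 ≤ Lf t 0 c * Lf t 0 d := by
  by_cases h1 : 1 / t ≤ c
  · by_cases h2 : 1 / t ≤ d
    · have ht0 : 0 < t := by linarith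
      have hy : (36 : ℝ) / 25 ≤ t ^ 2 := by nlinarith
      have hl : lam t = t + 1 / t := rfl
      rw [mIneqV_L1 ht0 hc h1, mIneqV_L1 ht0 hd h2]
      set w1 := 1 / c with hw1d
      set w2 := 1 / d with hw2d
      set δ := t - 1 / t with hδ
      have hl0 : 0 < lam t := by rw [hl]; positivity
      have hp : 0 < lam t * w1 - 1 := by
        have : 1 < lam t * w1 := by
          rw [hw1d, mul_one_div, lt_div_iff₀ hc]; linarith
        linarith
      have hq : 0 < lam t * w2 - 1 := by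
        have : 1 < lam t * w2 := by
          rw [hw2d, mul_one_div, lt_div_iff₀ hd]; linarith
        linarith
      have hs : (lam t * w1 - 1) + (lam t * w2 - 1) ≤ t ^ 2 + 1 / t ^ 2 := by
        have h3 : lam t * (w1 + w2) ≤ lam t * lam t := mul_le_mul_of_nonneg_left hcd hl0.le
        have h4 : lam t * lam t = t ^ 2 + 2 + 1 / t ^ 2 := by rw [hl]; field_simp; ring
        linarith
      set p := lam t * w1 - 1
      set q := lam t * w2 - 1
      have hpq : 4 * (p * q) ≤ (t ^ 2 + 1 / t ^ 2) ^ 2 := by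
        have h5 : (p + q) ^ 2 ≤ (t ^ 2 + 1 / t ^ 2) ^ 2 := by
          apply pow_le_pow_left₀ (by positivity) hs
        nlinarith [sq_nonneg (p - q)]
      rw [div_mul_div_comm, div_le_div_iff₀ (by positivity) (by positivity)]
      have hk := mIneqV_key1 hy
      have hM := mIneqV_M0 hy
      have h6 : Mlow (t ^ 2) * (4 * (p * q)) ≤ Mlow (t ^ 2) * (t ^ 2 + 1 / t ^ 2) ^ 2 :=
        mul_le_mul_of_nonneg_left hpq hM
      have h7 : Mlow (t ^ 2) * (p * q) ≤ (t ^ 2) ^ 2 := by linarith
      have h8 := mul_le_mul_of_nonneg_right h7 (sq_nonneg δ)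
      nlinarith
    · have h := mIneqV_B ht hd hc hc1 (by linarith) h2
      linarith [mul_comm (Lf t 0 c) (Lf t 0 d)]
  · exact mIneqV_B ht hc hd hd1 hcd h1

end Pool.Agent.SG
end

section

set_option autoImplicit false

namespace Pool.Agent.SG

theorem time {t μ a c Q : ℝ} {f : Fo} (ht : 1 < t) (hμ : μ < lam t) (hp : PP μ f)
    (ha : 0 ≤ a) (hc : 0 < c) (hfa : gs μ f = μ + a) (hfc : gs (lam t) f = lam t - c)
    (hg : (lam t - μ) * (t * (1 + t ^ 4)) ≤ 1)
    (H : ∀ l, μ ≤ l → l ≤ lam t → t ≤ gs l f →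
      (t - 1 / t) ^ 2 * (1 + ds l f) ≤ Q * (gs l f - 1 / t) ^ 2) :
    Lf t a c ≤ (lam t - μ) * Q := by
  have ht0 : 0 < t := by linarith
  set L := lam t with hL
  have hLt : L = t + 1 / t := rfl
  have hti : 0 < 1 / t := by positivity
  have hti1 : 1 / t < 1 := by rw [div_lt_one ht0]; exact ht
  have htt : t * (1 / t) = 1 := by field_simp
  set u := 1 / t with hu
  set δ := t - u with hδ
  have hδ0 : 0 < δ := by rw [hδ]; linarith
  set g := L - μ with hgdef
  have hg0 : 0 < g := by rw [hgdef]; linarith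
  have hδt : δ * t = t ^ 2 - 1 := by rw [hδ]; linear_combination -htt
  -- g ≤ 1/t
  have ht4 : 1 < t ^ 4 := one_lt_pow₀ ht (by norm_num)
  have hgt : g * t ≤ 1 / (1 + t ^ 4) := by
    rw [le_div_iff₀ (by positivity)]
    have : g * t * (1 + t ^ 4) = (L - μ) * (t * (1 + t ^ 4)) := by rw [hgdef]; ring
    rw [this]; exact hg
  have hgt1 : g * t ≤ 1 := by
    refine hgt.trans ?_
    rw [div_le_one (by positivity)]; linarith
  have hgu : g ≤ u := by
    rw [hu, le_div_iff₀ ht0]; exact hgt1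
  have hμt : t ≤ gs μ f := by rw [hfa]; linarith
  have hDμ := H μ le_rfl hμ.le hμt
  rw [hfa] at hDμ
  have hD0 : ∀ l, 1 ≤ 1 + ds l f := fun l => by linarith [ds_nonneg l f]
  have hfnil : f ≠ .nil := by
    rintro rfl
    simp [gs] at hμt
    linarith
  -- Q > 0
  have hQ0 : 0 < Q := by
    by_contra hcon
    push Not at hcon
    have h1 : 0 < δ ^ 2 * (1 + ds μ f) := by
      have := hD0 μ
      positivity
    have h2 : Q * (μ + a - u) ^ 2 ≤ 0 := mul_nonpos_of_nonpos_of_nonneg hcon (sq_nonneg _)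
    linarith
  have hta : 0 < t + a := by linarith
  -- D(μ) ≤ Q ((t+a)/δ)^2
  have hDμ' : 1 + ds μ f ≤ Q * ((t + a) / δ) ^ 2 := by
    rw [div_pow, mul_div_assoc', le_div_iff₀ (by positivity)]
    have h1 : (μ + a - u) ^ 2 ≤ (t + a) ^ 2 := by
      have h2 : 0 ≤ μ + a - u := by rw [hfa] at hμt; linarith
      have h3 : μ + a - u ≤ t + a := by linarith
      exact pow_le_pow_left₀ h2 h3 2
    have := mul_le_mul_of_nonneg_left h1 hQ0.le
    linarith
  -- product of two D bounds with cs
  have hcs : ∀ l, μ ≤ l → ∀ B, 0 ≤ B → 1 + ds l f ≤ Q * B ^ 2 →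
      (l - μ + (gs μ f - gs l f)) ≤ (l - μ) * (Q * ((t + a) / δ) * B) := by
    intro l hl B hB hDl
    have h1 := cs hp hl
    have h2 : (1 + ds μ f) * (1 + ds l f) ≤ (Q * ((t + a) / δ) ^ 2) * (Q * B ^ 2) :=
      mul_le_mul hDμ' hDl (by linarith [hD0 l]) (by positivity)
    have h3 : (l - μ) ^ 2 * ((1 + ds μ f) * (1 + ds l f)) ≤
        ((l - μ) * (Q * ((t + a) / δ) * B)) ^ 2 := by
      have := mul_le_mul_of_nonneg_left h2 (sq_nonneg (l - μ))
      calc _ ≤ _ := this
        _ = _ := by ring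
    have h4 : 0 ≤ (l - μ) * (Q * ((t + a) / δ) * B) := by
      apply mul_nonneg (by linarith); positivity
    exact le_of_sq_le_sq (h1.trans h3) h4
  unfold Lf
  split_ifs with hcase
  · -- c ≥ 1/t
    set e := c - u with he
    have he0 : 0 ≤ e := by rw [he]; linarith
    have hLc : 0 < L - c := by
      have := gs_pos (PP_mono hp hμ.le) hfnil
      rw [hfc] at this; exact this
    have hLce : L - c = t - e := by rw [he]; linarith
    obtain ⟨m, hm1, hm2, hm3⟩ := exists_gs_eq (s := t) hp hμ.le (by rw [hfc]; linarith) hμt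
    have hDm := H m hm1 hm2 hm3.ge
    rw [hm3] at hDm
    have hDm' : 1 + ds m f ≤ Q * 1 ^ 2 := by
      have h1 : (0 : ℝ) < (t - u) ^ 2 := by positivity
      have h2 : (t - u) ^ 2 * (1 + ds m f) ≤ (t - u) ^ 2 * Q := by linarith
      have := le_of_mul_le_mul_left h2 h1
      linarith
    have h1 := hcs m hm1 1 zero_le_one hDm'
    rw [hm3, hfa] at h1
    set g1 := m - μ with hg1
    set g2 := L - m with hg2
    have hg12 : g = g1 + g2 := by rw [hgdef, hg1, hg2]; ring
    have hg1n : 0 ≤ g1 := by rw [hg1]; linarith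
    have hg2n : 0 ≤ g2 := by rw [hg2]; linarith
    -- first step
    have h2 : a + u - g2 ≤ g1 * (Q * ((t + a) / δ)) := by
      have : g1 + (μ + a - t) = a + u - g2 := by rw [hg1, hg2]; linarith
      rw [this] at h1
      linarith
    have h2' : δ * (a + u - g2) ≤ g1 * Q * (t + a) := by
      have h3 := mul_le_mul_of_nonneg_left h2 hδ0.le
      have h4 : δ * (g1 * (Q * ((t + a) / δ))) = g1 * Q * (t + a) := by field_simp
      linarith
    -- second step
    have h3 := conc (PP_mono hp hm1) hm2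
    rw [hm3, hfc] at h3
    have hds : ds m f ≤ Q := by linarith
    have h4 : t * e ≤ g2 * Q * (L - c) := by
      have h5 : (L - c) * (t + (L - m) * ds m f) ≤ (L - c) * (t + g2 * Q) := by
        apply mul_le_mul_of_nonneg_left _ hLc.le
        have := mul_le_mul_of_nonneg_left hds hg2n
        linarith
      have h6 : t * e = t ^ 2 - (L - c) * t := by rw [hLce]; ring
      have h7 : (L - c) * (t + g2 * Q) = (L - c) * t + g2 * Q * (L - c) := by ring
      linarith
    -- Q ≥ y (y-1) = t^3 δ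
    have hQ1 : t ^ 3 * δ ≤ Q := by
      have h6 : g1 ≤ g := by linarith
      have h7 : g2 ≤ g := by linarith
      have h8 : δ * (a + u - g) ≤ g * Q * (t + a) := by
        have h9 : g1 * Q * (t + a) ≤ g * Q * (t + a) := by
          apply mul_le_mul_of_nonneg_right _ hta.le
          exact mul_le_mul_of_nonneg_right h6 hQ0.le
        have h9' : δ * (a + u - g) ≤ δ * (a + u - g2) :=
          mul_le_mul_of_nonneg_left (by linarith) hδ0.le
        linarith
      -- (a+u-g)/(t+a) ≥ (u-g)/t ; (u - g) ≥ t^4 g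
      have h10 : t ^ 4 * g ≤ u - g := by
        have h11 : g * t * (1 + t ^ 4) ≤ 1 := by
          have : g * t * (1 + t ^ 4) = (L - μ) * (t * (1 + t ^ 4)) := by rw [hgdef]; ring
          rw [this]; exact hg
        have h12 : g * (1 + t ^ 4) ≤ u := by
          rw [hu, le_div_iff₀ ht0]; linarith
        linarith
      have h13 : t ^ 3 * g * (t + a) ≤ a + u - g := by
        have h14 : t ^ 3 * g ≤ 1 := by
          have h15 : t ^ 3 * g * t ≤ 1 * t := by
            have : t ^ 3 * g * t = t ^ 4 * g := by ring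
            linarith
          exact le_of_mul_le_mul_right h15 ht0
        have h15 := mul_le_mul_of_nonneg_right h14 ha
        have : t ^ 3 * g * (t + a) = t ^ 4 * g + t ^ 3 * g * a := by ring
        linarith
      have h16 : δ * (t ^ 3 * g * (t + a)) ≤ g * Q * (t + a) :=
        (mul_le_mul_of_nonneg_left h13 hδ0.le).trans h8
      have h17 : (g * (t + a)) * (t ^ 3 * δ) ≤ (g * (t + a)) * Q := by linarith
      exact le_of_mul_le_mul_left h17 (by positivity)
    -- conclusion
    rw [div_le_iff₀ (by positivity)]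
    -- goal: (t-u) * t * (a+c) ≤ g * Q * ((t+a)*(L-c))
    have hkey : δ * t * (a + c) = (L - c) * (δ * (a + u)) + t * e * (t + a) - e * (a * u + u * u) := by
      have : c = u + e := by rw [he]; ring
      rw [hLce, this, hδ]
      ring
    have h20 : (L - c) * (δ * (a + u - g2)) ≤ (L - c) * (g1 * Q * (t + a)) :=
      mul_le_mul_of_nonneg_left h2' hLc.le
    have h21 : t * e * (t + a) ≤ g2 * Q * (L - c) * (t + a) :=
      mul_le_mul_of_nonneg_right h4 hta.le
    -- need to absorb (L-c) δ g2 : write g2 = x with x Q (L-c) ≥ t e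
    -- excess: (g2 Q (L-c) - t e)(t+a) ≥ 0 and Q (t+a) ≥ δ
    have h22 : (L - c) * δ * g2 ≤ (g2 * Q * (L - c) - t * e) * (t + a) + e * (a * u + u * u) := by
      -- let X = g2 (L-c) ; X Q ≥ t e.  want δ X ≤ (Q X - t e)(t+a) + e (a u + u²)
      set X := g2 * (L - c) with hX
      have hXQ : t * e ≤ X * Q := by rw [hX]; linarith
      have hX0 : 0 ≤ X := mul_nonneg hg2n hLc.le
      have h23 : δ ≤ Q * (t + a) := by
        have h24 : δ ≤ t ^ 3 * δ := by
          have : 1 ≤ t ^ 3 := one_le_pow₀ ht.le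
          have := mul_le_mul_of_nonneg_right this hδ0.le
          linarith
        have h24' : Q * 1 ≤ Q * (t + a) := mul_le_mul_of_nonneg_left (by linarith) hQ0.le
        linarith
      -- δ X = δ (X - te/Q) + δ t e/Q ≤ Q(t+a)(X - te/Q) + ...
      have h25 : δ * (X * Q - t * e) ≤ Q * (t + a) * (X * Q - t * e) :=
        mul_le_mul_of_nonneg_right h23 (by linarith)
      have h26 : δ * t * e ≤ Q * (e * (a * u + u * u)) := by
        have h27 : t ^ 3 * δ * (u * u) = δ * t := by
          have : t ^ 3 * (u * u) = t * (t * u) * (t * u) := by ring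
          rw [htt] at this
          linear_combination δ * this
        have h28 : t ^ 3 * δ * (u * u) ≤ Q * (a * u + u * u) := by
          have h29 : t ^ 3 * δ * (u * u) ≤ Q * (u * u) :=
            mul_le_mul_of_nonneg_right hQ1 (by positivity)
          have h30 : 0 ≤ Q * (a * u) := by positivity
          linarith
        have := mul_le_mul_of_nonneg_right h28 he0
        rw [h27] at this
        linarith
      have h31 : Q * (δ * X) ≤ Q * ((X * Q - t * e) * (t + a) + e * (a * u + u * u)) := by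
        linarith
      have h32 := le_of_mul_le_mul_left h31 hQ0
      have h33 : (L - c) * δ * g2 = δ * X := by rw [hX]; ring
      have h34 : (g2 * Q * (L - c) - t * e) = (X * Q - t * e) := by rw [hX]; ring
      rw [h33, h34]; exact h32
    rw [hkey, hg12]
    linarith
  · push Not at hcase
    have hgsL : t ≤ gs L f := by rw [hfc]; linarith
    have hDL := H L hμ.le le_rfl hgsL
    rw [hfc] at hDL
    have htc : 0 < t - c := by linarith
    have hDL' : 1 + ds L f ≤ Q * ((t - c) / δ) ^ 2 := by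
      rw [div_pow, mul_div_assoc', le_div_iff₀ (by positivity)]
      have : L - c - u = t - c := by rw [hLt]; ring
      rw [this] at hDL
      linarith
    have h1 := hcs L hμ.le ((t - c) / δ) (by positivity) hDL'
    rw [hfa, hfc] at h1
    have h2 : L - μ + (μ + a - (L - c)) = a + c := by ring
    rw [h2] at h1
    rw [div_le_iff₀ (by positivity)]
    have h3 := mul_le_mul_of_nonneg_left h1 (sq_nonneg δ)
    have h4 : δ ^ 2 * ((L - μ) * (Q * ((t + a) / δ) * ((t - c) / δ))) =
        (L - μ) * Q * ((t + a) * (t - c)) := by field_simp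
    rw [h4] at h3
    exact h3

end Pool.Agent.SG
end

section

set_option autoImplicit false

namespace Pool.Agent.SG

/-- `y ^ e ≥ 1 + e log y` -/
theorem CalcK1_lin {y e : ℝ} (hy : 0 < y) : 1 + e * Real.log y ≤ y ^ e := by
  rw [Real.rpow_def_of_pos hy]
  have := Real.add_one_le_exp (Real.log y * e)
  linarith

theorem CalcK1_log2 {y : ℝ} (hy : 0 < y) : Real.log y ≤ y / 2 - 3068 / 10000 := by
  have h1 : Real.log (y / 2) ≤ y / 2 - 1 := Real.log_le_sub_one_of_pos (by positivity)
  rw [Real.log_div hy.ne' (by norm_num)] at h1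
  have := Real.log_two_lt_d9
  linarith

theorem CalcK1_log4 {y : ℝ} (hy : 0 < y) : Real.log y ≤ y / 4 + 3863 / 10000 := by
  have h1 : Real.log (y / 4) ≤ y / 4 - 1 := Real.log_le_sub_one_of_pos (by positivity)
  rw [Real.log_div hy.ne' (by norm_num)] at h1
  have h2 : Real.log 4 = 2 * Real.log 2 := by
    rw [show (4 : ℝ) = 2 ^ 2 by norm_num, Real.log_pow]; norm_num
  have := Real.log_two_lt_d9
  linarith

theorem CalcK1_log_low {y : ℝ} (h2 : 2 ≤ y) (h3 : y ≤ 3) : y / 3 ≤ Real.log y := by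
  have hy : 0 < y := by linarith
  have h1 : 1 - (y / 2)⁻¹ ≤ Real.log (y / 2) := Real.one_sub_inv_le_log_of_pos (by positivity)
  rw [Real.log_div hy.ne' (by norm_num)] at h1
  have h4 := Real.log_two_gt_d9
  have h5 : (y / 2)⁻¹ = 2 / y := by rw [inv_div]
  rw [h5] at h1
  have h6 : y / 3 ≤ 1.693 - 2 / y := by
    rw [div_le_iff₀ (by norm_num)]
    have : (1.693 - 2 / y) * 3 - y = (5.079 * y - 6 - y ^ 2) / y := by
      field_simp; ring
    have h7 : 0 ≤ (5.079 * y - 6 - y ^ 2) / y := by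
      apply div_nonneg _ hy.le
      nlinarith
    linarith
  linarith

/-- the case `r ≥ y` -/
theorem CalcK1_A {y r : ℝ} (hy : 2 ≤ y) (h1 : y ≤ r) (h2 : r ≤ y + 1 - y / (y + 1)) :
    FF y r ≤ 3 / 2 * y ^ ((y + 1) * (r - 1) * (y - r) / (y * r)) := by
  have hy0 : 0 < y := by linarith
  have hr0 : 0 < r := by linarith
  have hlog : 0 ≤ Real.log y := Real.log_nonneg (by linarith)
  have hb : y + 1 - y / (y + 1) = (y ^ 2 + y + 1) / (y + 1) := by
    field_simp; ring
  rw [hb] at h2
  have hr1 : r ≤ y + 1 := by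
    refine h2.trans ?_
    rw [div_le_iff₀ (by linarith)]; nlinarith
  have hF : FF y r ≤ 1 + (y - 1) / y ^ 3 := by
    unfold FF
    have : (y - 1) * (y + 1 - r) / (y * r ^ 2) ≤ (y - 1) / y ^ 3 := by
      rw [div_le_div_iff₀ (by positivity) (by positivity)]
      have h3 : y ^ 2 ≤ r ^ 2 := by nlinarith
      have h4 : (y + 1 - r) * y ^ 2 ≤ r ^ 2 := by
        have : (y + 1 - r) * y ^ 2 ≤ 1 * y ^ 2 :=
          mul_le_mul_of_nonneg_right (by linarith) (by positivity)
        linarith
      have h5 : 0 ≤ (y - 1) * y := by nlinarith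
      have := mul_le_mul_of_nonneg_left h4 h5
      nlinarith
    linarith
  have hE : -(y / (y ^ 2 + y + 1)) ≤ (y + 1) * (r - 1) * (y - r) / (y * r) := by
    have hd : (y + 1) * (r - 1) * (y - r) / (y * r) - -(y / (y ^ 2 + y + 1)) =
        ((y ^ 2 + y + 1) - r * (y + 1)) * ((y ^ 2 + y + 1) * r - y * (y + 1)) /
          (y * r * (y ^ 2 + y + 1)) := by
      field_simp
      ring
    have h3 : 0 ≤ (y ^ 2 + y + 1) - r * (y + 1) := by
      rw [le_div_iff₀ (by linarith)] at h2
      linarith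
    have h4 : 0 ≤ (y ^ 2 + y + 1) * r - y * (y + 1) := by nlinarith
    have h5 : 0 ≤ ((y ^ 2 + y + 1) - r * (y + 1)) * ((y ^ 2 + y + 1) * r - y * (y + 1)) /
          (y * r * (y ^ 2 + y + 1)) :=
      div_nonneg (mul_nonneg h3 h4) (by positivity)
    linarith
  have hlin := CalcK1_lin (e := (y + 1) * (r - 1) * (y - r) / (y * r)) hy0
  have h6 : -(y / (y ^ 2 + y + 1)) * Real.log y ≤
      (y + 1) * (r - 1) * (y - r) / (y * r) * Real.log y :=
    mul_le_mul_of_nonneg_right hE hlog
  have key : 1 + (y - 1) / y ^ 3 ≤ 3 / 2 * (1 - y / (y ^ 2 + y + 1) * Real.log y) := by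
    have hmain : ∀ L : ℝ, Real.log y ≤ L →
        0 ≤ y ^ 3 * (y ^ 2 + y + 1) - 3 * y ^ 4 * L - 2 * y ^ 3 + 2 →
        1 + (y - 1) / y ^ 3 ≤ 3 / 2 * (1 - y / (y ^ 2 + y + 1) * Real.log y) := by
      intro L hL hP
      have h7 : y / (y ^ 2 + y + 1) * Real.log y ≤ y / (y ^ 2 + y + 1) * L :=
        mul_le_mul_of_nonneg_left hL (by positivity)
      have h8 : 3 / 2 * (1 - y / (y ^ 2 + y + 1) * L) - (1 + (y - 1) / y ^ 3) =
          (y ^ 3 * (y ^ 2 + y + 1) - 3 * y ^ 4 * L - 2 * y ^ 3 + 2) /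
            (2 * y ^ 3 * (y ^ 2 + y + 1)) := by
        field_simp
        ring
      have h9 : 0 ≤ (y ^ 3 * (y ^ 2 + y + 1) - 3 * y ^ 4 * L - 2 * y ^ 3 + 2) /
            (2 * y ^ 3 * (y ^ 2 + y + 1)) := div_nonneg hP (by positivity)
      linarith
    rcases le_total y (5 / 2) with h | h
    · apply hmain _ (CalcK1_log2 hy0)
      have h10 : 0 ≤ -(1 / 2) * y ^ 2 + 19204 / 10000 * y - 1 := by nlinarith
      have h11 : y ^ 3 * (y ^ 2 + y + 1) - 3 * y ^ 4 * (y / 2 - 3068 / 10000) - 2 * y ^ 3 + 2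
          = y ^ 3 * (-(1 / 2) * y ^ 2 + 19204 / 10000 * y - 1) + 2 := by ring
      rw [h11]
      positivity
    · apply hmain _ (CalcK1_log4 hy0)
      have h10 : 0 ≤ 1 / 4 * y ^ 2 - 1589 / 10000 * y - 1 := by nlinarith
      have h11 : y ^ 3 * (y ^ 2 + y + 1) - 3 * y ^ 4 * (y / 4 + 3863 / 10000) - 2 * y ^ 3 + 2
          = y ^ 3 * (1 / 4 * y ^ 2 - 1589 / 10000 * y - 1) + 2 := by ring
      rw [h11]
      positivity
  linarith

/-- the case `r ≤ y`, `y ≤ 3` -/
theorem CalcK1_B {y r : ℝ} (hy : 2 ≤ y) (hy3 : y ≤ 3) (h1 : 1 + 1 / y ≤ r) (h2 : r ≤ y) :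
    FF y r ≤ 3 / 2 * y ^ ((y + 1) * (r - 1) * (y - r) / (y * r)) := by
  have hy0 : 0 < y := by linarith
  have hr : 4 / 3 ≤ r := by
    have : 1 / 3 ≤ 1 / y := one_div_le_one_div_of_le hy0 hy3
    linarith
  have hr0 : 0 < r := by linarith
  have hlog := CalcK1_log_low hy hy3
  have hlin := CalcK1_lin (e := (y + 1) * (r - 1) * (y - r) / (y * r)) hy0
  have hE : 0 ≤ (y + 1) * (r - 1) * (y - r) / (y * r) :=
    div_nonneg (mul_nonneg (mul_nonneg (by linarith) (by linarith)) (by linarith)) (by positivity)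
  have h3 := mul_le_mul_of_nonneg_left hlog hE
  have key : FF y r ≤ 3 / 2 * (1 + (y + 1) * (r - 1) * (y - r) / (y * r) * (y / 3)) := by
    have h4 : 3 / 2 * (1 + (y + 1) * (r - 1) * (y - r) / (y * r) * (y / 3)) - FF y r =
        (y / 2 * (r ^ 2 + (y + 1) * (y - r) * ((r - 1) * r)) - (y - 1) * (y + 1 - r)) /
          (y * r ^ 2) := by
      unfold FF
      field_simp
      ring
    have h5 : 4 / 9 ≤ (r - 1) * r := by nlinarith
    have h6 : 16 / 9 ≤ r ^ 2 := by nlinarith
    have h7 : 0 ≤ (y + 1) * (y - r) := mul_nonneg (by linarith) (by linarith)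
    have h8 : (y + 1) * (y - r) * (4 / 9) ≤ (y + 1) * (y - r) * ((r - 1) * r) :=
      mul_le_mul_of_nonneg_left h5 h7
    have h9 : y / 2 * (16 / 9 + (y + 1) * (y - r) * (4 / 9)) ≤
        y / 2 * (r ^ 2 + (y + 1) * (y - r) * ((r - 1) * r)) :=
      mul_le_mul_of_nonneg_left (by linarith) (by linarith)
    have h10 : y / 2 * (16 / 9 + (y + 1) * (y - r) * (4 / 9)) - (y - 1) * (y + 1 - r) =
        (1 - y / 9) + (y - r) * (2 / 9 * y ^ 2 - 7 / 9 * y + 1) := by ring
    have h11 : 0 ≤ 2 / 9 * y ^ 2 - 7 / 9 * y + 1 := by nlinarith [sq_nonneg (y - 7 / 4)]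
    have h12 : 0 ≤ (y - r) * (2 / 9 * y ^ 2 - 7 / 9 * y + 1) := mul_nonneg (by linarith) h11
    have h13 : 0 ≤ (y / 2 * (r ^ 2 + (y + 1) * (y - r) * ((r - 1) * r)) -
        (y - 1) * (y + 1 - r)) / (y * r ^ 2) := div_nonneg (by linarith) (by positivity)
    linarith
  linarith

/-- the case `y ≥ 3`, `r ≤ y - 1` -/
theorem CalcK1_C {y r : ℝ} (hy : 3 ≤ y) (h1 : 1 + 1 / y ≤ r) (h2 : r ≤ y - 1) :
    FF y r ≤ 3 / 2 * y ^ ((y + 1) * (r - 1) * (y - r) / (y * r)) := by
  have hy0 : 0 < y := by linarith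
  have hi : 0 < 1 / y := by positivity
  have hr0 : 0 < r := by linarith
  have hlog : 0 ≤ Real.log y := Real.log_nonneg (by linarith)
  have h1' : y + 1 ≤ r * y := by
    have := mul_le_mul_of_nonneg_right h1 hy0.le
    have h : (1 + 1 / y) * y = y + 1 := by field_simp
    linarith
  have hF : FF y r ≤ 1 + (y - 1) ^ 2 / (y + 1) := by
    unfold FF
    have : (y - 1) * (y + 1 - r) / (y * r ^ 2) ≤ (y - 1) ^ 2 / (y + 1) := by
      rw [div_le_div_iff₀ (by positivity) (by positivity)]
      have h3 : (y + 1 - r) * (y + 1) ≤ (y - 1) * (y * r ^ 2) := by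
        have h4 : (y + 1 - r) * y ≤ y ^ 2 - 1 := by nlinarith
        have h5 : (y + 1) ^ 2 ≤ (r * y) ^ 2 := by nlinarith
        have h6 : y * ((y + 1 - r) * (y + 1)) ≤ y * ((y - 1) * (y * r ^ 2)) := by
          have h7 : y * ((y + 1 - r) * (y + 1)) ≤ (y ^ 2 - 1) * (y + 1) := by nlinarith
          have h8 : (y ^ 2 - 1) * (y + 1) = (y - 1) * (y + 1) ^ 2 := by ring
          have h9 : (y - 1) * (y + 1) ^ 2 ≤ (y - 1) * (r * y) ^ 2 :=
            mul_le_mul_of_nonneg_left h5 (by linarith)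
          nlinarith
        exact le_of_mul_le_mul_left h6 hy0
      have := mul_le_mul_of_nonneg_left h3 (by linarith : 0 ≤ y - 1)
      nlinarith
    linarith
  have hE : 1 - (1 / y + 1 / y ^ 2) ≤ (y + 1) * (r - 1) * (y - r) / (y * r) := by
    have hd : (y + 1) * (r - 1) * (y - r) / (y * r) - (1 - (1 / y + 1 / y ^ 2)) =
        (r * y - (y + 1)) * (y ^ 2 - r * (y + 1)) / (y ^ 2 * r) := by
      field_simp
      ring
    have h4 : 0 ≤ y ^ 2 - r * (y + 1) := by nlinarith
    have h5 : 0 ≤ (r * y - (y + 1)) * (y ^ 2 - r * (y + 1)) / (y ^ 2 * r) :=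
      div_nonneg (mul_nonneg (by linarith) h4) (by positivity)
    linarith
  have h6 : y * (1 - (1 / y + 1 / y ^ 2) * Real.log y) ≤
      y ^ ((y + 1) * (r - 1) * (y - r) / (y * r)) := by
    calc y * (1 - (1 / y + 1 / y ^ 2) * Real.log y)
        ≤ y * y ^ (-(1 / y + 1 / y ^ 2)) := by
          apply mul_le_mul_of_nonneg_left _ hy0.le
          have := CalcK1_lin (e := -(1 / y + 1 / y ^ 2)) hy0
          linarith
      _ = y ^ (1 - (1 / y + 1 / y ^ 2)) := by
          rw [sub_eq_add_neg, Real.rpow_add hy0, Real.rpow_one]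
      _ ≤ _ := Real.rpow_le_rpow_of_exponent_le (by linarith) hE
  have h7 : (1 / y + 1 / y ^ 2) * Real.log y ≤ (1 / y + 1 / y ^ 2) * (y / 4 + 3863 / 10000) :=
    mul_le_mul_of_nonneg_left (CalcK1_log4 hy0) (by positivity)
  have h8 : 1 + (y - 1) ^ 2 / (y + 1) ≤
      3 / 2 * (y * (1 - (1 / y + 1 / y ^ 2) * (y / 4 + 3863 / 10000))) := by
    have h9 : 3 / 2 * (y * (1 - (1 / y + 1 / y ^ 2) * (y / 4 + 3863 / 10000))) -
        (1 + (y - 1) ^ 2 / (y + 1)) =
        (3 / 2 * (y ^ 2 - (y + 1) * (y / 4 + 3863 / 10000)) * (y + 1) -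
          y * ((y + 1) + (y - 1) ^ 2)) / (y * (y + 1)) := by
      field_simp
    have h10 : 0 ≤ (3 / 2 * (y ^ 2 - (y + 1) * (y / 4 + 3863 / 10000)) * (y + 1) -
          y * ((y + 1) + (y - 1) ^ 2)) / (y * (y + 1)) := by
      apply div_nonneg _ (by positivity)
      have h11 : 0 ≤ y * (y - 3) * (y - 3) := by
        have : 0 ≤ (y - 3) * (y - 3) := mul_self_nonneg _
        nlinarith
      nlinarith
    linarith
  have h12 : y * (1 - (1 / y + 1 / y ^ 2) * (y / 4 + 3863 / 10000)) ≤
      y * (1 - (1 / y + 1 / y ^ 2) * Real.log y) :=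
    mul_le_mul_of_nonneg_left (by linarith) hy0.le
  linarith

theorem k1 {y r : ℝ} (hy : 2 ≤ y) (h1 : 1 + 1 / y ≤ r) (h2 : r ≤ y + 1 - y / (y + 1)) :
    FF y r ≤ 3 / 2 * y ^ ((y + 1) * (r - 1) * (y - r) / (y * r)) := by
  have hy0 : 0 < y := by linarith
  have hi : 0 < 1 / y := by positivity
  have hr0 : 0 < r := by linarith
  rcases le_total y r with h | h
  · exact CalcK1_A hy h h2
  · rcases le_total y 3 with h3 | h3
    · exact CalcK1_B hy h3 h1 h
    · rcases le_total r (y - 1) with h4 | h4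
      · exact CalcK1_C h3 h1 h4
      · have hE : 0 ≤ (y + 1) * (r - 1) * (y - r) / (y * r) :=
          div_nonneg (mul_nonneg (mul_nonneg (by linarith) (by linarith)) (by linarith))
            (by positivity)
        have h5 : 1 ≤ y ^ ((y + 1) * (r - 1) * (y - r) / (y * r)) :=
          Real.one_le_rpow (by linarith) hE
        have hF : FF y r ≤ 3 / 2 := by
          unfold FF
          have : (y - 1) * (y + 1 - r) / (y * r ^ 2) ≤ 1 / 2 := by
            rw [div_le_iff₀ (by positivity)]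
            have h6 : (y - 1) ^ 2 ≤ r ^ 2 := by nlinarith
            have h7 : (y - 1) * (y + 1 - r) ≤ (y - 1) * 2 :=
              mul_le_mul_of_nonneg_left (by linarith) (by linarith)
            have h8 : y * (y - 1) ^ 2 ≤ y * r ^ 2 := mul_le_mul_of_nonneg_left h6 hy0.le
            nlinarith
          linarith
        linarith

end Pool.Agent.SG
end

section

set_option autoImplicit false
open Classical

namespace Pool.Agent.SG

/-- forests with labelled vertices -/
inductive LF (V : Type) : Type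
  | nil : LF V
  | cons (v : V) (c r : LF V) : LF V

namespace LF
variable {V W : Type}

/-- forget the labels -/
def fo : LF V → Fo
  | .nil => .nil
  | .cons _ c r => .cons c.fo r.fo

def labels : LF V → List V
  | .nil => []
  | .cons v c r => v :: (c.labels ++ r.labels)

def roots : LF V → List V
  | .nil => []
  | .cons v _ r => v :: r.roots

/-- the tree with root `v` and forest of children `c` is a tree of the forest -/
def MemT (v : V) (c : LF V) : LF V → Prop
  | .nil => False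
  | .cons w d r => (v = w ∧ c = d) ∨ MemT v c r

end LF

/-- `F` is the forest of everything below the vertex `p` in `G` -/
def Good {V : Type} (G : SimpleGraph V) : V → LF V → Prop
  | _, .nil => True
  | p, .cons v c r => (∀ b, G.Adj v b ↔ b = p ∨ b ∈ c.roots) ∧ Good G v c ∧ Good G p r

/-- `G` seen from its edge `u w` -/
structure EdgeRep {V : Type} (G : SimpleGraph V) (u w : V) (F H : LF V) : Prop where
  nodup : (u :: w :: (F.labels ++ H.labels)).Nodup
  cover : ∀ v, v ∈ u :: w :: (F.labels ++ H.labels)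
  adju : ∀ b, G.Adj u b ↔ b = w ∨ b ∈ F.roots
  adjw : ∀ b, G.Adj w b ↔ b = u ∨ b ∈ H.roots
  goodF : Good G u F
  goodH : Good G w H

end Pool.Agent.SG
end

section

set_option autoImplicit false
open Classical

namespace Pool.Agent.SG

theorem structHarm_roots {V : Type} (F : LF V) : F.roots.Sublist F.labels := by
  induction F with
  | nil => exact List.Sublist.slnil
  | cons v c r _ ihr =>
    exact List.Sublist.cons_cons v (ihr.trans (List.sublist_append_right _ _))

theorem structHarm_length {V : Type} (F : LF V) : F.labels.length = F.fo.size := by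
  induction F with
  | nil => rfl
  | cons v c r ihc ihr =>
    simp only [LF.labels, LF.fo, Fo.size, List.length_cons, List.length_append, ihc, ihr]
    omega

variable {V : Type} [Fintype V]

theorem structHarm_sum {G : SimpleGraph V} {v p : V} {L : List V}
    (h : ∀ b, G.Adj v b ↔ b = p ∨ b ∈ L) (hp : p ∉ L) (hL : L.Nodup) (x : V → ℝ) :
    ∑ b ∈ G.neighborFinset v, x b = x p + (L.map x).sum := by
  have h1 : G.neighborFinset v = (p :: L).toFinset := by
    ext b
    rw [SimpleGraph.mem_neighborFinset, h, List.mem_toFinset, List.mem_cons]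
  rw [h1, List.sum_toFinset x (List.nodup_cons.2 ⟨hp, hL⟩), List.map_cons, List.sum_cons]

/-- a positive function satisfying the eigenvalue equation at all labels of `F` -/
theorem harm {G : SimpleGraph V} {p : V} {F : LF V} (hG : Good G p F)
    (hnd : (p :: F.labels).Nodup) {x : V → ℝ} {l : ℝ} (hp : 0 < x p)
    (hx : ∀ v ∈ F.labels, 0 < x v)
    (he : ∀ v ∈ F.labels, ∑ b ∈ G.neighborFinset v, x b = l * x v) :
    PP l F.fo ∧ gs l F.fo * x p = (F.roots.map x).sum := by
  induction F generalizing p with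
  | nil => simp [LF.fo, PP, gs, LF.roots]
  | cons v c r ihc ihr =>
    obtain ⟨hadj, hGc, hGr⟩ := hG
    simp only [LF.labels] at hnd hx he
    have hnd1 := (List.nodup_cons.1 hnd).2
    have hpn := (List.nodup_cons.1 hnd).1
    have hvn := (List.nodup_cons.1 hnd1).1
    have hcr := (List.nodup_cons.1 hnd1).2
    rw [List.nodup_append] at hcr
    have hpc : p ∉ c.labels := fun h => hpn (by simp [h])
    have hpr : p ∉ r.labels := fun h => hpn (by simp [h])
    have hvc : v ∉ c.labels := fun h => hvn (by simp [h])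
    have hxv : 0 < x v := hx v (by simp)
    obtain ⟨c1, c2⟩ := ihc hGc (List.nodup_cons.2 ⟨hvc, hcr.1⟩) hxv
      (fun b hb => hx b (by simp [hb])) (fun b hb => he b (by simp [hb]))
    obtain ⟨r1, r2⟩ := ihr hGr (List.nodup_cons.2 ⟨hpr, hcr.2.1⟩) hp
      (fun b hb => hx b (by simp [hb])) (fun b hb => he b (by simp [hb]))
    have hs := structHarm_sum hadj (fun h => hpc ((structHarm_roots c).subset h))
      ((structHarm_roots c).nodup hcr.1) x
    rw [he v (by simp), ← c2] at hs
    have hs' : (l - gs l c.fo) * x v = x p := by linarith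
    have hpos : 0 < l - gs l c.fo := by
      by_contra hcon
      push Not at hcon
      have : (l - gs l c.fo) * x v ≤ 0 := mul_nonpos_of_nonpos_of_nonneg hcon hxv.le
      linarith
    refine ⟨⟨c1, hpos, r1⟩, ?_⟩
    simp only [LF.fo, gs, LF.roots, List.map_cons, List.sum_cons]
    rw [add_mul, r2, ← hs']
    congr 1
    field_simp

/-- positivity goes down: if `x` is nonnegative on `F`, positive at `p`, and satisfies the
equation at all labels, then it is positive on `F` -/
theorem pos_down {G : SimpleGraph V} {p : V} {F : LF V} (hG : Good G p F)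
    {x : V → ℝ} {l : ℝ} (hp : 0 < x p) (hx : ∀ v ∈ F.labels, 0 ≤ x v)
    (he : ∀ v ∈ F.labels, ∑ b ∈ G.neighborFinset v, x b = l * x v) :
    ∀ v ∈ F.labels, 0 < x v := by
  induction F generalizing p with
  | nil => intro v hv; simp [LF.labels] at hv
  | cons v c r ihc ihr =>
    obtain ⟨hadj, hGc, hGr⟩ := hG
    simp only [LF.labels] at hx he
    have hxv : 0 < x v := by
      refine lt_of_le_of_ne (hx v (by simp)) ?_
      intro h0
      have h1 := he v (by simp)
      rw [← h0, mul_zero] at h1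
      have hnn : ∀ b ∈ G.neighborFinset v, 0 ≤ x b := by
        intro b hb
        rw [SimpleGraph.mem_neighborFinset, hadj] at hb
        rcases hb with rfl | hb
        · exact hp.le
        · exact hx b (by simp [(structHarm_roots c).subset hb])
      have h2 := (Finset.sum_eq_zero_iff_of_nonneg hnn).1 h1 p
        ((G.mem_neighborFinset v p).2 ((hadj p).2 (Or.inl rfl)))
      linarith
    intro b hb
    simp only [LF.labels, List.mem_cons, List.mem_append] at hb
    rcases hb with rfl | hb | hb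
    · exact hxv
    · exact ihc hGc hxv (fun b hb => hx b (by simp [hb])) (fun b hb => he b (by simp [hb])) b hb
    · exact ihr hGr hp (fun b hb => hx b (by simp [hb])) (fun b hb => he b (by simp [hb])) b hb

/-- sum over the neighbours of the vertex `u` of an edge representation -/
theorem EdgeRep.sum_u {G : SimpleGraph V} {u w : V} {F H : LF V} (h : EdgeRep G u w F H)
    (x : V → ℝ) : ∑ b ∈ G.neighborFinset u, x b = x w + (F.roots.map x).sum := by
  have h1 := h.nodup
  have h2 := (List.nodup_cons.1 h1).2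
  have h3 := (List.nodup_cons.1 h2).1
  have h4 := (List.nodup_cons.1 h2).2
  rw [List.nodup_append] at h4
  exact structHarm_sum h.adju
    (fun hh => h3 (List.mem_append_left _ ((structHarm_roots F).subset hh)))
    ((structHarm_roots F).nodup h4.1) x

theorem EdgeRep.symm {G : SimpleGraph V} {u w : V} {F H : LF V} (h : EdgeRep G u w F H) :
    EdgeRep G w u H F := by
  have hp : (u :: w :: (F.labels ++ H.labels)).Perm (w :: u :: (H.labels ++ F.labels)) :=
    (List.Perm.swap w u _).trans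
      (List.Perm.cons _ (List.Perm.cons _ List.perm_append_comm))
  exact ⟨hp.nodup_iff.1 h.nodup, fun v => hp.mem_iff.1 (h.cover v), h.adjw, h.adju, h.goodH,
    h.goodF⟩

theorem EdgeRep.card {G : SimpleGraph V} {u w : V} {F H : LF V} (h : EdgeRep G u w F H) :
    F.fo.size + H.fo.size + 2 = Fintype.card V := by
  have h1 : (u :: w :: (F.labels ++ H.labels)).toFinset = Finset.univ := by
    ext v
    simp only [List.mem_toFinset, Finset.mem_univ, iff_true]
    exact h.cover v
  have h2 := List.toFinset_card_of_nodup h.nodup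
  rw [h1, Finset.card_univ] at h2
  rw [h2, List.length_cons, List.length_cons, List.length_append, structHarm_length,
    structHarm_length]

end Pool.Agent.SG
end
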