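import Pool.Agent.Lib.MP_8b9a2e_co.Defs

section

set_option autoImplicit false

namespace Pool.Agent.SG

theorem calcK3_log {y a : ℝ} (hy : 0 < y) (ha : 0 < a) :
    Real.log y ≤ Real.log a + (y / a - 1) := by
  have h := Real.log_le_sub_one_of_pos (div_pos hy ha)
  rw [Real.log_div hy.ne' ha.ne'] at h
  linarith

theorem calcK3_log4 : Real.log 4 ≤ 1.3863 := by
  have : (4 : ℝ) = 2 ^ 2 := by norm_num
  rw [this, Real.log_pow]
  have := Real.log_two_lt_d9
  push_cast; linarith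

theorem calcK3_log8 : Real.log 8 ≤ 2.0795 := by
  have : (8 : ℝ) = 2 ^ 3 := by norm_num
  rw [this, Real.log_pow]
  have := Real.log_two_lt_d9
  push_cast; linarith

/-- the core inequality: `C = (y+1) log y` -/
theorem calcK3_core {y s : ℝ} (hy : 2 ≤ y) (hs0 : 0 ≤ s) (hs1 : s ≤ 1) :
    1 + (y - 1) * (y ^ 2 - s) / (y + s) ^ 2 ≤
      3 / 2 * (y * (1 - s * ((y + 1) * Real.log y / y ^ 2))) := by
  have hy0 : 0 < y := by linarith
  -- chord bound
  have hch : 1 + (y - 1) * (y ^ 2 - s) / (y + s) ^ 2 ≤ y - 2 * s * (y - 1) / (y + 1) := by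
    have hpos : 0 < (y + s) ^ 2 := by positivity
    have hpos' : 0 < y + 1 := by linarith
    have key : (y - 1) * (y ^ 2 - s) * (y + 1) ≤ (y - 1) * (y + 1 - 2 * s) * (y + s) ^ 2 := by
      have h1 : (y ^ 2 - s) * (y + 1) ≤ (y + 1 - 2 * s) * (y + s) ^ 2 := by
        nlinarith [mul_nonneg hs0 (sub_nonneg.2 hs1), mul_nonneg (mul_nonneg hs0 (sub_nonneg.2 hs1)) (sub_nonneg.2 hs1), mul_nonneg (mul_nonneg hs0 (sub_nonneg.2 hs1)) hs0, mul_nonneg (mul_nonneg hs0 (sub_nonneg.2 hs1)) (sub_nonneg.2 hy)]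
      have : 0 ≤ y - 1 := by linarith
      nlinarith [mul_le_mul_of_nonneg_left h1 this]
    have e1 : y - 2 * s * (y - 1) / (y + 1) = 1 + (y - 1) * (y + 1 - 2 * s) / (y + 1) := by
      field_simp; ring
    rw [e1]
    have : (y - 1) * (y ^ 2 - s) / (y + s) ^ 2 ≤ (y - 1) * (y + 1 - 2 * s) / (y + 1) := by
      rw [div_le_div_iff₀ hpos hpos']
      exact key
    linarith
  refine hch.trans ?_
  set c := (y + 1) * Real.log y / y ^ 2 with hc
  have hcy : ∀ b : ℝ, (y + 1) * Real.log y ≤ b * y ^ 2 → c ≤ b := by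
    intro b hb
    rw [hc, div_le_iff₀ (by positivity)]
    exact hb
  -- reduce to `s = 1`-type inequality
  have red : 3 / 2 * y * c - 2 * (y - 1) / (y + 1) ≤ y / 2 →
      y - 2 * s * (y - 1) / (y + 1) ≤ 3 / 2 * (y * (1 - s * c)) := by
    intro h
    have e : 2 * s * (y - 1) / (y + 1) = s * (2 * (y - 1) / (y + 1)) := by ring
    rw [e]
    nlinarith [mul_le_mul_of_nonneg_left h hs0, mul_nonneg hy0.le (sub_nonneg.2 hs1)]
  apply red
  have hfin : ∀ b : ℝ, c ≤ b → (3 * b - 1) * y * (y + 1) ≤ 4 * (y - 1) →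
      3 / 2 * y * c - 2 * (y - 1) / (y + 1) ≤ y / 2 := by
    intro b hb h
    have h1 : 3 / 2 * y * c ≤ 3 / 2 * y * b := by
      apply mul_le_mul_of_nonneg_left hb; positivity
    have h2 : (3 * b - 1) * y / 2 ≤ 2 * (y - 1) / (y + 1) := by
      rw [div_le_div_iff₀ (by norm_num) (by linarith)]
      nlinarith
    linarith
  rcases le_total y 3.7 with h37 | h37
  · have hl := calcK3_log hy0 (show (0:ℝ) < 2 by norm_num)
    have hl2 := Real.log_two_lt_d9
    have hl3 : Real.log y ≤ y / 2 - 0.3068 := by linarith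
    apply hfin 0.54
    · apply hcy
      have := mul_le_mul_of_nonneg_left hl3 (show 0 ≤ y + 1 by linarith)
      nlinarith [sq_nonneg (y - 2.4)]
    · nlinarith [mul_nonneg (sub_nonneg.2 hy) (sub_nonneg.2 h37)]
  rcases le_total y 8 with h8 | h8
  · have hl := calcK3_log hy0 (show (0:ℝ) < 4 by norm_num)
    have hl2 := calcK3_log4
    have hl3 : Real.log y ≤ y / 4 + 0.3863 := by linarith
    apply hfin 0.46
    · apply hcy
      have := mul_le_mul_of_nonneg_left hl3 (show 0 ≤ y + 1 by linarith)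
      nlinarith [mul_nonneg (sub_nonneg.2 h37) (sub_nonneg.2 h37)]
    · nlinarith [mul_nonneg (sub_nonneg.2 h37) (sub_nonneg.2 h8)]
  · have hl := calcK3_log hy0 (show (0:ℝ) < 8 by norm_num)
    have hl2 := calcK3_log8
    have hl3 : Real.log y ≤ y / 8 + 1.0795 := by linarith
    apply hfin (1 / 3)
    · apply hcy
      have := mul_le_mul_of_nonneg_left hl3 (show 0 ≤ y + 1 by linarith)
      nlinarith [mul_nonneg (sub_nonneg.2 h8) (sub_nonneg.2 h8)]
    · nlinarith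

theorem k3 {y r : ℝ} (hy : 2 ≤ y) (h1 : 1 ≤ r) (h2 : r ≤ 1 + 1 / y) :
    FF y r ≤ 3 / 2 * y ^ (2 + 1 / y - (1 + 1 / y) * r) := by
  have hy0 : 0 < y := by linarith
  obtain ⟨s, hs⟩ : ∃ s : ℝ, r = 1 + s / y := ⟨y * (r - 1), by field_simp; ring⟩
  have hs0 : 0 ≤ s := by
    have : 0 ≤ s / y := by linarith
    by_contra h
    push Not at h
    have := div_neg_of_neg_of_pos h hy0
    linarith
  have hs1 : s ≤ 1 := by
    have : s / y ≤ 1 / y := by linarith
    rwa [div_le_div_iff_of_pos_right hy0] at this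
  subst hs
  have hF : FF y (1 + s / y) = 1 + (y - 1) * (y ^ 2 - s) / (y + s) ^ 2 := by
    unfold FF
    have h1 : y + s ≠ 0 := by positivity
    have h2 : 1 + s / y = (y + s) / y := by field_simp
    rw [h2]
    field_simp
    ring
  have hE : y ^ (2 + 1 / y - (1 + 1 / y) * (1 + s / y)) =
      y * Real.exp (-(s * ((y + 1) * Real.log y / y ^ 2))) := by
    rw [Real.rpow_def_of_pos hy0]
    have e : Real.log y * (2 + 1 / y - (1 + 1 / y) * (1 + s / y)) =
        Real.log y + -(s * ((y + 1) * Real.log y / y ^ 2)) := by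
      field_simp
      ring
    rw [e, Real.exp_add, Real.exp_log hy0]
  rw [hF, hE]
  refine (calcK3_core hy hs0 hs1).trans ?_
  have := Real.add_one_le_exp (-(s * ((y + 1) * Real.log y / y ^ 2)))
  have h3 : y * (1 - s * ((y + 1) * Real.log y / y ^ 2)) ≤
      y * Real.exp (-(s * ((y + 1) * Real.log y / y ^ 2))) := by
    apply mul_le_mul_of_nonneg_left _ hy0.le
    linarith
  linarith

end Pool.Agent.SG
end

section

set_option autoImplicit false

namespace Pool.Agent.SG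

noncomputable def numF1L (y : ℝ) : ℝ :=
  2 * Real.log (y - 1) + Real.log (y + 1) + (y - 23 / 2) * Real.log y

noncomputable def numF1G (y : ℝ) : ℝ := (y - 1) ^ 2 * (y + 1) * y ^ (y - 23 / 2)

theorem numF1_exp {y : ℝ} (hy : 1 < y) : numF1G y = Real.exp (numF1L y) := by
  have h0 : 0 < y := by linarith
  have h1 : 0 < y - 1 := by linarith
  have h2 : 0 < y + 1 := by linarith
  unfold numF1G numF1L
  rw [Real.exp_add, Real.exp_add, Real.exp_log h2, Real.rpow_def_of_pos h0,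
    show 2 * Real.log (y - 1) = Real.log (y - 1) + Real.log (y - 1) by ring, Real.exp_add,
    Real.exp_log h1, mul_comm (y - 23 / 2)]
  ring

theorem numF1_deriv {y : ℝ} (hy : 1 < y) :
    HasDerivAt numF1L (2 / (y - 1) + 1 / (y + 1) + (Real.log y + (y - 23 / 2) / y)) y := by
  have h0 : y ≠ 0 := by linarith
  have h1 : y - 1 ≠ 0 := by linarith
  have h2 : y + 1 ≠ 0 := by linarith
  have d1 : HasDerivAt (fun y : ℝ => Real.log (y - 1)) (1 / (y - 1)) y :=
    ((hasDerivAt_id y).sub_const 1).log h1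
  have d2 : HasDerivAt (fun y : ℝ => Real.log (y + 1)) (1 / (y + 1)) y :=
    ((hasDerivAt_id y).add_const 1).log h2
  have d3 : HasDerivAt (fun y : ℝ => (y - 23 / 2) * Real.log y)
      (1 * Real.log y + (y - 23 / 2) * y⁻¹) y :=
    ((hasDerivAt_id y).sub_const _).mul (Real.hasDerivAt_log h0)
  have := ((d1.const_mul 2).add d2).add d3
  have e : 2 / (y - 1) + 1 / (y + 1) + (Real.log y + (y - 23 / 2) / y) =
      2 * (1 / (y - 1)) + 1 / (y + 1) + (1 * Real.log y + (y - 23 / 2) * y⁻¹) := by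
    rw [div_eq_mul_inv (y - 23 / 2)]; ring
  rw [e]
  exact this

theorem numF1_log {y : ℝ} (hy : 0 < y) : Real.log y ≤ y / 2 - 0.3068 := by
  have h := Real.log_le_sub_one_of_pos (div_pos hy (show (0:ℝ) < 2 by norm_num))
  rw [Real.log_div hy.ne' (by norm_num)] at h
  have := Real.log_two_lt_d9
  linarith

theorem numF1_anti : AntitoneOn numF1L (Set.Icc (36 / 25) 3) := by
  apply antitoneOn_of_deriv_nonpos (convex_Icc _ _)
  · intro y hy
    exact (numF1_deriv (by linarith [hy.1])).continuousAt.continuousWithinAt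
  · intro y hy
    rw [interior_Icc] at hy
    exact (numF1_deriv (by linarith [hy.1])).differentiableAt.differentiableWithinAt
  · intro y hy
    rw [interior_Icc] at hy
    obtain ⟨ha, hb⟩ := hy
    have h1 : 1 < y := by linarith
    rw [(numF1_deriv h1).deriv]
    have hl := numF1_log (show 0 < y by linarith)
    have key : 2 / (y - 1) + 1 / (y + 1) + (y / 2 - 0.3068 + (y - 23 / 2) / y) ≤ 0 := by
      have h1' : 0 < y - 1 := by linarith
      have h2' : 0 < y + 1 := by linarith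
      have h0 : 0 < y := by linarith
      have e : 2 / (y - 1) + 1 / (y + 1) + (y / 2 - 0.3068 + (y - 23 / 2) / y) =
        (2 * (y + 1) * y + (y - 1) * y + (y / 2 - 0.3068) * y * (y - 1) * (y + 1)
          + (y - 23 / 2) * (y - 1) * (y + 1)) / ((y - 1) * (y + 1) * y) := by
        field_simp
        ring
      rw [e]
      apply div_nonpos_of_nonpos_of_nonneg _ (by positivity)
      nlinarith [mul_nonneg (sub_nonneg.2 ha.le) (sub_nonneg.2 hb.le),
        mul_nonneg (mul_nonneg (sub_nonneg.2 ha.le) (sub_nonneg.2 hb.le)) (sub_nonneg.2 hb.le),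
        mul_nonneg (mul_nonneg (sub_nonneg.2 ha.le) (sub_nonneg.2 hb.le)) (sub_nonneg.2 ha.le),
        mul_nonneg (mul_nonneg (sub_nonneg.2 ha.le) (sub_nonneg.2 hb.le)) (sq_nonneg (y - 2))]
    linarith

theorem numF1_G_anti {y b : ℝ} (h0 : 36 / 25 ≤ y) (hb : y ≤ b) (h3 : b ≤ 3) :
    numF1G b ≤ numF1G y := by
  rw [numF1_exp (by linarith), numF1_exp (by linarith)]
  exact Real.exp_le_exp.2 (numF1_anti ⟨h0, by linarith⟩ ⟨by linarith, h3⟩ hb)

theorem numF1_three : numF1G 3 ≤ 0.001409 := by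
  unfold numF1G
  have e : (3 : ℝ) ^ ((3 : ℝ) - 23 / 2) = √3 * (1 / 19683) := by
    rw [show (3 : ℝ) - 23 / 2 = 1 / 2 + (-9 : ℤ) by norm_num, Real.rpow_add (by norm_num),
      ← Real.sqrt_eq_rpow, Real.rpow_intCast]
    norm_num
  rw [e]
  have : √3 ≤ 1.7321 := by
    rw [Real.sqrt_le_left (by norm_num)]; norm_num
  linarith

theorem numF1_three_pos : 0 ≤ numF1G 3 := by
  unfold numF1G; positivity

theorem numF1_two : 0.00414 ≤ numF1G 2 := by
  unfold numF1G
  have e : (2 : ℝ) ^ ((2 : ℝ) - 23 / 2) = √2 * (1 / 1024) := by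
    rw [show (2 : ℝ) - 23 / 2 = 1 / 2 + (-10 : ℤ) by norm_num, Real.rpow_add (by norm_num),
      ← Real.sqrt_eq_rpow, Real.rpow_intCast]
    norm_num
  rw [e]
  have : 1.414 ≤ √2 := by
    apply Real.le_sqrt_of_sq_le; norm_num
  linarith

theorem numF1_nq : 0.0028 ≤ numF1G (9 / 4) := by
  unfold numF1G
  have e : (9 / 4 : ℝ) ^ ((9 / 4 : ℝ) - 23 / 2) = √(3 / 2) * (2 / 3) ^ 19 := by
    rw [show (9 / 4 : ℝ) = (3 / 2) ^ (2 : ℝ) by norm_num, ← Real.rpow_mul (by norm_num),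
      show (2 : ℝ) * ((3 / 2) ^ (2 : ℝ) - 23 / 2) = 1 / 2 + (-19 : ℤ) by norm_num,
      Real.rpow_add (by norm_num), ← Real.sqrt_eq_rpow, Real.rpow_intCast]
    norm_num
  rw [e]
  have : 1.224 ≤ √(3 / 2) := by
    apply Real.le_sqrt_of_sq_le; norm_num
  norm_num
  norm_num at this
  linarith

theorem numF1_fh : 0.00206 ≤ numF1G (5 / 2) := by
  unfold numF1G
  rw [show (5 / 2 : ℝ) - 23 / 2 = (-9 : ℤ) by norm_num, Real.rpow_intCast]
  norm_num

theorem numF1_gam {n : ℕ} {y : ℝ} (hy : 0 < y) :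
    gam y n = numF1G y * y ^ ((21 - (n : ℝ)) / 2) := by
  unfold gam numF1G
  rw [mul_assoc ((y - 1) ^ 2 * (y + 1)), ← Real.rpow_add hy]
  congr 2
  ring

theorem numF1_red {n : ℕ} (hn : 21 ≤ n) {y A B : ℝ} (hA : 0 ≤ A) (h0 : 36 / 25 ≤ y)
    (h3 : y ≤ 3) (h : A * numF1G 3 ≤ B * numF1G y) : A * gam 3 n ≤ B * gam y n := by
  have hy : 0 < y := by linarith
  rw [numF1_gam hy, numF1_gam (by norm_num)]
  have hn' : (21 : ℝ) ≤ n := by exact_mod_cast hn
  have h1 : (3 : ℝ) ^ ((21 - (n : ℝ)) / 2) ≤ y ^ ((21 - (n : ℝ)) / 2) :=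
    Real.rpow_le_rpow_of_nonpos hy h3 (by linarith)
  have h2 : 0 ≤ y ^ ((21 - (n : ℝ)) / 2) := by positivity
  calc A * (numF1G 3 * 3 ^ ((21 - (n : ℝ)) / 2))
      = A * numF1G 3 * 3 ^ ((21 - (n : ℝ)) / 2) := by ring
    _ ≤ A * numF1G 3 * y ^ ((21 - (n : ℝ)) / 2) :=
        mul_le_mul_of_nonneg_left h1 (mul_nonneg hA numF1_three_pos)
    _ ≤ B * numF1G y * y ^ ((21 - (n : ℝ)) / 2) := mul_le_mul_of_nonneg_right h h2
    _ = B * (numF1G y * y ^ ((21 - (n : ℝ)) / 2)) := by ring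

/-- `Mf` is at least `1.95` on `[2, 3]`, and at least `2.3` on `[5/2, 3]` -/
theorem numF1_M2 {y : ℝ} (h : 2 ≤ y) : 1.95 ≤ Mf y := by
  unfold Mf
  rw [le_div_iff₀ (by positivity)]
  nlinarith [mul_nonneg (sub_nonneg.2 h) (sub_nonneg.2 h), sq_nonneg (y ^ 2 - 2 * y),
    mul_nonneg (mul_nonneg (sub_nonneg.2 h) (sub_nonneg.2 h)) (sub_nonneg.2 h),
    mul_nonneg (mul_nonneg (sub_nonneg.2 h) (sub_nonneg.2 h)) (mul_nonneg (sub_nonneg.2 h) (sub_nonneg.2 h))]

theorem numF1_M25 {y : ℝ} (h : 5 / 2 ≤ y) : 2.3 ≤ Mf y := by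
  unfold Mf
  rw [le_div_iff₀ (by positivity)]
  nlinarith [mul_nonneg (sub_nonneg.2 h) (sub_nonneg.2 h), sq_nonneg (y ^ 2 - 2 * y),
    mul_nonneg (mul_nonneg (sub_nonneg.2 h) (sub_nonneg.2 h)) (sub_nonneg.2 h),
    mul_nonneg (mul_nonneg (sub_nonneg.2 h) (sub_nonneg.2 h)) (mul_nonneg (sub_nonneg.2 h) (sub_nonneg.2 h))]

/-- the case `y < 2` -/
theorem numF1_A {y : ℝ} (h0 : 36 / 25 ≤ y) (h2 : y < 2) :
    11 / 10 * (51 / 50) * numF1G 3 ≤ √(6 / 5) / 2 * numF1G y := by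
  have h1 : 0.00414 ≤ numF1G y := numF1_two.trans (numF1_G_anti h0 h2.le (by norm_num))
  have h3 := numF1_three
  have h4 : 1.09 ≤ √(6 / 5) := by apply Real.le_sqrt_of_sq_le; norm_num
  nlinarith

theorem numF1_B {y s : ℝ} (h2 : 2 ≤ y) (h3 : y ≤ 9 / 4) (hs : s ≤ 1) :
    26 / 25 * (51 / 50) * s * numF1G 3 ≤ √(Mf y) / 2 * numF1G y := by
  have h1 : 0.0028 ≤ numF1G y := numF1_nq.trans (numF1_G_anti (by linarith) h3 (by norm_num))
  have h3 := numF1_three
  have h4 : 1.39 ≤ √(Mf y) := by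
    apply Real.le_sqrt_of_sq_le
    refine le_trans ?_ (numF1_M2 h2)
    norm_num
  have h5 := numF1_three_pos
  have h6 : s * numF1G 3 ≤ 1 * numF1G 3 := mul_le_mul_of_nonneg_right hs h5
  nlinarith

theorem numF1_C {y s : ℝ} (h2 : 2 ≤ y) (h3 : y ≤ 5 / 2) (hs : s ≤ 3 / 4) :
    26 / 25 * (51 / 50) * s * numF1G 3 ≤ √(Mf y) / 2 * numF1G y := by
  have h1 : 0.00206 ≤ numF1G y := numF1_fh.trans (numF1_G_anti (by linarith) h3 (by norm_num))
  have h3 := numF1_three
  have h4 : 1.39 ≤ √(Mf y) := by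
    apply Real.le_sqrt_of_sq_le
    refine le_trans ?_ (numF1_M2 h2)
    norm_num
  have h5 := numF1_three_pos
  have h6 : s * numF1G 3 ≤ 3 / 4 * numF1G 3 := mul_le_mul_of_nonneg_right hs h5
  nlinarith

theorem numF1_D {y s : ℝ} (h2 : 5 / 2 ≤ y) (h3 : y ≤ 3) (hs : s ≤ 0.7072) :
    26 / 25 * (51 / 50) * s * numF1G 3 ≤ √(Mf y) / 2 * numF1G y := by
  have h1 : numF1G 3 ≤ numF1G y := numF1_G_anti (by linarith) h3 (by norm_num)
  have h4 : 1.516 ≤ √(Mf y) := by
    apply Real.le_sqrt_of_sq_le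
    refine le_trans ?_ (numF1_M25 h2)
    norm_num
  have h5 := numF1_three_pos
  have h6 : s * numF1G 3 ≤ 0.7072 * numF1G 3 := mul_le_mul_of_nonneg_right hs h5
  nlinarith

/-- `y^(y-4) ≤ 1/3` on `[2,3]` -/
theorem numF1_pow {y : ℝ} (h2 : 2 ≤ y) (h3 : y ≤ 3) : y ^ (y - 4) ≤ 1 / 3 := by
  have hy : 0 < y := by linarith
  have l23 : Real.log 2 ≤ Real.log 3 := Real.log_le_log (by norm_num) (by norm_num)
  have l2 : 0 < Real.log 2 := Real.log_pos (by norm_num)
  have l34 : Real.log 3 ≤ 2 * Real.log 2 := by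
    rw [show 2 * Real.log 2 = Real.log 4 by
      rw [show (4 : ℝ) = 2 ^ 2 by norm_num, Real.log_pow]; push_cast; ring]
    exact Real.log_le_log (by norm_num) (by norm_num)
  have hconc : (3 - y) * Real.log 2 + (y - 2) * Real.log 3 ≤ Real.log y := by
    have := strictConcaveOn_log_Ioi.concaveOn.2 (show (2:ℝ) ∈ Set.Ioi 0 by norm_num)
      (show (3:ℝ) ∈ Set.Ioi 0 by norm_num) (show 0 ≤ 3 - y by linarith)
      (show 0 ≤ y - 2 by linarith) (by ring)
    simp only [smul_eq_mul] at this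
    rwa [show (3 - y) * 2 + (y - 2) * 3 = y by ring] at this
  have key : Real.log 3 ≤ (4 - y) * Real.log y := by
    have h4 : 0 ≤ 4 - y := by linarith
    have := mul_le_mul_of_nonneg_left hconc h4
    nlinarith [mul_nonneg (mul_nonneg (sub_nonneg.2 h3) (sub_nonneg.2 h2)) (sub_nonneg.2 l34),
      mul_nonneg (sub_nonneg.2 h3) (sub_nonneg.2 l34), mul_nonneg (sub_nonneg.2 h3) l2.le,
      mul_nonneg (mul_nonneg (sub_nonneg.2 h3) (sub_nonneg.2 h2)) l2.le]
  rw [Real.rpow_def_of_pos hy, show (1 / 3 : ℝ) = Real.exp (-Real.log 3) by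
    rw [Real.exp_neg, Real.exp_log (by norm_num)]; norm_num]
  apply Real.exp_le_exp.2
  linarith

theorem fn1 {n : ℕ} (hn : 21 ≤ n) {y y1 Z : ℝ} (h0 : 36 / 25 ≤ y) (h3 : y ≤ 3) (h1 : y1 ≤ y)
    (h2 : y ≤ y1 + 1 / 80) (hZ : Zc y y1 Z) :
    cE y * (51 / 50) * √Z * gam 3 n ≤ √(Mlow y) / 2 * gam y n := by
  have hc0 : 0 ≤ cE y := by unfold cE; split_ifs <;> norm_num
  apply numF1_red hn (by positivity) h0 h3
  rcases lt_or_ge y 2 with hy2 | hy2
  · have hZ1 : Z = 1 := by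
      rcases hZ with ⟨_, h⟩ | ⟨h, _⟩ | ⟨h, _⟩
      · exact h
      · linarith
      · linarith
    have hM : Mlow y = 6 / 5 := by unfold Mlow; rw [if_neg (by linarith)]
    have hE : cE y = 11 / 10 := by unfold cE; rw [if_pos hy2]
    rw [hZ1, hM, hE, Real.sqrt_one, mul_one]
    exact numF1_A h0 hy2
  have hM : Mlow y = Mf y := by unfold Mlow; rw [if_pos hy2]
  have hE : cE y = 26 / 25 := by unfold cE; rw [if_neg (by linarith)]
  rw [hM, hE]
  have hy : 0 < y := by linarith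
  have hk : 3 / (2 * y) ≤ 3 / 4 := by
    rw [div_le_div_iff₀ (by positivity) (by norm_num)]; linarith
  have hk0 : 0 ≤ 3 / (2 * y) := by positivity
  rcases hZ with ⟨hy1, rfl⟩ | ⟨hy1, rfl⟩ | ⟨hy1, K, hK, rfl⟩
  · rw [Real.sqrt_one]
    exact numF1_B hy2 (by linarith) le_rfl
  · rw [Real.sqrt_sq hk0]
    rcases le_total y (5 / 2) with h5 | h5
    · exact numF1_C hy2 h5 hk
    · apply numF1_D h5 h3
      rw [div_le_iff₀ (by positivity)]
      linarith
  · have hK2 : 2 ≤ K := by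
      have : (2 : ℝ) ≤ K := by linarith
      exact_mod_cast this
    rcases Nat.lt_or_ge K 3 with hK3 | hK3
    · have hKe : K = 2 := by omega
      subst hKe
      have hy22 : y ≤ 2 + 1 / 80 := by push_cast at hK; linarith
      apply numF1_B hy2 (by linarith)
      rw [Real.sqrt_le_one]
      have : y ^ (y - ((2 : ℕ) : ℝ)) ≤ 4 / 3 := by
        calc y ^ (y - ((2 : ℕ) : ℝ)) ≤ y ^ ((1 : ℝ) / 80) := by
              apply Real.rpow_le_rpow_of_exponent_le (by linarith)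
              push_cast; linarith
          _ ≤ 4 ^ ((1 : ℝ) / 80) := Real.rpow_le_rpow hy.le (by linarith) (by norm_num)
          _ ≤ 4 / 3 := by
              rw [← Real.rpow_le_rpow_iff (z := 80) (by positivity) (by norm_num) (by norm_num),
                ← Real.rpow_mul (by norm_num)]
              norm_num
      have h0' : 0 ≤ y ^ (y - ((2 : ℕ) : ℝ)) := by positivity
      calc 3 / (2 * y) * y ^ (y - ((2 : ℕ) : ℝ)) ≤ 3 / 4 * (4 / 3) :=
            mul_le_mul hk this h0' (by norm_num)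
        _ = 1 := by norm_num
    · have hZ2 : 3 / (2 * y) * y ^ (y - (K : ℝ)) ≤ 1 / 2 := by
        have hK3' : (3 : ℝ) ≤ K := by exact_mod_cast hK3
        have e : 3 / (2 * y) * y ^ (y - (3 : ℝ)) = 3 / 2 * y ^ (y - 4) := by
          rw [show y - (3 : ℝ) = (y - 4) + 1 by ring, Real.rpow_add_one hy.ne']
          field_simp
        calc 3 / (2 * y) * y ^ (y - (K : ℝ)) ≤ 3 / (2 * y) * y ^ (y - (3 : ℝ)) := by
              apply mul_le_mul_of_nonneg_left _ hk0
              apply Real.rpow_le_rpow_of_exponent_le (by linarith)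
              linarith
          _ = 3 / 2 * y ^ (y - 4) := e
          _ ≤ 3 / 2 * (1 / 3) := by
              apply mul_le_mul_of_nonneg_left (numF1_pow hy2 h3) (by norm_num)
          _ = 1 / 2 := by norm_num
      have hs : √(3 / (2 * y) * y ^ (y - (K : ℝ))) ≤ 0.7072 := by
        rw [Real.sqrt_le_left (by norm_num)]
        refine hZ2.trans ?_
        norm_num
      rcases le_total y (5 / 2) with h5 | h5
      · exact numF1_C hy2 h5 (hs.trans (by norm_num))
      · exact numF1_D h5 h3 hs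

end Pool.Agent.SG
end

section

set_option autoImplicit false

namespace Pool.Agent.SG

/-- crude bound for `Z` when `3 ≤ y` -/
theorem Zc_le {y y1 Z : ℝ} (h3 : 3 ≤ y) (h1 : y1 ≤ y) (h2 : y ≤ y1 + 1 / 80) (hZ : Zc y y1 Z) :
    Z ≤ 3 / (2 * y) * y ^ ((1 : ℝ) / 80) := by
  have hy : 0 < y := by linarith
  have hp : 1 ≤ y ^ ((1 : ℝ) / 80) := Real.one_le_rpow (by linarith) (by norm_num)
  have hq : 0 < 3 / (2 * y) := by positivity
  have hq1 : 3 / (2 * y) ≤ 1 := by rw [div_le_one (by positivity)]; linarith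
  rcases hZ with ⟨h, _⟩ | ⟨_, h⟩ | ⟨_, K, hK, h⟩
  · linarith
  · rw [h]
    nlinarith
  · rw [h]
    refine mul_le_mul_of_nonneg_left ?_ hq.le
    exact Real.rpow_le_rpow_of_exponent_le (by linarith) (by linarith)

theorem NumF2a_log_le {x : ℝ} (hx : 0 ≤ x) : Real.log (1 + x) ≤ x - x ^ 2 / 2 + x ^ 3 / 3 := by
  let f : ℝ → ℝ := fun x => x - x ^ 2 / 2 + x ^ 3 / 3 - Real.log (1 + x)
  have hd : ∀ z ∈ Set.Ici (0 : ℝ), HasDerivAt f (1 - z + z ^ 2 - 1 / (1 + z)) z := by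
    intro z hz
    have hz' : (1 : ℝ) + z ≠ 0 := by
      have : (0 : ℝ) ≤ z := hz
      positivity
    have h1 : HasDerivAt (fun x : ℝ => 1 + x) 1 z := by
      simpa using (hasDerivAt_id z).const_add 1
    have h2 := h1.log hz'
    have h3 : HasDerivAt (fun x : ℝ => x - x ^ 2 / 2 + x ^ 3 / 3)
        (1 - z + z ^ 2) z := by
      have ha := hasDerivAt_id z
      have hb := (hasDerivAt_pow 2 z).div_const 2
      have hc := (hasDerivAt_pow 3 z).div_const 3
      refine ((ha.sub hb).add hc).congr_deriv ?_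
      norm_num
    exact h3.sub h2
  have hm : MonotoneOn f (Set.Ici 0) := by
    refine monotoneOn_of_deriv_nonneg (convex_Ici 0)
      (fun z hz => (hd z hz).continuousAt.continuousWithinAt) ?_ ?_
    · intro z hz
      rw [interior_Ici] at hz
      exact (hd z (Set.mem_Ici.2 (le_of_lt hz))).differentiableAt.differentiableWithinAt
    · intro z hz
      rw [interior_Ici] at hz
      have hz0 : (0 : ℝ) < z := hz
      rw [(hd z (Set.mem_Ici.2 (le_of_lt hz))).deriv]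
      have : 1 - z + z ^ 2 - 1 / (1 + z) = z ^ 3 / (1 + z) := by
        field_simp
        ring
      rw [this]
      positivity
  have := hm (Set.mem_Ici.2 le_rfl) (Set.mem_Ici.2 hx) hx
  simp only [f] at this
  norm_num at this
  linarith

theorem NumF2a_le_log {x : ℝ} (hx : 0 ≤ x) :
    x - x ^ 2 / 2 + x ^ 3 / 3 - x ^ 4 / 4 ≤ Real.log (1 + x) := by
  let f : ℝ → ℝ := fun x => Real.log (1 + x) - (x - x ^ 2 / 2 + x ^ 3 / 3 - x ^ 4 / 4)
  have hd : ∀ z ∈ Set.Ici (0 : ℝ), HasDerivAt f (1 / (1 + z) - (1 - z + z ^ 2 - z ^ 3)) z := by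
    intro z hz
    have hz' : (1 : ℝ) + z ≠ 0 := by
      have : (0 : ℝ) ≤ z := hz
      positivity
    have h1 : HasDerivAt (fun x : ℝ => 1 + x) 1 z := by
      simpa using (hasDerivAt_id z).const_add 1
    have h2 := h1.log hz'
    have h3 : HasDerivAt (fun x : ℝ => x - x ^ 2 / 2 + x ^ 3 / 3 - x ^ 4 / 4)
        (1 - z + z ^ 2 - z ^ 3) z := by
      have ha := hasDerivAt_id z
      have hb := (hasDerivAt_pow 2 z).div_const 2
      have hc := (hasDerivAt_pow 3 z).div_const 3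
      have hd := (hasDerivAt_pow 4 z).div_const 4
      refine (((ha.sub hb).add hc).sub hd).congr_deriv ?_
      norm_num
    exact h2.sub h3
  have hm : MonotoneOn f (Set.Ici 0) := by
    refine monotoneOn_of_deriv_nonneg (convex_Ici 0)
      (fun z hz => (hd z hz).continuousAt.continuousWithinAt) ?_ ?_
    · intro z hz
      rw [interior_Ici] at hz
      exact (hd z (Set.mem_Ici.2 (le_of_lt hz))).differentiableAt.differentiableWithinAt
    · intro z hz
      rw [interior_Ici] at hz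
      have hz0 : (0 : ℝ) < z := hz
      rw [(hd z (Set.mem_Ici.2 (le_of_lt hz))).deriv]
      have : 1 / (1 + z) - (1 - z + z ^ 2 - z ^ 3) = z ^ 4 / (1 + z) := by
        field_simp
        ring
      rw [this]
      positivity
  have := hm (Set.mem_Ici.2 le_rfl) (Set.mem_Ici.2 hx) hx
  simp only [f] at this
  norm_num at this
  linarith

theorem NumF2a_log3 : 1.0986 < Real.log 3 ∧ Real.log 3 < 1.09865 := by
  have h2 := Real.log_two_gt_d9
  have h2' := Real.log_two_lt_d9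
  have e : Real.log (1 + 1 / 8) = 2 * Real.log 3 - 3 * Real.log 2 := by
    rw [show (1 + 1 / 8 : ℝ) = 3 ^ 2 / 2 ^ 3 by norm_num, Real.log_div (by norm_num) (by norm_num),
      Real.log_pow, Real.log_pow]
    push_cast
    ring
  have a := NumF2a_log_le (x := 1 / 8) (by norm_num)
  have b := NumF2a_le_log (x := 1 / 8) (by norm_num)
  rw [e] at a b
  constructor <;> norm_num at * <;> linarith

theorem NumF2a_log5 : Real.log 5 < 1.6103 := by
  have h2' := Real.log_two_lt_d9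
  have e : Real.log (1 + 1 / 4) = Real.log 5 - 2 * Real.log 2 := by
    rw [show (1 + 1 / 4 : ℝ) = 5 / 2 ^ 2 by norm_num, Real.log_div (by norm_num) (by norm_num),
      Real.log_pow]
    push_cast
    ring
  have a := NumF2a_log_le (x := 1 / 4) (by norm_num)
  rw [e] at a
  norm_num at *
  linarith

/-- the main real inequality -/
theorem NumF2a_main {y : ℝ} (h3 : 3 ≤ y) (h4 : y ≤ 4) :
    10.42 * (Real.log y - Real.log 3) < (y + 1 - 1 / 160) * Real.log y + 1.5 * Real.log (y + 1) +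
      2 * Real.log (y - 1) - Real.log (y ^ 2 + y + 1) - Real.log 1.0608 - Real.log 1.5 / 2
      - 4 * Real.log 2 - 2 * Real.log 3 := by
  obtain ⟨s, rfl⟩ : ∃ s, y = 3 + s := ⟨y - 3, by ring⟩
  have hs0 : 0 ≤ s := by linarith
  have hs1 : s ≤ 1 := by linarith
  have e1 : Real.log (3 + s) = Real.log 3 + Real.log (1 + s / 3) := by
    rw [← Real.log_mul (by norm_num) (by positivity)]; congr 1; ring
  have e2 : Real.log (3 + s + 1) = 2 * Real.log 2 + Real.log (1 + s / 4) := by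
    rw [show (3 + s + 1 : ℝ) = 2 ^ 2 * (1 + s / 4) by ring,
      Real.log_mul (by norm_num) (by positivity), Real.log_pow]
    push_cast; ring
  have e3 : Real.log (3 + s - 1) = Real.log 2 + Real.log (1 + s / 2) := by
    rw [show (3 + s - 1 : ℝ) = 2 * (1 + s / 2) by ring,
      Real.log_mul (by norm_num) (by positivity)]
  have e4 : Real.log ((3 + s) ^ 2 + (3 + s) + 1) =
      2 * Real.log 2 + Real.log 3 + Real.log (1 + 1 / 12) + Real.log (1 + (7 * s + s ^ 2) / 13) := by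
    rw [show ((3 + s) ^ 2 + (3 + s) + 1 : ℝ) =
        ((2 ^ 2 * 3) * (1 + 1 / 12)) * (1 + (7 * s + s ^ 2) / 13) by ring,
      Real.log_mul (by norm_num) (by positivity), Real.log_mul (by norm_num) (by norm_num),
      Real.log_mul (by norm_num) (by norm_num), Real.log_pow]
    push_cast; ring
  have e5 : Real.log 1.5 = Real.log 3 - Real.log 2 := by
    rw [← Real.log_div (by norm_num) (by norm_num)]; norm_num
  have b1 := NumF2a_log_le (x := s / 3) (by positivity)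
  have b2 := NumF2a_le_log (x := s / 4) (by positivity)
  have b3 := NumF2a_le_log (x := s / 2) (by positivity)
  have b4 := NumF2a_log_le (x := (7 * s + s ^ 2) / 13) (by positivity)
  have b5 := NumF2a_log_le (x := 1 / 12) (by norm_num)
  have b6 := NumF2a_log_le (x := 0.0608) (by norm_num)
  rw [show (1 + 0.0608 : ℝ) = 1.0608 by norm_num] at b6
  have b7 := NumF2a_log3
  have l2 := Real.log_two_gt_d9
  have l2' := Real.log_two_lt_d9
  rw [e1, e2, e3, e4, e5]
  set L3 := Real.log (1 + s / 3)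
  have b1' : (6.42625 - s) * L3 ≤ (6.42625 - s) * (s / 3 - (s / 3) ^ 2 / 2 + (s / 3) ^ 3 / 3) :=
    mul_le_mul_of_nonneg_left b1 (by linarith)
  have b8 : 1.0986 * s ≤ Real.log 3 * s := mul_le_mul_of_nonneg_right b7.1.le hs0
  have key : 0 < 0.0565 + 1.0986 * s - (6.42625 - s) * (s / 3 - (s / 3) ^ 2 / 2 + (s / 3) ^ 3 / 3) +
      1.5 * (s / 4 - (s / 4) ^ 2 / 2 + (s / 4) ^ 3 / 3 - (s / 4) ^ 4 / 4) +
      2 * (s / 2 - (s / 2) ^ 2 / 2 + (s / 2) ^ 3 / 3 - (s / 2) ^ 4 / 4) -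
      ((7 * s + s ^ 2) / 13 - ((7 * s + s ^ 2) / 13) ^ 2 / 2 + ((7 * s + s ^ 2) / 13) ^ 3 / 3) := by
    have hs2 : 0 ≤ 1 - s := by linarith
    have hpos : 0 < (1 - s) ^ 6 + s ^ 6 := by
      rcases le_total s (1 / 2) with h | h
      · have : 0 < (1 - s) ^ 6 := by apply pow_pos; linarith
        positivity
      · have : 0 < s ^ 6 := by apply pow_pos; linarith
        positivity
    have ex : 0.0565 + 1.0986 * s -
        (6.42625 - s) * (s / 3 - (s / 3) ^ 2 / 2 + (s / 3) ^ 3 / 3) +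
        1.5 * (s / 4 - (s / 4) ^ 2 / 2 + (s / 4) ^ 3 / 3 - (s / 4) ^ 4 / 4) +
        2 * (s / 2 - (s / 2) ^ 2 / 2 + (s / 2) ^ 3 / 3 - (s / 2) ^ 4 / 4) -
        ((7 * s + s ^ 2) / 13 - ((7 * s + s ^ 2) / 13) ^ 2 / 2 +
          ((7 * s + s ^ 2) / 13) ^ 3 / 3) =
      113 / 2000 * (1 - s) ^ 6 +
      103003 / 780000 * s ^ 1 * (1 - s) ^ 5 +
      417203 / 1521000 * s ^ 2 * (1 - s) ^ 4 +
      2426658197 / 2847312000 * s ^ 3 * (1 - s) ^ 3 +
      61244763517 / 45556992000 * s ^ 4 * (1 - s) ^ 2 +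
      20606343397 / 22778496000 * s ^ 5 * (1 - s) ^ 1 +
      16222570907 / 75928320000 * s ^ 6 := by
      ring
    rw [ex]
    have t1 := mul_nonneg hs0 (pow_nonneg hs2 5)
    have t2 := mul_nonneg (pow_nonneg hs0 2) (pow_nonneg hs2 4)
    have t3 := mul_nonneg (pow_nonneg hs0 3) (pow_nonneg hs2 3)
    have t4 := mul_nonneg (pow_nonneg hs0 4) (pow_nonneg hs2 2)
    have t5 := mul_nonneg (pow_nonneg hs0 5) hs2
    have t0 := pow_nonneg hs2 6
    have t6 := pow_nonneg hs0 6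
    linarith [t0, t1, t2, t3, t4, t5, t6, hpos]
  norm_num at b5 b6 b7
  linarith [b1', b2, b3, b4, b5, b6, b7.1, b7.2, b8, key, l2, l2']

theorem NumF2a_gam_pos {y : ℝ} (hy : 1 < y) (n : ℕ) : 0 < gam y n := by
  unfold gam
  have h1 : 0 < y - 1 := by linarith
  have h0 : 0 < y := by linarith
  positivity

theorem NumF2a_log_gam {y : ℝ} (hy : 1 < y) (n : ℕ) :
    Real.log (gam y n) = 2 * Real.log (y - 1) + Real.log (y + 1) +
      (y - 1 - (n : ℝ) / 2) * Real.log y := by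
  unfold gam
  have h1 : 0 < y - 1 := by linarith
  have h0 : 0 < y := by linarith
  rw [Real.log_mul (by positivity) (by positivity), Real.log_mul (by positivity) (by positivity),
    Real.log_pow, Real.log_rpow h0]
  push_cast
  ring

theorem NumF2a_log_lhs {y : ℝ} (hy : 2 ≤ y) (n : ℕ) :
    Real.log (√(Mlow y) / 2 * gam y n) = 1.5 * Real.log y + 1.5 * Real.log (y + 1) -
      Real.log (y ^ 2 + y + 1) + 2 * Real.log (y - 1) + (y - 1 - (n : ℝ) / 2) * Real.log y := by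
  have h0 : 0 < y := by linarith
  have hM : Mlow y = Mf y := by simp [Mlow, hy]
  have hMp : 0 < Mf y := by unfold Mf; positivity
  rw [hM, Real.log_mul (by positivity) (NumF2a_gam_pos (by linarith) n).ne',
    Real.log_div (by positivity) (by norm_num), Real.log_sqrt hMp.le,
    NumF2a_log_gam (by linarith) n]
  have e : Real.log (Mf y) = 2 * Real.log 2 + 3 * Real.log y + Real.log (y + 1) -
      2 * Real.log (y ^ 2 + y + 1) := by
    unfold Mf
    rw [Real.log_div (by positivity) (by positivity), Real.log_mul (by positivity) (by positivity),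
      Real.log_mul (by positivity) (by positivity), Real.log_pow, Real.log_pow,
      show (4 : ℝ) = 2 ^ 2 by norm_num, Real.log_pow]
    push_cast
    ring
  rw [e]
  ring

theorem NumF2a_log_rhs {y y1 Z x : ℝ} (h3 : 3 ≤ y) (h1 : y1 ≤ y) (h2 : y ≤ y1 + 1 / 80)
    (hZ : Zc y y1 Z) {n : ℕ} {w : ℝ} (hw : 0 < w) (hx0 : 0 < x)
    (hx : x < cE y * (51 / 50) * √Z * w) :
    Real.log x ≤ Real.log 1.0608 + (Real.log 1.5 - Real.log y + Real.log y / 80) / 2 +
      Real.log w := by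
  have h0 : 0 < y := by linarith
  have hc : cE y = 26 / 25 := by
    unfold cE
    rw [if_neg (by linarith)]
  have hq : 0 < 3 / (2 * y) * y ^ ((1 : ℝ) / 80) := by positivity
  have hs : √Z ≤ √(3 / (2 * y) * y ^ ((1 : ℝ) / 80)) := Real.sqrt_le_sqrt (Zc_le h3 h1 h2 hZ)
  have hx' : x ≤ 1.0608 * √(3 / (2 * y) * y ^ ((1 : ℝ) / 80)) * w := by
    refine hx.le.trans ?_
    rw [hc]
    refine mul_le_mul_of_nonneg_right ?_ hw.le
    refine le_trans (le_of_eq ?_) (mul_le_mul_of_nonneg_left hs (by norm_num))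
    norm_num
  refine (Real.log_le_log hx0 hx').trans (le_of_eq ?_)
  rw [Real.log_mul (by positivity) hw.ne', Real.log_mul (by norm_num) (by positivity),
    Real.log_sqrt hq.le, Real.log_mul (by positivity) (by positivity), Real.log_rpow h0,
    show 3 / (2 * y) = 1.5 / y by field_simp; norm_num,
    Real.log_div (by norm_num) (by positivity)]
  ring

theorem fn2a {n : ℕ} (hn : 21 ≤ n) {y y1 Z : ℝ} (h3 : 3 ≤ y) (h4 : y ≤ 4) (h1 : y1 ≤ y)
    (h2 : y ≤ y1 + 1 / 80) (hZ : Zc y y1 Z) :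
    cE y * (51 / 50) * √Z * gam 3 n ≤ √(Mlow y) / 2 * gam y n ∨
    cE y * (51 / 50) * √Z * gam 4 n ≤ √(Mlow y) / 2 * gam y n := by
  by_contra! hcon
  obtain ⟨hA, hB⟩ := hcon
  have hM : Mlow y = Mf y := by simp [Mlow, (by linarith : (2 : ℝ) ≤ y)]
  have hMp : 0 < Mlow y := by rw [hM]; unfold Mf; positivity
  have hLp : 0 < √(Mlow y) / 2 * gam y n := by
    have := NumF2a_gam_pos (y := y) (by linarith) n
    positivity
  have a := NumF2a_log_rhs h3 h1 h2 hZ (n := n) (NumF2a_gam_pos (y := 3) (by norm_num) n) hLp hA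
  have b := NumF2a_log_rhs h3 h1 h2 hZ (n := n) (NumF2a_gam_pos (y := 4) (by norm_num) n) hLp hB
  rw [NumF2a_log_lhs (by linarith) n, NumF2a_log_gam (by norm_num) n] at a b
  have main := NumF2a_main h3 h4
  have e4 : Real.log 4 = 2 * Real.log 2 := by
    rw [show (4 : ℝ) = 2 ^ 2 by norm_num, Real.log_pow]; push_cast; ring
  have l3 := NumF2a_log3
  have l5 := NumF2a_log5
  have l2 := Real.log_two_gt_d9
  have l2' := Real.log_two_lt_d9
  have g1 : Real.log (3 - 1) = Real.log 2 := by norm_num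
  have g2 : Real.log (3 + 1) = 2 * Real.log 2 := by rw [← e4]; norm_num
  have g3 : Real.log (4 - 1) = Real.log 3 := by norm_num
  have g4 : Real.log (4 + 1) = Real.log 5 := by norm_num
  rw [g1, g2] at a
  rw [g3, g4, e4] at b
  have hu3 : Real.log 3 ≤ Real.log y := Real.log_le_log (by norm_num) h3
  have hu4 : Real.log y ≤ 2 * Real.log 2 := by
    rw [← e4]; exact Real.log_le_log (by linarith) h4
  have h20 : (10.42 * (2 * Real.log 2 - Real.log 3) - (2 * Real.log 2 + Real.log 5)) ≥ 0 := by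
    norm_num at *
    linarith
  have hab : 0 < 2 * Real.log 2 - Real.log 3 := by linarith [l3.2]
  have a' := mul_le_mul_of_nonneg_left a (sub_nonneg.2 hu4)
  have b' := mul_le_mul_of_nonneg_left b (sub_nonneg.2 hu3)
  have m' := mul_lt_mul_of_pos_right main hab
  have h20' := mul_nonneg h20 (sub_nonneg.2 hu3)
  linarith [a', b', m', h20']

end Pool.Agent.SG
end

section

set_option autoImplicit false

namespace Pool.Agent.SG

theorem NumF3_log3 : (109 : ℝ) / 100 ≤ Real.log 3 := by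
  have h1 : Real.log 3 = 1 + Real.log (3 / Real.exp 1) := by
    rw [Real.log_div (by norm_num) (Real.exp_pos 1).ne', Real.log_exp]; ring
  have h2 : 1 - (3 / Real.exp 1)⁻¹ ≤ Real.log (3 / Real.exp 1) :=
    Real.one_sub_inv_le_log_of_pos (by positivity)
  rw [inv_div] at h2
  have h3 := Real.exp_one_lt_d9
  linarith

theorem NumF3_four : (4 : ℝ) ^ ((1 : ℝ) / 80) ≤ 51 / 50 := by
  have h1 : (4 : ℝ) ≤ (51 / 50) ^ 80 := by norm_num
  calc (4 : ℝ) ^ ((1 : ℝ) / 80) ≤ ((51 / 50 : ℝ) ^ 80) ^ ((1 : ℝ) / 80) :=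
        Real.rpow_le_rpow (by norm_num) h1 (by norm_num)
    _ = 51 / 50 := by
        rw [← Real.rpow_natCast, ← Real.rpow_mul (by norm_num)]
        norm_num

theorem NumF3_star {y : ℝ} (hy : 4 ≤ y) :
    120000 * (y ^ 8 * y ^ ((1 : ℝ) / 80)) ≤ 81 * (3 : ℝ) ^ (2 * y + 9) := by
  have hy0 : 0 < y := by linarith
  have h3 := NumF3_log3
  -- y ≤ 4 exp ((y-4)/4)
  have h1 : y ≤ 4 * Real.exp ((y - 4) / 4) := by
    have := Real.add_one_le_exp ((y - 4) / 4)
    linarith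
  have h2 : y ^ ((641 : ℝ) / 80) ≤ (4 * Real.exp ((y - 4) / 4)) ^ ((641 : ℝ) / 80) :=
    Real.rpow_le_rpow hy0.le h1 (by norm_num)
  have e1 : (4 * Real.exp ((y - 4) / 4)) ^ ((641 : ℝ) / 80) =
      4 ^ 8 * (4 : ℝ) ^ ((1 : ℝ) / 80) * Real.exp ((641 : ℝ) / 320 * (y - 4)) := by
    rw [Real.mul_rpow (by norm_num) (Real.exp_pos _).le, ← Real.exp_mul]
    have : (641 : ℝ) / 80 = (8 : ℕ) + 1 / 80 := by norm_num
    congr 1
    · rw [this, Real.rpow_add (by norm_num), Real.rpow_natCast]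
    · congr 1; ring
  have e2 : y ^ ((641 : ℝ) / 80) = y ^ 8 * y ^ ((1 : ℝ) / 80) := by
    have : (641 : ℝ) / 80 = (8 : ℕ) + 1 / 80 := by norm_num
    rw [this, Real.rpow_add hy0, Real.rpow_natCast]
  have e3 : (3 : ℝ) ^ (2 * y + 9) = 3 ^ 17 * Real.exp (2 * Real.log 3 * (y - 4)) := by
    have : 2 * y + 9 = (17 : ℕ) + 2 * (y - 4) := by push_cast; ring
    rw [this, Real.rpow_add (by norm_num), Real.rpow_natCast,
      Real.rpow_def_of_pos (by norm_num : (0 : ℝ) < 3)]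
    congr 2; ring
  have h4 : Real.exp ((641 : ℝ) / 320 * (y - 4)) ≤ Real.exp (2 * Real.log 3 * (y - 4)) := by
    apply Real.exp_le_exp.2
    apply mul_le_mul_of_nonneg_right _ (by linarith)
    linarith
  rw [← e2, e3]
  calc 120000 * y ^ ((641 : ℝ) / 80) ≤
        120000 * (4 ^ 8 * (4 : ℝ) ^ ((1 : ℝ) / 80) * Real.exp ((641 : ℝ) / 320 * (y - 4))) := by
        rw [← e1]; exact mul_le_mul_of_nonneg_left h2 (by norm_num)
    _ ≤ 120000 * (4 ^ 8 * (51 / 50) * Real.exp (2 * Real.log 3 * (y - 4))) := by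
        apply mul_le_mul_of_nonneg_left _ (by norm_num)
        apply mul_le_mul _ h4 (Real.exp_pos _).le (by norm_num)
        exact mul_le_mul_of_nonneg_left NumF3_four (by norm_num)
    _ = (120000 * (4 ^ 8 * (51 / 50))) * Real.exp (2 * Real.log 3 * (y - 4)) := by ring
    _ ≤ (81 * 3 ^ 17) * Real.exp (2 * Real.log 3 * (y - 4)) :=
        mul_le_mul_of_nonneg_right (by norm_num) (Real.exp_pos _).le
    _ = _ := by ring

theorem NumF3_poly {y : ℝ} (hy : 4 ≤ y) :
    (292 : ℝ) / 1000 * (y ^ 3 * (y ^ 2 + y + 1) ^ 2) ≤ (y + 1) ^ 3 * (y - 1) ^ 4 := by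
  obtain ⟨z, rfl⟩ : ∃ z, y = 4 + z := ⟨y - 4, by ring⟩
  have hz : 0 ≤ z := by linarith
  rw [← sub_nonneg]
  ring_nf
  positivity

theorem fn3 {n K : ℕ} (hK : 4 ≤ K) (hn : 21 ≤ n) (hnK : n < 2 * K + 14) {y y1 Z : ℝ}
    (h3 : K ≤ y) (h1 : y1 ≤ y) (h2 : y ≤ y1 + 1 / 80) (hZ : Zc y y1 Z) :
    cE y * (51 / 50) * √Z * gam 3 n ≤ √(Mlow y) / 2 * gam y n := by
  have hK4 : (4 : ℝ) ≤ K := by exact_mod_cast hK
  have hy : 4 ≤ y := by linarith
  have hy0 : 0 < y := by linarith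
  have hZl := Zc_le (by linarith) h1 h2 hZ
  have hnK' : (n : ℝ) ≤ 2 * K + 13 := by
    have : n ≤ 2 * K + 13 := by omega
    exact_mod_cast this
  set e : ℝ := y + 13 / 2 - (n : ℝ) / 2 with he
  have he0 : 0 ≤ e := by linarith
  have hcE : cE y = 26 / 25 := by unfold cE; rw [if_neg (by linarith)]
  have hM : Mlow y = Mf y := by unfold Mlow; rw [if_pos (by linarith)]
  rw [hcE, hM]
  -- rewrite gam
  have g3 : gam 3 n = 16 * ((3 : ℝ) ^ e / (3 : ℝ) ^ (y + 9 / 2)) := by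
    unfold gam
    have : (3 : ℝ) - 1 - (n : ℝ) / 2 = e - (y + 9 / 2) := by rw [he]; ring
    rw [this, Real.rpow_sub (by norm_num)]
    ring
  have gy : (y - 1) ^ 2 * (y + 1) / y ^ ((15 : ℝ) / 2) * (3 : ℝ) ^ e ≤ gam y n := by
    unfold gam
    have : y - 1 - (n : ℝ) / 2 = e - 15 / 2 := by rw [he]; ring
    rw [this, Real.rpow_sub hy0]
    have h4 : (3 : ℝ) ^ e ≤ y ^ e := Real.rpow_le_rpow (by norm_num) (by linarith) he0
    calc (y - 1) ^ 2 * (y + 1) / y ^ ((15 : ℝ) / 2) * (3 : ℝ) ^ e ≤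
          (y - 1) ^ 2 * (y + 1) / y ^ ((15 : ℝ) / 2) * y ^ e :=
          mul_le_mul_of_nonneg_left h4 (by positivity)
      _ = _ := by ring
  set S : ℝ := (3 : ℝ) ^ (y + 9 / 2) with hS
  set V : ℝ := y ^ ((15 : ℝ) / 2) with hV
  have hS0 : 0 < S := by positivity
  have hV0 : 0 < V := by positivity
  have hS2 : S ^ 2 = (3 : ℝ) ^ (2 * y + 9) := by
    rw [hS, ← Real.rpow_natCast, ← Real.rpow_mul (by norm_num)]
    congr 1; push_cast; ring
  have hV2 : V ^ 2 = y ^ 15 := by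
    rw [hV, ← Real.rpow_natCast, ← Real.rpow_mul hy0.le, ← Real.rpow_natCast]
    congr 1; push_cast; ring
  have hMf0 : 0 ≤ Mf y := by unfold Mf; positivity
  -- key inequality
  have key : √Z * (26 / 25 * (51 / 50) * 32) ≤ √(Mf y) * ((y - 1) ^ 2 * (y + 1) * S / V) := by
    have c1 : √Z * (26 / 25 * (51 / 50) * 32) = √(Z * (26 / 25 * (51 / 50) * 32) ^ 2) := by
      rw [Real.sqrt_mul' _ (by positivity), Real.sqrt_sq (by norm_num)]
    have c2 : √(Mf y) * ((y - 1) ^ 2 * (y + 1) * S / V) =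
        √(Mf y * ((y - 1) ^ 2 * (y + 1) * S / V) ^ 2) := by
      rw [Real.sqrt_mul' _ (by positivity), Real.sqrt_sq (by positivity)]
    rw [c1, c2]
    apply Real.sqrt_le_sqrt
    set w : ℝ := y ^ ((1 : ℝ) / 80) with hw
    have hw0 : 0 < w := by positivity
    have hst := NumF3_star hy
    rw [← hS2] at hst
    have hpoly := NumF3_poly hy
    have d1 : Mf y * ((y - 1) ^ 2 * (y + 1) * S / V) ^ 2 =
        4 * ((y + 1) ^ 3 * (y - 1) ^ 4) * S ^ 2 / ((y ^ 2 + y + 1) ^ 2 * y ^ 12) := by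
      rw [div_pow, hV2]
      unfold Mf
      field_simp
    rw [d1, le_div_iff₀ (by positivity)]
    have d2 : Z * (26 / 25 * (51 / 50) * 32) ^ 2 * ((y ^ 2 + y + 1) ^ 2 * y ^ 12) ≤
        3 / (2 * y) * w * (26 / 25 * (51 / 50) * 32) ^ 2 * ((y ^ 2 + y + 1) ^ 2 * y ^ 12) := by
      apply mul_le_mul_of_nonneg_right _ (by positivity)
      exact mul_le_mul_of_nonneg_right hZl (by positivity)
    refine d2.trans ?_
    have d3 : 3 / (2 * y) * w * (26 / 25 * (51 / 50) * 32) ^ 2 * ((y ^ 2 + y + 1) ^ 2 * y ^ 12) =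
        (3 / 2 * (26 / 25 * (51 / 50) * 32) ^ 2) * (y ^ 8 * w) * (y ^ 3 * (y ^ 2 + y + 1) ^ 2) := by
      field_simp
    rw [d3]
    have d4 : (y ^ 8 * w) * (y ^ 3 * (y ^ 2 + y + 1) ^ 2) * (292 / 1000) * 120000 ≤
        81 * S ^ 2 * ((y + 1) ^ 3 * (y - 1) ^ 4) := by
      calc (y ^ 8 * w) * (y ^ 3 * (y ^ 2 + y + 1) ^ 2) * (292 / 1000) * 120000
          = (120000 * (y ^ 8 * w)) * (292 / 1000 * (y ^ 3 * (y ^ 2 + y + 1) ^ 2)) := by ring
        _ ≤ (81 * S ^ 2) * ((y + 1) ^ 3 * (y - 1) ^ 4) :=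
            mul_le_mul hst hpoly (by positivity) (by positivity)
    have d5 : 0 ≤ (y ^ 8 * w) * (y ^ 3 * (y ^ 2 + y + 1) ^ 2) := by positivity
    nlinarith
  have h3e : 0 < (3 : ℝ) ^ e := by positivity
  rw [g3]
  have key2 : 26 / 25 * (51 / 50) * √Z * 16 / S ≤ √(Mf y) / 2 * ((y - 1) ^ 2 * (y + 1) / V) := by
    rw [div_le_iff₀ hS0]
    have : √(Mf y) / 2 * ((y - 1) ^ 2 * (y + 1) / V) * S =
        √(Mf y) * ((y - 1) ^ 2 * (y + 1) * S / V) / 2 := by ring
    rw [this]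
    linarith
  calc 26 / 25 * (51 / 50) * √Z * (16 * ((3 : ℝ) ^ e / S))
      = (26 / 25 * (51 / 50) * √Z * 16 / S) * (3 : ℝ) ^ e := by ring
    _ ≤ (√(Mf y) / 2 * ((y - 1) ^ 2 * (y + 1) / V)) * (3 : ℝ) ^ e :=
        mul_le_mul_of_nonneg_right key2 h3e.le
    _ = √(Mf y) / 2 * ((y - 1) ^ 2 * (y + 1) / V * (3 : ℝ) ^ e) := by ring
    _ ≤ _ := mul_le_mul_of_nonneg_left gy (by positivity)

end Pool.Agent.SG
end
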