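import Pool.Agent.Lib.MP_8b9a2e_co.Mg.G009
import Pool.Agent.Lib.MP_8b9a2e_co.Mg.G008
import Pool.Agent.Lib.MP_8b9a2e_co.Mg.G011

section

set_option autoImplicit false

namespace Pool.Agent.SG

theorem Claim_lam_pos {t : ℝ} (ht : 1 < t) : 0 < lam t := by
  have : 0 < t := by linarith
  unfold lam; positivity

theorem Claim_lam_mul {t : ℝ} (ht : 1 < t) : lam t * t = t ^ 2 + 1 := by
  have : t ≠ 0 := by positivity
  unfold lam; field_simp

theorem Claim_t4 {t : ℝ} (ht : 1 < t) : 0 < t ^ 4 - 1 := by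
  have : 1 < t ^ 4 := one_lt_pow₀ ht (by norm_num)
  linarith

theorem Claim_Ac_pos {t : ℝ} (ht : 1 < t) : 0 < Ac t := by
  have h4 := Claim_t4 ht
  have : 0 < t := by linarith
  unfold Ac; positivity

theorem Claim_delta_pos {t : ℝ} (ht : 1 < t) : 0 < t - 1 / t := by
  have h0 : 0 < t := by linarith
  have : 1 / t < 1 := by rw [div_lt_one h0]; exact ht
  linarith

/-- `2 l - 4 / l ≤ 2 A δ` -/
theorem Claim_F4 {t : ℝ} (ht : 1 < t) :
    2 * lam t - 4 / lam t ≤ 2 * Ac t * (t - 1 / t) := by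
  have h0 : 0 < t := by linarith
  have h4 := Claim_t4 ht
  have h1 : (0 : ℝ) < t ^ 2 + 1 := by positivity
  have e1 : 2 * Ac t * (t - 1 / t) - (2 * lam t - 4 / lam t) =
      2 * (t ^ 4 - 1) / (t * (t ^ 2 + 1)) := by
    unfold Ac lam
    have h4' := h4.ne'
    have h5 : t + 1 / t ≠ 0 := by positivity
    field_simp
    ring
  have : 0 ≤ 2 * (t ^ 4 - 1) / (t * (t ^ 2 + 1)) := by positivity
  linarith

/-- `2 + A δ² = (2 l - 4 / l) t` -/
theorem Claim_F5 {t : ℝ} (ht : 1 < t) :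
    2 + Ac t * (t - 1 / t) ^ 2 = (2 * lam t - 4 / lam t) * t := by
  have h0 : 0 < t := by linarith
  have h4' := (Claim_t4 ht).ne'
  unfold Ac lam
  have h5 : t + 1 / t ≠ 0 := by positivity
  field_simp
  ring

theorem Claim_F6 {t : ℝ} (ht : 1 < t) :
    (t - 1 / t) ^ 2 / lam t + lam t = 2 * lam t - 4 / lam t := by
  have h0 : 0 < t := by linarith
  unfold lam
  have h5 : t + 1 / t ≠ 0 := by positivity
  field_simp
  ring

/-- `2 ≤ 4 y A δ / t` -/
theorem Claim_F7 {t : ℝ} (ht : 1 < t) :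
    2 ≤ t ^ 2 * Ac t * (2 * (2 * (t - 1 / t)) / t) := by
  have h0 : 0 < t := by linarith
  have h4 := Claim_t4 ht
  have h4' := h4.ne'
  have h1 : (0 : ℝ) < t ^ 2 + 1 := by positivity
  have e1 : t ^ 2 * Ac t * (2 * (2 * (t - 1 / t)) / t) - 2 =
      2 * (4 * t ^ 4 - t ^ 2 - 1) / (t ^ 2 + 1) := by
    unfold Ac
    field_simp
    ring
  have h2 : 0 ≤ 4 * t ^ 4 - t ^ 2 - 1 := by nlinarith [sq_nonneg (t ^ 2 - 1)]
  have : 0 ≤ 2 * (4 * t ^ 4 - t ^ 2 - 1) / (t ^ 2 + 1) := by positivity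
  linarith

/-- combination of a heavy part and a light part -/
theorem Claim_comb {t Q0 w s X dH dr : ℝ} (ht : 1 < t) (hQ : Ac t ≤ Q0) (hw : t - 1 / t ≤ w)
    (hs : 0 ≤ s) (hX : 1 ≤ X)
    (hH : (t - 1 / t) ^ 2 * dH + lam t * (w + 1 / t) ≤ 2 + Q0 * w ^ 2)
    (hr : dr ≤ s / lam t + Ac t * (X - 1)) :
    (t - 1 / t) ^ 2 * (dH + dr) + lam t * (w + 1 / t + s) ≤ 2 + Q0 * X * (w + s) ^ 2 := by
  have hA := Claim_Ac_pos ht
  have hδ := Claim_delta_pos ht
  have hF4 := Claim_F4 ht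
  have hF6 := Claim_F6 ht
  set δ := t - 1 / t with hδd
  have h1 : δ ^ 2 * dr ≤ δ ^ 2 * (s / lam t + Ac t * (X - 1)) :=
    mul_le_mul_of_nonneg_left hr (sq_nonneg _)
  have h2 : δ ^ 2 * (s / lam t) + lam t * s = (2 * lam t - 4 / lam t) * s := by
    rw [← hF6]; ring
  have h3 : (2 * lam t - 4 / lam t) * s ≤ 2 * Ac t * δ * s :=
    mul_le_mul_of_nonneg_right hF4 hs
  have h4 : (X - 1) * δ ^ 2 + 2 * δ * s ≤ X * (w + s) ^ 2 - w ^ 2 := by
    have h5 : δ ^ 2 ≤ (w + s) ^ 2 := by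
      apply pow_le_pow_left₀ hδ.le; linarith
    have h6 : (X - 1) * δ ^ 2 ≤ (X - 1) * (w + s) ^ 2 :=
      mul_le_mul_of_nonneg_left h5 (by linarith)
    have h7 : δ * s ≤ w * s := mul_le_mul_of_nonneg_right hw hs
    nlinarith [sq_nonneg s]
  have h8 : 0 ≤ (X - 1) * δ ^ 2 + 2 * δ * s := by
    have : 0 ≤ (X - 1) * δ ^ 2 := mul_nonneg (by linarith) (sq_nonneg _)
    positivity
  have h9 : Ac t * ((X - 1) * δ ^ 2 + 2 * δ * s) ≤ Q0 * (X * (w + s) ^ 2 - w ^ 2) :=
    mul_le_mul hQ h4 h8 (by linarith)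
  nlinarith

theorem Claim_a {t : ℝ} (ht : 1 < t) {f : Fo} (hp : PP (lam t) f) (hg : t ≤ gs (lam t) f)
    (ha : AL t f) : Cl t f (Wf t f) := by
  have hA := Claim_Ac_pos ht
  have hδ := Claim_delta_pos ht
  have hF4 := Claim_F4 ht
  have hF5 := Claim_F5 ht
  have hF6 := Claim_F6 ht
  obtain ⟨hW, -, -⟩ := light ht hp ha
  refine ⟨hW, ?_⟩
  have hd : ds (lam t) f = Wf t f - Ac t + gs (lam t) f / lam t := by unfold Wf; ring
  rw [hd]
  obtain ⟨h, hh⟩ : ∃ h, gs (lam t) f = t + h := ⟨gs (lam t) f - t, by ring⟩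
  have hh0 : 0 ≤ h := by linarith
  set W := Wf t f
  set δ := t - 1 / t with hδd
  have e1 : δ ^ 2 * (W - Ac t + gs (lam t) f / lam t) + lam t * gs (lam t) f =
      δ ^ 2 * (W - Ac t) + (2 * lam t - 4 / lam t) * (t + h) := by
    rw [← hF6, hh]; ring
  rw [e1, hh]
  have e2 : t + h - 1 / t = δ + h := by rw [hδd]; ring
  rw [e2]
  have h1 : (2 * lam t - 4 / lam t) * h ≤ 2 * Ac t * δ * h := mul_le_mul_of_nonneg_right hF4 hh0
  have h2 : 2 * Ac t * δ * h ≤ 2 * W * δ * h := by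
    apply mul_le_mul_of_nonneg_right _ hh0
    apply mul_le_mul_of_nonneg_right _ hδ.le
    linarith
  nlinarith [sq_nonneg h, mul_nonneg (hA.le.trans hW) (sq_nonneg h)]

/-- heavy single tree -/
theorem Claim_single {t p dc Qc : ℝ} (ht : 1 < t) (hp : 0 < p)
    (hc : (t - 1 / t) ^ 2 * dc + lam t * (lam t - p) ≤ 2 + Qc * (lam t - p - 1 / t) ^ 2)
    (hpt : p ≤ 1 / t) :
    (t - 1 / t) ^ 2 * ((1 + dc) / p ^ 2) + lam t * (1 / p) ≤
      2 + t ^ 2 * Qc * (1 / p - 1 / t) ^ 2 := by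
  have h0 : 0 < t := by linarith
  have hu : t ≤ 1 / p := by
    rw [le_div_iff₀ hp]
    rw [le_div_iff₀ h0] at hpt
    linarith
  have ht1 : 1 / t < t := by
    have := Claim_delta_pos ht; linarith
  set u := 1 / p with hud
  have hpu : p * u = 1 := by rw [hud]; field_simp
  have e0 : (1 + dc) / p ^ 2 = (1 + dc) * u ^ 2 := by rw [hud]; field_simp
  rw [e0]
  have e1 : lam t - p - 1 / t = t - p := by unfold lam; ring
  rw [e1] at hc
  have e2 : (t - 1 / t) ^ 2 = lam t ^ 2 - 4 := by unfold lam; field_simp; ring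
  have e3 : t * (1 / t) = 1 := by field_simp
  have h1 : ((t - 1 / t) ^ 2 * dc + lam t * (lam t - p)) * u ^ 2 ≤
      (2 + Qc * (t - p) ^ 2) * u ^ 2 := mul_le_mul_of_nonneg_right hc (sq_nonneg _)
  have e4 : (t - p) ^ 2 * u ^ 2 = t ^ 2 * (u - 1 / t) ^ 2 := by
    have : (t - p) * u = t * (u - 1 / t) := by
      rw [sub_mul, hpu, mul_sub, e3]
    calc (t - p) ^ 2 * u ^ 2 = ((t - p) * u) ^ 2 := by ring
      _ = (t * (u - 1 / t)) ^ 2 := by rw [this]
      _ = _ := by ring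
  have e5 : (u - t) * (u - 1 / t) = u ^ 2 - lam t * u + 1 := by
    unfold lam; linear_combination (1 : ℝ) * e3
  have h2 : 0 ≤ (u - t) * (u - 1 / t) := mul_nonneg (by linarith) (by linarith)
  have e6 : p * u ^ 2 = u := by
    calc p * u ^ 2 = (p * u) * u := by ring
      _ = u := by rw [hpu, one_mul]
  have e7 : lam t * (lam t - p) * u ^ 2 = lam t ^ 2 * u ^ 2 - lam t * u := by
    calc lam t * (lam t - p) * u ^ 2 = lam t ^ 2 * u ^ 2 - lam t * (p * u ^ 2) := by ring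
      _ = _ := by rw [e6]
  have e8 : Qc * (t - p) ^ 2 * u ^ 2 = t ^ 2 * Qc * (u - 1 / t) ^ 2 := by
    calc Qc * (t - p) ^ 2 * u ^ 2 = Qc * ((t - p) ^ 2 * u ^ 2) := by ring
      _ = _ := by rw [e4]; ring
  nlinarith

theorem Claim_u_ge {l : ℝ} {c r : Fo} (hp : PP l (.cons c r)) : 1 / l ≤ 1 / (l - gs l c) := by
  have h1 := hp.2.1
  have h2 := gs_nonneg hp.1
  exact one_div_le_one_div_of_le h1 (by linarith)

theorem Claim_Cl_single {t : ℝ} (ht : 1 < t) {c : Fo} {Qc : ℝ} (hp : 0 < lam t - gs (lam t) c)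
    (hg : t ≤ gs (lam t) c) (hc : Cl t c Qc) :
    Cl t (.cons c .nil) (t ^ 2 * Qc) ∧ t ≤ gs (lam t) (.cons c .nil) := by
  have h0 : 0 < t := by linarith
  have hA := Claim_Ac_pos ht
  have hpt : lam t - gs (lam t) c ≤ 1 / t := by unfold lam; unfold lam at hg; linarith
  have h1 := Claim_single (p := lam t - gs (lam t) c) (dc := ds (lam t) c) (Qc := Qc) ht hp
    (by have := hc.2
        rw [sub_sub_cancel]
        exact this) hpt
  refine ⟨⟨?_, ?_⟩, ?_⟩
  · have h2 : 1 ≤ t ^ 2 := one_le_pow₀ ht.le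
    have h3 := hc.1
    nlinarith
  · simp only [ds, gs, add_zero]
    exact h1
  · simp only [gs, add_zero]
    rw [le_div_iff₀ hp]
    rw [le_div_iff₀ h0] at hpt
    linarith

/-- heavy first tree, light rest -/
theorem Claim_b1 {t : ℝ} (ht : 1 < t) {c r : Fo} {Q1 X : ℝ} (hp : PP (lam t) (.cons c r))
    (h1 : Cl t (.cons c .nil) Q1) (h2 : t ≤ gs (lam t) (.cons c .nil)) (hX : 1 ≤ X)
    (hr : Wf t r ≤ Ac t * X) : Cl t (.cons c r) (Q1 * X) := by
  have h0 : 0 < t := by linarith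
  have hA := Claim_Ac_pos ht
  have hδ := Claim_delta_pos ht
  have hs := gs_nonneg hp.2.2
  refine ⟨?_, ?_⟩
  · have h3 := h1.1
    nlinarith
  · have h3 := h1.2
    simp only [ds, gs, add_zero] at h3 h2 ⊢
    have h4 := Claim_comb (t := t) (Q0 := Q1) (w := 1 / (lam t - gs (lam t) c) - 1 / t)
      (s := gs (lam t) r) (X := X) (dH := (1 + ds (lam t) c) / (lam t - gs (lam t) c) ^ 2)
      (dr := ds (lam t) r) ht h1.1 (by linarith) hs hX (by rw [sub_add_cancel]; exact h3)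
      (by unfold Wf at hr; linarith)
    rw [sub_add_cancel] at h4
    have e1 : 1 / (lam t - gs (lam t) c) - 1 / t + gs (lam t) r =
      1 / (lam t - gs (lam t) c) + gs (lam t) r - 1 / t := by ring
    rw [e1] at h4
    exact h4

/-- light first tree, heavy rest -/
theorem Claim_c {t : ℝ} (ht : 1 < t) {c r : Fo} {Q1 X : ℝ} (hp : PP (lam t) (.cons c r))
    (h1 : Cl t r Q1) (h2 : t ≤ gs (lam t) r) (hX : 1 ≤ X)
    (hr : Wf t (.cons c .nil) ≤ Ac t * X) : Cl t (.cons c r) (Q1 * X) := by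
  have h0 : 0 < t := by linarith
  have hA := Claim_Ac_pos ht
  have hδ := Claim_delta_pos ht
  have hs : 0 ≤ 1 / (lam t - gs (lam t) c) := by
    have := hp.2.1; positivity
  refine ⟨?_, ?_⟩
  · have h3 := h1.1
    nlinarith
  · have h3 := h1.2
    unfold Wf at hr
    simp only [ds, gs, add_zero] at h3 h2 hr ⊢
    have h4 := Claim_comb (t := t) (Q0 := Q1) (w := gs (lam t) r - 1 / t)
      (s := 1 / (lam t - gs (lam t) c)) (X := X)
      (dr := (1 + ds (lam t) c) / (lam t - gs (lam t) c) ^ 2)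
      (dH := ds (lam t) r) ht h1.1 (by linarith) hs hX (by rw [sub_add_cancel]; exact h3)
      (by linarith)
    rw [sub_add_cancel] at h4
    have e1 : gs (lam t) r - 1 / t + 1 / (lam t - gs (lam t) c) =
      1 / (lam t - gs (lam t) c) + gs (lam t) r - 1 / t := by ring
    rw [e1] at h4
    linarith

/-- both heavy -/
theorem Claim_b2 {t : ℝ} (ht : 1 < t) {c r : Fo} {Q1 Q2 Q : ℝ}
    (h1 : Cl t (.cons c .nil) Q1) (h2 : t ≤ gs (lam t) (.cons c .nil)) (h3 : Cl t r Q2)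
    (h4 : t ≤ gs (lam t) r) (hQ1 : Q1 ≤ Q) (hQ2 : Q2 ≤ Q) (hQA : t ^ 2 * Ac t ≤ Q) :
    Cl t (.cons c r) Q := by
  have h0 : 0 < t := by linarith
  have hA := Claim_Ac_pos ht
  have hδ := Claim_delta_pos ht
  have hF7 := Claim_F7 ht
  refine ⟨h1.1.trans hQ1, ?_⟩
  have h5 := h1.2
  have h6 := h3.2
  simp only [ds, gs, add_zero] at h5 h2 ⊢
  set u := 1 / (lam t - gs (lam t) c)
  set s := gs (lam t) r
  set δ := t - 1 / t with hδd
  have hi : 0 < 1 / t := by positivity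
  obtain ⟨w, hw⟩ : ∃ w, u = w + 1 / t := ⟨u - 1 / t, by ring⟩
  obtain ⟨w', hw'⟩ : ∃ w', s = w' + 1 / t := ⟨s - 1 / t, by ring⟩
  have hwδ : δ ≤ w := by linarith
  have hwδ' : δ ≤ w' := by linarith
  rw [hw] at h5 ⊢
  rw [hw'] at h6 ⊢
  have e1 : w + 1 / t - 1 / t = w := by ring
  have e2 : w' + 1 / t - 1 / t = w' := by ring
  have e3 : w + 1 / t + (w' + 1 / t) - 1 / t = w + w' + 1 / t := by ring
  rw [e1] at h5
  rw [e2] at h6
  rw [e3]
  have hQ0 : 0 ≤ Q := le_trans (by positivity) hQA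
  have h7 : Q1 * w ^ 2 ≤ Q * w ^ 2 := mul_le_mul_of_nonneg_right hQ1 (sq_nonneg _)
  have h8 : Q2 * w' ^ 2 ≤ Q * w' ^ 2 := mul_le_mul_of_nonneg_right hQ2 (sq_nonneg _)
  have h9 : 2 * (2 * δ) / t ≤ 2 * (w + w') / t := by
    apply div_le_div_of_nonneg_right _ h0.le; linarith
  have h10 : t ^ 2 * Ac t * (2 * (2 * δ) / t) ≤ Q * (2 * (w + w') / t) :=
    mul_le_mul hQA h9 (by positivity) hQ0
  have h11 : Q * (w + w' + 1 / t) ^ 2 = Q * w ^ 2 + Q * w' ^ 2 + Q * (2 * (w + w') / t) +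
      Q * (2 * w * w' + (1 / t) ^ 2) := by ring
  have h12 : 0 ≤ Q * (2 * w * w' + (1 / t) ^ 2) := by
    have : 0 ≤ w := by linarith
    have : 0 ≤ w' := by linarith
    positivity
  rw [h11]
  linarith

/-- a heavy single tree comes from heavy children -/
theorem Claim_heavy_iff {t : ℝ} (ht : 1 < t) {c : Fo}
    (h : ¬ 1 / t ≤ lam t - gs (lam t) c) : t ≤ gs (lam t) c := by
  have h0 : 0 < t := by linarith
  unfold lam at *
  linarith

theorem Claim_y_gt {t : ℝ} (ht : 1 < t) : 1 < t ^ 2 := one_lt_pow₀ ht (by norm_num)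

theorem Claim_lt {t : ℝ} (ht : 1 < t) {f : Fo} (hg : t ≤ gs (lam t) f) :
    t ^ 2 + 1 ≤ lam t * gs (lam t) f := by
  rw [← Claim_lam_mul ht]
  exact mul_le_mul_of_nonneg_left hg (Claim_lam_pos ht).le

theorem claim {t : ℝ} (ht : 1 < t) {f : Fo} (hp : PP (lam t) f) (hg : t ≤ gs (lam t) f) :
    ∃ Q, Cl t f Q ∧ Q ≤ Ac t * (t ^ 2) ^ ((f.size : ℝ) - t ^ 2 - 1) := by
  have h0 : 0 < t := by linarith
  have hA := Claim_Ac_pos ht
  have hy := Claim_y_gt ht
  have hy0 : 0 < t ^ 2 := by positivity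
  have hlp := Claim_lam_pos ht
  induction f with
  | nil => simp only [gs] at hg; linarith
  | cons c r ihc ihr =>
    by_cases hal : AL t (.cons c r)
    · -- all light
      refine ⟨Wf t (.cons c r), Claim_a ht hp hg hal, ?_⟩
      obtain ⟨-, h1, -⟩ := light ht hp hal
      refine h1.trans (mul_le_mul_of_nonneg_left ?_ hA.le)
      apply Real.rpow_le_rpow_of_exponent_le hy.le
      have := Claim_lt ht hg
      linarith
    by_cases hl : 1 / t ≤ lam t - gs (lam t) c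
    · -- light first tree
      have hr : t ≤ gs (lam t) r := by
        by_contra hcon
        exact hal ⟨hl, AL_of_le ht hp.2.2 (by linarith)⟩
      obtain ⟨Q1, hQ1, hQ1b⟩ := ihr hp.2.2 hr
      obtain ⟨-, hW, hs⟩ := light ht (f := .cons c .nil) ⟨hp.1, hp.2.1, trivial⟩ ⟨hl, trivial⟩
      set e := (((Fo.cons c .nil).size : ℝ) - lam t * gs (lam t) (.cons c .nil)) with he
      have hX : 1 ≤ (t ^ 2) ^ e := Real.one_le_rpow hy.le (by linarith)
      refine ⟨Q1 * (t ^ 2) ^ e, Claim_c ht hp hQ1 hr hX hW, ?_⟩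
      calc Q1 * (t ^ 2) ^ e ≤ Ac t * (t ^ 2) ^ ((r.size : ℝ) - t ^ 2 - 1) * (t ^ 2) ^ e :=
            mul_le_mul_of_nonneg_right hQ1b (by positivity)
        _ = Ac t * (t ^ 2) ^ ((r.size : ℝ) - t ^ 2 - 1 + e) := by
            rw [mul_assoc, ← Real.rpow_add hy0]
        _ ≤ _ := by
            refine mul_le_mul_of_nonneg_left ?_ hA.le
            apply Real.rpow_le_rpow_of_exponent_le hy.le
            have h2 : 0 ≤ lam t * gs (lam t) (.cons c .nil) := by
              have := hp.2.1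
              simp only [gs]; positivity
            rw [he]
            simp only [Fo.size]
            push_cast
            linarith
    · -- heavy first tree
      have hc : t ≤ gs (lam t) c := Claim_heavy_iff ht hl
      obtain ⟨Qc, hQc, hQcb⟩ := ihc hp.1 hc
      obtain ⟨hs1, hs2⟩ := Claim_Cl_single ht hp.2.1 hc hQc
      have hb : t ^ 2 * Qc ≤ Ac t * (t ^ 2) ^ ((c.size : ℝ) - t ^ 2) := by
        calc t ^ 2 * Qc ≤ t ^ 2 * (Ac t * (t ^ 2) ^ ((c.size : ℝ) - t ^ 2 - 1)) :=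
              mul_le_mul_of_nonneg_left hQcb hy0.le
          _ = Ac t * ((t ^ 2) ^ ((c.size : ℝ) - t ^ 2 - 1) * (t ^ 2) ^ (1 : ℝ)) := by
              rw [Real.rpow_one]; ring
          _ = _ := by
              rw [← Real.rpow_add hy0]; congr 2; ring
      by_cases hr : t ≤ gs (lam t) r
      · -- both heavy
        obtain ⟨Qr, hQr, hQrb⟩ := ihr hp.2.2 hr
        have hb2 : t ^ 2 * Qr ≤ Ac t * (t ^ 2) ^ ((r.size : ℝ) - t ^ 2) := by
          calc t ^ 2 * Qr ≤ t ^ 2 * (Ac t * (t ^ 2) ^ ((r.size : ℝ) - t ^ 2 - 1)) :=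
                mul_le_mul_of_nonneg_left hQrb hy0.le
            _ = Ac t * ((t ^ 2) ^ ((r.size : ℝ) - t ^ 2 - 1) * (t ^ 2) ^ (1 : ℝ)) := by
                rw [Real.rpow_one]; ring
            _ = _ := by
                rw [← Real.rpow_add hy0]; congr 2; ring
        refine ⟨max (t ^ 2 * Qc) (t ^ 2 * Qr), Claim_b2 ht hs1 hs2 hQr hr (le_max_left _ _) ?_ ?_,
          max_le (hb.trans ?_) (hb2.trans ?_)⟩
        · refine le_trans ?_ (le_max_right _ _)
          have := hQr.1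
          nlinarith
        · refine le_trans ?_ (le_max_left _ _)
          exact mul_le_mul_of_nonneg_left hQc.1 hy0.le
        · refine mul_le_mul_of_nonneg_left ?_ hA.le
          apply Real.rpow_le_rpow_of_exponent_le hy.le
          simp only [Fo.size]
          push_cast
          have : (0 : ℝ) ≤ r.size := Nat.cast_nonneg _
          linarith
        · refine mul_le_mul_of_nonneg_left ?_ hA.le
          apply Real.rpow_le_rpow_of_exponent_le hy.le
          simp only [Fo.size]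
          push_cast
          have : (0 : ℝ) ≤ c.size := Nat.cast_nonneg _
          linarith
      · -- light rest
        obtain ⟨-, hW, hs⟩ := light ht hp.2.2 (AL_of_le ht hp.2.2 (not_le.1 hr).le)
        set e := ((r.size : ℝ) - lam t * gs (lam t) r) with he
        have hX : 1 ≤ (t ^ 2) ^ e := Real.one_le_rpow hy.le (by linarith)
        refine ⟨t ^ 2 * Qc * (t ^ 2) ^ e, Claim_b1 ht hp hs1 hs2 hX hW, ?_⟩
        calc t ^ 2 * Qc * (t ^ 2) ^ e ≤ Ac t * (t ^ 2) ^ ((c.size : ℝ) - t ^ 2) * (t ^ 2) ^ e :=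
              mul_le_mul_of_nonneg_right hb (by positivity)
          _ = Ac t * (t ^ 2) ^ ((c.size : ℝ) - t ^ 2 + e) := by
              rw [mul_assoc, ← Real.rpow_add hy0]
          _ ≤ _ := by
              refine mul_le_mul_of_nonneg_left ?_ hA.le
              apply Real.rpow_le_rpow_of_exponent_le hy.le
              have h2 : 0 ≤ lam t * gs (lam t) r := mul_nonneg hlp.le (gs_nonneg hp.2.2)
              rw [he]
              simp only [Fo.size]
              push_cast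
              linarith

theorem Claim_leaves_lt {t : ℝ} (ht : 1 < t) {k : ℕ} (hk : (k : ℝ) < t ^ 2 + 1) (j : ℕ) :
    gs (lam t) (comet k j) < t := by
  have h0 : 0 < t := by linarith
  have hl := Claim_lam_pos ht
  induction j with
  | zero =>
    simp only [comet]
    rw [leaves_gs, div_lt_iff₀ hl, mul_comm, Claim_lam_mul ht]
    exact hk
  | succ j ih =>
    simp only [comet, gs, add_zero]
    have h1 : 1 / t < lam t - gs (lam t) (comet k j) := by
      have : lam t = t + 1 / t := rfl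
      linarith
    have h2 : 0 < 1 / t := by positivity
    rw [div_lt_iff₀ (h2.trans h1)]
    rw [div_lt_iff₀ h0] at h1
    linarith

/-- a comet with `gs ≥ t` has at least `t^2+1` leaves -/
theorem comet_leaves {t : ℝ} (ht : 1 < t) {k j : ℕ} (hp : PP (lam t) (comet k j))
    (hg : t ≤ gs (lam t) (comet k j)) : t ^ 2 + 1 ≤ k := by
  by_contra hcon
  exact absurd (Claim_leaves_lt ht (not_le.1 hcon) j) (not_lt.2 hg)

theorem claim_comet {t : ℝ} (ht : 1 < t) {k j : ℕ} (hp : PP (lam t) (comet k j))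
    (hg : t ≤ gs (lam t) (comet k j)) : Cl t (comet k j) (Ac t * (t ^ 2) ^ j) := by
  have h0 : 0 < t := by linarith
  have hl := Claim_lam_pos ht
  have hy := Claim_y_gt ht
  induction j with
  | zero =>
    simp only [comet] at hp hg ⊢
    have hal : AL t (leaves k) := by
      have : ∀ k : ℕ, AL t (leaves k) := by
        intro k
        induction k with
        | zero => trivial
        | succ k ih =>
          refine ⟨?_, ih⟩
          simp only [gs]
          unfold lam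
          linarith
      exact this k
    have h1 := Claim_a ht hp hg hal
    have h2 : Wf t (leaves k) = Ac t * (t ^ 2) ^ 0 := by
      unfold Wf
      rw [leaves_gs, leaves_ds, div_div, ← sq, pow_zero]
      ring
    rw [← h2]
    exact h1
  | succ j ih =>
    have hc : t ≤ gs (lam t) (comet k j) := by
      by_contra hcon
      push Not at hcon
      have h1 : 1 / t < lam t - gs (lam t) (comet k j) := by
        have : lam t = t + 1 / t := rfl
        linarith
      have h2 : 0 < 1 / t := by positivity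
      have h3 : gs (lam t) (comet k (j + 1)) < t := by
        simp only [comet, gs, add_zero]
        rw [div_lt_iff₀ (h2.trans h1)]
        rw [div_lt_iff₀ h0] at h1
        linarith
      linarith
    have h1 := (Claim_Cl_single ht hp.2.1 hc (ih hp.1 hc)).1
    have e1 : t ^ 2 * (Ac t * (t ^ 2) ^ j) = Ac t * (t ^ 2) ^ (j + 1) := by ring
    rw [e1] at h1
    exact h1

/-- consequence of the potential inequality -/
theorem Cl.bound {t : ℝ} (ht : 1 < t) {f : Fo} {Q : ℝ} (h : Cl t f Q) (hg : t ≤ gs (lam t) f) :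
    (t - 1 / t) ^ 2 * (1 + ds (lam t) f) ≤ Q * (gs (lam t) f - 1 / t) ^ 2 := by
  have h0 : 0 < t := by linarith
  have h1 := h.2
  have h2 := Claim_lt ht hg
  have h3 : (t - 1 / t) ^ 2 = t ^ 2 - 2 + (1 / t) ^ 2 := by field_simp; ring
  have h4 : (1 / t) ^ 2 < 1 := by
    apply pow_lt_one₀ (by positivity) _ (by norm_num)
    rw [div_lt_one h0]; exact ht
  nlinarith

theorem size_ge {t : ℝ} (ht : 1 < t) {f : Fo} (hp : PP (lam t) f) (hg : t ≤ gs (lam t) f) :
    t ^ 2 + 1 ≤ f.size := by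
  have h0 : 0 < t := by linarith
  have hA := Claim_Ac_pos ht
  have hy := Claim_y_gt ht
  obtain ⟨Q, hQ, hQb⟩ := claim ht hp hg
  by_contra hcon
  push Not at hcon
  have h1 : (t ^ 2) ^ ((f.size : ℝ) - t ^ 2 - 1) < 1 :=
    Real.rpow_lt_one_of_one_lt_of_neg hy (by linarith)
  have h2 := hQ.1
  nlinarith

end Pool.Agent.SG
end

section

set_option autoImplicit false

namespace Pool.Agent.SG

theorem ClaimNC_factor {t : ℝ} (ht : 1 < t) {e e' : ℝ} (h : e ≤ e' - 1) :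
    Ac t * (t ^ 2) ^ e ≤ 3 / (2 * t ^ 2) * (Ac t * (t ^ 2) ^ e') := by
  have h0 : 0 < t := by linarith
  have hA := Claim_Ac_pos ht
  have hy := Claim_y_gt ht
  have hy0 : 0 < t ^ 2 := by positivity
  have h1 : (t ^ 2) ^ e ≤ (t ^ 2) ^ (e' - 1) := Real.rpow_le_rpow_of_exponent_le hy.le h
  rw [Real.rpow_sub_one hy0.ne'] at h1
  have h2 : 0 < (t ^ 2) ^ e' := by positivity
  calc Ac t * (t ^ 2) ^ e ≤ Ac t * ((t ^ 2) ^ e' / t ^ 2) := mul_le_mul_of_nonneg_left h1 hA.le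
    _ = 1 * (Ac t * (t ^ 2) ^ e' / t ^ 2) := by ring
    _ ≤ 3 / 2 * (Ac t * (t ^ 2) ^ e' / t ^ 2) :=
        mul_le_mul_of_nonneg_right (by norm_num) (by positivity)
    _ = _ := by field_simp

theorem ClaimNC_exp {t r : ℝ} (h0 : 0 < t) (hr : 0 < r) :
    (t ^ 2 + 1) * (r - 1) * (t ^ 2 - r) / (t ^ 2 * r) =
      lam t ^ 2 - (t ^ 2 + 1) / r - (1 + 1 / t ^ 2) * r := by
  unfold lam; field_simp; ring

theorem claim_nc {t : ℝ} (ht : 1 < t) (h2 : 2 ≤ t ^ 2) {f : Fo} (hp : PP (lam t) f)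
    (hg : t ≤ gs (lam t) f) (hn : ∀ k j, f ≠ comet k j) :
    ∃ Q, Cl t f Q ∧ Q ≤ 3 / (2 * t ^ 2) * (Ac t * (t ^ 2) ^ ((f.size : ℝ) - t ^ 2 - 1)) := by
  have h0 : 0 < t := by linarith
  have hA := Claim_Ac_pos ht
  have hy := Claim_y_gt ht
  have hy0 : 0 < t ^ 2 := by positivity
  have hlp := Claim_lam_pos ht
  induction f with
  | nil => simp only [gs] at hg; linarith
  | cons c r ihc ihr =>
    by_cases hrn : r = .nil
    · -- single tree
      subst hrn
      have hpt : lam t - gs (lam t) c ≤ 1 / t := by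
        simp only [gs, add_zero] at hg
        rw [le_div_iff₀ hp.2.1] at hg
        rw [le_div_iff₀ h0]
        linarith
      have hc : t ≤ gs (lam t) c := by
        have : lam t = t + 1 / t := rfl
        linarith
      obtain ⟨Qc, hQc, hQcb⟩ := ihc hp.1 hc (by
        intro k j h
        apply hn k (j + 1)
        rw [comet, h])
      refine ⟨t ^ 2 * Qc, (Claim_Cl_single ht hp.2.1 hc hQc).1, ?_⟩
      calc t ^ 2 * Qc ≤ t ^ 2 * (3 / (2 * t ^ 2) * (Ac t * (t ^ 2) ^ ((c.size : ℝ) - t ^ 2 - 1))) :=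
            mul_le_mul_of_nonneg_left hQcb hy0.le
        _ = 3 / (2 * t ^ 2) * (Ac t * ((t ^ 2) ^ ((c.size : ℝ) - t ^ 2 - 1) * (t ^ 2) ^ (1 : ℝ))) := by
            rw [Real.rpow_one]; ring
        _ = _ := by
            rw [← Real.rpow_add hy0]
            simp only [Fo.size]
            push_cast
            congr 3
            ring
    have hr1 : 1 ≤ lam t * gs (lam t) r := by
      cases r with
      | nil => exact absurd rfl hrn
      | cons d r' =>
        have h3 := Claim_u_ge hp.2.2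
        have h4 := gs_nonneg hp.2.2.2.2
        simp only [gs]
        rw [mul_add]
        have h5 : lam t * (1 / lam t) ≤ lam t * (1 / (lam t - gs (lam t) d)) :=
          mul_le_mul_of_nonneg_left h3 hlp.le
        have h6 : lam t * (1 / lam t) = 1 := by field_simp
        have h7 : 0 ≤ lam t * gs (lam t) r' := mul_nonneg hlp.le h4
        linarith
    have hu1 : 1 ≤ lam t * (1 / (lam t - gs (lam t) c)) := by
      have h3 := Claim_u_ge hp
      have h5 : lam t * (1 / lam t) ≤ lam t * (1 / (lam t - gs (lam t) c)) :=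
        mul_le_mul_of_nonneg_left h3 hlp.le
      have h6 : lam t * (1 / lam t) = 1 := by field_simp
      linarith
    by_cases hal : AL t (.cons c r)
    · -- all light
      refine ⟨Wf t (.cons c r), Claim_a ht hp hg hal, ?_⟩
      obtain ⟨s, g, hs1, hs2, hg0, hgs, hgo, hW⟩ := light_nc ht hp hal (by
        intro k h
        exact hn k 0 h)
      have hlg : 1 ≤ lam t * g := by
        rcases hgo with h | ⟨d, h⟩
        · have h5 : lam t * (1 / lam t) ≤ lam t * g := mul_le_mul_of_nonneg_left h hlp.le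
          have h6 : lam t * (1 / lam t) = 1 := by field_simp
          linarith
        · rw [Fo.cons.injEq] at h
          exact absurd h.2 hrn
      have hlt := Claim_lt ht hg
      rw [hgs] at hlt
      have hs0 : 0 < s := by linarith
      have e1 : lam t * (t / s + g) = (t ^ 2 + 1) / s + lam t * g := by
        rw [← Claim_lam_mul ht]; ring
      rw [e1] at hlt
      set N : ℝ := ((Fo.cons c r).size : ℝ) with hN
      have key : FF (t ^ 2) s *
          (t ^ 2) ^ (N - 1 - lam t ^ 2 + (1 + 1 / t ^ 2) * s - lam t * g) ≤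
          3 / 2 * (t ^ 2) ^ (N - t ^ 2 - 1 - 1) := by
        have hpos : 0 < (t ^ 2) ^ (N - 1 - lam t ^ 2 + (1 + 1 / t ^ 2) * s - lam t * g) := by
          positivity
        rcases le_total (1 + 1 / t ^ 2) s with h | h
        · have hk := k1 h2 h hs2
          calc _ ≤ 3 / 2 * (t ^ 2) ^ ((t ^ 2 + 1) * (s - 1) * (t ^ 2 - s) / (t ^ 2 * s)) *
                (t ^ 2) ^ (N - 1 - lam t ^ 2 + (1 + 1 / t ^ 2) * s - lam t * g) :=
                mul_le_mul_of_nonneg_right hk hpos.le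
            _ = 3 / 2 * (t ^ 2) ^ ((t ^ 2 + 1) * (s - 1) * (t ^ 2 - s) / (t ^ 2 * s) +
                (N - 1 - lam t ^ 2 + (1 + 1 / t ^ 2) * s - lam t * g)) := by
                rw [mul_assoc, ← Real.rpow_add hy0]
            _ ≤ _ := by
                refine mul_le_mul_of_nonneg_left ?_ (by norm_num)
                apply Real.rpow_le_rpow_of_exponent_le hy.le
                rw [ClaimNC_exp h0 hs0]
                linarith
        · have hk := k3 h2 hs1 h
          calc _ ≤ 3 / 2 * (t ^ 2) ^ (2 + 1 / t ^ 2 - (1 + 1 / t ^ 2) * s) *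
                (t ^ 2) ^ (N - 1 - lam t ^ 2 + (1 + 1 / t ^ 2) * s - lam t * g) :=
                mul_le_mul_of_nonneg_right hk hpos.le
            _ = 3 / 2 * (t ^ 2) ^ (2 + 1 / t ^ 2 - (1 + 1 / t ^ 2) * s +
                (N - 1 - lam t ^ 2 + (1 + 1 / t ^ 2) * s - lam t * g)) := by
                rw [mul_assoc, ← Real.rpow_add hy0]
            _ ≤ _ := by
                refine mul_le_mul_of_nonneg_left ?_ (by norm_num)
                apply Real.rpow_le_rpow_of_exponent_le hy.le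
                have e2 : lam t ^ 2 = t ^ 2 + 2 + 1 / t ^ 2 := by
                  unfold lam; field_simp; ring
                rw [e2]
                linarith
      calc Wf t (.cons c r) ≤ _ := hW
        _ = Ac t * (FF (t ^ 2) s *
            (t ^ 2) ^ (N - 1 - lam t ^ 2 + (1 + 1 / t ^ 2) * s - lam t * g)) := by ring
        _ ≤ Ac t * (3 / 2 * (t ^ 2) ^ (N - t ^ 2 - 1 - 1)) := mul_le_mul_of_nonneg_left key hA.le
        _ = _ := by
            rw [Real.rpow_sub_one hy0.ne' (N - t ^ 2 - 1)]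
            field_simp
    by_cases hl : 1 / t ≤ lam t - gs (lam t) c
    · -- light first tree
      have hr : t ≤ gs (lam t) r := by
        by_contra hcon
        exact hal ⟨hl, AL_of_le ht hp.2.2 (by linarith)⟩
      obtain ⟨Q1, hQ1, hQ1b⟩ := claim ht hp.2.2 hr
      obtain ⟨-, hW, hs⟩ := light ht (f := .cons c .nil) ⟨hp.1, hp.2.1, trivial⟩ ⟨hl, trivial⟩
      set e := (((Fo.cons c .nil).size : ℝ) - lam t * gs (lam t) (.cons c .nil)) with he
      have hX : 1 ≤ (t ^ 2) ^ e := Real.one_le_rpow hy.le (by linarith)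
      refine ⟨Q1 * (t ^ 2) ^ e, Claim_c ht hp hQ1 hr hX hW, ?_⟩
      calc Q1 * (t ^ 2) ^ e ≤ Ac t * (t ^ 2) ^ ((r.size : ℝ) - t ^ 2 - 1) * (t ^ 2) ^ e :=
            mul_le_mul_of_nonneg_right hQ1b (by positivity)
        _ = Ac t * (t ^ 2) ^ ((r.size : ℝ) - t ^ 2 - 1 + e) := by
            rw [mul_assoc, ← Real.rpow_add hy0]
        _ ≤ _ := by
            apply ClaimNC_factor ht
            rw [he]
            simp only [Fo.size, gs, add_zero]
            push_cast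
            linarith
    · -- heavy first tree
      have hc : t ≤ gs (lam t) c := Claim_heavy_iff ht hl
      obtain ⟨Qc, hQc, hQcb⟩ := claim ht hp.1 hc
      obtain ⟨hs1, hs2⟩ := Claim_Cl_single ht hp.2.1 hc hQc
      have hb : t ^ 2 * Qc ≤ Ac t * (t ^ 2) ^ ((c.size : ℝ) - t ^ 2) := by
        calc t ^ 2 * Qc ≤ t ^ 2 * (Ac t * (t ^ 2) ^ ((c.size : ℝ) - t ^ 2 - 1)) :=
              mul_le_mul_of_nonneg_left hQcb hy0.le
          _ = Ac t * ((t ^ 2) ^ ((c.size : ℝ) - t ^ 2 - 1) * (t ^ 2) ^ (1 : ℝ)) := by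
              rw [Real.rpow_one]; ring
          _ = _ := by
              rw [← Real.rpow_add hy0]; congr 2; ring
      by_cases hr : t ≤ gs (lam t) r
      · -- both heavy
        obtain ⟨Qr, hQr, hQrb⟩ := claim ht hp.2.2 hr
        have hb2 : t ^ 2 * Qr ≤ Ac t * (t ^ 2) ^ ((r.size : ℝ) - t ^ 2) := by
          calc t ^ 2 * Qr ≤ t ^ 2 * (Ac t * (t ^ 2) ^ ((r.size : ℝ) - t ^ 2 - 1)) :=
                mul_le_mul_of_nonneg_left hQrb hy0.le
            _ = Ac t * ((t ^ 2) ^ ((r.size : ℝ) - t ^ 2 - 1) * (t ^ 2) ^ (1 : ℝ)) := by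
                rw [Real.rpow_one]; ring
            _ = _ := by
                rw [← Real.rpow_add hy0]; congr 2; ring
        have hc1 : (1 : ℝ) ≤ c.size := by
          have := size_ge ht hp.1 hc
          linarith
        have hr1' : (1 : ℝ) ≤ r.size := by
          have := size_ge ht hp.2.2 hr
          linarith
        refine ⟨max (t ^ 2 * Qc) (t ^ 2 * Qr), Claim_b2 ht hs1 hs2 hQr hr (le_max_left _ _) ?_ ?_,
          max_le (hb.trans ?_) (hb2.trans ?_)⟩
        · refine le_trans ?_ (le_max_right _ _)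
          have := hQr.1
          nlinarith
        · refine le_trans ?_ (le_max_left _ _)
          exact mul_le_mul_of_nonneg_left hQc.1 hy0.le
        · apply ClaimNC_factor ht
          simp only [Fo.size]
          push_cast
          linarith
        · apply ClaimNC_factor ht
          simp only [Fo.size]
          push_cast
          linarith
      · -- light rest
        obtain ⟨-, hW, hs⟩ := light ht hp.2.2 (AL_of_le ht hp.2.2 (not_le.1 hr).le)
        set e := ((r.size : ℝ) - lam t * gs (lam t) r) with he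
        have hX : 1 ≤ (t ^ 2) ^ e := Real.one_le_rpow hy.le (by linarith)
        refine ⟨t ^ 2 * Qc * (t ^ 2) ^ e, Claim_b1 ht hp hs1 hs2 hX hW, ?_⟩
        calc t ^ 2 * Qc * (t ^ 2) ^ e ≤ Ac t * (t ^ 2) ^ ((c.size : ℝ) - t ^ 2) * (t ^ 2) ^ e :=
              mul_le_mul_of_nonneg_right hb (by positivity)
          _ = Ac t * (t ^ 2) ^ ((c.size : ℝ) - t ^ 2 + e) := by
              rw [mul_assoc, ← Real.rpow_add hy0]
          _ ≤ _ := by
              apply ClaimNC_factor ht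
              rw [he]
              simp only [Fo.size]
              push_cast
              linarith

end Pool.Agent.SG
end

section

set_option autoImplicit false

namespace Pool.Agent.SG

private lemma transfer_ex {t t1 l : ℝ} (h1 : 1 < t1) (h2 : t1 ≤ t) (hl1 : lam t1 ≤ l)
    (hl2 : l ≤ lam t) : ∃ t', t1 ≤ t' ∧ t' ≤ t ∧ lam t' = l := by
  have hc : ContinuousOn lam (Set.Icc t1 t) := by
    unfold lam
    refine continuousOn_id.add (continuousOn_const.div continuousOn_id ?_)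
    intro x hx
    have : t1 ≤ x := hx.1
    exact ne_of_gt (show (0 : ℝ) < x by linarith)
  obtain ⟨x, hx, hxl⟩ := intermediate_value_Icc h2 hc ⟨hl1, hl2⟩
  exact ⟨x, hx.1, hx.2, hxl⟩

/-- the rational part of `Er` -/
private noncomputable def transferR (t t1 : ℝ) : ℝ :=
  ((t ^ 2 - 1) / (t1 ^ 2 - 1)) ^ 3 * ((t ^ 2 + 1) / (t1 ^ 2 + 1))

private lemma transfer_Er (t t1 : ℝ) :
    Er t t1 = (t ^ 2) ^ (t ^ 2 - t1 ^ 2) * transferR t t1 := by
  unfold Er transferR; ring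

private lemma transferR_ge {t t' t1 : ℝ} (h1 : 1 < t1) (h2 : t1 ≤ t') (h3 : t' ≤ t) :
    transferR t t' ≤ transferR t t1 := by
  unfold transferR
  have a1 : 0 < t1 ^ 2 - 1 := by nlinarith
  have a2 : t1 ^ 2 ≤ t' ^ 2 := by nlinarith
  have a3 : t' ^ 2 ≤ t ^ 2 := by nlinarith
  have b1 : (t ^ 2 - 1) / (t' ^ 2 - 1) ≤ (t ^ 2 - 1) / (t1 ^ 2 - 1) :=
    div_le_div_of_nonneg_left (by linarith) a1 (by linarith)
  have b2 : (t ^ 2 + 1) / (t' ^ 2 + 1) ≤ (t ^ 2 + 1) / (t1 ^ 2 + 1) :=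
    div_le_div_of_nonneg_left (by positivity) (by positivity) (by linarith)
  have b3 : 0 ≤ (t ^ 2 - 1) / (t' ^ 2 - 1) := div_nonneg (by linarith) (by linarith)
  exact mul_le_mul (pow_le_pow_left₀ b3 b1 3) b2 (by positivity) (pow_nonneg (b3.trans b1) 3)

private lemma transfer_A {t t' : ℝ} (h2 : 1 < t') (h3 : t' ≤ t) :
    (t - 1 / t) ^ 2 * Ac t' =
      (t' - 1 / t') ^ 2 * Ac t * ((t' / t) ^ 6 * transferR t t') := by
  unfold Ac transferR
  have c1 : t ≠ 0 := by linarith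
  have c2 : t' ≠ 0 := by linarith
  have c3 : t ^ 2 - 1 ≠ 0 := by nlinarith
  have c4 : t' ^ 2 - 1 ≠ 0 := by nlinarith
  have c5 : t ^ 2 + 1 ≠ 0 := by positivity
  have c6 : t' ^ 2 + 1 ≠ 0 := by positivity
  have c7 : t ^ 4 - 1 = (t ^ 2 - 1) * (t ^ 2 + 1) := by ring
  have c8 : t' ^ 4 - 1 = (t' ^ 2 - 1) * (t' ^ 2 + 1) := by ring
  rw [c7, c8]
  field_simp

private lemma Ac_pos {t : ℝ} (h : 1 < t) : 0 < Ac t := by
  unfold Ac
  have : 1 < t ^ 4 := one_lt_pow₀ h (by norm_num)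
  have : 0 < t ^ 4 - 1 := by linarith
  positivity

private lemma transferR_pos {t t' : ℝ} (h2 : 1 < t') (h3 : t' ≤ t) : 0 < transferR t t' := by
  unfold transferR
  have c3 : 0 < t ^ 2 - 1 := by nlinarith
  have c4 : 0 < t' ^ 2 - 1 := by nlinarith
  positivity

/-- the main comparison, `e = 0` or `e = 1` -/
private lemma transfer_cmp {t t' t1 s : ℝ} (h1 : 1 < t1) (h2 : t1 ≤ t') (h3 : t' ≤ t)
    (hs : t' ^ 2 + 1 ≤ s) :
    (t - 1 / t) ^ 2 * (Ac t' * (t' ^ 2) ^ (s - t' ^ 2 - 1)) ≤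
      (t' - 1 / t') ^ 2 * ((t' / t) ^ 6 * (Er t t1 * (Ac t * (t ^ 2) ^ (s - t ^ 2 - 1)))) := by
  have ht' : 1 < t' := by linarith
  have ht : 1 < t := by linarith
  have hy' : 1 ≤ t' ^ 2 := by nlinarith
  have hy : 1 ≤ t ^ 2 := by nlinarith
  have hyy : t' ^ 2 ≤ t ^ 2 := by nlinarith
  have hy1 : t1 ^ 2 ≤ t' ^ 2 := by nlinarith
  have e1 : (t' ^ 2) ^ (s - t' ^ 2 - 1) ≤ (t ^ 2) ^ (s - t' ^ 2 - 1) :=
    Real.rpow_le_rpow (by positivity) hyy (by linarith)
  have e2 : (t ^ 2) ^ (s - t' ^ 2 - 1) ≤ (t ^ 2) ^ (t ^ 2 - t1 ^ 2) * (t ^ 2) ^ (s - t ^ 2 - 1) := by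
    rw [← Real.rpow_add (by positivity)]
    exact Real.rpow_le_rpow_of_exponent_le hy (by linarith)
  have e3 := e1.trans e2
  have h4 : 0 ≤ (t' - 1 / t') ^ 2 * Ac t * (t' / t) ^ 6 := by
    have := Ac_pos ht
    positivity
  calc (t - 1 / t) ^ 2 * (Ac t' * (t' ^ 2) ^ (s - t' ^ 2 - 1))
      = ((t - 1 / t) ^ 2 * Ac t') * (t' ^ 2) ^ (s - t' ^ 2 - 1) := by ring
    _ = (t' - 1 / t') ^ 2 * Ac t * ((t' / t) ^ 6 * transferR t t') *
          (t' ^ 2) ^ (s - t' ^ 2 - 1) := by rw [transfer_A ht' h3]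
    _ = ((t' - 1 / t') ^ 2 * Ac t * (t' / t) ^ 6) *
          (transferR t t' * (t' ^ 2) ^ (s - t' ^ 2 - 1)) := by ring
    _ ≤ ((t' - 1 / t') ^ 2 * Ac t * (t' / t) ^ 6) *
          (transferR t t1 * ((t ^ 2) ^ (t ^ 2 - t1 ^ 2) * (t ^ 2) ^ (s - t ^ 2 - 1))) := by
        refine mul_le_mul_of_nonneg_left ?_ h4
        refine mul_le_mul (transferR_ge h1 h2 h3) e3 (by positivity) ?_
        exact (transferR_pos h1 (h2.trans h3)).le
    _ = _ := by rw [transfer_Er]; ring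

private lemma transfer_ratio {t t' : ℝ} (h2 : 1 < t') (h3 : t' ≤ t) (n m : ℕ) (h : n ≤ m) :
    (t' / t) ^ m ≤ (t' / t) ^ n := by
  apply pow_le_pow_of_le_one (div_nonneg (by linarith) (by linarith)) _ h
  rw [div_le_one (by linarith)]
  exact h3

private lemma transfer_fin {t t' g d Q' Q : ℝ} (h2 : 1 < t') (h3 : t' ≤ t) (hg : t ≤ g)
    (hQ' : 0 ≤ Q')
    (hb : (t' - 1 / t') ^ 2 * (1 + d) ≤ Q' * (g - 1 / t') ^ 2)
    (hc : (t - 1 / t) ^ 2 * Q' ≤ (t' - 1 / t') ^ 2 * Q) :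
    (t - 1 / t) ^ 2 * (1 + d) ≤ Q * (g - 1 / t) ^ 2 := by
  have ht : 1 < t := by linarith
  have i1 : 1 / t' < 1 := by rw [div_lt_one (by linarith)]; exact h2
  have i2 : 1 / t ≤ 1 / t' := one_div_le_one_div_of_le (by linarith) h3
  have hd' : 0 < (t' - 1 / t') ^ 2 := by
    have : 0 < t' - 1 / t' := by linarith
    positivity
  have i3 : (g - 1 / t') ^ 2 ≤ (g - 1 / t) ^ 2 := by
    apply pow_le_pow_left₀ <;> linarith
  have hb' : (t' - 1 / t') ^ 2 * (1 + d) ≤ Q' * (g - 1 / t) ^ 2 :=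
    hb.trans (mul_le_mul_of_nonneg_left i3 hQ')
  have h5 : (t' - 1 / t') ^ 2 * ((t - 1 / t) ^ 2 * (1 + d)) ≤
      (t' - 1 / t') ^ 2 * (Q * (g - 1 / t) ^ 2) := by
    calc (t' - 1 / t') ^ 2 * ((t - 1 / t) ^ 2 * (1 + d))
        = (t - 1 / t) ^ 2 * ((t' - 1 / t') ^ 2 * (1 + d)) := by ring
      _ ≤ (t - 1 / t) ^ 2 * (Q' * (g - 1 / t) ^ 2) :=
          mul_le_mul_of_nonneg_left hb' (by positivity)
      _ = ((t - 1 / t) ^ 2 * Q') * (g - 1 / t) ^ 2 := by ring
      _ ≤ ((t' - 1 / t') ^ 2 * Q) * (g - 1 / t) ^ 2 :=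
          mul_le_mul_of_nonneg_right hc (by positivity)
      _ = _ := by ring
  exact le_of_mul_le_mul_left h5 hd'

theorem H_gen {t t1 : ℝ} (h1 : 1 < t1) (h2 : t1 ≤ t) {f : Fo} (hp : PP (lam t1) f) :
    ∀ l, lam t1 ≤ l → l ≤ lam t → t ≤ gs l f →
      (t - 1 / t) ^ 2 * (1 + ds l f) ≤
        (Er t t1 * (Ac t * (t ^ 2) ^ ((f.size : ℝ) - t ^ 2 - 1))) * (gs l f - 1 / t) ^ 2 := by
  intro l hl1 hl2 hg
  obtain ⟨t', h3, h4, rfl⟩ := transfer_ex h1 h2 hl1 hl2
  have ht' : 1 < t' := by linarith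
  have ht : 1 < t := by linarith
  have hp' := PP_mono hp hl1
  have hg' : t' ≤ gs (lam t') f := h4.trans hg
  obtain ⟨Q, hQ1, hQ2⟩ := claim ht' hp' hg'
  have hA := Ac_pos ht'
  have hsz := size_ge ht' hp' hg'
  refine transfer_fin ht' h4 hg (hA.le.trans hQ1.1) (Cl.bound ht' hQ1 hg') ?_
  have hEr : 0 ≤ Er t t1 * (Ac t * (t ^ 2) ^ ((f.size : ℝ) - t ^ 2 - 1)) := by
    rw [transfer_Er]
    have := transferR_pos h1 (h3.trans h4)
    have := Ac_pos ht
    positivity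
  calc (t - 1 / t) ^ 2 * Q
      ≤ (t - 1 / t) ^ 2 * (Ac t' * (t' ^ 2) ^ ((f.size : ℝ) - t' ^ 2 - 1)) :=
        mul_le_mul_of_nonneg_left hQ2 (by positivity)
    _ ≤ (t' - 1 / t') ^ 2 * ((t' / t) ^ 6 *
          (Er t t1 * (Ac t * (t ^ 2) ^ ((f.size : ℝ) - t ^ 2 - 1)))) :=
        transfer_cmp h1 h3 h4 hsz
    _ ≤ (t' - 1 / t') ^ 2 * (1 *
          (Er t t1 * (Ac t * (t ^ 2) ^ ((f.size : ℝ) - t ^ 2 - 1)))) := by
        refine mul_le_mul_of_nonneg_left (mul_le_mul_of_nonneg_right ?_ hEr) (by positivity)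
        simpa using transfer_ratio ht' h4 0 6 (by norm_num)
    _ = _ := by ring

theorem H_nc {t t1 : ℝ} (h1 : 1 < t1) (h2 : t1 ≤ t) (hy : 2 ≤ t1 ^ 2) {f : Fo}
    (hp : PP (lam t1) f) (hn : ∀ k j, f ≠ comet k j) :
    ∀ l, lam t1 ≤ l → l ≤ lam t → t ≤ gs l f →
      (t - 1 / t) ^ 2 * (1 + ds l f) ≤
        (Er t t1 * (3 / (2 * t ^ 2) * (Ac t * (t ^ 2) ^ ((f.size : ℝ) - t ^ 2 - 1)))) *
          (gs l f - 1 / t) ^ 2 := by
  intro l hl1 hl2 hg
  obtain ⟨t', h3, h4, rfl⟩ := transfer_ex h1 h2 hl1 hl2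
  have ht' : 1 < t' := by linarith
  have ht : 1 < t := by linarith
  have hp' := PP_mono hp hl1
  have hg' : t' ≤ gs (lam t') f := h4.trans hg
  have hy' : 2 ≤ t' ^ 2 := by nlinarith
  obtain ⟨Q, hQ1, hQ2⟩ := claim_nc ht' hy' hp' hg' hn
  have hA := Ac_pos ht'
  have hsz := size_ge ht' hp' hg'
  refine transfer_fin ht' h4 hg (hA.le.trans hQ1.1) (Cl.bound ht' hQ1 hg') ?_
  have hEr : 0 ≤ Er t t1 * (Ac t * (t ^ 2) ^ ((f.size : ℝ) - t ^ 2 - 1)) := by
    rw [transfer_Er]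
    have := transferR_pos h1 (h3.trans h4)
    have := Ac_pos ht
    positivity
  have hr : 3 / (2 * t' ^ 2) * (t' / t) ^ 6 = 3 / (2 * t ^ 2) * (t' / t) ^ 4 := by
    have : t ≠ 0 := by linarith
    have : t' ≠ 0 := by linarith
    field_simp
  calc (t - 1 / t) ^ 2 * Q
      ≤ (t - 1 / t) ^ 2 *
          (3 / (2 * t' ^ 2) * (Ac t' * (t' ^ 2) ^ ((f.size : ℝ) - t' ^ 2 - 1))) :=
        mul_le_mul_of_nonneg_left hQ2 (by positivity)
    _ = 3 / (2 * t' ^ 2) *
          ((t - 1 / t) ^ 2 * (Ac t' * (t' ^ 2) ^ ((f.size : ℝ) - t' ^ 2 - 1))) := by ring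
    _ ≤ 3 / (2 * t' ^ 2) * ((t' - 1 / t') ^ 2 * ((t' / t) ^ 6 *
          (Er t t1 * (Ac t * (t ^ 2) ^ ((f.size : ℝ) - t ^ 2 - 1))))) :=
        mul_le_mul_of_nonneg_left (transfer_cmp h1 h3 h4 hsz) (by positivity)
    _ = (t' - 1 / t') ^ 2 * ((3 / (2 * t' ^ 2) * (t' / t) ^ 6) *
          (Er t t1 * (Ac t * (t ^ 2) ^ ((f.size : ℝ) - t ^ 2 - 1)))) := by ring
    _ = (t' - 1 / t') ^ 2 * ((3 / (2 * t ^ 2) * (t' / t) ^ 4) *
          (Er t t1 * (Ac t * (t ^ 2) ^ ((f.size : ℝ) - t ^ 2 - 1)))) := by rw [hr]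
    _ ≤ (t' - 1 / t') ^ 2 * ((3 / (2 * t ^ 2) * 1) *
          (Er t t1 * (Ac t * (t ^ 2) ^ ((f.size : ℝ) - t ^ 2 - 1)))) := by
        refine mul_le_mul_of_nonneg_left (mul_le_mul_of_nonneg_right
          (mul_le_mul_of_nonneg_left ?_ (by positivity)) hEr) (by positivity)
        simpa using transfer_ratio ht' h4 0 4 (by norm_num)
    _ = _ := by ring

theorem H_comet {t t1 : ℝ} (h1 : 1 < t1) (h2 : t1 ≤ t) {k j : ℕ}
    (hp : PP (lam t1) (comet k j)) :
    ∀ l, lam t1 ≤ l → l ≤ lam t → t ≤ gs l (comet k j) →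
      (t - 1 / t) ^ 2 * (1 + ds l (comet k j)) ≤
        (Er t t1 * (Ac t * (t ^ 2) ^ j)) * (gs l (comet k j) - 1 / t) ^ 2 := by
  intro l hl1 hl2 hg
  obtain ⟨t', h3, h4, rfl⟩ := transfer_ex h1 h2 hl1 hl2
  have ht' : 1 < t' := by linarith
  have ht : 1 < t := by linarith
  have hp' := PP_mono hp hl1
  have hg' : t' ≤ gs (lam t') (comet k j) := h4.trans hg
  have hQ1 := claim_comet ht' hp' hg'
  have hA := Ac_pos ht'
  have hAt := Ac_pos ht
  have hR := transferR_pos h1 (h3.trans h4)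
  refine transfer_fin ht' h4 hg (hA.le.trans hQ1.1) (Cl.bound ht' hQ1 hg') ?_
  have hyy : t' ^ 2 ≤ t ^ 2 := by nlinarith
  have hy1 : t1 ^ 2 ≤ t ^ 2 := by nlinarith
  have hy : 1 ≤ t ^ 2 := by nlinarith
  have hpow : 1 ≤ (t ^ 2) ^ (t ^ 2 - t1 ^ 2) := Real.one_le_rpow hy (by linarith)
  have hr := transfer_ratio ht' h4 0 6 (by norm_num)
  rw [pow_zero] at hr
  calc (t - 1 / t) ^ 2 * (Ac t' * (t' ^ 2) ^ j)
      = ((t - 1 / t) ^ 2 * Ac t') * (t' ^ 2) ^ j := by ring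
    _ = (t' - 1 / t') ^ 2 * Ac t * ((t' / t) ^ 6 * transferR t t') * (t' ^ 2) ^ j := by
        rw [transfer_A ht' h4]
    _ ≤ (t' - 1 / t') ^ 2 * Ac t * (1 * transferR t t1) * (t ^ 2) ^ j := by
        refine mul_le_mul (mul_le_mul_of_nonneg_left ?_ (by positivity))
          (pow_le_pow_left₀ (by positivity) hyy j) (by positivity) (by positivity)
        exact mul_le_mul hr (transferR_ge h1 h3 h4) (transferR_pos ht' h4).le zero_le_one
    _ = (t' - 1 / t') ^ 2 * ((1 * transferR t t1) * (Ac t * (t ^ 2) ^ j)) := by ring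
    _ ≤ (t' - 1 / t') ^ 2 * (((t ^ 2) ^ (t ^ 2 - t1 ^ 2) * transferR t t1) *
          (Ac t * (t ^ 2) ^ j)) := by
        refine mul_le_mul_of_nonneg_left (mul_le_mul_of_nonneg_right
          (mul_le_mul_of_nonneg_right hpow hR.le) (by positivity)) (by positivity)
    _ = _ := by rw [transfer_Er]

end Pool.Agent.SG
end
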