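import Pool.Agent.Lib.MP_8b9a2e_co.Mg.G003
import Pool.Agent.Lib.MP_8b9a2e_co.Mg.G006
import Pool.Agent.Lib.MP_8b9a2e_co.Mg.G010
import Pool.Agent.Lib.MP_8b9a2e_co.Mg.G008
import Pool.Agent.Lib.MP_8b9a2e_co.MIneqE

section

set_option autoImplicit false
set_option maxRecDepth 100000

namespace Pool.Agent.SG.Run

theorem c20_5 : DP.cell 20 8192 17174 17390 12 = true := by decide +kernel
theorem c20_11 : DP.cell 20 8192 18137 18235 11 = true := by decide +kernel
theorem c20_17 : DP.cell 20 8192 18989 19199 11 = true := by decide +kernel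
theorem c20_23 : DP.cell 20 8192 19825 20184 12 = true := by decide +kernel
theorem c20_29 : DP.cell 20 8192 20949 21266 9 = true := by decide +kernel

end Pool.Agent.SG.Run
end

section

set_option autoImplicit false
set_option maxRecDepth 100000

namespace Pool.Agent.SG.Run

theorem c4_0 : DP.cell 4 4096 0 7073 2 = true := by decide +kernel
theorem c4_1 : DP.cell 4 4096 2976 16384 1 = true := by decide +kernel
theorem c5_0 : DP.cell 5 4096 0 7540 3 = true := by decide +kernel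
theorem c5_1 : DP.cell 5 4096 4541 20480 1 = true := by decide +kernel
theorem c6_0 : DP.cell 6 4096 0 7762 4 = true := by decide +kernel
theorem c6_1 : DP.cell 6 4096 5488 24576 2 = true := by decide +kernel
theorem c7_0 : DP.cell 7 4096 0 7895 5 = true := by decide +kernel
theorem c7_1 : DP.cell 7 4096 6119 28672 2 = true := by decide +kernel
theorem c8_0 : DP.cell 8 4096 0 7973 6 = true := by decide +kernel
theorem c8_1 : DP.cell 8 4096 6550 32768 3 = true := by decide +kernel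
theorem c9_0 : DP.cell 9 4096 0 8030 7 = true := by decide +kernel
theorem c9_1 : DP.cell 9 4096 6932 8734 4 = true := by decide +kernel
theorem c9_2 : DP.cell 9 4096 7636 36864 3 = true := by decide +kernel
theorem c10_0 : DP.cell 10 4096 0 8065 8 = true := by decide +kernel
theorem c10_1 : DP.cell 10 4096 7253 8306 4 = true := by decide +kernel
theorem c10_2 : DP.cell 10 4096 7494 8705 4 = true := by decide +kernel
theorem c10_3 : DP.cell 10 4096 7893 40960 4 = true := by decide +kernel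
theorem c11_0 : DP.cell 11 4096 0 8086 9 = true := by decide +kernel
theorem c11_1 : DP.cell 11 4096 7462 8303 5 = true := by decide +kernel
theorem c11_2 : DP.cell 11 4096 7679 8698 5 = true := by decide +kernel
theorem c11_3 : DP.cell 11 4096 8074 9559 5 = true := by decide +kernel
theorem c11_4 : DP.cell 11 4096 8935 45056 4 = true := by decide +kernel
theorem c12_0 : DP.cell 12 4096 0 8105 10 = true := by decide +kernel
theorem c12_1 : DP.cell 12 4096 7643 8296 6 = true := by decide +kernel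
theorem c12_2 : DP.cell 12 4096 7834 8635 6 = true := by decide +kernel
theorem c12_3 : DP.cell 12 4096 8173 8828 6 = true := by decide +kernel
theorem c12_4 : DP.cell 12 4096 8366 9493 5 = true := by decide +kernel
theorem c12_5 : DP.cell 12 4096 9031 49152 5 = true := by decide +kernel
theorem c13_0 : DP.cell 13 4096 0 8121 11 = true := by decide +kernel
theorem c13_1 : DP.cell 13 4096 7815 8292 7 = true := by decide +kernel
theorem c13_2 : DP.cell 13 4096 7986 8611 7 = true := by decide +kernel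
theorem c13_3 : DP.cell 13 4096 8305 8780 6 = true := by decide +kernel
theorem c13_4 : DP.cell 13 4096 8474 8964 6 = true := by decide +kernel
theorem c13_5 : DP.cell 13 4096 8658 9509 6 = true := by decide +kernel
theorem c13_6 : DP.cell 13 4096 9203 53248 5 = true := by decide +kernel
theorem c14_0 : DP.cell 14 4096 0 8130 12 = true := by decide +kernel
theorem c14_1 : DP.cell 14 4096 7922 8347 8 = true := by decide +kernel
theorem c14_2 : DP.cell 14 4096 8139 8649 8 = true := by decide +kernel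
theorem c14_3 : DP.cell 14 4096 8441 8747 7 = true := by decide +kernel
theorem c14_4 : DP.cell 14 4096 8539 8928 6 = true := by decide +kernel
theorem c14_5 : DP.cell 14 4096 8720 9309 7 = true := by decide +kernel
theorem c14_6 : DP.cell 14 4096 9101 9754 7 = true := by decide +kernel
theorem c14_7 : DP.cell 14 4096 9546 57344 6 = true := by decide +kernel
theorem c15_0 : DP.cell 15 4096 0 8139 13 = true := by decide +kernel
theorem c15_1 : DP.cell 15 4096 7996 8336 9 = true := by decide +kernel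
theorem c15_2 : DP.cell 15 4096 8193 8622 8 = true := by decide +kernel
theorem c15_3 : DP.cell 15 4096 8479 8724 8 = true := by decide +kernel
theorem c15_4 : DP.cell 15 4096 8581 8908 7 = true := by decide +kernel
theorem c15_5 : DP.cell 15 4096 8765 9146 7 = true := by decide +kernel
theorem c15_6 : DP.cell 15 4096 9003 9478 8 = true := by decide +kernel
theorem c15_7 : DP.cell 15 4096 9335 9685 7 = true := by decide +kernel
theorem c15_8 : DP.cell 15 4096 9542 10311 7 = true := by decide +kernel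
theorem c15_9 : DP.cell 15 4096 10168 61440 6 = true := by decide +kernel
theorem c16_0 : DP.cell 16 4096 0 8146 14 = true := by decide +kernel
theorem c16_1 : DP.cell 16 4096 8055 8327 10 = true := by decide +kernel
theorem c16_2 : DP.cell 16 4096 8236 8513 9 = true := by decide +kernel
theorem c16_3 : DP.cell 16 4096 8422 8646 9 = true := by decide +kernel
theorem c16_4 : DP.cell 16 4096 8555 8766 8 = true := by decide +kernel
theorem c16_5 : DP.cell 16 4096 8675 8954 8 = true := by decide +kernel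
theorem c16_6 : DP.cell 16 4096 8863 9188 9 = true := by decide +kernel
theorem c16_7 : DP.cell 16 4096 9097 9473 9 = true := by decide +kernel
theorem c16_8 : DP.cell 16 4096 9382 9625 7 = true := by decide +kernel
theorem c16_9 : DP.cell 16 4096 9534 9912 7 = true := by decide +kernel
theorem c16_10 : DP.cell 16 4096 9821 10433 8 = true := by decide +kernel
theorem c16_11 : DP.cell 16 4096 10342 12022 7 = true := by decide +kernel
theorem c16_12 : DP.cell 16 4096 11931 65536 7 = true := by decide +kernel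
theorem c17_0 : DP.cell 17 4096 0 8152 15 = true := by decide +kernel
theorem c17_1 : DP.cell 17 4096 8099 8320 11 = true := by decide +kernel
theorem c17_2 : DP.cell 17 4096 8267 8495 10 = true := by decide +kernel
theorem c17_3 : DP.cell 17 4096 8442 8628 10 = true := by decide +kernel
theorem c17_4 : DP.cell 17 4096 8575 8747 9 = true := by decide +kernel
theorem c17_5 : DP.cell 17 4096 8694 8909 9 = true := by decide +kernel
theorem c17_6 : DP.cell 17 4096 8856 9089 9 = true := by decide +kernel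
theorem c17_7 : DP.cell 17 4096 9036 9222 10 = true := by decide +kernel
theorem c17_8 : DP.cell 17 4096 9169 9462 9 = true := by decide +kernel
theorem c17_9 : DP.cell 17 4096 9409 9547 8 = true := by decide +kernel
theorem c17_10 : DP.cell 17 4096 9494 9692 8 = true := by decide +kernel
theorem c17_11 : DP.cell 17 4096 9639 9845 8 = true := by decide +kernel
theorem c17_12 : DP.cell 17 4096 9792 10255 9 = true := by decide +kernel
theorem c17_13 : DP.cell 17 4096 10202 10994 8 = true := by decide +kernel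
theorem c17_14 : DP.cell 17 4096 10941 69632 7 = true := by decide +kernel

end Pool.Agent.SG.Run
end

section

set_option autoImplicit false

namespace Pool.Agent.SG

theorem Lower_lam_ge {t : ℝ} (ht : 1 < t) : t ≤ lam t := by
  unfold lam
  have : 0 < 1 / t := by positivity
  linarith

/-- both sides have at least `t1^2+1` vertices -/
theorem sizes {n : ℕ} {f h : Fo} {ν μ t1 : ℝ} (ht1 : 6 / 5 ≤ t1) (hμ : μ = lam t1)
    (hS : Sp n f h ν μ) : t1 ^ 2 ≤ (n : ℝ) / 2 - 2 := by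
  have h1 : (1 : ℝ) < t1 := by linarith
  have hl := Lower_lam_ge h1
  subst hμ
  have s4 : ((f.size : ℝ) + h.size + 2) = n := by exact_mod_cast hS.size
  rcases hS.ev with ⟨pf, ph, a1, a2, -⟩ | ⟨pf, e, c, hm, pc, ec⟩
  · have s1 := size_ge h1 pf (by linarith)
    have s2 := size_ge h1 ph (by linarith)
    linarith
  · have s1 := size_ge h1 pf (by linarith)
    have s2 := size_ge h1 pc (by linarith)
    have s3 : ((c.size : ℝ) + 1) ≤ h.size := by exact_mod_cast Mem_size hm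
    linarith

/-- the hypothesis of the time estimate with class factor `z` -/
def Lower_Hz (t t1 z : ℝ) (s : Fo) : Prop :=
  ∀ l, lam t1 ≤ l → l ≤ lam t → t ≤ gs l s →
    (t - 1 / t) ^ 2 * (1 + ds l s) ≤
      (Er t t1 * (z * (Ac t * (t ^ 2) ^ ((s.size : ℝ) - t ^ 2 - 1)))) * (gs l s - 1 / t) ^ 2

theorem Lower_Ac_pos {t : ℝ} (ht : 1 < t) : 0 < Ac t := by
  unfold Ac
  have : 1 < t ^ 4 := one_lt_pow₀ ht (by norm_num)
  have : 0 < t ^ 4 - 1 := by linarith
  positivity

theorem Lower_Er {t t1 : ℝ} (h1 : 1 < t1) (h2 : t1 ≤ t) :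
    (t ^ 2) ^ (t ^ 2 - t1 ^ 2) ≤ Er t t1 := by
  unfold Er
  have e1 : 1 < t1 ^ 2 := one_lt_pow₀ h1 (by norm_num)
  have e2 : t1 ^ 2 ≤ t ^ 2 := by gcongr
  have e3 : 1 ≤ (t ^ 2 - 1) / (t1 ^ 2 - 1) := by
    rw [one_le_div (by linarith)]; linarith
  have e4 : 1 ≤ (t ^ 2 + 1) / (t1 ^ 2 + 1) := by
    rw [one_le_div (by linarith)]; linarith
  have e5 : 1 ≤ ((t ^ 2 - 1) / (t1 ^ 2 - 1)) ^ 3 := one_le_pow₀ e3
  have e6 : (0 : ℝ) ≤ (t ^ 2) ^ (t ^ 2 - t1 ^ 2) := by positivity
  calc (t ^ 2) ^ (t ^ 2 - t1 ^ 2) = (t ^ 2) ^ (t ^ 2 - t1 ^ 2) * 1 * 1 := by ring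
    _ ≤ _ := by gcongr

theorem Lower_Er_pos {t t1 : ℝ} (h1 : 1 < t1) (h2 : t1 ≤ t) : 0 < Er t t1 := by
  have : 0 < t := by linarith
  have e : (0 : ℝ) < (t ^ 2) ^ (t ^ 2 - t1 ^ 2) := by positivity
  exact e.trans_le (Lower_Er h1 h2)

theorem Lower_comb {t g E W Z : ℝ} {n : ℕ} (ht : 1 < t) (hg : 0 ≤ g) (hE : 0 ≤ E)
    (hW : 0 ≤ W) (hWZ : W ≤ Z)
    (h : Mlow (t ^ 2) * (t - 1 / t) ^ 2 / t ^ 2 ≤
      g ^ 2 * E ^ 2 * W * (Ac t) ^ 2 * (t ^ 2) ^ ((n : ℝ) - 4 - 2 * t ^ 2)) :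
    √(Mlow (t ^ 2)) / 2 * gam (t ^ 2) n ≤ g * E * √Z := by
  have ht0 : 0 < t := by linarith
  have hZ : 0 ≤ Z := hW.trans hWZ
  have hM : 0 ≤ Mlow (t ^ 2) := by
    unfold Mlow Mf
    split_ifs <;> positivity
  have hy : 1 < t ^ 2 := one_lt_pow₀ ht (by norm_num)
  have hy4 : 1 < t ^ 4 := one_lt_pow₀ ht (by norm_num)
  have hy4' : (t ^ 4 - 1) ≠ 0 := by linarith
  have hgam : 0 ≤ gam (t ^ 2) n := by
    unfold gam
    positivity
  set P : ℝ := (t ^ 2) ^ ((n : ℝ) - 4 - 2 * t ^ 2) with hP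
  have hP0 : 0 < P := by rw [hP]; positivity
  have hR : ((t ^ 2) ^ (t ^ 2 - 1 - (n : ℝ) / 2)) ^ 2 = 1 / (P * t ^ 12) := by
    rw [eq_div_iff (by positivity)]
    have e1 : t ^ 12 = (t ^ 2) ^ (6 : ℝ) := by
      rw [show (6 : ℝ) = ((6 : ℕ) : ℝ) by norm_num, Real.rpow_natCast, ← pow_mul]
    have e2 : ((t ^ 2) ^ (t ^ 2 - 1 - (n : ℝ) / 2)) ^ 2 =
        (t ^ 2) ^ ((t ^ 2 - 1 - (n : ℝ) / 2) * 2) := by
      rw [Real.rpow_mul (by positivity)]
      norm_num
    rw [e1, e2, hP, ← Real.rpow_add (by positivity), ← Real.rpow_add (by positivity)]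
    rw [show (t ^ 2 - 1 - (n : ℝ) / 2) * 2 + ((n : ℝ) - 4 - 2 * t ^ 2 + 6) = 0 by ring,
      Real.rpow_zero]
  have key : Mlow (t ^ 2) / 4 * ((t ^ 2 - 1) ^ 2 * (t ^ 2 + 1)) ^ 2 * (1 / (P * t ^ 12)) ≤
      g ^ 2 * E ^ 2 * W := by
    calc Mlow (t ^ 2) / 4 * ((t ^ 2 - 1) ^ 2 * (t ^ 2 + 1)) ^ 2 * (1 / (P * t ^ 12))
        = (Mlow (t ^ 2) * (t - 1 / t) ^ 2 / t ^ 2) * ((t ^ 4 - 1) ^ 2 / (4 * t ^ 8 * P)) := by
          field_simp
          ring
      _ ≤ (g ^ 2 * E ^ 2 * W * (Ac t) ^ 2 * P) * ((t ^ 4 - 1) ^ 2 / (4 * t ^ 8 * P)) := by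
          gcongr
      _ = g ^ 2 * E ^ 2 * W := by
          unfold Ac
          field_simp
          try ring
  have fin : (√(Mlow (t ^ 2)) / 2 * gam (t ^ 2) n) ^ 2 ≤ (g * E * √Z) ^ 2 := by
    calc (√(Mlow (t ^ 2)) / 2 * gam (t ^ 2) n) ^ 2
        = (√(Mlow (t ^ 2))) ^ 2 / 4 * (gam (t ^ 2) n) ^ 2 := by ring
      _ = Mlow (t ^ 2) / 4 * ((t ^ 2 - 1) ^ 2 * (t ^ 2 + 1)) ^ 2 * (1 / (P * t ^ 12)) := by
          rw [Real.sq_sqrt hM, ← hR]
          unfold gam
          ring
      _ ≤ g ^ 2 * E ^ 2 * W := key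
      _ ≤ g ^ 2 * E ^ 2 * Z := by gcongr
      _ = (g * E * √Z) ^ 2 := by
          rw [mul_pow, mul_pow, Real.sq_sqrt hZ]
  exact (pow_le_pow_iff_left₀ (by positivity) (by positivity) (by norm_num)).1 fin

theorem Lower_Lf_nonneg {t a c : ℝ} (ht : 1 < t) (ha : 0 ≤ a) (hc : 0 < c) (hc1 : c < lam t) :
    0 ≤ Lf t a c := by
  unfold Lf
  have h1 : 1 / t < 1 := by rw [div_lt_one (by linarith)]; exact ht
  have h2 : 0 < t - 1 / t := by linarith
  have h3 : 0 < lam t - c := by linarith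
  split_ifs with h
  · have : 0 < t := by linarith
    positivity
  · push Not at h
    have h4 : 0 < t - c := by linarith
    have : 0 < t := by linarith
    positivity

theorem Lower_mul {g E A y a b z1 z2 L1 L2 : ℝ} (hg : 0 ≤ g) (hE : 0 ≤ E) (hA : 0 ≤ A)
    (hy : 0 < y) (hz1 : 0 ≤ z1) (hL : 0 ≤ L2)
    (h1 : L1 ≤ g * (E * (z1 * (A * y ^ a)))) (h2 : L2 ≤ g * (E * (z2 * (A * y ^ b)))) :
    L1 * L2 ≤ g ^ 2 * E ^ 2 * (z1 * z2) * A ^ 2 * y ^ (a + b) := by
  calc L1 * L2 ≤ (g * (E * (z1 * (A * y ^ a)))) * (g * (E * (z2 * (A * y ^ b)))) := by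
        apply mul_le_mul h1 h2 hL
        positivity
    _ = g ^ 2 * E ^ 2 * (z1 * z2) * A ^ 2 * y ^ (a + b) := by
        rw [Real.rpow_add hy]
        ring

theorem Lower_kap {t t1 x : ℝ} (ht : 1 < t) (hE : (t ^ 2) ^ (t ^ 2 - t1 ^ 2) ≤ 11 / 10)
    (hx : x ≤ t ^ 2 - t1 ^ 2 - 1) : (t ^ 2) ^ x ≤ 3 / (2 * t ^ 2) := by
  have hy : 1 < t ^ 2 := one_lt_pow₀ ht (by norm_num)
  calc (t ^ 2) ^ x ≤ (t ^ 2) ^ (t ^ 2 - t1 ^ 2 - 1) := by
        apply Real.rpow_le_rpow_of_exponent_le hy.le hx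
    _ = (t ^ 2) ^ (t ^ 2 - t1 ^ 2) / t ^ 2 := by
        rw [Real.rpow_sub_one (by positivity)]
    _ ≤ (11 / 10) / t ^ 2 := by gcongr
    _ ≤ 3 / (2 * t ^ 2) := by
        rw [div_le_div_iff₀ (by positivity) (by positivity)]
        nlinarith

theorem Lower_cls {t t1 : ℝ} (h1 : 1 < t1) (h2 : t1 ≤ t) (hy : 2 ≤ t1 ^ 2) {s : Fo}
    (hp : PP (lam t1) s) (hg : t1 ≤ gs (lam t1) s) :
    Lower_Hz t t1 (3 / (2 * t ^ 2)) s ∨
      ∃ K j : ℕ, s = comet (K + 1) j ∧ t1 ^ 2 ≤ K ∧
        Lower_Hz t t1 ((t ^ 2) ^ (t ^ 2 - (K : ℝ))) s := by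
  by_cases hn : ∀ k j, s ≠ comet k j
  · left
    exact H_nc h1 h2 hy hp hn
  · push Not at hn
    obtain ⟨k, j, rfl⟩ := hn
    right
    have h3 := comet_leaves h1 hp hg
    have hk : k ≠ 0 := by
      rintro rfl
      norm_num at h3
      linarith
    obtain ⟨K, rfl⟩ := Nat.exists_eq_succ_of_ne_zero hk
    refine ⟨K, j, rfl, ?_, ?_⟩
    · push_cast at h3
      linarith
    · intro l hl1 hl2 hl3
      have := H_comet h1 h2 hp l hl1 hl2 hl3
      have ht : 0 < t := by linarith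
      have e : (t ^ 2) ^ (t ^ 2 - (K : ℝ)) *
          (Ac t * (t ^ 2) ^ (((comet (K + 1) j).size : ℝ) - t ^ 2 - 1)) =
          Ac t * (t ^ 2) ^ j := by
        rw [size_comet, mul_left_comm, ← Real.rpow_add (by positivity),
          ← Real.rpow_natCast (t ^ 2) j]
        congr 2
        push_cast
        ring
      rw [e]
      exact this

theorem Lower_pick {t t1 : ℝ} (h1 : 1 < t1) (h2 : t1 ≤ t) (hE : Er t t1 ≤ 11 / 10) {s s' : Fo}
    (hp : PP (lam t1) s) (hg : t1 ≤ gs (lam t1) s) (hp' : PP (lam t1) s')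
    (hg' : t1 ≤ gs (lam t1) s') :
    (∃ z z' Z : ℝ, 0 ≤ z ∧ 0 ≤ z' ∧ z * z' ≤ Z ∧ Zc (t ^ 2) (t1 ^ 2) Z ∧
      Lower_Hz t t1 z s ∧ Lower_Hz t t1 z' s') ∨
    (∃ K j j' : ℕ, s = comet (K + 1) j ∧ s' = comet (K + 1) j' ∧ t1 ^ 2 ≤ K ∧ 2 ≤ t1 ^ 2 ∧
      Lower_Hz t t1 ((t ^ 2) ^ (t ^ 2 - (K : ℝ))) s ∧
      Lower_Hz t t1 ((t ^ 2) ^ (t ^ 2 - (K : ℝ))) s') := by
  have ht : 0 < t := by linarith
  have hEy := (Lower_Er h1 h2).trans hE
  rcases lt_or_ge (t1 ^ 2) 2 with hy | hy
  · left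
    refine ⟨1, 1, 1, zero_le_one, zero_le_one, by norm_num, Or.inl ⟨hy, rfl⟩, ?_, ?_⟩
    · intro l a b c
      rw [one_mul]
      exact H_gen h1 h2 hp l a b c
    · intro l a b c
      rw [one_mul]
      exact H_gen h1 h2 hp' l a b c
  · rcases Lower_cls h1 h2 hy hp hg with c1 | ⟨K, j, e1, hK, c1⟩ <;>
      rcases Lower_cls h1 h2 hy hp' hg' with c2 | ⟨K', j', e2, hK', c2⟩
    · left
      exact ⟨_, _, _, by positivity, by positivity, le_rfl,
        Or.inr (Or.inl ⟨hy, (pow_two _).symm⟩), c1, c2⟩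
    · left
      exact ⟨_, _, _, by positivity, by positivity, le_rfl,
        Or.inr (Or.inr ⟨hy, K', hK', rfl⟩), c1, c2⟩
    · left
      exact ⟨_, _, _, by positivity, by positivity, le_rfl,
        Or.inr (Or.inr ⟨hy, K, hK, mul_comm _ _⟩), c1, c2⟩
    · rcases lt_trichotomy K K' with hlt | rfl | hlt
      · left
        refine ⟨_, _, _, by positivity, by positivity, ?_,
          Or.inr (Or.inr ⟨hy, K, hK, rfl⟩), c1, c2⟩
        rw [mul_comm]
        have : (K : ℝ) + 1 ≤ K' := by exact_mod_cast hlt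
        have := Lower_kap (t := t) (t1 := t1) (x := t ^ 2 - (K' : ℝ)) (by linarith) hEy
          (by linarith)
        gcongr
      · right
        exact ⟨K, j, j', e1, e2, hK, hy, c1, c2⟩
      · left
        refine ⟨_, _, _, by positivity, by positivity, ?_,
          Or.inr (Or.inr ⟨hy, K', hK', rfl⟩), c1, c2⟩
        have : (K' : ℝ) + 1 ≤ K := by exact_mod_cast hlt
        have := Lower_kap (t := t) (t1 := t1) (x := t ^ 2 - (K : ℝ)) (by linarith) hEy
          (by linarith)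
        gcongr

theorem lower_main {n : ℕ} {f h : Fo} {ν μ t t1 : ℝ} (hS : Sp n f h ν μ) (hnd : ¬ IsDC f h)
    (ht1 : 6 / 5 ≤ t1) (htt : t1 ≤ t) (hμ : μ = lam t1) (hν : ν = lam t)
    (hg : (ν - μ) * (t * (1 + t ^ 4)) ≤ 1) (hE : Er t t1 ≤ 11 / 10) :
    ∃ Z, Zc (t ^ 2) (t1 ^ 2) Z ∧
      √(Mlow (t ^ 2)) / 2 * gam (t ^ 2) n ≤ (ν - μ) * Er t t1 * √Z := by
  subst hμ hν
  have h1 : (1 : ℝ) < t1 := by linarith
  have h2 : (1 : ℝ) < t := by linarith
  have ht0 : 0 < t := by linarith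
  have ht10 : 0 < t1 := by linarith
  have hlt := hS.lt
  have hg0 : 0 ≤ lam t - lam t1 := by linarith
  have hE0 := Lower_Er_pos h1 htt
  have hEy := (Lower_Er h1 htt).trans hE
  have hA := Lower_Ac_pos h2
  have hl1 := Lower_lam_ge h1
  have hlam1 : 0 < lam t1 := by linarith
  have s4 : ((f.size : ℝ) + h.size + 2) = n := by exact_mod_cast hS.size
  suffices key : ∃ W Z, 0 ≤ W ∧ W ≤ Z ∧ Zc (t ^ 2) (t1 ^ 2) Z ∧
      Mlow (t ^ 2) * (t - 1 / t) ^ 2 / t ^ 2 ≤ (lam t - lam t1) ^ 2 * (Er t t1) ^ 2 * W *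
        (Ac t) ^ 2 * (t ^ 2) ^ ((n : ℝ) - 4 - 2 * t ^ 2) by
    obtain ⟨W, Z, hW, hWZ, hZ, hh⟩ := key
    exact ⟨Z, hZ, Lower_comb h2 hg0 hE0.le hW hWZ hh⟩
  rcases hS.ev with ⟨pf, ph, a1, a2, a3⟩ | ⟨pf, e, c, hm, pc, ec⟩
  · -- edge type
    have hfn : f ≠ .nil := by
      rintro rfl
      simp only [gs] at a1
      linarith
    have hhn : h ≠ .nil := by
      rintro rfl
      simp only [gs] at a2
      linarith
    have gf := gs_pos hS.ppf hfn
    have gh := gs_pos hS.pph hhn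
    have pof := hS.posf
    have poh := hS.posh
    set a := gs (lam t1) f - lam t1 with ha
    set c := lam t - gs (lam t) f with hc
    have ha0 : 0 < a := by rw [ha]; linarith
    have ha' : gs (lam t1) h = lam t1 + 1 / a := by
      have : (lam t1 - gs (lam t1) f) * (lam t1 - gs (lam t1) h) = 1 := a3
      have e1 : lam t1 - gs (lam t1) f = -a := by rw [ha]; ring
      rw [e1] at this
      have e2 : gs (lam t1) h - lam t1 = 1 / a := by
        rw [eq_div_iff ha0.ne']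
        linarith
      linarith
    have hc' : gs (lam t) h = lam t - 1 / c := by
      have := hS.prod
      have e2 : lam t - gs (lam t) h = 1 / c := by
        rw [eq_div_iff pof.ne']
        linarith
      linarith
    have hcl : c < lam t := by rw [hc]; linarith
    have hcl' : 1 / c < lam t := by linarith
    have hcp : 0 < 1 / c := by positivity
    have hme := mE (a := a) (c := c) (by linarith) ha0 pof hcl hcl'
    have ety : ∀ z1 z2 : ℝ, 0 ≤ z1 → 0 ≤ z2 → Lower_Hz t t1 z1 f → Lower_Hz t t1 z2 h →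
        Mlow (t ^ 2) * (t - 1 / t) ^ 2 / t ^ 2 ≤ (lam t - lam t1) ^ 2 * (Er t t1) ^ 2 *
          (z1 * z2) * (Ac t) ^ 2 * (t ^ 2) ^ ((n : ℝ) - 4 - 2 * t ^ 2) := by
      intro z1 z2 hz1 hz2 H1 H2
      have t1' := time (f := f) (a := a) (c := c) h2 hlt pf ha0.le pof (by rw [ha]; ring)
        (by rw [hc]; ring) hg H1
      have t2' := time (f := h) (a := 1 / a) (c := 1 / c) h2 hlt ph (by positivity) hcp ha'
        hc' hg H2
      have m := Lower_mul hg0 hE0.le hA.le (by positivity) hz1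
        (Lower_Lf_nonneg h2 (by positivity) hcp hcl') t1' t2'
      have e3 : ((f.size : ℝ) - t ^ 2 - 1) + ((h.size : ℝ) - t ^ 2 - 1) =
          (n : ℝ) - 4 - 2 * t ^ 2 := by
        rw [← s4]; ring
      rw [e3] at m
      exact hme.trans m
    rcases Lower_pick h1 htt hE pf (by linarith) ph (by linarith) with
      ⟨z, z', Z, hz, hz', hzz, hZ, H1, H2⟩ | ⟨K, j, j', e1, e2, -⟩
    · exact ⟨z * z', Z, by positivity, hzz, hZ, ety z z' hz hz' H1 H2⟩
    · exact absurd ⟨K + 1, j, j', e1, e2⟩ hnd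
  · -- vertex type
    have hfn : f ≠ .nil := by
      rintro rfl
      simp only [gs] at e
      linarith
    have hcn : c ≠ .nil := by
      rintro rfl
      simp only [gs] at ec
      linarith
    obtain ⟨ppc, poc, hmem⟩ := Mem_PP hm hS.pph
    have gf := gs_pos hS.ppf hfn
    have gc := gs_pos ppc hcn
    have pof := hS.posf
    set cf := lam t - gs (lam t) f with hcf
    set cc := lam t - gs (lam t) c with hcc
    have hcf' : lam t - gs (lam t) h = 1 / cf := by
      have := hS.prod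
      rw [eq_div_iff pof.ne']
      linarith
    have hmv := mV (t := t) (c := cf) (d := cc) (by linarith) pof poc
      (by rw [hcf]; linarith) (by rw [hcc]; linarith) (by linarith)
    have hmv' : Mlow (t ^ 2) * (t - 1 / t) ^ 2 / t ^ 2 ≤ Lf t 0 cf * Lf t 0 cc * t ^ 2 := by
      have e5 : Mlow (t ^ 2) * (t - 1 / t) ^ 2 / t ^ 2 =
          Mlow (t ^ 2) * (t - 1 / t) ^ 2 / t ^ 4 * t ^ 2 := by
        field_simp
      rw [e5]
      gcongr
    have vty : ∀ z1 z2 : ℝ, 0 ≤ z1 → 0 ≤ z2 → Lower_Hz t t1 z1 f → Lower_Hz t t1 z2 c →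
        Mlow (t ^ 2) * (t - 1 / t) ^ 2 / t ^ 2 ≤ (lam t - lam t1) ^ 2 * (Er t t1) ^ 2 *
          (z1 * z2) * (Ac t) ^ 2 *
          (t ^ 2) ^ ((f.size : ℝ) + c.size - 1 - 2 * t ^ 2) := by
      intro z1 z2 hz1 hz2 H1 H2
      have t1' := time (f := f) (a := 0) (c := cf) h2 hlt pf le_rfl pof (by linarith)
        (by rw [hcf]; ring) hg H1
      have t2' := time (f := c) (a := 0) (c := cc) h2 hlt pc le_rfl poc (by linarith)
        (by rw [hcc]; ring) hg H2
      have m := Lower_mul hg0 hE0.le hA.le (by positivity) hz1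
        (Lower_Lf_nonneg h2 le_rfl poc (by rw [hcc]; linarith)) t1' t2'
      have e3 : (t ^ 2) ^ ((f.size : ℝ) + c.size - 1 - 2 * t ^ 2) =
          (t ^ 2) ^ (((f.size : ℝ) - t ^ 2 - 1) + ((c.size : ℝ) - t ^ 2 - 1)) * t ^ 2 := by
        rw [← Real.rpow_add_one (by positivity)]
        congr 1
        ring
      rw [e3, ← mul_assoc]
      refine hmv'.trans ?_
      gcongr
    have hy1 : 1 ≤ t ^ 2 := one_le_pow₀ h2.le
    have hs : ((c.size : ℝ) + 1) ≤ h.size := by exact_mod_cast Mem_size hm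
    rcases Lower_pick h1 htt hE pf (by linarith) pc (by linarith) with
      ⟨z, z', Z, hz, hz', hzz, hZ, H1, H2⟩ | ⟨K, j, j', e1, e2, hK, hy2, H1, H2⟩
    · refine ⟨z * z', Z, by positivity, hzz, hZ, (vty z z' hz hz' H1 H2).trans ?_⟩
      apply mul_le_mul_of_nonneg_left _ (by positivity)
      apply Real.rpow_le_rpow_of_exponent_le hy1
      linarith
    · have hs2 : ((c.size : ℝ) + 2) ≤ h.size := by
        have h3 := Mem_size hm
        rcases Nat.lt_or_ge h.size (c.size + 2) with h4 | h4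
        · exfalso
          have h5 : h = .cons c .nil := Mem_size_eq hm (by omega)
          apply hnd
          refine ⟨K + 1, j, j' + 1, e1, ?_⟩
          rw [h5, e2]
          rfl
        · exact_mod_cast h4
      refine ⟨(t ^ 2) ^ (t ^ 2 - (K : ℝ)) * (t ^ 2) ^ (t ^ 2 - (K : ℝ)) * (t ^ 2) ^ (-1 : ℝ),
        3 / (2 * t ^ 2) * (t ^ 2) ^ (t ^ 2 - (K : ℝ)), by positivity, ?_,
        Or.inr (Or.inr ⟨hy2, K, hK, rfl⟩), (vty _ _ (by positivity) (by positivity) H1 H2).trans ?_⟩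
      · have := Lower_kap (t := t) (t1 := t1) (x := t ^ 2 - (K : ℝ) + -1) (by linarith) hEy
          (by linarith)
        rw [mul_assoc, ← Real.rpow_add (by positivity) (t ^ 2 - (K : ℝ)) (-1), mul_comm]
        gcongr
      · have e6 : (t ^ 2) ^ ((f.size : ℝ) + c.size - 1 - 2 * t ^ 2) ≤
            (t ^ 2) ^ (-1 : ℝ) * (t ^ 2) ^ ((n : ℝ) - 4 - 2 * t ^ 2) := by
          rw [← Real.rpow_add (by positivity)]
          apply Real.rpow_le_rpow_of_exponent_le hy1
          linarith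
        calc _ ≤ (lam t - lam t1) ^ 2 * (Er t t1) ^ 2 *
              ((t ^ 2) ^ (t ^ 2 - (K : ℝ)) * (t ^ 2) ^ (t ^ 2 - (K : ℝ))) * (Ac t) ^ 2 *
              ((t ^ 2) ^ (-1 : ℝ) * (t ^ 2) ^ ((n : ℝ) - 4 - 2 * t ^ 2)) := by gcongr
          _ = _ := by ring

end Pool.Agent.SG
end
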