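import Mathlib
import Pool.Agent.Lib.MP_8b9a2e_co.Mg.G008

section

set_option autoImplicit false
open Classical

namespace Pool.Agent.SG

/-- in a forest: if `p` is adjacent to `v` and to `a`, and `a` can be reached from `v` avoiding
`p`, then `a = v` -/
private lemma structRep_uniq {V : Type} {G : SimpleGraph V} (hG : G.IsAcyclic) {p v a : V}
    (hv : G.Adj p v) (ha : G.Adj p a) (W : G.Walk v a) (hW : p ∉ W.support) : a = v := by
  have h1 : (SimpleGraph.Walk.cons ha SimpleGraph.Walk.nil : G.Walk p a).IsPath := by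
    simp [SimpleGraph.Walk.cons_isPath_iff, ha.ne]
  have h2 : (SimpleGraph.Walk.cons hv W.bypass : G.Walk p a).IsPath := by
    rw [SimpleGraph.Walk.cons_isPath_iff]
    exact ⟨W.bypass_isPath, fun h => hW (W.support_bypass_subset_support h)⟩
  have h3 := (hG.subsingleton_path p a).elim ⟨_, h1⟩ ⟨_, h2⟩
  have h4 : (SimpleGraph.Walk.cons ha SimpleGraph.Walk.nil : G.Walk p a) =
      SimpleGraph.Walk.cons hv W.bypass := congrArg Subtype.val h3
  have h5 := congrArg SimpleGraph.Walk.length h4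
  simp only [SimpleGraph.Walk.length_cons, SimpleGraph.Walk.length_nil] at h5
  exact (SimpleGraph.Walk.eq_of_length_eq_zero (p := W.bypass) (by omega)).symm

/-- the set of vertices of `S` which can be reached from `v` avoiding `p` -/
private noncomputable def structRepC {V : Type} [Fintype V] (G : SimpleGraph V) (p v : V) : Finset V :=
  Finset.univ.filter (fun a => ∃ W : G.Walk v a, p ∉ W.support)

private lemma structRep_memC {V : Type} [Fintype V] {G : SimpleGraph V} {p v a : V} :
    a ∈ structRepC G p v ↔ ∃ W : G.Walk v a, p ∉ W.support := by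
  simp [structRepC]

private lemma structRep_step {V : Type} [Fintype V] {G : SimpleGraph V} {p v a b : V}
    (ha : a ∈ structRepC G p v) (hab : G.Adj a b) (hb : b ≠ p) : b ∈ structRepC G p v := by
  rw [structRep_memC] at ha ⊢
  obtain ⟨W, hW⟩ := ha
  refine ⟨W.concat hab, ?_⟩
  rw [SimpleGraph.Walk.support_concat]
  simp [hW, hb.symm]

private lemma structRep_main {V : Type} [Fintype V] (G : SimpleGraph V) (hG : G.IsTree) :
    ∀ (m : ℕ) (S : Finset V) (p : V), S.card = m → p ∉ S →
      (∀ a ∈ S, ∀ b, G.Adj a b → b ∈ S ∨ b = p) →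
      ∃ F : LF V, Good G p F ∧ F.labels.Nodup ∧ (∀ a, a ∈ F.labels ↔ a ∈ S) ∧
        (∀ b, b ∈ F.roots ↔ b ∈ S ∧ G.Adj p b) := by
  intro m
  induction m using Nat.strong_induction_on with
  | _ m ih =>
  intro S p hm hp hcl
  rcases S.eq_empty_or_nonempty with rfl | ⟨a0, ha0⟩
  · exact ⟨.nil, trivial, by simp [LF.labels], by simp [LF.labels], by simp [LF.roots]⟩
  · -- a neighbour of `p` in `S`
    obtain ⟨v, hvS, hpv⟩ : ∃ v ∈ S, G.Adj p v := by
      obtain ⟨W⟩ := hG.connected.preconnected a0 p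
      have key : ∀ {x z : V} (W : G.Walk x z), z = p → x ∈ S → ∃ v ∈ S, G.Adj p v := by
        intro x z W
        induction W with
        | nil => intro hz hx; exact absurd (hz ▸ hx) hp
        | @cons x y z hxy W ih' =>
          intro hz hx
          rcases hcl x hx y hxy with h | h
          · exact ih' hz h
          · subst h
            exact ⟨x, hx, hxy.symm⟩
      exact key W rfl ha0
    set C := structRepC G p v with hC
    have hvC : v ∈ C := by
      rw [hC, structRep_memC]
      exact ⟨SimpleGraph.Walk.nil, by simp [hpv.ne]⟩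
    have hpC : p ∉ C := by
      rw [hC, structRep_memC]
      rintro ⟨W, hW⟩
      exact hW W.end_mem_support
    have hCS : C ⊆ S := by
      intro a ha
      rw [hC, structRep_memC] at ha
      obtain ⟨W, hW⟩ := ha
      have key : ∀ {x y : V} (W : G.Walk x y), p ∉ W.support → x ∈ S → y ∈ S := by
        intro x y W
        induction W with
        | nil => intro _ h; exact h
        | @cons x y z hxy W ih' =>
          intro hW hx
          rw [SimpleGraph.Walk.support_cons, List.mem_cons, not_or] at hW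
          rcases hcl x hx y hxy with h | h
          · exact ih' hW.2 h
          · subst h
            exact absurd W.start_mem_support hW.2
      exact key W hW hvS
    -- the children of `v`
    obtain ⟨c, hc1, hc2, hc3, hc4⟩ := ih (C.erase v).card
      (by
        rw [← hm]
        exact Finset.card_lt_card
          ⟨(Finset.erase_subset _ _).trans hCS, fun h => Finset.notMem_erase v C (h hvS)⟩)
      (C.erase v) v rfl (Finset.notMem_erase v C) (by
        intro a ha b hab
        rw [Finset.mem_erase] at ha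
        by_cases hbv : b = v
        · exact Or.inr hbv
        · refine Or.inl (Finset.mem_erase.2 ⟨hbv, ?_⟩)
          refine structRep_step ha.2 hab ?_
          rintro rfl
          have ha2 := ha.2
          rw [hC, structRep_memC] at ha2
          obtain ⟨W, hW⟩ := ha2
          exact ha.1 (structRep_uniq hG.isAcyclic hpv hab.symm W hW))
    -- the other trees
    obtain ⟨r, hr1, hr2, hr3, hr4⟩ := ih (S \ C).card
      (by
        rw [← hm]
        exact Finset.card_lt_card
          ⟨Finset.sdiff_subset, fun h => (Finset.mem_sdiff.1 (h hvS)).2 hvC⟩)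
      (S \ C) p rfl (fun h => hp (Finset.mem_sdiff.1 h).1) (by
        intro a ha b hab
        rw [Finset.mem_sdiff] at ha
        rcases hcl a ha.1 b hab with h | h
        · refine Or.inl (Finset.mem_sdiff.2 ⟨h, fun hbC => ha.2 ?_⟩)
          refine structRep_step hbC hab.symm ?_
          rintro rfl
          exact hp ha.1
        · exact Or.inr h)
    refine ⟨.cons v c r, ⟨?_, hc1, hr1⟩, ?_, ?_, ?_⟩
    · intro b
      constructor
      · intro hvb
        by_cases hbp : b = p
        · exact Or.inl hbp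
        · refine Or.inr ((hc4 b).2 ⟨Finset.mem_erase.2 ⟨hvb.ne', structRep_step hvC hvb hbp⟩, hvb⟩)
      · rintro (h | h)
        · subst h; exact hpv.symm
        · exact ((hc4 b).1 h).2
    · rw [LF.labels, List.nodup_cons, List.nodup_append]
      refine ⟨?_, hc2, hr2, ?_⟩
      · rw [List.mem_append, not_or]
        refine ⟨fun h => ?_, fun h => ?_⟩
        · exact Finset.notMem_erase v C ((hc3 v).1 h)
        · exact (Finset.mem_sdiff.1 ((hr3 v).1 h)).2 hvC
      · intro a ha b hb hab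
        subst hab
        exact (Finset.mem_sdiff.1 ((hr3 a).1 hb)).2 (Finset.mem_of_mem_erase ((hc3 a).1 ha))
    · intro a
      rw [LF.labels, List.mem_cons, List.mem_append, hc3, hr3, Finset.mem_erase, Finset.mem_sdiff]
      constructor
      · rintro (h | h | h)
        · subst h; exact hvS
        · exact hCS h.2
        · exact h.1
      · intro h
        by_cases h1 : a = v
        · exact Or.inl h1
        · by_cases h2 : a ∈ C
          · exact Or.inr (Or.inl ⟨h1, h2⟩)
          · exact Or.inr (Or.inr ⟨h, h2⟩)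
    · intro b
      rw [LF.roots, List.mem_cons, hr4, Finset.mem_sdiff]
      constructor
      · rintro (h | h)
        · subst h; exact ⟨hvS, hpv⟩
        · exact ⟨h.1.1, h.2⟩
      · rintro ⟨h1, h2⟩
        by_cases h3 : b = v
        · exact Or.inl h3
        · refine Or.inr ⟨⟨h1, fun h4 => h3 ?_⟩, h2⟩
          rw [hC, structRep_memC] at h4
          obtain ⟨W, hW⟩ := h4
          exact structRep_uniq hG.isAcyclic hpv h2 W hW

/-- every tree can be seen from every edge -/
theorem exists_edgeRep {V : Type} [Fintype V] (G : SimpleGraph V) (hG : G.IsTree) {u w : V}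
    (h : G.Adj u w) : ∃ F H : LF V, EdgeRep G u w F H := by
  set C := structRepC G w u with hC
  have huC : u ∈ C := by
    rw [hC, structRep_memC]
    exact ⟨SimpleGraph.Walk.nil, by simp [h.ne']⟩
  have hwC : w ∉ C := by
    rw [hC, structRep_memC]
    rintro ⟨W, hW⟩
    exact hW W.end_mem_support
  have huniq : ∀ a ∈ C, G.Adj w a → a = u := by
    intro a ha hwa
    rw [hC, structRep_memC] at ha
    obtain ⟨W, hW⟩ := ha
    exact structRep_uniq hG.isAcyclic h.symm hwa W hW
  obtain ⟨F, hF1, hF2, hF3, hF4⟩ := structRep_main G hG _ (C.erase u) u rfl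
    (Finset.notMem_erase u C) (by
      intro a ha b hab
      rw [Finset.mem_erase] at ha
      by_cases hbu : b = u
      · exact Or.inr hbu
      · refine Or.inl (Finset.mem_erase.2 ⟨hbu, structRep_step ha.2 hab ?_⟩)
        rintro rfl
        exact ha.1 (huniq a ha.2 hab.symm))
  obtain ⟨H, hH1, hH2, hH3, hH4⟩ := structRep_main G hG _ ((Finset.univ.erase w) \ C) w rfl
    (fun h => Finset.notMem_erase w _ (Finset.mem_sdiff.1 h).1) (by
      intro a ha b hab
      rw [Finset.mem_sdiff, Finset.mem_erase] at ha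
      by_cases hbw : b = w
      · exact Or.inr hbw
      · refine Or.inl (Finset.mem_sdiff.2 ⟨Finset.mem_erase.2 ⟨hbw, Finset.mem_univ _⟩, ?_⟩)
        intro hbC
        exact ha.2 (structRep_step hbC hab.symm ha.1.1))
  refine ⟨F, H, ⟨?_, ?_, ?_, ?_, hF1, hH1⟩⟩
  · rw [List.nodup_cons, List.nodup_cons, List.nodup_append]
    refine ⟨?_, ?_, hF2, hH2, ?_⟩
    · rw [List.mem_cons, List.mem_append, hF3, hH3]
      rintro (h1 | h1 | h1)
      · exact h.ne h1
      · exact Finset.notMem_erase u C h1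
      · exact (Finset.mem_sdiff.1 h1).2 huC
    · rw [List.mem_append, hF3, hH3]
      rintro (h1 | h1)
      · exact hwC (Finset.mem_of_mem_erase h1)
      · exact Finset.notMem_erase w _ (Finset.mem_sdiff.1 h1).1
    · intro a ha b hb hab
      subst hab
      exact (Finset.mem_sdiff.1 ((hH3 a).1 hb)).2 (Finset.mem_of_mem_erase ((hF3 a).1 ha))
  · intro v
    rw [List.mem_cons, List.mem_cons, List.mem_append, hF3, hH3, Finset.mem_erase,
      Finset.mem_sdiff, Finset.mem_erase]
    by_cases h1 : v = u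
    · exact Or.inl h1
    · by_cases h2 : v = w
      · exact Or.inr (Or.inl h2)
      · by_cases h3 : v ∈ C
        · exact Or.inr (Or.inr (Or.inl ⟨h1, h3⟩))
        · exact Or.inr (Or.inr (Or.inr ⟨⟨h2, Finset.mem_univ _⟩, h3⟩))
  · intro b
    rw [hF4, Finset.mem_erase]
    constructor
    · intro hub
      by_cases h1 : b = w
      · exact Or.inl h1
      · exact Or.inr ⟨⟨hub.ne', structRep_step huC hub h1⟩, hub⟩
    · rintro (h1 | h1)
      · subst h1; exact h
      · exact h1.2
  · intro b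
    rw [hH4, Finset.mem_sdiff, Finset.mem_erase]
    constructor
    · intro hwb
      by_cases h1 : b = u
      · exact Or.inl h1
      · exact Or.inr ⟨⟨⟨hwb.ne', Finset.mem_univ _⟩, fun h2 => h1 (huniq b h2 hwb)⟩, hwb⟩
    · rintro (h1 | h1)
      · subst h1; exact h.symm
      · exact h1.2

end Pool.Agent.SG
end

section

set_option autoImplicit false
open Classical

namespace Pool.Agent.SG

variable {V : Type} [Fintype V]

private theorem structCase1_cut {G : SimpleGraph V} (hG : G.IsTree) {u w : V} (h : G.Adj u w) :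
    ∃ χ : V → ℝ, χ u = 1 ∧ χ w = 0 ∧ ∀ p q, G.Adj p q → s(p, q) ≠ s(u, w) → χ p = χ q := by
  refine ⟨fun z => if (G.deleteEdges {s(u, w)}).Reachable u z then 1 else 0, ?_, ?_, ?_⟩
  · simp
  · have hb : G.IsBridge s(u, w) :=
      SimpleGraph.isAcyclic_iff_forall_adj_isBridge.1 hG.isAcyclic h
    have hb' := (SimpleGraph.isBridge_iff.1 hb)
    have : ¬ (G.deleteEdges {s(u, w)}).Reachable u w := by
      simpa [SimpleGraph.deleteEdges] using hb'
    simp [this]
  · intro p q hpq hne
    have hadj : (G.deleteEdges {s(u, w)}).Adj p q := by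
      rw [SimpleGraph.deleteEdges_adj]
      exact ⟨hpq, by simpa using hne⟩
    have : (G.deleteEdges {s(u, w)}).Reachable u p ↔ (G.deleteEdges {s(u, w)}).Reachable u q :=
      ⟨fun hp => hp.trans hadj.reachable, fun hp => hp.trans hadj.reachable.symm⟩
    simp only [this]

private theorem structCase1_form {G : SimpleGraph V} {x : V → ℝ} {l : ℝ}
    (hx : (G.adjMatrix ℝ).mulVec x = l • x) (χ : V → ℝ) :
    2 * ((fun z => χ z * x z) ⬝ᵥ (G.adjMatrix ℝ).mulVec (fun z => χ z * x z) -
      l * ((fun z => χ z * x z) ⬝ᵥ (fun z => χ z * x z))) =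
    - ∑ p, ∑ q, G.adjMatrix ℝ p q * ((χ p - χ q) ^ 2 * (x p * x q)) := by
  have hx' : ∀ p, l * x p = ∑ q, G.adjMatrix ℝ p q * x q := by
    intro p
    have := congrFun hx p
    simp only [Matrix.mulVec, dotProduct, Pi.smul_apply, smul_eq_mul] at this
    exact this.symm
  have hsymm : ∀ p q, G.adjMatrix ℝ p q = G.adjMatrix ℝ q p := by
    intro p q
    simp [SimpleGraph.adjMatrix_apply, G.adj_comm]
  have h1 : (fun z => χ z * x z) ⬝ᵥ (G.adjMatrix ℝ).mulVec (fun z => χ z * x z) =
      ∑ p, ∑ q, G.adjMatrix ℝ p q * (χ p * χ q * (x p * x q)) := by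
    simp only [Matrix.mulVec, dotProduct, Finset.mul_sum]
    refine Finset.sum_congr rfl fun p _ => Finset.sum_congr rfl fun q _ => ?_
    ring
  have h2 : l * ((fun z => χ z * x z) ⬝ᵥ (fun z => χ z * x z)) =
      ∑ p, ∑ q, G.adjMatrix ℝ p q * (χ p ^ 2 * (x p * x q)) := by
    simp only [dotProduct, Finset.mul_sum]
    refine Finset.sum_congr rfl fun p _ => ?_
    have : l * (χ p * x p * (χ p * x p)) = χ p ^ 2 * x p * (l * x p) := by ring
    rw [this, hx' p, Finset.mul_sum]
    refine Finset.sum_congr rfl fun q _ => ?_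
    ring
  have h3 : ∑ p, ∑ q, G.adjMatrix ℝ p q * (χ p ^ 2 * (x p * x q)) =
      ∑ p, ∑ q, G.adjMatrix ℝ p q * (χ q ^ 2 * (x p * x q)) := by
    rw [Finset.sum_comm]
    refine Finset.sum_congr rfl fun p _ => Finset.sum_congr rfl fun q _ => ?_
    rw [hsymm q p]
    ring
  have h4 : ∑ p, ∑ q, G.adjMatrix ℝ p q * ((χ p - χ q) ^ 2 * (x p * x q)) =
      ∑ p, ∑ q, G.adjMatrix ℝ p q * (χ p ^ 2 * (x p * x q)) +
      ∑ p, ∑ q, G.adjMatrix ℝ p q * (χ q ^ 2 * (x p * x q)) -
      2 * ∑ p, ∑ q, G.adjMatrix ℝ p q * (χ p * χ q * (x p * x q)) := by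
    rw [← Finset.sum_add_distrib, Finset.mul_sum, ← Finset.sum_sub_distrib]
    refine Finset.sum_congr rfl fun p _ => ?_
    rw [← Finset.sum_add_distrib, Finset.mul_sum, ← Finset.sum_sub_distrib]
    refine Finset.sum_congr rfl fun q _ => ?_
    ring
  rw [h1, h2, h4, ← h3]
  ring

private theorem structCase1_neg {G : SimpleGraph V} {x χ : V → ℝ}
    (hle : ∀ p q, G.Adj p q → (χ p - χ q) ^ 2 * (x p * x q) ≤ 0)
    {a b : V} (hab : G.Adj a b) (hlt : (χ a - χ b) ^ 2 * (x a * x b) < 0) :
    ∑ p, ∑ q, G.adjMatrix ℝ p q * ((χ p - χ q) ^ 2 * (x p * x q)) < 0 := by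
  have hle' : ∀ p q, G.adjMatrix ℝ p q * ((χ p - χ q) ^ 2 * (x p * x q)) ≤ 0 := by
    intro p q
    by_cases h : G.Adj p q
    · simpa [SimpleGraph.adjMatrix_apply, h] using hle p q h
    · simp [SimpleGraph.adjMatrix_apply, h]
  refine Finset.sum_neg' (fun p _ => Finset.sum_nonpos fun q _ => hle' p q) ⟨a, Finset.mem_univ a, ?_⟩
  refine Finset.sum_neg' (fun q _ => hle' a q) ⟨b, Finset.mem_univ b, ?_⟩
  simpa [SimpleGraph.adjMatrix_apply, hab] using hlt

/-- case 1: no zeros. Exactly one edge with a sign change, positive on one side and negative on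
the other side -/
theorem case_one {G : SimpleGraph V} (hG : G.IsTree) {v x : V → ℝ} {l : ℝ}
    (hv : ∀ a, 0 < v a) (hx0 : ∀ a, x a ≠ 0) (hxv : x ⬝ᵥ v = 0)
    (hx : (G.adjMatrix ℝ).mulVec x = l • x)
    (hq : ∀ g : V → ℝ, g ⬝ᵥ v = 0 → g ⬝ᵥ (G.adjMatrix ℝ).mulVec g ≤ l * (g ⬝ᵥ g)) :
    ∃ u w, G.Adj u w ∧ 0 < x u ∧ x w < 0 ∧
      (∀ a b, G.Adj a b → x a * x b < 0 → (a = u ∧ b = w) ∨ (a = w ∧ b = u)) := by
  have : Nonempty V := hG.connected.nonempty
  -- both signs occur
  have hpos : ∃ p, 0 < x p := by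
    by_contra hcon
    push Not at hcon
    have hneg : ∀ p, x p < 0 := fun p => lt_of_le_of_ne (hcon p) (hx0 p)
    have : x ⬝ᵥ v < 0 := by
      simp only [dotProduct]
      obtain ⟨p⟩ := ‹Nonempty V›
      exact Finset.sum_neg (fun q _ => mul_neg_of_neg_of_pos (hneg q) (hv q)) ⟨p, Finset.mem_univ p⟩
    linarith
  have hneg : ∃ p, x p < 0 := by
    by_contra hcon
    push Not at hcon
    have hpos' : ∀ p, 0 < x p := fun p => lt_of_le_of_ne (hcon p) (Ne.symm (hx0 p))
    have : 0 < x ⬝ᵥ v := by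
      simp only [dotProduct]
      obtain ⟨p⟩ := ‹Nonempty V›
      exact Finset.sum_pos (fun q _ => mul_pos (hpos' q) (hv q)) ⟨p, Finset.mem_univ p⟩
    linarith
  obtain ⟨p, hp⟩ := hpos
  obtain ⟨q, hqn⟩ := hneg
  obtain ⟨W⟩ := hG.connected.preconnected p q
  obtain ⟨d, -, hd1, hd2⟩ := W.exists_boundary_dart {z | 0 < x z} hp (by simpa using hqn.le)
  have hu : 0 < x d.fst := hd1
  have hw : x d.snd < 0 := by
    have : ¬ 0 < x d.snd := hd2
    exact lt_of_le_of_ne (not_lt.1 this) (hx0 _)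
  refine ⟨d.fst, d.snd, d.adj, hu, hw, ?_⟩
  intro a b hab hneg
  by_contra hcon
  have hne : s(a, b) ≠ s(d.fst, d.snd) := by
    intro h
    rw [Sym2.eq_iff] at h
    exact hcon h
  set u := d.fst with hudef
  set w := d.snd with hwdef
  have huw : G.Adj u w := d.adj
  obtain ⟨χ1, h1u, h1w, h1⟩ := structCase1_cut hG huw
  obtain ⟨χ2, h2a, h2b, h2⟩ := structCase1_cut hG hab
  have h1ab : χ1 a = χ1 b := h1 a b hab hne
  have h2uw : χ2 u = χ2 w := h2 u w huw (Ne.symm hne)
  -- main claim
  have main : ∀ α β : ℝ, (α ≠ 0 ∨ β ≠ 0) →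
      (fun z => (α * χ1 z + β * χ2 z) * x z) ⬝ᵥ v = 0 → False := by
    intro α β hαβ horth
    have hxuw : x u * x w < 0 := mul_neg_of_pos_of_neg hu hw
    have hle : ∀ p q, G.Adj p q →
        ((α * χ1 p + β * χ2 p) - (α * χ1 q + β * χ2 q)) ^ 2 * (x p * x q) ≤ 0 := by
      intro p q hpq
      by_cases e1 : s(p, q) = s(u, w)
      · have : x p * x q = x u * x w := by
          rw [Sym2.eq_iff] at e1
          rcases e1 with ⟨rfl, rfl⟩ | ⟨rfl, rfl⟩
          · rfl
          · ring
        rw [this]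
        exact mul_nonpos_of_nonneg_of_nonpos (sq_nonneg _) hxuw.le
      · by_cases e2 : s(p, q) = s(a, b)
        · have : x p * x q = x a * x b := by
            rw [Sym2.eq_iff] at e2
            rcases e2 with ⟨rfl, rfl⟩ | ⟨rfl, rfl⟩
            · rfl
            · ring
          rw [this]
          exact mul_nonpos_of_nonneg_of_nonpos (sq_nonneg _) hneg.le
        · rw [h1 p q hpq e1, h2 p q hpq e2]
          simp
    have hform := structCase1_form hx (fun z => α * χ1 z + β * χ2 z)
    have hsum : ∑ p, ∑ q, G.adjMatrix ℝ p q *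
        (((α * χ1 p + β * χ2 p) - (α * χ1 q + β * χ2 q)) ^ 2 * (x p * x q)) < 0 := by
      rcases hαβ with hα | hβ
      · refine structCase1_neg (χ := fun z => α * χ1 z + β * χ2 z) hle huw ?_
        have : (α * χ1 u + β * χ2 u) - (α * χ1 w + β * χ2 w) = α := by
          rw [h1u, h1w, h2uw]; ring
        rw [this]
        exact mul_neg_of_pos_of_neg (by positivity) hxuw
      · refine structCase1_neg (χ := fun z => α * χ1 z + β * χ2 z) hle hab ?_
        have : (α * χ1 a + β * χ2 a) - (α * χ1 b + β * χ2 b) = β := by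
          rw [h2a, h2b, h1ab]; ring
        rw [this]
        exact mul_neg_of_pos_of_neg (by positivity) hneg
    have hq' := hq _ horth
    linarith
  -- choose the coefficients
  set s1 := (fun z => χ1 z * x z) ⬝ᵥ v with hs1
  set s2 := (fun z => χ2 z * x z) ⬝ᵥ v with hs2
  have hlin : ∀ α β : ℝ, (fun z => (α * χ1 z + β * χ2 z) * x z) ⬝ᵥ v = α * s1 + β * s2 := by
    intro α β
    rw [hs1, hs2]
    simp only [dotProduct, Finset.mul_sum]
    rw [← Finset.sum_add_distrib]
    refine Finset.sum_congr rfl fun z _ => ?_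
    ring
  by_cases h0 : s1 = 0
  · exact main 1 0 (Or.inl one_ne_zero) (by rw [hlin, h0]; ring)
  · exact main s2 (-s1) (Or.inr (neg_ne_zero.2 h0)) (by rw [hlin]; ring)

end Pool.Agent.SG
end

section

set_option autoImplicit false
open Classical

namespace Pool.Agent.SG

variable {V : Type} [Fintype V]

omit [Fintype V] in
theorem StructCase2_roots_sub {F : LF V} : ∀ v ∈ F.roots, v ∈ F.labels := by
  induction F with
  | nil => simp [LF.roots]
  | cons w c r ihc ihr =>
    intro v hv
    simp only [LF.roots, List.mem_cons] at hv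
    simp only [LF.labels, List.mem_cons, List.mem_append]
    rcases hv with h | h
    · exact Or.inl h
    · exact Or.inr (Or.inr (ihr v h))

omit [Fintype V] in
theorem StructCase2_exists_memT {H : LF V} {v : V} (hv : v ∈ H.roots) :
    ∃ c, LF.MemT v c H := by
  induction H with
  | nil => simp [LF.roots] at hv
  | cons w c r ihc ihr =>
    simp only [LF.roots, List.mem_cons] at hv
    rcases hv with h | h
    · exact ⟨c, Or.inl ⟨h, rfl⟩⟩
    · obtain ⟨d, hd⟩ := ihr h
      exact ⟨d, Or.inr hd⟩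

omit [Fintype V] in
theorem StructCase2_memT_good {G : SimpleGraph V} {w : V} {H : LF V} {v : V} {c : LF V}
    (hm : LF.MemT v c H) (hg : Good G w H) :
    (∀ b, G.Adj v b ↔ b = w ∨ b ∈ c.roots) ∧ Good G v c := by
  induction H with
  | nil => exact absurd hm (by simp [LF.MemT])
  | cons z d r ihd ihr =>
    obtain ⟨h1, h2, h3⟩ := hg
    rcases hm with ⟨rfl, rfl⟩ | hm
    · exact ⟨h1, h2⟩
    · exact ihr hm h3

omit [Fintype V] in
theorem StructCase2_memT_labels {H : LF V} {v : V} {c : LF V}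
    (hm : LF.MemT v c H) : List.Sublist (v :: c.labels) H.labels := by
  induction H with
  | nil => exact absurd hm (by simp [LF.MemT])
  | cons z d r ihd ihr =>
    simp only [LF.labels]
    rcases hm with ⟨rfl, rfl⟩ | hm
    · exact List.Sublist.cons_cons _ (List.sublist_append_left _ _)
    · exact ((ihr hm).trans (List.sublist_append_right _ _)).trans (List.sublist_cons_self _ _)

omit [Fintype V] in
theorem StructCase2_adj_in {G : SimpleGraph V} {p : V} {F : LF V} (hg : Good G p F) :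
    ∀ a ∈ F.labels, ∀ b, G.Adj a b → b = p ∨ b ∈ F.labels := by
  induction F generalizing p with
  | nil => simp [LF.labels]
  | cons z d r ihd ihr =>
    obtain ⟨h1, h2, h3⟩ := hg
    intro a ha b hab
    simp only [LF.labels, List.mem_cons, List.mem_append] at ha ⊢
    rcases ha with rfl | ha | ha
    · rcases (h1 b).1 hab with h | h
      · exact Or.inl h
      · exact Or.inr (Or.inr (Or.inl (StructCase2_roots_sub b h)))
    · rcases ihd h2 a ha b hab with h | h
      · exact Or.inr (Or.inl h)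
      · exact Or.inr (Or.inr (Or.inl h))
    · rcases ihr h3 a ha b hab with h | h
      · exact Or.inl h
      · exact Or.inr (Or.inr (Or.inr h))

/-- case 2: there is a zero. -/
theorem case_two {G : SimpleGraph V} (hG : G.IsTree) {v x : V → ℝ} {l : ℝ}
    (hv : ∀ a, 0 < v a) (hxne : x ≠ 0) (hx0 : ∃ a, x a = 0)
    (hx : (G.adjMatrix ℝ).mulVec x = l • x)
    (hq : ∀ g : V → ℝ, g ⬝ᵥ v = 0 → g ⬝ᵥ (G.adjMatrix ℝ).mulVec g ≤ l * (g ⬝ᵥ g))
    (hqe : ∀ g : V → ℝ, g ⬝ᵥ v = 0 → g ⬝ᵥ (G.adjMatrix ℝ).mulVec g = l * (g ⬝ᵥ g) →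
      (G.adjMatrix ℝ).mulVec g = l • g) :
    ∃ (g : V → ℝ) (w u u' : V) (F H c : LF V), (G.adjMatrix ℝ).mulVec g = l • g ∧
      EdgeRep G u w F H ∧ LF.MemT u' c H ∧ g w = 0 ∧
      0 < g u ∧ (∀ a ∈ F.labels, 0 < g a) ∧ g u' < 0 ∧ (∀ a ∈ c.labels, g a < 0) := by
  have heq : ∀ {z : V → ℝ}, (G.adjMatrix ℝ).mulVec z = l • z →
      ∀ a, ∑ b ∈ G.neighborFinset a, z b = l * z a := by
    intro z hz a
    have h1 := congrFun hz a
    rw [SimpleGraph.adjMatrix_mulVec_apply] at h1
    simpa using h1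
  have hxe := heq hx
  -- an edge from a zero to a non-zero
  obtain ⟨w, u0, hwu0, hw0, hu0⟩ : ∃ w u0, G.Adj w u0 ∧ x w = 0 ∧ x u0 ≠ 0 := by
    by_contra hcon
    push Not at hcon
    obtain ⟨a0, ha0⟩ := hx0
    apply hxne
    funext b
    obtain ⟨p⟩ := hG.1.preconnected a0 b
    have key : ∀ {a b : V} (p : G.Walk a b), x a = 0 → x b = 0 := by
      intro a b p
      induction p with
      | nil => exact id
      | cons h p ih => exact fun ha => ih (hcon _ _ h ha)
    exact key p ha0
  have hsum0 : ∑ b ∈ G.neighborFinset w, x b = 0 := by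
    rw [hxe w, hw0, mul_zero]
  obtain ⟨u, hu, hupos⟩ : ∃ u ∈ G.neighborFinset w, 0 < x u :=
    Finset.exists_pos_of_sum_zero_of_exists_nonzero _ hsum0
      ⟨u0, by rw [SimpleGraph.mem_neighborFinset]; exact hwu0, hu0⟩
  obtain ⟨u', hu', hu'neg⟩ : ∃ u' ∈ G.neighborFinset w, 0 < (fun b => - x b) u' :=
    Finset.exists_pos_of_sum_zero_of_exists_nonzero _
      (by rw [Finset.sum_neg_distrib, hsum0, neg_zero])
      ⟨u0, by rw [SimpleGraph.mem_neighborFinset]; exact hwu0, neg_ne_zero.2 hu0⟩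
  simp only [Left.neg_pos_iff] at hu'neg
  rw [SimpleGraph.mem_neighborFinset] at hu hu'
  obtain ⟨F, H, hE⟩ := exists_edgeRep G hG hu.symm
  have huu' : u' ≠ u := by
    rintro rfl
    linarith
  have hu'H : u' ∈ H.roots := by
    rcases (hE.adjw u').1 hu' with h | h
    · exact absurd h huu'
    · exact h
  obtain ⟨c, hc⟩ := StructCase2_exists_memT hu'H
  obtain ⟨hadju', hgoodc⟩ := StructCase2_memT_good hc hE.goodH
  have hsub := StructCase2_memT_labels hc
  -- nodup facts
  have hnd := hE.nodup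
  have hnd1 : u ∉ w :: (F.labels ++ H.labels) := (List.nodup_cons.1 hnd).1
  have hnd2 := (List.nodup_cons.1 hnd).2
  have hnd3 : w ∉ F.labels ++ H.labels := (List.nodup_cons.1 hnd2).1
  have hnd4 := (List.nodup_cons.1 hnd2).2
  have hdisj := (List.nodup_append'.1 hnd4).2.2
  have hC'H : ∀ a, a ∈ u' :: c.labels → a ∈ H.labels := fun a ha => hsub.subset ha
  -- the two sets
  set C : List V := u :: F.labels with hC
  set C' : List V := u' :: c.labels with hC'
  have hwC : w ∉ C := by
    rw [hC, List.mem_cons]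
    rintro (h | h)
    · exact hnd1 (by rw [h]; exact List.mem_cons_self ..)
    · exact hnd3 (List.mem_append_left _ h)
  have hwC' : w ∉ C' := fun h => hnd3 (List.mem_append_right _ (hC'H _ h))
  have hCC' : ∀ a, a ∈ C → a ∈ C' → False := by
    intro a h1 h2
    have h3 := hC'H a h2
    rw [hC, List.mem_cons] at h1
    rcases h1 with rfl | h1
    · exact hnd1 (List.mem_cons_of_mem _ (List.mem_append_right _ h3))
    · exact hdisj h1 h3
  have hadjC : ∀ a ∈ C, ∀ b, G.Adj a b → b = w ∨ b ∈ C := by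
    intro a ha b hab
    rw [hC, List.mem_cons] at ha ⊢
    rcases ha with rfl | ha
    · rcases (hE.adju b).1 hab with h | h
      · exact Or.inl h
      · exact Or.inr (Or.inr (StructCase2_roots_sub b h))
    · rcases StructCase2_adj_in hE.goodF a ha b hab with h | h
      · exact Or.inr (Or.inl h)
      · exact Or.inr (Or.inr h)
  have hadjC' : ∀ a ∈ C', ∀ b, G.Adj a b → b = w ∨ b ∈ C' := by
    intro a ha b hab
    rw [hC', List.mem_cons] at ha ⊢
    rcases ha with rfl | ha
    · rcases (hadju' b).1 hab with h | h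
      · exact Or.inl h
      · exact Or.inr (Or.inr (StructCase2_roots_sub b h))
    · rcases StructCase2_adj_in hgoodc a ha b hab with h | h
      · exact Or.inr (Or.inl h)
      · exact Or.inr (Or.inr h)
  -- the test function
  set y1 : V → ℝ := fun a => if a ∈ C then |x a| else 0 with hy1
  set y2 : V → ℝ := fun a => if a ∈ C' then |x a| else 0 with hy2
  have hy1n : ∀ a, 0 ≤ y1 a := by
    intro a
    simp only [hy1]
    split_ifs
    · exact abs_nonneg _
    · exact le_rfl
  have hy2n : ∀ a, 0 ≤ y2 a := by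
    intro a
    simp only [hy2]
    split_ifs
    · exact abs_nonneg _
    · exact le_rfl
  have hy1u : 0 < y1 u := by
    simp only [hy1]
    rw [if_pos (by rw [hC]; exact List.mem_cons_self ..)]
    exact abs_pos.2 hupos.ne'
  have hy2u : 0 < y2 u' := by
    simp only [hy2]
    rw [if_pos (by rw [hC']; exact List.mem_cons_self ..)]
    exact abs_pos.2 hu'neg.ne
  set β : ℝ := y1 ⬝ᵥ v with hβ
  set α : ℝ := y2 ⬝ᵥ v with hα
  have hβ0 : 0 < β := by
    rw [hβ, dotProduct]
    exact Finset.sum_pos' (fun i _ => mul_nonneg (hy1n i) (hv i).le)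
      ⟨u, Finset.mem_univ _, mul_pos hy1u (hv u)⟩
  have hα0 : 0 < α := by
    rw [hα, dotProduct]
    exact Finset.sum_pos' (fun i _ => mul_nonneg (hy2n i) (hv i).le)
      ⟨u', Finset.mem_univ _, mul_pos hy2u (hv u')⟩
  set g : V → ℝ := fun a => α * y1 a - β * y2 a with hg
  have hgv : g ⬝ᵥ v = 0 := by
    have : g = α • y1 - β • y2 := by
      funext a
      simp [hg]
    rw [this, sub_dotProduct, smul_dotProduct, smul_dotProduct, ← hβ, ← hα, smul_eq_mul,
      smul_eq_mul]
    ring
  have gC : ∀ a ∈ C, g a = α * |x a| := by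
    intro a ha
    simp only [hg, hy1, hy2]
    rw [if_pos ha, if_neg (fun h => hCC' a ha h)]
    ring
  have gC' : ∀ a ∈ C', g a = - β * |x a| := by
    intro a ha
    simp only [hg, hy1, hy2]
    rw [if_pos ha, if_neg (fun h => hCC' a h ha)]
    ring
  have gO : ∀ a, a ∉ C → a ∉ C' → g a = 0 := by
    intro a h1 h2
    simp only [hg, hy1, hy2]
    rw [if_neg h1, if_neg h2]
    ring
  have gw : g w = 0 := gO w hwC hwC'
  have habs : ∀ a, l * |x a| ^ 2 ≤ |x a| * ∑ b ∈ G.neighborFinset a, |x b| := by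
    intro a
    have h1 : |∑ b ∈ G.neighborFinset a, x b| ≤ ∑ b ∈ G.neighborFinset a, |x b| :=
      Finset.abs_sum_le_sum_abs _ _
    rw [hxe a, abs_mul] at h1
    have h2 : l * |x a| ≤ |l| * |x a| := mul_le_mul_of_nonneg_right (le_abs_self l) (abs_nonneg _)
    have h3 := mul_le_mul_of_nonneg_left (h2.trans h1) (abs_nonneg (x a))
    calc l * |x a| ^ 2 = |x a| * (l * |x a|) := by ring
      _ ≤ _ := h3
  have hpt : ∀ a, l * (g a * g a) ≤ g a * ∑ b ∈ G.neighborFinset a, g b := by
    intro a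
    by_cases h1 : a ∈ C
    · have h2 : ∑ b ∈ G.neighborFinset a, g b = α * ∑ b ∈ G.neighborFinset a, |x b| := by
        rw [Finset.mul_sum]
        apply Finset.sum_congr rfl
        intro b hb
        rw [SimpleGraph.mem_neighborFinset] at hb
        rcases hadjC a h1 b hb with h | h
        · rw [h, gw, hw0, abs_zero, mul_zero]
        · exact gC b h
      rw [h2, gC a h1]
      have h3 := mul_le_mul_of_nonneg_left (habs a) (sq_nonneg α)
      calc l * (α * |x a| * (α * |x a|)) = α ^ 2 * (l * |x a| ^ 2) := by ring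
        _ ≤ _ := h3
        _ = _ := by ring
    · by_cases h1' : a ∈ C'
      · have h2 : ∑ b ∈ G.neighborFinset a, g b = - β * ∑ b ∈ G.neighborFinset a, |x b| := by
          rw [Finset.mul_sum]
          apply Finset.sum_congr rfl
          intro b hb
          rw [SimpleGraph.mem_neighborFinset] at hb
          rcases hadjC' a h1' b hb with h | h
          · rw [h, gw, hw0, abs_zero, mul_zero]
          · exact gC' b h
        rw [h2, gC' a h1']
        have h3 := mul_le_mul_of_nonneg_left (habs a) (sq_nonneg β)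
        calc l * (- β * |x a| * (- β * |x a|)) = β ^ 2 * (l * |x a| ^ 2) := by ring
          _ ≤ _ := h3
          _ = _ := by ring
      · rw [gO a h1 h1']
        simp
  have hform : g ⬝ᵥ (G.adjMatrix ℝ).mulVec g = l * (g ⬝ᵥ g) := by
    apply le_antisymm (hq g hgv)
    rw [dotProduct, dotProduct, Finset.mul_sum]
    apply Finset.sum_le_sum
    intro a _
    rw [SimpleGraph.adjMatrix_mulVec_apply]
    exact hpt a
  have hAg := hqe g hgv hform
  have hge := heq hAg
  have hgu : 0 < g u := by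
    rw [gC u (by rw [hC]; exact List.mem_cons_self ..)]
    exact mul_pos hα0 (abs_pos.2 hupos.ne')
  have hgu' : g u' < 0 := by
    rw [gC' u' (by rw [hC']; exact List.mem_cons_self ..)]
    have := mul_pos hβ0 (abs_pos.2 hu'neg.ne)
    linarith
  refine ⟨g, w, u, u', F, H, c, hAg, hE, hc, gw, hgu, ?_, hgu', ?_⟩
  · apply pos_down hE.goodF hgu
    · intro a ha
      rw [gC a (by rw [hC]; exact List.mem_cons_of_mem _ ha)]
      exact mul_nonneg hα0.le (abs_nonneg _)
    · intro a _
      exact hge a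
  · have h1 := pos_down hgoodc (x := fun a => - g a) (l := l) (by simpa using hgu')
      (by
        intro a ha
        rw [gC' a (by rw [hC']; exact List.mem_cons_of_mem _ ha)]
        have := mul_nonneg hβ0.le (abs_nonneg (x a))
        linarith)
      (by
        intro a _
        rw [Finset.sum_neg_distrib, hge a]
        ring)
    intro a ha
    have := h1 a ha
    linarith

end Pool.Agent.SG
end

section

set_option autoImplicit false
open Classical

namespace Pool.Agent.SG

/-- The spectral decomposition in coordinates. -/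
theorem perron_decomp {n : ℕ} (A : Matrix (Fin n) (Fin n) ℝ) (hA : A.IsHermitian) :
    ∃ e : Fin (Fintype.card (Fin n)) → Fin n → ℝ,
      (∀ k l, e k ⬝ᵥ e l = if k = l then 1 else 0) ∧
      (∀ k, A.mulVec (e k) = hA.eigenvalues₀ k • e k) ∧
      (∀ g : Fin n → ℝ, g = ∑ k, (e k ⬝ᵥ g) • e k) := by
  obtain ⟨σ, hσ⟩ : ∃ σ : Fin (Fintype.card (Fin n)) ≃ Fin n,
    σ = Fintype.equivOfCardEq (Fintype.card_fin _) := ⟨_, rfl⟩
  have hinner : ∀ x y : EuclideanSpace ℝ (Fin n),
      inner ℝ x y = WithLp.ofLp x ⬝ᵥ WithLp.ofLp y := by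
    intro x y
    rw [EuclideanSpace.inner_eq_star_dotProduct]
    simp [dotProduct_comm]
  refine ⟨fun k => WithLp.ofLp (hA.eigenvectorBasis (σ k)), ?_, ?_, ?_⟩
  · intro k l
    rw [← hinner]
    have := (orthonormal_iff_ite.1 hA.eigenvectorBasis.orthonormal) (σ k) (σ l)
    rw [this]
    simp [σ.injective.eq_iff]
  · intro k
    have h1 := hA.mulVec_eigenvectorBasis (σ k)
    have h2 : hA.eigenvalues (σ k) = hA.eigenvalues₀ k := by
      unfold Matrix.IsHermitian.eigenvalues
      rw [← hσ, Equiv.symm_apply_apply]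
    rw [h2] at h1
    exact h1
  · intro g
    have h1 := hA.eigenvectorBasis.sum_repr' (WithLp.toLp 2 g)
    have h2 := congrArg WithLp.ofLp h1
    rw [WithLp.ofLp_sum] at h2
    rw [← Equiv.sum_comp σ] at h2
    conv_lhs => rw [← WithLp.ofLp_toLp 2 g, ← h2]
    refine Finset.sum_congr rfl fun k _ => ?_
    rw [WithLp.ofLp_smul, hinner]

/-- Bounding the quadratic form. -/
theorem perron_form {n : ℕ} {A : Matrix (Fin n) (Fin n) ℝ} {κ : Type*} [Fintype κ]
    {e : κ → Fin n → ℝ} {lm : κ → ℝ} (he : ∀ k, A.mulVec (e k) = lm k • e k)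
    (hs : ∀ g : Fin n → ℝ, g = ∑ k, (e k ⬝ᵥ g) • e k) (g : Fin n → ℝ) (M : ℝ)
    (hM : ∀ k, e k ⬝ᵥ g ≠ 0 → lm k ≤ M) :
    g ⬝ᵥ A.mulVec g ≤ M * (g ⬝ᵥ g) ∧
      (g ⬝ᵥ A.mulVec g = M * (g ⬝ᵥ g) → A.mulVec g = M • g) := by
  have h1 : g ⬝ᵥ g = ∑ k, (e k ⬝ᵥ g) ^ 2 := by
    calc g ⬝ᵥ g = g ⬝ᵥ (∑ k, (e k ⬝ᵥ g) • e k) := by rw [← hs g]
      _ = ∑ k, (e k ⬝ᵥ g) ^ 2 := by
        rw [dotProduct_sum]
        refine Finset.sum_congr rfl fun k _ => ?_
        rw [dotProduct_smul, dotProduct_comm g (e k), smul_eq_mul, sq]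
  have h2 : A.mulVec g = ∑ k, (lm k * (e k ⬝ᵥ g)) • e k := by
    calc A.mulVec g = A.mulVec (∑ k, (e k ⬝ᵥ g) • e k) := by rw [← hs g]
      _ = ∑ k, (lm k * (e k ⬝ᵥ g)) • e k := by
        rw [Matrix.mulVec_sum]
        refine Finset.sum_congr rfl fun k _ => ?_
        rw [Matrix.mulVec_smul, he, smul_smul, mul_comm]
  have h3 : g ⬝ᵥ A.mulVec g = ∑ k, lm k * (e k ⬝ᵥ g) ^ 2 := by
    rw [h2, dotProduct_sum]
    refine Finset.sum_congr rfl fun k _ => ?_
    rw [dotProduct_smul, dotProduct_comm g (e k), smul_eq_mul, sq, mul_assoc]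
  have h4 : ∀ k, 0 ≤ (M - lm k) * (e k ⬝ᵥ g) ^ 2 := by
    intro k
    by_cases hk : e k ⬝ᵥ g = 0
    · rw [hk]; simp
    · exact mul_nonneg (sub_nonneg.2 (hM k hk)) (sq_nonneg _)
  have h5 : M * (g ⬝ᵥ g) - g ⬝ᵥ A.mulVec g = ∑ k, (M - lm k) * (e k ⬝ᵥ g) ^ 2 := by
    rw [h1, h3, Finset.mul_sum, ← Finset.sum_sub_distrib]
    refine Finset.sum_congr rfl fun k _ => ?_
    ring
  constructor
  · have := Finset.sum_nonneg (fun k (_ : k ∈ Finset.univ) => h4 k)
    linarith
  · intro heq
    rw [heq, sub_self] at h5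
    have h6 := (Finset.sum_eq_zero_iff_of_nonneg (fun k _ => h4 k)).1 h5.symm
    rw [h2]
    conv_rhs => rw [hs g, Finset.smul_sum]
    refine Finset.sum_congr rfl fun k _ => ?_
    rw [smul_smul]
    congr 1
    have h7 := h6 k (Finset.mem_univ k)
    rcases mul_eq_zero.1 h7 with h | h
    · rw [sub_eq_zero.1 h]
    · rw [pow_eq_zero_iff (by norm_num)] at h
      rw [h]; ring

/-- A nonnegative eigenvector of a connected graph is zero or positive. -/
theorem perron_pos {n : ℕ} (G : SimpleGraph (Fin n)) (hG : G.Connected) (w : Fin n → ℝ)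
    (hw : ∀ a, 0 ≤ w a) (M : ℝ) (he : (G.adjMatrix ℝ).mulVec w = M • w) :
    w = 0 ∨ ∀ a, 0 < w a := by
  by_cases h0 : ∃ a, w a = 0
  · left
    obtain ⟨a, ha⟩ := h0
    have step : ∀ a b, G.Adj a b → w a = 0 → w b = 0 := by
      intro a b hab ha
      have h1 := congrFun he a
      rw [SimpleGraph.adjMatrix_mulVec_apply, Pi.smul_apply, ha, smul_zero] at h1
      exact (Finset.sum_eq_zero_iff_of_nonneg (fun b _ => hw b)).1 h1 b
        ((G.mem_neighborFinset a b).2 hab)
    have walk : ∀ a b, G.Walk a b → w a = 0 → w b = 0 := by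
      intro a b p
      induction p with
      | nil => exact id
      | cons h _ ih => exact fun h0 => ih (step _ _ h h0)
    funext b
    obtain ⟨p⟩ := hG.preconnected a b
    exact walk a b p ha
  · right
    push Not at h0
    exact fun a => lt_of_le_of_ne (hw a) (h0 a).symm

/-- An eigenvector for the maximum of the quadratic form has constant sign. -/
theorem perron_sign {n : ℕ} (G : SimpleGraph (Fin n)) (hG : G.Connected) (M : ℝ)
    (htop : ∀ g : Fin n → ℝ, g ⬝ᵥ (G.adjMatrix ℝ).mulVec g ≤ M * (g ⬝ᵥ g) ∧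
      (g ⬝ᵥ (G.adjMatrix ℝ).mulVec g = M * (g ⬝ᵥ g) → (G.adjMatrix ℝ).mulVec g = M • g))
    (z : Fin n → ℝ) (hz : z ≠ 0) (he : (G.adjMatrix ℝ).mulVec z = M • z) :
    (∀ a, 0 < z a) ∨ (∀ a, z a < 0) := by
  obtain ⟨w, hw⟩ : ∃ w : Fin n → ℝ, w = fun a => |z a| := ⟨_, rfl⟩
  have hww : w ⬝ᵥ w = z ⬝ᵥ z := by
    rw [hw]
    unfold dotProduct
    refine Finset.sum_congr rfl fun a _ => abs_mul_abs_self _
  have hQ : z ⬝ᵥ (G.adjMatrix ℝ).mulVec z ≤ w ⬝ᵥ (G.adjMatrix ℝ).mulVec w := by
    unfold dotProduct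
    refine Finset.sum_le_sum fun a _ => ?_
    rw [SimpleGraph.adjMatrix_mulVec_apply, SimpleGraph.adjMatrix_mulVec_apply, Finset.mul_sum,
      Finset.mul_sum]
    refine Finset.sum_le_sum fun b _ => ?_
    rw [hw]
    simp only
    rw [← abs_mul]
    exact le_abs_self _
  have hzz : z ⬝ᵥ (G.adjMatrix ℝ).mulVec z = M * (z ⬝ᵥ z) := by
    rw [he, dotProduct_smul, smul_eq_mul]
  have hwe : (G.adjMatrix ℝ).mulVec w = M • w := by
    apply (htop w).2
    apply le_antisymm (htop w).1
    rw [hww, ← hzz]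
    exact hQ
  have hw0 : ∀ a, 0 ≤ w a := fun a => by rw [hw]; exact abs_nonneg _
  have hwpos : ∀ a, 0 < w a := by
    rcases perron_pos G hG w hw0 M hwe with h | h
    · exfalso
      apply hz
      funext a
      have := congrFun h a
      rw [hw] at this
      simpa using this
    · exact h
  have hsum : (G.adjMatrix ℝ).mulVec (w + z) = M • (w + z) := by
    rw [Matrix.mulVec_add, hwe, he, smul_add]
  rcases perron_pos G hG (w + z) (fun a => by
    rw [Pi.add_apply, hw]; have := neg_abs_le (z a); simp only; linarith) M hsum with h | h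
  · right
    intro a
    have h1 := congrFun h a
    have h2 := hwpos a
    simp only [Pi.add_apply, Pi.zero_apply] at h1
    linarith
  · left
    intro a
    have h1 := h a
    by_contra hcon
    push Not at hcon
    rw [Pi.add_apply, hw] at h1
    simp only at h1
    rw [abs_of_nonpos hcon] at h1
    linarith

/-- Perron-Frobenius facts for the adjacency matrix of a connected graph -/
theorem perron {n : ℕ} (hn : 2 ≤ n) (G : SimpleGraph (Fin n)) (hG : G.Connected)
    (hA : (G.adjMatrix ℝ).IsHermitian) (i j : Fin (Fintype.card (Fin n))) (hi : i.val = 0)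
    (hj : j.val = 1) :
    ∃ v x : Fin n → ℝ, (∀ a, 0 < v a) ∧
      (G.adjMatrix ℝ).mulVec v = hA.eigenvalues₀ i • v ∧
      hA.eigenvalues₀ j < hA.eigenvalues₀ i ∧ hA.eigenvalues₀ i ≤ n ∧
      x ≠ 0 ∧ x ⬝ᵥ v = 0 ∧ (G.adjMatrix ℝ).mulVec x = hA.eigenvalues₀ j • x ∧
      (∀ g : Fin n → ℝ, g ⬝ᵥ v = 0 →
        g ⬝ᵥ (G.adjMatrix ℝ).mulVec g ≤ hA.eigenvalues₀ j * (g ⬝ᵥ g)) ∧
      (∀ g : Fin n → ℝ, g ⬝ᵥ v = 0 →
        g ⬝ᵥ (G.adjMatrix ℝ).mulVec g = hA.eigenvalues₀ j * (g ⬝ᵥ g) →
        (G.adjMatrix ℝ).mulVec g = hA.eigenvalues₀ j • g) := by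
  obtain ⟨e, horth, heig, hspan⟩ := perron_decomp (G.adjMatrix ℝ) hA
  have hanti := hA.eigenvalues₀_antitone
  have hij : i ≠ j := by
    rintro rfl
    omega
  have htop : ∀ g : Fin n → ℝ,
      g ⬝ᵥ (G.adjMatrix ℝ).mulVec g ≤ hA.eigenvalues₀ i * (g ⬝ᵥ g) ∧
      (g ⬝ᵥ (G.adjMatrix ℝ).mulVec g = hA.eigenvalues₀ i * (g ⬝ᵥ g) →
        (G.adjMatrix ℝ).mulVec g = hA.eigenvalues₀ i • g) := fun g =>
    perron_form heig hspan g _ (fun k _ => hanti (by rw [Fin.le_def]; omega))
  have hne : ∀ k, e k ≠ 0 := by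
    intro k hk
    have := horth k k
    rw [hk] at this
    simp at this
  have hsi := perron_sign G hG _ htop (e i) (hne i) (heig i)
  have : Nonempty (Fin n) := ⟨⟨0, by omega⟩⟩
  -- the positive eigenvector
  obtain ⟨v, s, hs, hv, hvpos⟩ : ∃ (v : Fin n → ℝ) (s : ℝ), s ≠ 0 ∧ v = s • e i ∧
      ∀ a, 0 < v a := by
    rcases hsi with h | h
    · exact ⟨e i, 1, one_ne_zero, (one_smul _ _).symm, h⟩
    · refine ⟨(-1 : ℝ) • e i, -1, by norm_num, rfl, fun a => ?_⟩
      have := h a
      simp only [Pi.smul_apply, smul_eq_mul]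
      linarith
  have hve : (G.adjMatrix ℝ).mulVec v = hA.eigenvalues₀ i • v := by
    rw [hv, Matrix.mulVec_smul, heig, smul_comm]
  have hperp : ∀ g : Fin n → ℝ, g ⬝ᵥ v = 0 → e i ⬝ᵥ g = 0 := by
    intro g hg
    rw [hv, dotProduct_smul, smul_eq_mul, dotProduct_comm] at hg
    rcases mul_eq_zero.1 hg with h | h
    · exact absurd h hs
    · exact h
  have hsec : ∀ g : Fin n → ℝ, g ⬝ᵥ v = 0 →
      g ⬝ᵥ (G.adjMatrix ℝ).mulVec g ≤ hA.eigenvalues₀ j * (g ⬝ᵥ g) ∧
      (g ⬝ᵥ (G.adjMatrix ℝ).mulVec g = hA.eigenvalues₀ j * (g ⬝ᵥ g) →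
        (G.adjMatrix ℝ).mulVec g = hA.eigenvalues₀ j • g) := by
    intro g hg
    refine perron_form heig hspan g _ (fun k hk => hanti ?_)
    have hki : k ≠ i := by
      rintro rfl
      exact hk (hperp g hg)
    have : k.val ≠ i.val := fun h => hki (Fin.ext h)
    rw [Fin.le_def]
    omega
  refine ⟨v, e j, hvpos, hve, ?_, ?_, hne j, ?_, heig j, fun g hg => (hsec g hg).1,
    fun g hg => (hsec g hg).2⟩
  · refine lt_of_le_of_ne (hanti (by rw [Fin.le_def]; omega)) ?_
    intro heq
    have hsj := perron_sign G hG _ htop (e j) (hne j) (by rw [heig j, heq])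
    have h1 : e j ⬝ᵥ v = 0 := by
      rw [hv, dotProduct_smul, horth j i, if_neg (fun h => hij h.symm), smul_zero]
    unfold dotProduct at h1
    rcases hsj with h | h
    · have : 0 < ∑ a, e j a * v a :=
        Finset.sum_pos (fun a _ => mul_pos (h a) (hvpos a)) Finset.univ_nonempty
      linarith
    · have : ∑ a, e j a * v a < 0 :=
        Finset.sum_neg (fun a _ => mul_neg_of_neg_of_pos (h a) (hvpos a)) Finset.univ_nonempty
      linarith
  · obtain ⟨a, -, ha⟩ := Finset.exists_max_image Finset.univ v Finset.univ_nonempty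
    have h1 := congrFun hve a
    rw [SimpleGraph.adjMatrix_mulVec_apply, Pi.smul_apply, smul_eq_mul] at h1
    have h2 : ∑ b ∈ G.neighborFinset a, v b ≤ n * v a := by
      calc ∑ b ∈ G.neighborFinset a, v b ≤ ∑ b ∈ Finset.univ, v b :=
            Finset.sum_le_sum_of_subset_of_nonneg (Finset.subset_univ _)
              (fun b _ _ => (hvpos b).le)
        _ ≤ ∑ _b ∈ (Finset.univ : Finset (Fin n)), v a :=
            Finset.sum_le_sum (fun b hb => ha b hb)
        _ = n * v a := by simp
    rw [h1] at h2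
    exact le_of_mul_le_mul_right h2 (hvpos a)
  · rw [hv, dotProduct_smul, horth j i, if_neg (fun h => hij h.symm), smul_zero]

end Pool.Agent.SG
end

section

set_option autoImplicit false
open Classical

namespace Pool.Agent.SG

theorem StructMain_eq {V : Type} [Fintype V] {G : SimpleGraph V} {y : V → ℝ} {l : ℝ}
    (h : (G.adjMatrix ℝ).mulVec y = l • y) (a : V) :
    ∑ b ∈ G.neighborFinset a, y b = l * y a := by
  have h1 := congrFun h a
  rw [SimpleGraph.adjMatrix_mulVec_apply] at h1
  rw [h1]; rfl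

theorem StructMain_neg {V : Type} [Fintype V] {G : SimpleGraph V} {y : V → ℝ} {l : ℝ}
    (h : (G.adjMatrix ℝ).mulVec y = l • y) :
    (G.adjMatrix ℝ).mulVec (-y) = l • (-y) := by
  rw [Matrix.mulVec_neg, h, smul_neg]

theorem StructMain_nodupF {V : Type} {u w : V} {F H : LF V}
    (h : (u :: w :: (F.labels ++ H.labels)).Nodup) :
    (u :: F.labels).Nodup ∧ u ∉ F.labels ∧ w ∉ F.labels ∧ u ∉ H.labels ∧ w ∉ H.labels ∧
      F.labels.Nodup ∧ H.labels.Nodup ∧ u ≠ w := by
  simp only [List.nodup_cons, List.mem_cons, List.mem_append, not_or, List.nodup_append] at h ⊢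
  tauto

theorem StructMain_side {V : Type} [Fintype V] {G : SimpleGraph V} {u w : V} {F H : LF V}
    (hE : EdgeRep G u w F H) {y : V → ℝ} {l : ℝ} (h : (G.adjMatrix ℝ).mulVec y = l • y)
    (hu : 0 < y u) (hF : ∀ a ∈ F.labels, 0 < y a) :
    PP l F.fo ∧ (l - gs l F.fo) * y u = y w := by
  have hn := StructMain_nodupF hE.nodup
  obtain ⟨h1, h2⟩ := harm hE.goodF hn.1 hu hF (fun a _ => StructMain_eq h a)
  refine ⟨h1, ?_⟩
  have h3 := hE.sum_u y
  rw [StructMain_eq h u, ← h2] at h3
  linarith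

theorem StructMain_pos {V : Type} {G : SimpleGraph V} {u w : V} {x : V → ℝ}
    (hx0 : ∀ a, x a ≠ 0)
    (hs : ∀ a b, G.Adj a b → x a * x b < 0 → (a = u ∧ b = w) ∨ (a = w ∧ b = u)) (F : LF V) :
    ∀ p, Good G p F → 0 < x p → u ∉ F.labels → w ∉ F.labels → ∀ a ∈ F.labels, 0 < x a := by
  induction F with
  | nil => intro p _ _ _ _ a ha; simp [LF.labels] at ha
  | cons v c r ihc ihr =>
    intro p hG hp hu hw
    obtain ⟨h1, h2, h3⟩ := hG
    simp only [LF.labels, List.mem_cons, List.mem_append, not_or] at hu hw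
    have hadj : G.Adj v p := (h1 p).2 (Or.inl rfl)
    have hv : 0 < x v := by
      by_contra hcon
      have hv' : x v < 0 := lt_of_le_of_ne (not_lt.1 hcon) (hx0 v)
      rcases hs v p hadj (mul_neg_of_neg_of_pos hv' hp) with h | h
      · exact hu.1 h.1.symm
      · exact hw.1 h.1.symm
    intro a ha
    simp only [LF.labels, List.mem_cons, List.mem_append] at ha
    rcases ha with ha | ha | ha
    · rw [ha]; exact hv
    · exact ihc v h2 hv hu.2.1 hw.2.1 a ha
    · exact ihr p h3 hp hu.2.2 hw.2.2 a ha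

theorem StructMain_mem {V : Type} {v : V} {c H : LF V} (h : LF.MemT v c H) :
    Mem c.fo H.fo := by
  induction H with
  | nil => exact h.elim
  | cons w d r ihd ihr =>
    rcases h with h | h
    · left; rw [h.2]
    · right; exact ihr h

theorem StructMain_good {V : Type} {G : SimpleGraph V} {p v : V} {c H : LF V}
    (hG : Good G p H) (h : LF.MemT v c H) :
    (∀ b, G.Adj v b ↔ b = p ∨ b ∈ c.roots) ∧ Good G v c := by
  induction H with
  | nil => exact h.elim
  | cons w d r ihd ihr =>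
    obtain ⟨h1, h2, h3⟩ := hG
    rcases h with ⟨rfl, rfl⟩ | h
    · exact ⟨h1, h2⟩
    · exact ihr h3 h

theorem StructMain_sub {V : Type} {v : V} {c H : LF V} (h : LF.MemT v c H) :
    List.Sublist (v :: c.labels) H.labels := by
  induction H with
  | nil => exact h.elim
  | cons w d r ihd ihr =>
    rcases h with ⟨rfl, rfl⟩ | h
    · exact List.Sublist.cons_cons _ (List.sublist_append_left _ _)
    · exact ((ihr h).trans (List.sublist_append_right _ _)).trans (List.sublist_cons_self _ _)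

theorem StructMain_roots {V : Type} (c : LF V) : List.Sublist c.roots c.labels := by
  induction c with
  | nil => exact List.Sublist.refl _
  | cons w d r ihd ihr =>
    exact List.Sublist.cons_cons _ (ihr.trans (List.sublist_append_right _ _))

theorem StructMain_tree {V : Type} [Fintype V] {G : SimpleGraph V} {w v : V} {c H : LF V}
    (hG : Good G w H) (hw : w ∉ H.labels) (hH : H.labels.Nodup) (hm : LF.MemT v c H)
    {y : V → ℝ} {l : ℝ} (h : (G.adjMatrix ℝ).mulVec y = l • y) (hy : y w = 0)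
    (hv : 0 < y v) (hc : ∀ a ∈ c.labels, 0 < y a) :
    PP l c.fo ∧ l - gs l c.fo = 0 := by
  obtain ⟨h1, h2⟩ := StructMain_good hG hm
  have hsub := StructMain_sub hm
  have hnd : (v :: c.labels).Nodup := hH.sublist hsub
  obtain ⟨h3, h4⟩ := harm h2 hnd hv hc (fun a _ => StructMain_eq h a)
  refine ⟨h3, ?_⟩
  have hwr : w ∉ c.roots := by
    intro hcon
    have : w ∈ c.labels := (StructMain_roots c).subset hcon
    exact hw (hsub.subset (List.mem_cons_of_mem _ this))
  have hrn : c.roots.Nodup := (List.nodup_cons.1 hnd).2.sublist (StructMain_roots c)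
  have hN : G.neighborFinset v = insert w c.roots.toFinset := by
    ext b
    rw [SimpleGraph.mem_neighborFinset, h1 b, Finset.mem_insert, List.mem_toFinset]
  have h5 : ∑ b ∈ G.neighborFinset v, y b = y w + (c.roots.map y).sum := by
    rw [hN, Finset.sum_insert (by rwa [List.mem_toFinset]), List.sum_toFinset _ hrn]
  rw [StructMain_eq h v, ← h4, hy] at h5
  have h6 : (l - gs l c.fo) * y v = 0 := by linarith
  rcases mul_eq_zero.1 h6 with h7 | h7
  · exact h7
  · exact absurd h7 hv.ne'

theorem structure_thm {n : ℕ} (hn : 2 ≤ n) (T : SimpleGraph (Fin n)) (hT : T.IsTree)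
    (hA : (T.adjMatrix ℝ).IsHermitian) (i j : Fin (Fintype.card (Fin n))) (hi : i.val = 0)
    (hj : j.val = 1) :
    ∃ f h, Sp n f h (hA.eigenvalues₀ i) (hA.eigenvalues₀ j) := by
  obtain ⟨v, x, hv, hvA, hlt, hle, hxne, hxv, hxA, hq, hqe⟩ := perron hn T hT.1 hA i j hi hj
  generalize hA.eigenvalues₀ i = ν at *
  generalize hA.eigenvalues₀ j = μ at *
  -- facts for the positive eigenvector
  have key : ∀ (u w : Fin n) (F H : LF (Fin n)), EdgeRep T u w F H →
      F.fo.size + H.fo.size + 2 = n ∧ PP ν F.fo ∧ PP ν H.fo ∧ 0 < ν - gs ν F.fo ∧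
      0 < ν - gs ν H.fo ∧ (ν - gs ν F.fo) * (ν - gs ν H.fo) = 1 := by
    intro u w F H hE
    obtain ⟨h1, h2⟩ := StructMain_side hE hvA (hv u) (fun a _ => hv a)
    obtain ⟨h3, h4⟩ := StructMain_side hE.symm hvA (hv w) (fun a _ => hv a)
    have h5 : ν - gs ν F.fo = v w / v u := by
      rw [eq_div_iff (hv u).ne']; exact h2
    have h6 : ν - gs ν H.fo = v u / v w := by
      rw [eq_div_iff (hv w).ne']; exact h4
    refine ⟨?_, h1, h3, ?_, ?_, ?_⟩
    · rw [hE.card, Fintype.card_fin]
    · rw [h5]; exact div_pos (hv w) (hv u)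
    · rw [h6]; exact div_pos (hv u) (hv w)
    · rw [h5, h6]
      have := (hv u).ne'
      have := (hv w).ne'
      field_simp
  by_cases hx0 : ∀ a, x a ≠ 0
  · obtain ⟨u, w, hadj, hu, hw, hs⟩ := case_one hT hv hx0 hxv hxA hq
    obtain ⟨F, H, hE⟩ := exists_edgeRep T hT hadj
    obtain ⟨k1, k2, k3, k4, k5, k6⟩ := key u w F H hE
    have hn' := StructMain_nodupF hE.nodup
    have hF := StructMain_pos hx0 hs F u hE.goodF hu hn'.2.1 hn'.2.2.1
    have hH := StructMain_pos (x := -x) (G := T) (u := u) (w := w)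
      (fun a => by simpa using hx0 a)
      (fun a b hab hlt' => hs a b hab (by simpa using hlt')) H w hE.goodH (by simpa using hw)
      hn'.2.2.2.1 hn'.2.2.2.2.1
    obtain ⟨h1, h2⟩ := StructMain_side hE hxA hu hF
    obtain ⟨h3, h4⟩ := StructMain_side hE.symm (StructMain_neg hxA) (by simpa using hw) hH
    have h5 : μ - gs μ F.fo = x w / x u := by
      rw [eq_div_iff hu.ne']; exact h2
    have h6 : μ - gs μ H.fo = x u / x w := by
      rw [eq_div_iff hw.ne]
      simp only [Pi.neg_apply] at h4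
      linarith
    refine ⟨F.fo, H.fo, k1, hlt, hle, k2, k3, k4, k5, k6, Or.inl ⟨h1, h3, ?_, ?_, ?_⟩⟩
    · rw [h5]; exact div_neg_of_neg_of_pos hw hu
    · rw [h6]; exact div_neg_of_pos_of_neg hu hw
    · rw [h5, h6]
      have := hu.ne'
      have := hw.ne
      field_simp
  · push Not at hx0
    obtain ⟨g, w, u, u', F, H, c, hgA, hE, hm, hgw, hgu, hF, hgu', hc⟩ :=
      case_two hT hv hxne hx0 hxA hq hqe
    obtain ⟨k1, k2, k3, k4, k5, k6⟩ := key u w F H hE
    have hn' := StructMain_nodupF hE.nodup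
    obtain ⟨h1, h2⟩ := StructMain_side hE hgA hgu hF
    rw [hgw] at h2
    have h3 : μ - gs μ F.fo = 0 := by
      rcases mul_eq_zero.1 h2 with h | h
      · exact h
      · exact absurd h hgu.ne'
    obtain ⟨h4, h5⟩ := StructMain_tree hE.goodH hn'.2.2.2.2.1 hn'.2.2.2.2.2.2.1 hm
      (StructMain_neg hgA) (by simp [hgw]) (by simpa using hgu')
      (fun a ha => by simpa using hc a ha)
    exact ⟨F.fo, H.fo, k1, hlt, hle, k2, k3, k4, k5, k6,
      Or.inr ⟨h1, h3, c.fo, StructMain_mem hm, h4, h5⟩⟩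

end Pool.Agent.SG
end
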