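import Pool.Agent.Lib.MP_8b9a2e_co.Mg.G003
import Pool.Agent.Lib.MP_8b9a2e_co.Mg.G004
import Pool.Agent.Lib.MP_8b9a2e_co.Mg.G007
import Pool.Agent.Lib.MP_8b9a2e_co.Mg.G002
import Pool.Agent.Lib.MP_8b9a2e_co.Mg.G006
import Pool.Agent.Lib.MP_8b9a2e_co.Mg.G011
import Pool.Agent.Lib.MP_8b9a2e_co.NumF2b
import Pool.Agent.Lib.MP_8b9a2e_co.CmpGen
import Pool.Agent.Lib.MP_8b9a2e_co.Mg.G001
import Pool.Agent.Lib.MP_8b9a2e_co.ErrBound
import Pool.Agent.Lib.MP_8b9a2e_co.Mg.G012

section

set_option autoImplicit false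
set_option maxRecDepth 100000

namespace Pool.Agent.SG.Run

theorem c20_2 : DP.cell 20 8192 16586 16881 12 = true := by decide +kernel
theorem c20_8 : DP.cell 20 8192 17749 17805 10 = true := by decide +kernel
theorem c20_14 : DP.cell 20 8192 18523 18763 12 = true := by decide +kernel
theorem c20_20 : DP.cell 20 8192 19401 19548 10 = true := by decide +kernel
theorem c20_26 : DP.cell 20 8192 20471 20605 9 = true := by decide +kernel
theorem c20_32 : DP.cell 20 8192 22301 23449 10 = true := by decide +kernel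

end Pool.Agent.SG.Run
end

section

set_option autoImplicit false
set_option maxRecDepth 100000

namespace Pool.Agent.SG.Run

theorem c21_0 : DP.cell 21 4096 0 8166 19 = true := by decide +kernel
theorem c21_1 : DP.cell 21 4096 8160 8299 15 = true := by decide +kernel
theorem c21_2 : DP.cell 21 4096 8293 8335 12 = true := by decide +kernel
theorem c22_0 : DP.cell 22 4096 0 8168 20 = true := by decide +kernel
theorem c22_1 : DP.cell 22 4096 8164 8296 16 = true := by decide +kernel
theorem c22_2 : DP.cell 22 4096 8292 8335 13 = true := by decide +kernel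
theorem c23_0 : DP.cell 23 4096 0 8170 21 = true := by decide +kernel
theorem c23_1 : DP.cell 23 4096 8168 8293 17 = true := by decide +kernel
theorem c23_2 : DP.cell 23 4096 8291 8335 14 = true := by decide +kernel
theorem c24_0 : DP.cell 24 4096 0 8172 22 = true := by decide +kernel
theorem c24_1 : DP.cell 24 4096 8170 8290 18 = true := by decide +kernel
theorem c24_2 : DP.cell 24 4096 8288 8335 15 = true := by decide +kernel
theorem c25_0 : DP.cell 25 4096 0 8173 23 = true := by decide +kernel
theorem c25_1 : DP.cell 25 4096 8172 8288 19 = true := by decide +kernel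
theorem c25_2 : DP.cell 25 4096 8287 8335 16 = true := by decide +kernel
theorem c26_0 : DP.cell 26 4096 0 8175 24 = true := by decide +kernel
theorem c26_1 : DP.cell 26 4096 8174 8286 20 = true := by decide +kernel
theorem c26_2 : DP.cell 26 4096 8285 8335 17 = true := by decide +kernel
theorem c27_0 : DP.cell 27 4096 0 8176 25 = true := by decide +kernel
theorem c27_1 : DP.cell 27 4096 8175 8284 21 = true := by decide +kernel
theorem c27_2 : DP.cell 27 4096 8283 8335 18 = true := by decide +kernel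
theorem c28_0 : DP.cell 28 4096 0 8177 26 = true := by decide +kernel
theorem c28_1 : DP.cell 28 4096 8176 8283 22 = true := by decide +kernel
theorem c28_2 : DP.cell 28 4096 8282 8335 19 = true := by decide +kernel
theorem c29_0 : DP.cell 29 4096 0 8178 27 = true := by decide +kernel
theorem c29_1 : DP.cell 29 4096 8177 8281 23 = true := by decide +kernel
theorem c29_2 : DP.cell 29 4096 8280 8335 20 = true := by decide +kernel
theorem c30_0 : DP.cell 30 4096 0 8179 28 = true := by decide +kernel
theorem c30_1 : DP.cell 30 4096 8178 8280 24 = true := by decide +kernel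
theorem c30_2 : DP.cell 30 4096 8279 8335 21 = true := by decide +kernel
theorem c31_0 : DP.cell 31 4096 0 8180 29 = true := by decide +kernel
theorem c31_1 : DP.cell 31 4096 8179 8279 25 = true := by decide +kernel
theorem c31_2 : DP.cell 31 4096 8278 8335 22 = true := by decide +kernel

end Pool.Agent.SG.Run
end

section

set_option autoImplicit false

namespace Pool.Agent.SG

open Run

theorem cov4 : Cov 4 4096 4097 16384 0 :=
  Cov.cons (by norm_num) (by norm_num) c4_0 (by norm_num) (by norm_num) <|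
  Cov.last (by norm_num) (by norm_num) c4_1 (by norm_num) (by norm_num)

theorem cov5 : Cov 5 4096 2999 20480 0 :=
  Cov.cons (by norm_num) (by norm_num) c5_0 (by norm_num) (by norm_num) <|
  Cov.last (by norm_num) (by norm_num) c5_1 (by norm_num) (by norm_num)

theorem cov6 : Cov 6 4096 2274 24576 0 :=
  Cov.cons (by norm_num) (by norm_num) c6_0 (by norm_num) (by norm_num) <|
  Cov.last (by norm_num) (by norm_num) c6_1 (by norm_num) (by norm_num)

theorem cov7 : Cov 7 4096 1776 28672 0 :=
  Cov.cons (by norm_num) (by norm_num) c7_0 (by norm_num) (by norm_num) <|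
  Cov.last (by norm_num) (by norm_num) c7_1 (by norm_num) (by norm_num)

theorem cov8 : Cov 8 4096 1423 32768 0 :=
  Cov.cons (by norm_num) (by norm_num) c8_0 (by norm_num) (by norm_num) <|
  Cov.last (by norm_num) (by norm_num) c8_1 (by norm_num) (by norm_num)

theorem cov9 : Cov 9 4096 1098 36864 0 :=
  Cov.cons (by norm_num) (by norm_num) c9_0 (by norm_num) (by norm_num) <|
  Cov.cons (by norm_num) (by norm_num) c9_1 (by norm_num) (by norm_num) <|
  Cov.last (by norm_num) (by norm_num) c9_2 (by norm_num) (by norm_num)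

theorem cov10 : Cov 10 4096 812 40960 0 :=
  Cov.cons (by norm_num) (by norm_num) c10_0 (by norm_num) (by norm_num) <|
  Cov.cons (by norm_num) (by norm_num) c10_1 (by norm_num) (by norm_num) <|
  Cov.cons (by norm_num) (by norm_num) c10_2 (by norm_num) (by norm_num) <|
  Cov.last (by norm_num) (by norm_num) c10_3 (by norm_num) (by norm_num)

theorem cov11 : Cov 11 4096 624 45056 0 :=
  Cov.cons (by norm_num) (by norm_num) c11_0 (by norm_num) (by norm_num) <|
  Cov.cons (by norm_num) (by norm_num) c11_1 (by norm_num) (by norm_num) <|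
  Cov.cons (by norm_num) (by norm_num) c11_2 (by norm_num) (by norm_num) <|
  Cov.cons (by norm_num) (by norm_num) c11_3 (by norm_num) (by norm_num) <|
  Cov.last (by norm_num) (by norm_num) c11_4 (by norm_num) (by norm_num)

theorem cov12 : Cov 12 4096 462 49152 0 :=
  Cov.cons (by norm_num) (by norm_num) c12_0 (by norm_num) (by norm_num) <|
  Cov.cons (by norm_num) (by norm_num) c12_1 (by norm_num) (by norm_num) <|
  Cov.cons (by norm_num) (by norm_num) c12_2 (by norm_num) (by norm_num) <|
  Cov.cons (by norm_num) (by norm_num) c12_3 (by norm_num) (by norm_num) <|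
  Cov.cons (by norm_num) (by norm_num) c12_4 (by norm_num) (by norm_num) <|
  Cov.last (by norm_num) (by norm_num) c12_5 (by norm_num) (by norm_num)

theorem cov13 : Cov 13 4096 306 53248 0 :=
  Cov.cons (by norm_num) (by norm_num) c13_0 (by norm_num) (by norm_num) <|
  Cov.cons (by norm_num) (by norm_num) c13_1 (by norm_num) (by norm_num) <|
  Cov.cons (by norm_num) (by norm_num) c13_2 (by norm_num) (by norm_num) <|
  Cov.cons (by norm_num) (by norm_num) c13_3 (by norm_num) (by norm_num) <|
  Cov.cons (by norm_num) (by norm_num) c13_4 (by norm_num) (by norm_num) <|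
  Cov.cons (by norm_num) (by norm_num) c13_5 (by norm_num) (by norm_num) <|
  Cov.last (by norm_num) (by norm_num) c13_6 (by norm_num) (by norm_num)

theorem cov14 : Cov 14 4096 208 57344 0 :=
  Cov.cons (by norm_num) (by norm_num) c14_0 (by norm_num) (by norm_num) <|
  Cov.cons (by norm_num) (by norm_num) c14_1 (by norm_num) (by norm_num) <|
  Cov.cons (by norm_num) (by norm_num) c14_2 (by norm_num) (by norm_num) <|
  Cov.cons (by norm_num) (by norm_num) c14_3 (by norm_num) (by norm_num) <|
  Cov.cons (by norm_num) (by norm_num) c14_4 (by norm_num) (by norm_num) <|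
  Cov.cons (by norm_num) (by norm_num) c14_5 (by norm_num) (by norm_num) <|
  Cov.cons (by norm_num) (by norm_num) c14_6 (by norm_num) (by norm_num) <|
  Cov.last (by norm_num) (by norm_num) c14_7 (by norm_num) (by norm_num)

theorem cov15 : Cov 15 4096 143 61440 0 :=
  Cov.cons (by norm_num) (by norm_num) c15_0 (by norm_num) (by norm_num) <|
  Cov.cons (by norm_num) (by norm_num) c15_1 (by norm_num) (by norm_num) <|
  Cov.cons (by norm_num) (by norm_num) c15_2 (by norm_num) (by norm_num) <|
  Cov.cons (by norm_num) (by norm_num) c15_3 (by norm_num) (by norm_num) <|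
  Cov.cons (by norm_num) (by norm_num) c15_4 (by norm_num) (by norm_num) <|
  Cov.cons (by norm_num) (by norm_num) c15_5 (by norm_num) (by norm_num) <|
  Cov.cons (by norm_num) (by norm_num) c15_6 (by norm_num) (by norm_num) <|
  Cov.cons (by norm_num) (by norm_num) c15_7 (by norm_num) (by norm_num) <|
  Cov.cons (by norm_num) (by norm_num) c15_8 (by norm_num) (by norm_num) <|
  Cov.last (by norm_num) (by norm_num) c15_9 (by norm_num) (by norm_num)

theorem cov16 : Cov 16 4096 91 65536 0 :=
  Cov.cons (by norm_num) (by norm_num) c16_0 (by norm_num) (by norm_num) <|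
  Cov.cons (by norm_num) (by norm_num) c16_1 (by norm_num) (by norm_num) <|
  Cov.cons (by norm_num) (by norm_num) c16_2 (by norm_num) (by norm_num) <|
  Cov.cons (by norm_num) (by norm_num) c16_3 (by norm_num) (by norm_num) <|
  Cov.cons (by norm_num) (by norm_num) c16_4 (by norm_num) (by norm_num) <|
  Cov.cons (by norm_num) (by norm_num) c16_5 (by norm_num) (by norm_num) <|
  Cov.cons (by norm_num) (by norm_num) c16_6 (by norm_num) (by norm_num) <|
  Cov.cons (by norm_num) (by norm_num) c16_7 (by norm_num) (by norm_num) <|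
  Cov.cons (by norm_num) (by norm_num) c16_8 (by norm_num) (by norm_num) <|
  Cov.cons (by norm_num) (by norm_num) c16_9 (by norm_num) (by norm_num) <|
  Cov.cons (by norm_num) (by norm_num) c16_10 (by norm_num) (by norm_num) <|
  Cov.cons (by norm_num) (by norm_num) c16_11 (by norm_num) (by norm_num) <|
  Cov.last (by norm_num) (by norm_num) c16_12 (by norm_num) (by norm_num)

theorem cov17 : Cov 17 4096 53 69632 0 :=
  Cov.cons (by norm_num) (by norm_num) c17_0 (by norm_num) (by norm_num) <|
  Cov.cons (by norm_num) (by norm_num) c17_1 (by norm_num) (by norm_num) <|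
  Cov.cons (by norm_num) (by norm_num) c17_2 (by norm_num) (by norm_num) <|
  Cov.cons (by norm_num) (by norm_num) c17_3 (by norm_num) (by norm_num) <|
  Cov.cons (by norm_num) (by norm_num) c17_4 (by norm_num) (by norm_num) <|
  Cov.cons (by norm_num) (by norm_num) c17_5 (by norm_num) (by norm_num) <|
  Cov.cons (by norm_num) (by norm_num) c17_6 (by norm_num) (by norm_num) <|
  Cov.cons (by norm_num) (by norm_num) c17_7 (by norm_num) (by norm_num) <|
  Cov.cons (by norm_num) (by norm_num) c17_8 (by norm_num) (by norm_num) <|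
  Cov.cons (by norm_num) (by norm_num) c17_9 (by norm_num) (by norm_num) <|
  Cov.cons (by norm_num) (by norm_num) c17_10 (by norm_num) (by norm_num) <|
  Cov.cons (by norm_num) (by norm_num) c17_11 (by norm_num) (by norm_num) <|
  Cov.cons (by norm_num) (by norm_num) c17_12 (by norm_num) (by norm_num) <|
  Cov.cons (by norm_num) (by norm_num) c17_13 (by norm_num) (by norm_num) <|
  Cov.last (by norm_num) (by norm_num) c17_14 (by norm_num) (by norm_num)

theorem cov18 : Cov 18 4096 31 73728 0 :=
  Cov.cons (by norm_num) (by norm_num) c18_0 (by norm_num) (by norm_num) <|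
  Cov.cons (by norm_num) (by norm_num) c18_1 (by norm_num) (by norm_num) <|
  Cov.cons (by norm_num) (by norm_num) c18_2 (by norm_num) (by norm_num) <|
  Cov.cons (by norm_num) (by norm_num) c18_3 (by norm_num) (by norm_num) <|
  Cov.cons (by norm_num) (by norm_num) c18_4 (by norm_num) (by norm_num) <|
  Cov.cons (by norm_num) (by norm_num) c18_5 (by norm_num) (by norm_num) <|
  Cov.cons (by norm_num) (by norm_num) c18_6 (by norm_num) (by norm_num) <|
  Cov.cons (by norm_num) (by norm_num) c18_7 (by norm_num) (by norm_num) <|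
  Cov.cons (by norm_num) (by norm_num) c18_8 (by norm_num) (by norm_num) <|
  Cov.cons (by norm_num) (by norm_num) c18_9 (by norm_num) (by norm_num) <|
  Cov.cons (by norm_num) (by norm_num) c18_10 (by norm_num) (by norm_num) <|
  Cov.cons (by norm_num) (by norm_num) c18_11 (by norm_num) (by norm_num) <|
  Cov.cons (by norm_num) (by norm_num) c18_12 (by norm_num) (by norm_num) <|
  Cov.cons (by norm_num) (by norm_num) c18_13 (by norm_num) (by norm_num) <|
  Cov.cons (by norm_num) (by norm_num) c18_14 (by norm_num) (by norm_num) <|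
  Cov.cons (by norm_num) (by norm_num) c18_15 (by norm_num) (by norm_num) <|
  Cov.cons (by norm_num) (by norm_num) c18_16 (by norm_num) (by norm_num) <|
  Cov.cons (by norm_num) (by norm_num) c18_17 (by norm_num) (by norm_num) <|
  Cov.last (by norm_num) (by norm_num) c18_18 (by norm_num) (by norm_num)

theorem cov19 : Cov 19 4096 18 77824 0 :=
  Cov.cons (by norm_num) (by norm_num) c19_0 (by norm_num) (by norm_num) <|
  Cov.cons (by norm_num) (by norm_num) c19_1 (by norm_num) (by norm_num) <|
  Cov.cons (by norm_num) (by norm_num) c19_2 (by norm_num) (by norm_num) <|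
  Cov.cons (by norm_num) (by norm_num) c19_3 (by norm_num) (by norm_num) <|
  Cov.cons (by norm_num) (by norm_num) c19_4 (by norm_num) (by norm_num) <|
  Cov.cons (by norm_num) (by norm_num) c19_5 (by norm_num) (by norm_num) <|
  Cov.cons (by norm_num) (by norm_num) c19_6 (by norm_num) (by norm_num) <|
  Cov.cons (by norm_num) (by norm_num) c19_7 (by norm_num) (by norm_num) <|
  Cov.cons (by norm_num) (by norm_num) c19_8 (by norm_num) (by norm_num) <|
  Cov.cons (by norm_num) (by norm_num) c19_9 (by norm_num) (by norm_num) <|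
  Cov.cons (by norm_num) (by norm_num) c19_10 (by norm_num) (by norm_num) <|
  Cov.cons (by norm_num) (by norm_num) c19_11 (by norm_num) (by norm_num) <|
  Cov.cons (by norm_num) (by norm_num) c19_12 (by norm_num) (by norm_num) <|
  Cov.cons (by norm_num) (by norm_num) c19_13 (by norm_num) (by norm_num) <|
  Cov.cons (by norm_num) (by norm_num) c19_14 (by norm_num) (by norm_num) <|
  Cov.cons (by norm_num) (by norm_num) c19_15 (by norm_num) (by norm_num) <|
  Cov.cons (by norm_num) (by norm_num) c19_16 (by norm_num) (by norm_num) <|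
  Cov.cons (by norm_num) (by norm_num) c19_17 (by norm_num) (by norm_num) <|
  Cov.cons (by norm_num) (by norm_num) c19_18 (by norm_num) (by norm_num) <|
  Cov.cons (by norm_num) (by norm_num) c19_19 (by norm_num) (by norm_num) <|
  Cov.cons (by norm_num) (by norm_num) c19_20 (by norm_num) (by norm_num) <|
  Cov.cons (by norm_num) (by norm_num) c19_21 (by norm_num) (by norm_num) <|
  Cov.cons (by norm_num) (by norm_num) c19_22 (by norm_num) (by norm_num) <|
  Cov.last (by norm_num) (by norm_num) c19_23 (by norm_num) (by norm_num)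

theorem cov20 : Cov 20 8192 21 163840 0 :=
  Cov.cons (by norm_num) (by norm_num) c20_0 (by norm_num) (by norm_num) <|
  Cov.cons (by norm_num) (by norm_num) c20_1 (by norm_num) (by norm_num) <|
  Cov.cons (by norm_num) (by norm_num) c20_2 (by norm_num) (by norm_num) <|
  Cov.cons (by norm_num) (by norm_num) c20_3 (by norm_num) (by norm_num) <|
  Cov.cons (by norm_num) (by norm_num) c20_4 (by norm_num) (by norm_num) <|
  Cov.cons (by norm_num) (by norm_num) c20_5 (by norm_num) (by norm_num) <|
  Cov.cons (by norm_num) (by norm_num) c20_6 (by norm_num) (by norm_num) <|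
  Cov.cons (by norm_num) (by norm_num) c20_7 (by norm_num) (by norm_num) <|
  Cov.cons (by norm_num) (by norm_num) c20_8 (by norm_num) (by norm_num) <|
  Cov.cons (by norm_num) (by norm_num) c20_9 (by norm_num) (by norm_num) <|
  Cov.cons (by norm_num) (by norm_num) c20_10 (by norm_num) (by norm_num) <|
  Cov.cons (by norm_num) (by norm_num) c20_11 (by norm_num) (by norm_num) <|
  Cov.cons (by norm_num) (by norm_num) c20_12 (by norm_num) (by norm_num) <|
  Cov.cons (by norm_num) (by norm_num) c20_13 (by norm_num) (by norm_num) <|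
  Cov.cons (by norm_num) (by norm_num) c20_14 (by norm_num) (by norm_num) <|
  Cov.cons (by norm_num) (by norm_num) c20_15 (by norm_num) (by norm_num) <|
  Cov.cons (by norm_num) (by norm_num) c20_16 (by norm_num) (by norm_num) <|
  Cov.cons (by norm_num) (by norm_num) c20_17 (by norm_num) (by norm_num) <|
  Cov.cons (by norm_num) (by norm_num) c20_18 (by norm_num) (by norm_num) <|
  Cov.cons (by norm_num) (by norm_num) c20_19 (by norm_num) (by norm_num) <|
  Cov.cons (by norm_num) (by norm_num) c20_20 (by norm_num) (by norm_num) <|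
  Cov.cons (by norm_num) (by norm_num) c20_21 (by norm_num) (by norm_num) <|
  Cov.cons (by norm_num) (by norm_num) c20_22 (by norm_num) (by norm_num) <|
  Cov.cons (by norm_num) (by norm_num) c20_23 (by norm_num) (by norm_num) <|
  Cov.cons (by norm_num) (by norm_num) c20_24 (by norm_num) (by norm_num) <|
  Cov.cons (by norm_num) (by norm_num) c20_25 (by norm_num) (by norm_num) <|
  Cov.cons (by norm_num) (by norm_num) c20_26 (by norm_num) (by norm_num) <|
  Cov.cons (by norm_num) (by norm_num) c20_27 (by norm_num) (by norm_num) <|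
  Cov.cons (by norm_num) (by norm_num) c20_28 (by norm_num) (by norm_num) <|
  Cov.cons (by norm_num) (by norm_num) c20_29 (by norm_num) (by norm_num) <|
  Cov.cons (by norm_num) (by norm_num) c20_30 (by norm_num) (by norm_num) <|
  Cov.cons (by norm_num) (by norm_num) c20_31 (by norm_num) (by norm_num) <|
  Cov.cons (by norm_num) (by norm_num) c20_32 (by norm_num) (by norm_num) <|
  Cov.cons (by norm_num) (by norm_num) c20_33 (by norm_num) (by norm_num) <|
  Cov.last (by norm_num) (by norm_num) c20_34 (by norm_num) (by norm_num)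

theorem cov21 : Cov 21 4096 6 8335 0 :=
  Cov.cons (by norm_num) (by norm_num) c21_0 (by norm_num) (by norm_num) <|
  Cov.cons (by norm_num) (by norm_num) c21_1 (by norm_num) (by norm_num) <|
  Cov.last (by norm_num) (by norm_num) c21_2 (by norm_num) (by norm_num)

theorem cov22 : Cov 22 4096 4 8335 0 :=
  Cov.cons (by norm_num) (by norm_num) c22_0 (by norm_num) (by norm_num) <|
  Cov.cons (by norm_num) (by norm_num) c22_1 (by norm_num) (by norm_num) <|
  Cov.last (by norm_num) (by norm_num) c22_2 (by norm_num) (by norm_num)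

theorem cov23 : Cov 23 4096 2 8335 0 :=
  Cov.cons (by norm_num) (by norm_num) c23_0 (by norm_num) (by norm_num) <|
  Cov.cons (by norm_num) (by norm_num) c23_1 (by norm_num) (by norm_num) <|
  Cov.last (by norm_num) (by norm_num) c23_2 (by norm_num) (by norm_num)

theorem cov24 : Cov 24 4096 2 8335 0 :=
  Cov.cons (by norm_num) (by norm_num) c24_0 (by norm_num) (by norm_num) <|
  Cov.cons (by norm_num) (by norm_num) c24_1 (by norm_num) (by norm_num) <|
  Cov.last (by norm_num) (by norm_num) c24_2 (by norm_num) (by norm_num)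

theorem cov25 : Cov 25 4096 1 8335 0 :=
  Cov.cons (by norm_num) (by norm_num) c25_0 (by norm_num) (by norm_num) <|
  Cov.cons (by norm_num) (by norm_num) c25_1 (by norm_num) (by norm_num) <|
  Cov.last (by norm_num) (by norm_num) c25_2 (by norm_num) (by norm_num)

theorem cov26 : Cov 26 4096 1 8335 0 :=
  Cov.cons (by norm_num) (by norm_num) c26_0 (by norm_num) (by norm_num) <|
  Cov.cons (by norm_num) (by norm_num) c26_1 (by norm_num) (by norm_num) <|
  Cov.last (by norm_num) (by norm_num) c26_2 (by norm_num) (by norm_num)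

theorem cov27 : Cov 27 4096 1 8335 0 :=
  Cov.cons (by norm_num) (by norm_num) c27_0 (by norm_num) (by norm_num) <|
  Cov.cons (by norm_num) (by norm_num) c27_1 (by norm_num) (by norm_num) <|
  Cov.last (by norm_num) (by norm_num) c27_2 (by norm_num) (by norm_num)

theorem cov28 : Cov 28 4096 1 8335 0 :=
  Cov.cons (by norm_num) (by norm_num) c28_0 (by norm_num) (by norm_num) <|
  Cov.cons (by norm_num) (by norm_num) c28_1 (by norm_num) (by norm_num) <|
  Cov.last (by norm_num) (by norm_num) c28_2 (by norm_num) (by norm_num)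

theorem cov29 : Cov 29 4096 1 8335 0 :=
  Cov.cons (by norm_num) (by norm_num) c29_0 (by norm_num) (by norm_num) <|
  Cov.cons (by norm_num) (by norm_num) c29_1 (by norm_num) (by norm_num) <|
  Cov.last (by norm_num) (by norm_num) c29_2 (by norm_num) (by norm_num)

theorem cov30 : Cov 30 4096 1 8335 0 :=
  Cov.cons (by norm_num) (by norm_num) c30_0 (by norm_num) (by norm_num) <|
  Cov.cons (by norm_num) (by norm_num) c30_1 (by norm_num) (by norm_num) <|
  Cov.last (by norm_num) (by norm_num) c30_2 (by norm_num) (by norm_num)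

theorem cov31 : Cov 31 4096 1 8335 0 :=
  Cov.cons (by norm_num) (by norm_num) c31_0 (by norm_num) (by norm_num) <|
  Cov.cons (by norm_num) (by norm_num) c31_1 (by norm_num) (by norm_num) <|
  Cov.last (by norm_num) (by norm_num) c31_2 (by norm_num) (by norm_num)

end Pool.Agent.SG
end

section

set_option autoImplicit false

namespace Pool.Agent.SG

/-- the final comparison -/
theorem fn {n : ℕ} (hn : 21 ≤ n) {y y1 Z : ℝ} (h0 : 36 / 25 ≤ y) (h1 : y1 ≤ y)
    (h2 : y ≤ y1 + 1 / 80) (hZ : Zc y y1 Z) :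
    ∃ K : ℕ, 3 ≤ K ∧ 2 * K + 12 ≤ n ∧
      cE y * (51 / 50) * √Z * gam K n ≤ √(Mlow y) / 2 * gam y n := by
  rcases le_total y 3 with h3 | h3
  · refine ⟨3, le_refl _, by omega, ?_⟩
    have := fn1 hn h0 h3 h1 h2 hZ
    simpa using this
  rcases le_total y 4 with h4 | h4
  · rcases fn2a hn h3 h4 h1 h2 hZ with h | h
    · exact ⟨3, le_refl _, by omega, by simpa using h⟩
    · exact ⟨4, by norm_num, by omega, by simpa using h⟩
  · set K := ⌊y⌋₊ with hKdef
    have hy0 : 0 ≤ y := by linarith
    have hK4 : 4 ≤ K := by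
      rw [hKdef]; exact Nat.le_floor (by exact_mod_cast h4)
    have hKy : (K : ℝ) ≤ y := Nat.floor_le hy0
    have hKy1 : y ≤ K + 1 := (Nat.lt_floor_add_one y).le
    rcases Nat.lt_or_ge n (2 * K + 14) with h | h
    · exact ⟨3, le_refl _, by omega, by simpa using fn3 hK4 hn h hKy h1 h2 hZ⟩
    · rcases fn2b (n := n) hK4 hKy hKy1 h1 h2 hZ with h' | h'
      · exact ⟨K, by omega, by omega, h'⟩
      · exact ⟨K + 1, by omega, by omega, h'⟩

end Pool.Agent.SG
end

section

set_option autoImplicit false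
open Classical

namespace Pool.Agent.SG

/-- some double comet on `n` vertices has gap at most `x` -/
def Good' (n : ℕ) (x : ℝ) : Prop := ∃ k ℓ : ℕ, 2 ≤ ℓ ∧ ℓ + 2 * k = n ∧ DcLe n k ℓ x

theorem DcLe.mono {n k ℓ : ℕ} {x y : ℝ} (h : DcLe n k ℓ x) (hxy : x ≤ y) : DcLe n k ℓ y :=
  fun hC i j hi hj => (h hC i j hi hj).trans hxy

theorem Good'.mono {n : ℕ} {x y : ℝ} (h : Good' n x) (hxy : x ≤ y) : Good' n y := by
  obtain ⟨k, ℓ, h1, h2, h3⟩ := h
  exact ⟨k, ℓ, h1, h2, h3.mono hxy⟩

theorem good_of_dc {n : ℕ} {f h : Fo} {ν μ : ℝ} (hS : Sp n f h ν μ) (hd : IsDC f h) :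
    Good' n (ν - μ) := by
  obtain ⟨k, j, j', rfl, rfl⟩ := hd
  have hs := hS.size
  rw [size_comet, size_comet] at hs
  exact ⟨k, j + j' + 2, by omega, by omega, cg_gap_sp hS⟩

theorem mu_nonneg {n : ℕ} (hn : 3 ≤ n) {f h : Fo} {ν μ : ℝ} (hS : Sp n f h ν μ) : 0 ≤ μ := by
  rcases hS.ev with ⟨h1, h2, -⟩ | ⟨h1, h2, -⟩
  · by_cases hf : f = .nil
    · by_cases hh : h = .nil
      · have := hS.size
        subst hf; subst hh
        simp [Fo.size] at this
        omega
      · exact (PP_pos h2 hh).le
    · exact (PP_pos h1 hf).le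
  · have := gs_nonneg h1
    linarith

theorem small_of_cov {n S g top k ℓ : ℕ} (hn : 3 ≤ n) (hS0 : 0 < S) (hc : Cov n S g top 0)
    (hl : 2 ≤ ℓ) (hkl : ℓ + 2 * k = n) {x : ℝ} (hd : DcLe n k ℓ x) (hx : S * x ≤ g)
    {f h : Fo} {ν μ : ℝ} (hS : Sp n f h ν μ) (ht : S * ν ≤ top) : Good' n (ν - μ) := by
  by_cases h1 : x ≤ ν - μ
  · exact ⟨k, ℓ, hl, hkl, hd.mono h1⟩
  · push Not at h1
    apply good_of_dc hS
    have hS1 : (0 : ℝ) < S := by exact_mod_cast hS0
    refine hc f h ν μ hS ?_ ?_ ht
    · have := mu_nonneg hn hS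
      simpa using mul_nonneg hS1.le this
    · have : S * (ν - μ) < S * x := mul_lt_mul_of_pos_left h1 hS1
      linarith

theorem full_of_cov {n S g k ℓ : ℕ} (hn : 3 ≤ n) (hS0 : 0 < S) {top : ℕ} (ht : top = S * n)
    (hc : Cov n S g top 0)
    (hl : 2 ≤ ℓ) (hkl : ℓ + 2 * k = n) {x : ℝ} (hd : DcLe n k ℓ x) (hx : x = g / S)
    {f h : Fo} {ν μ : ℝ} (hS : Sp n f h ν μ) : Good' n (ν - μ) := by
  have hS1 : (0 : ℝ) < S := by exact_mod_cast hS0
  refine small_of_cov hn hS0 hc hl hkl hd ?_ hS ?_
  · rw [hx]; field_simp; exact le_refl _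
  · rw [ht]; push_cast
    exact mul_le_mul_of_nonneg_left hS.le hS1.le

end Pool.Agent.SG
end

section

set_option autoImplicit false
open Classical

namespace Pool.Agent.SG

theorem isDC_small {n : ℕ} (hn : n ≤ 3) {f h : Fo} {ν μ : ℝ} (hS : Sp n f h ν μ) : IsDC f h := by
  have hs := hS.size
  have key : ∀ g : Fo, g.size = 0 → g = .nil := by
    intro g hg
    cases g with
    | nil => rfl
    | cons c r => simp [Fo.size] at hg
  have key1 : ∀ g : Fo, g.size = 1 → g = comet 0 1 := by
    intro g hg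
    cases g with
    | nil => simp [Fo.size] at hg
    | cons c r =>
      simp only [Fo.size] at hg
      rw [key c (by omega), key r (by omega)]
      rfl
  have h0 : (Fo.nil) = comet 0 0 := rfl
  rcases Nat.lt_or_ge f.size 1 with h1 | h1
  · have hf := key f (by omega)
    rcases Nat.lt_or_ge h.size 1 with h2 | h2
    · exact ⟨0, 0, 0, hf.trans h0, (key h (by omega)).trans h0⟩
    · exact ⟨0, 0, 1, hf.trans h0, key1 h (by omega)⟩
  · exact ⟨0, 1, 0, key1 f (by omega), (key h (by omega)).trans h0⟩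

theorem good_4_20 {n : ℕ} (h4 : 4 ≤ n) (h20 : n ≤ 20) {f h : Fo} {ν μ : ℝ}
    (hS : Sp n f h ν μ) : Good' n (ν - μ) := by
  interval_cases n
  · exact full_of_cov (by norm_num) (by norm_num) (by norm_num) cov4 (by norm_num) (by norm_num) cmp4 (by norm_num) hS
  · exact full_of_cov (by norm_num) (by norm_num) (by norm_num) cov5 (by norm_num) (by norm_num) cmp5 (by norm_num) hS
  · exact full_of_cov (by norm_num) (by norm_num) (by norm_num) cov6 (by norm_num) (by norm_num) cmp6 (by norm_num) hS
  · exact full_of_cov (by norm_num) (by norm_num) (by norm_num) cov7 (by norm_num) (by norm_num) cmp7 (by norm_num) hS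
  · exact full_of_cov (by norm_num) (by norm_num) (by norm_num) cov8 (by norm_num) (by norm_num) cmp8 (by norm_num) hS
  · exact full_of_cov (by norm_num) (by norm_num) (by norm_num) cov9 (by norm_num) (by norm_num) cmp9 (by norm_num) hS
  · exact full_of_cov (by norm_num) (by norm_num) (by norm_num) cov10 (by norm_num) (by norm_num) cmp10 (by norm_num) hS
  · exact full_of_cov (by norm_num) (by norm_num) (by norm_num) cov11 (by norm_num) (by norm_num) cmp11 (by norm_num) hS
  · exact full_of_cov (by norm_num) (by norm_num) (by norm_num) cov12 (by norm_num) (by norm_num) cmp12 (by norm_num) hS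
  · exact full_of_cov (by norm_num) (by norm_num) (by norm_num) cov13 (by norm_num) (by norm_num) cmp13 (by norm_num) hS
  · exact full_of_cov (by norm_num) (by norm_num) (by norm_num) cov14 (by norm_num) (by norm_num) cmp14 (by norm_num) hS
  · exact full_of_cov (by norm_num) (by norm_num) (by norm_num) cov15 (by norm_num) (by norm_num) cmp15 (by norm_num) hS
  · exact full_of_cov (by norm_num) (by norm_num) (by norm_num) cov16 (by norm_num) (by norm_num) cmp16 (by norm_num) hS
  · exact full_of_cov (by norm_num) (by norm_num) (by norm_num) cov17 (by norm_num) (by norm_num) cmp17 (by norm_num) hS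
  · exact full_of_cov (by norm_num) (by norm_num) (by norm_num) cov18 (by norm_num) (by norm_num) cmp18 (by norm_num) hS
  · exact full_of_cov (by norm_num) (by norm_num) (by norm_num) cov19 (by norm_num) (by norm_num) cmp19 (by norm_num) hS
  · exact full_of_cov (by norm_num) (by norm_num) (by norm_num) cov20 (by norm_num) (by norm_num) cmp20 (by norm_num) hS

end Pool.Agent.SG
end

section

set_option autoImplicit false
open Classical

namespace Pool.Agent.SG

theorem exists_lam {a l : ℝ} (ha : 1 ≤ a) (hl : lam a ≤ l) : ∃ t, a ≤ t ∧ lam t = l := by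
  have hl2 : 2 ≤ l := by
    have h1 : 2 ≤ lam a := by
      unfold lam
      have ha0 : 0 < a := by linarith
      rw [ge_iff_le.symm, ge_iff_le]
      have : a + 1 / a - 2 = (a - 1) ^ 2 / a := by field_simp; ring
      have h2 : 0 ≤ (a - 1) ^ 2 / a := by positivity
      linarith
    linarith
  have h4 : 0 ≤ l ^ 2 - 4 := by nlinarith
  set s := √(l ^ 2 - 4) with hs
  have hs2 : s ^ 2 = l ^ 2 - 4 := Real.sq_sqrt h4
  have hs0 : 0 ≤ s := Real.sqrt_nonneg _
  have ht0 : 0 < (l + s) / 2 := by linarith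
  have heq : lam ((l + s) / 2) = l := by
    unfold lam
    have h3 : (l + s) / 2 ≠ 0 := ht0.ne'
    have h5 : 1 / ((l + s) / 2) = (l - s) / 2 := by
      rw [div_eq_iff h3]
      nlinarith
    rw [h5]; ring
  refine ⟨(l + s) / 2, ?_, heq⟩
  by_contra hcon
  push Not at hcon
  have ht1 : 1 ≤ (l + s) / 2 := by linarith
  -- lam is strictly increasing on [1, ∞)
  have : lam ((l + s) / 2) < lam a := by
    set t := (l + s) / 2
    unfold lam
    have hta : 0 < t * a := by nlinarith
    have ha0 : 0 < a := by linarith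
    have h6 : (a + 1 / a) - (t + 1 / t) = (a - t) * (t * a - 1) / (t * a) := by
      field_simp; ring
    have h7 : 0 < (a - t) * (t * a - 1) / (t * a) := by
      apply div_pos (mul_pos (by linarith) (by nlinarith)) hta
    linarith
  rw [heq] at this
  linarith

theorem lam_le_iff {s t : ℝ} (hs : 1 ≤ s) (ht : 1 ≤ t) (h : lam s ≤ lam t) : s ≤ t := by
  by_contra hcon
  push Not at hcon
  unfold lam at h
  have hta : 0 < s * t := by nlinarith
  have h6 : (s + 1 / s) - (t + 1 / t) = (s - t) * (s * t - 1) / (s * t) := by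
    have : s ≠ 0 := by linarith
    have : t ≠ 0 := by linarith
    field_simp; ring
  have h7 : 0 < (s - t) * (s * t - 1) / (s * t) := by
    apply div_pos (mul_pos (by linarith) (by nlinarith)) hta
  linarith

theorem gam_three (n : ℕ) : gam 3 n = 144 * (3 : ℝ) ^ (-(n : ℝ) / 2) := by
  unfold gam
  have : (3 : ℝ) - 1 - (n : ℝ) / 2 = 2 + (-(n : ℝ) / 2) := by ring
  rw [this, Real.rpow_add (by norm_num)]
  norm_num
  ring

theorem gam_four (n : ℕ) : gam 4 n = 2880 / 2 ^ n := by
  unfold gam
  have h1 : (4 : ℝ) - 1 - (n : ℝ) / 2 = 3 + (-(n : ℝ) / 2) := by ring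
  rw [h1, Real.rpow_add (by norm_num)]
  have h2 : (4 : ℝ) ^ (-(n : ℝ) / 2) = 1 / 2 ^ n := by
    have : (4 : ℝ) = 2 ^ (2 : ℝ) := by norm_num
    rw [this, ← Real.rpow_mul (by norm_num)]
    have : (2 : ℝ) * (-(n : ℝ) / 2) = -(n : ℝ) := by ring
    rw [this, Real.rpow_neg (by norm_num), Real.rpow_natCast]
    ring
  rw [h2]
  norm_num
  ring

theorem good_main {n : ℕ} (hn : 21 ≤ n) {f h : Fo} {ν μ : ℝ} (hS : Sp n f h ν μ)
    (hg : ν - μ < 51 / 50 * gam 3 n) (hμ : 61 / 30 ≤ μ) : Good' n (ν - μ) := by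
  by_cases hd : IsDC f h
  · exact good_of_dc hS hd
  have hl65 : lam (6 / 5) = 61 / 30 := by unfold lam; norm_num
  obtain ⟨t1, ht1, hμ1⟩ := exists_lam (a := 6 / 5) (l := μ) (by norm_num) (by rw [hl65]; exact hμ)
  obtain ⟨t, htt, hν1⟩ := exists_lam (a := t1) (l := ν) (by linarith) (by rw [hμ1]; exact hS.lt.le)
  have hsz := sizes ht1 hμ1.symm hS
  rw [gam_three] at hg
  have hpos3 : (0 : ℝ) < (3 : ℝ) ^ (-(n : ℝ) / 2) := Real.rpow_pos_of_pos (by norm_num) _
  have hg2 : lam t - lam t1 ≤ 147 * (3 : ℝ) ^ (-(n : ℝ) / 2) := by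
    rw [hμ1, hν1]; nlinarith
  obtain ⟨e1, e2, e3, e4⟩ := err_bound hn ht1 htt hsz hg2
  rw [hμ1, hν1] at e2
  obtain ⟨Z, hZ, hlow⟩ := lower_main hS hd ht1 htt hμ1.symm hν1.symm e2 e3
  have hy0 : 36 / 25 ≤ t ^ 2 := by nlinarith
  have hy1 : t1 ^ 2 ≤ t ^ 2 := by nlinarith
  obtain ⟨K, hK3, hKn, hfn⟩ := fn hn hy0 hy1 (by linarith) hZ
  refine ⟨K + 1, n - 2 * K - 2, by omega, by omega, ?_⟩
  refine (cmp_gen hn hK3 hKn).mono ?_
  by_contra hcon
  push Not at hcon
  have hZ0 : 0 < √Z := by
    apply Real.sqrt_pos.mpr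
    have hy : 0 < t ^ 2 := by nlinarith
    rcases hZ with ⟨-, rfl⟩ | ⟨-, rfl⟩ | ⟨-, K', -, rfl⟩
    · norm_num
    · positivity
    · have := Real.rpow_pos_of_pos hy (t ^ 2 - (K' : ℝ))
      positivity
  have hEc : Er t t1 ≤ cE (t ^ 2) := by
    unfold cE
    split_ifs with hlt
    · exact e3
    · push Not at hlt; exact e4 hlt
  have hg0 : 0 < ν - μ := by linarith [hS.lt]
  have hc0 : 0 < cE (t ^ 2) := by unfold cE; split_ifs <;> norm_num
  have h1 : (ν - μ) * Er t t1 * √Z ≤ (ν - μ) * cE (t ^ 2) * √Z :=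
    mul_le_mul_of_nonneg_right (mul_le_mul_of_nonneg_left hEc hg0.le) hZ0.le
  have h2 : (ν - μ) * cE (t ^ 2) * √Z < (51 / 50 * gam K n) * cE (t ^ 2) * √Z :=
    mul_lt_mul_of_pos_right (mul_lt_mul_of_pos_right hcon hc0) hZ0
  have h3 : (51 / 50 * gam K n) * cE (t ^ 2) * √Z = cE (t ^ 2) * (51 / 50) * √Z * gam K n := by ring
  linarith

theorem three_rpow_le (m : ℕ) (b : ℝ) (hb : 0 < b) (hb2 : 1 ≤ b ^ 2 * 3 ^ m) :
    (3 : ℝ) ^ (-(m : ℝ) / 2) ≤ b := by
  have h1 : ((3 : ℝ) ^ (-(m : ℝ) / 2)) ^ 2 = 1 / 3 ^ m := by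
    rw [← Real.rpow_natCast, ← Real.rpow_mul (by norm_num)]
    have : -(m : ℝ) / 2 * ((2 : ℕ) : ℝ) = -(m : ℝ) := by push_cast; ring
    rw [this, Real.rpow_neg (by norm_num), Real.rpow_natCast]
    ring
  have h2 : 0 ≤ (3 : ℝ) ^ (-(m : ℝ) / 2) := (Real.rpow_pos_of_pos (by norm_num) _).le
  have h3 : ((3 : ℝ) ^ (-(m : ℝ) / 2)) ^ 2 ≤ b ^ 2 := by
    rw [h1, div_le_iff₀ (by positivity)]
    exact hb2
  nlinarith [sq_nonneg ((3 : ℝ) ^ (-(m : ℝ) / 2) - b)]

theorem tiny_aux {n g : ℕ} {f h : Fo} {ν μ : ℝ} (hS : Sp n f h ν μ) (hn : 3 ≤ n)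
    (hg : ν - μ < 51 / 50 * (144 * (3 : ℝ) ^ (-(n : ℝ) / 2))) (hμ : μ < 61 / 30)
    (hc : Cov n 4096 g 8335 0) (hg6 : g ≤ 6) (hg0 : 0 < g)
    (hb : (1 : ℝ) ≤ ((g : ℝ) / (4096 * 147)) ^ 2 * 3 ^ n) :
    IsDC f h := by
  have hgr : (0 : ℝ) < g := by exact_mod_cast hg0
  have h1 := three_rpow_le n ((g : ℝ) / (4096 * 147)) (by positivity) hb
  have hpos : (0 : ℝ) < (3 : ℝ) ^ (-(n : ℝ) / 2) := Real.rpow_pos_of_pos (by norm_num) _
  have h2 : 4096 * (ν - μ) ≤ g := by
    rw [le_div_iff₀ (by norm_num)] at h1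
    nlinarith
  have h6 : (g : ℝ) ≤ 6 := by exact_mod_cast hg6
  refine hc f h ν μ hS ?_ (by push_cast; linarith) ?_
  · have := mu_nonneg hn hS
    push_cast
    linarith
  · push_cast
    linarith

theorem good_tiny {n : ℕ} (hn : 21 ≤ n) (hn31 : n ≤ 31) {f h : Fo} {ν μ : ℝ} (hS : Sp n f h ν μ)
    (hg : ν - μ < 51 / 50 * gam 3 n) (hμ : μ < 61 / 30) : IsDC f h := by
  rw [gam_three] at hg
  interval_cases n
  · exact tiny_aux hS (by norm_num) hg hμ cov21 (by norm_num) (by norm_num) (by norm_num)
  · exact tiny_aux hS (by norm_num) hg hμ cov22 (by norm_num) (by norm_num) (by norm_num)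
  · exact tiny_aux hS (by norm_num) hg hμ cov23 (by norm_num) (by norm_num) (by norm_num)
  · exact tiny_aux hS (by norm_num) hg hμ cov24 (by norm_num) (by norm_num) (by norm_num)
  · exact tiny_aux hS (by norm_num) hg hμ cov25 (by norm_num) (by norm_num) (by norm_num)
  · exact tiny_aux hS (by norm_num) hg hμ cov26 (by norm_num) (by norm_num) (by norm_num)
  · exact tiny_aux hS (by norm_num) hg hμ cov27 (by norm_num) (by norm_num) (by norm_num)
  · exact tiny_aux hS (by norm_num) hg hμ cov28 (by norm_num) (by norm_num) (by norm_num)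
  · exact tiny_aux hS (by norm_num) hg hμ cov29 (by norm_num) (by norm_num) (by norm_num)
  · exact tiny_aux hS (by norm_num) hg hμ cov30 (by norm_num) (by norm_num) (by norm_num)
  · exact tiny_aux hS (by norm_num) hg hμ cov31 (by norm_num) (by norm_num) (by norm_num)

theorem good_crude {n : ℕ} (hn : 32 ≤ n) {f h : Fo} {ν μ : ℝ} (hS : Sp n f h ν μ)
    (hg : ν - μ < 51 / 50 * gam 3 n) (hμ : μ < 61 / 30) : Good' n (ν - μ) := by
  rw [gam_three] at hg
  have hpos : (0 : ℝ) < (3 : ℝ) ^ (-(n : ℝ) / 2) := Real.rpow_pos_of_pos (by norm_num) _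
  have h3 : (3 : ℝ) ^ (-(n : ℝ) / 2) ≤ 1 / 100000 := by
    have h4 := three_rpow_le 32 (1 / 100000) (by norm_num) (by norm_num)
    refine le_trans (Real.rpow_le_rpow_of_exponent_le (by norm_num) ?_) h4
    have : (32 : ℝ) ≤ n := by exact_mod_cast hn
    push_cast
    linarith
  have hν : ν ≤ 51 / 25 := by nlinarith
  have hc := crude_low hS hν
  have h4 : DcLe n 5 (n - 10) (51 / 50 * gam 4 n) := by
    have := cmp_gen (n := n) (K := 4) (by omega) (by norm_num) (by omega)
    have h5 : n - 2 * 4 - 2 = n - 10 := by omega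
    rw [h5] at this
    simpa using this
  refine ⟨5, n - 10, by omega, by omega, h4.mono ?_⟩
  by_contra hcon
  push Not at hcon
  rw [gam_four] at hcon
  have hg0 : 0 < ν - μ := by linarith [hS.lt]
  have h2n : (2 : ℝ) ^ 32 ≤ 2 ^ n := pow_le_pow_right₀ (by norm_num) hn
  have hp : (0 : ℝ) < 2 ^ n := by positivity
  set P : ℝ := 2 ^ n with hP
  have h7 : (ν - μ) * P < 51 / 50 * 2880 := by
    have := mul_lt_mul_of_pos_right hcon hp
    have h8 : 51 / 50 * (2880 / P) * P = 51 / 50 * 2880 := by field_simp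
    rw [h8] at this
    exact this
  have h9 : (ν - μ) ^ 2 * P * P < (51 / 50 * 2880) ^ 2 := by
    have h10 : 0 < (ν - μ) * P := mul_pos hg0 hp
    nlinarith
  have h11 : (2 : ℝ) ^ 32 ≤ 165 * (ν - μ) ^ 2 * P * P := by
    have : P ≤ 165 * (ν - μ) ^ 2 * P * P := by nlinarith
    linarith
  norm_num at h11
  nlinarith

theorem good_all {n : ℕ} (hn : 2 ≤ n) {f h : Fo} {ν μ : ℝ} (hS : Sp n f h ν μ) :
    Good' n (ν - μ) := by
  rcases Nat.lt_or_ge n 4 with h3 | h4
  · exact good_of_dc hS (isDC_small (by omega) hS)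
  rcases Nat.lt_or_ge n 21 with h20 | h21
  · exact good_4_20 h4 (by omega) hS
  by_cases hg : ν - μ < 51 / 50 * gam 3 n
  · rcases le_or_gt (61 / 30) μ with hμ | hμ
    · exact good_main h21 hS hg hμ
    · rcases Nat.lt_or_ge n 32 with h31 | h32
      · exact good_of_dc hS (good_tiny h21 (by omega) hS hg hμ)
      · exact good_crude h32 hS hg hμ
  · push Not at hg
    have h4 : DcLe n 4 (n - 8) (51 / 50 * gam 3 n) := by
      have := cmp_gen (n := n) (K := 3) (by omega) (by norm_num) (by omega)
      have h5 : n - 2 * 3 - 2 = n - 8 := by omega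
      rw [h5] at this
      simpa using this
    exact ⟨4, n - 8, by omega, by omega, h4.mono hg⟩

end Pool.Agent.SG
end
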