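import Pool.Agent.Lib.MP_8b9a2e_co.Defs
import Pool.Agent.Lib.MP_8b9a2e_co.Mg.G001

section

set_option autoImplicit false

namespace Pool.Agent.SG

/-- `ee` in terms of `r = p t` -/
theorem calcI_ee {t r : ℝ} (ht : 1 < t) (hr : 0 < r) :
    ee t (r / t) = ((1 + 1 / t ^ 2) * r - 1) * (t ^ 2 + 1 - r) / r := by
  have ht0 : t ≠ 0 := by linarith
  have hr0 : r ≠ 0 := hr.ne'
  unfold ee lam
  field_simp
  ring

theorem calcI_ee' {t r : ℝ} (ht : 1 < t) (hr : 0 < r) :
    ee t (r / t) - 1 = (t ^ 2 + 1) * (r - 1) * (t ^ 2 - r) / (t ^ 2 * r) := by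
  have ht0 : t ≠ 0 := by linarith
  have hr0 : r ≠ 0 := hr.ne'
  unfold ee lam
  field_simp
  ring

theorem calcI_range {t p : ℝ} (ht : 1 < t) (h1 : 1 / t ≤ p) (h2 : p ≤ lam t) :
    1 ≤ p * t ∧ p * t ≤ t ^ 2 + 1 ∧ p = p * t / t := by
  have ht0 : 0 < t := by linarith
  refine ⟨?_, ?_, ?_⟩
  · rwa [div_le_iff₀ ht0] at h1
  · have : p * t ≤ lam t * t := mul_le_mul_of_nonneg_right h2 ht0.le
    have h3 : lam t * t = t ^ 2 + 1 := by unfold lam; field_simp
    linarith
  · field_simp

theorem ee_nonneg {t p : ℝ} (ht : 1 < t) (h1 : 1 / t ≤ p) (h2 : p ≤ lam t) : 0 ≤ ee t p := by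
  obtain ⟨h3, h4, h5⟩ := calcI_range ht h1 h2
  rw [h5, calcI_ee ht (by linarith)]
  set r := p * t
  apply div_nonneg _ (by linarith)
  apply mul_nonneg _ (by linarith)
  have : 0 < 1 / t ^ 2 := by positivity
  nlinarith

theorem calcI_FF {t r : ℝ} (ht : 1 < t) (h1 : 1 ≤ r) (h2 : r ≤ t ^ 2 + 1) :
    FF (t ^ 2) r ≤ (t ^ 2) ^ (ee t (r / t)) := by
  have ht0 : 0 < t := by linarith
  have hr0 : 0 < r := by linarith
  set y := t ^ 2 with hy
  have hy1 : 1 < y := by rw [hy]; nlinarith
  have hy0 : 0 < y := by linarith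
  have hlog : (y - 1) / y ≤ Real.log y := by
    have := Real.one_sub_inv_le_log_of_pos hy0
    have h : (y - 1) / y = 1 - y⁻¹ := by field_simp
    linarith
  have hexp : ∀ x : ℝ, 1 + x * Real.log y ≤ y ^ x := by
    intro x
    rw [Real.rpow_def_of_pos hy0]
    have := Real.add_one_le_exp (Real.log y * x)
    linarith
  rcases le_total r y with hry | hry
  · -- r ∈ [1, y]
    have he := calcI_ee' ht hr0
    rw [← hy] at he
    set e := ee t (r / t)
    have he1 : 0 ≤ e - 1 := by
      rw [he]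
      apply div_nonneg _ (by positivity)
      apply mul_nonneg (mul_nonneg (by linarith) (by linarith)) (by linarith)
    have h3 : y ^ e = y * y ^ (e - 1) := by
      rw [show e = 1 + (e - 1) by ring, Real.rpow_add hy0, Real.rpow_one]
      ring_nf
    rw [h3]
    have h4 := hexp (e - 1)
    have h5 : 1 + (e - 1) * ((y - 1) / y) ≤ y ^ (e - 1) := by
      have := mul_le_mul_of_nonneg_left hlog he1
      linarith
    have h6 : y * (1 + (e - 1) * ((y - 1) / y)) ≤ y * y ^ (e - 1) :=
      mul_le_mul_of_nonneg_left h5 hy0.le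
    refine le_trans ?_ h6
    have h7 : y * (1 + (e - 1) * ((y - 1) / y)) - FF y r =
        (y - 1) / (y * r ^ 2) * ((r - 1) * (-(y + 1) * r ^ 2 + (y ^ 2 + 2 * y) * r + (y + 1))) := by
      rw [he]
      unfold FF
      field_simp
      ring
    have h8 : 0 ≤ -(y + 1) * r ^ 2 + (y ^ 2 + 2 * y) * r + (y + 1) := by
      nlinarith [mul_nonneg (sub_nonneg.2 h1) (sub_nonneg.2 hry)]
    have h9 : 0 ≤ (y - 1) / (y * r ^ 2) * ((r - 1) * (-(y + 1) * r ^ 2 + (y ^ 2 + 2 * y) * r + (y + 1))) :=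
      mul_nonneg (div_nonneg (by linarith) (by positivity)) (mul_nonneg (by linarith) h8)
    linarith
  · have he := calcI_ee ht hr0
    rw [← hy] at he
    set e := ee t (r / t)
    have he0 : (y + 1 - r) / r ^ 2 ≤ e := by
      rw [he]
      rw [div_le_div_iff₀ (by positivity) hr0]
      have h10 : 1 ≤ ((1 + 1 / y) * r - 1) * r := by
        have h11 : y ≤ (1 + 1 / y) * r - 1 := by
          have : (1 + 1 / y) * y = y + 1 := by field_simp
          have h12 : (1 + 1 / y) * y ≤ (1 + 1 / y) * r := mul_le_mul_of_nonneg_left hry (by positivity)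
          linarith
        nlinarith
      have h13 : 0 ≤ (y + 1 - r) * r := mul_nonneg (by linarith) hr0.le
      nlinarith
    have h14 : 0 ≤ (y + 1 - r) / r ^ 2 := div_nonneg (by linarith) (by positivity)
    have h4 := hexp e
    have h5 : 1 + e * ((y - 1) / y) ≤ y ^ e := by
      have := mul_le_mul_of_nonneg_left hlog (le_trans h14 he0)
      linarith
    refine le_trans ?_ h5
    unfold FF
    have h15 : (y - 1) * (y + 1 - r) / (y * r ^ 2) = ((y + 1 - r) / r ^ 2) * ((y - 1) / y) := by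
      field_simp
    rw [h15]
    have := mul_le_mul_of_nonneg_right he0 (div_nonneg (by linarith : (0:ℝ) ≤ y - 1) hy0.le)
    linarith

theorem calcI {t p : ℝ} (ht : 1 < t) (h1 : 1 / t ≤ p) (h2 : p ≤ lam t) :
    2 * (1 - p / lam t) / p ^ 2 ≤ Ac t * ((t ^ 2) ^ (ee t p) - 1) := by
  obtain ⟨h3, h4, h5⟩ := calcI_range ht h1 h2
  have hF := calcI_FF ht h3 h4
  rw [← h5] at hF
  have ht0 : 0 < t := by linarith
  have hp0 : 0 < p := lt_of_lt_of_le (by positivity) h1
  have h6 : 2 * (1 - p / lam t) / p ^ 2 = Ac t * (FF (t ^ 2) (p * t) - 1) := by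
    unfold FF Ac lam
    have h7 : t ^ 4 - 1 ≠ 0 := by nlinarith [sq_nonneg (t ^ 2 - 1), sq_nonneg t, mul_pos ht0 ht0]
    have h8 : t + 1 / t ≠ 0 := by positivity
    have h9 : t ^ 2 + 1 ≠ 0 := by positivity
    have h10 : t ^ 4 - 1 = (t ^ 2 - 1) * (t ^ 2 + 1) := by ring
    have h11 : t ^ 2 - 1 ≠ 0 := by nlinarith
    rw [h10]
    field_simp
    ring
  rw [h6]
  apply mul_le_mul_of_nonneg_left (by linarith)
  unfold Ac
  have : 1 < t ^ 4 := one_lt_pow₀ ht (by norm_num)
  apply div_nonneg (by positivity) (by linarith)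

theorem calcII {t p : ℝ} (ht : 1 < t) (h1 : 1 / t ≤ p) (h2 : p ≤ lam t) :
    1 ≤ (t ^ 2) ^ (ee t p) * p ^ 2 := by
  obtain ⟨h3, h4, h5⟩ := calcI_range ht h1 h2
  have ht0 : 0 < t := by linarith
  have hy1 : 1 ≤ t ^ 2 := by nlinarith
  rcases le_total 1 p with hp | hp
  · have h6 : 1 ≤ (t ^ 2) ^ (ee t p) := Real.one_le_rpow hy1 (ee_nonneg ht h1 h2)
    nlinarith
  · have he := calcI_ee' ht (show 0 < p * t by linarith)
    rw [← h5] at he
    have h6 : 1 ≤ ee t p := by
      have : 0 ≤ ee t p - 1 := by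
        rw [he]
        apply div_nonneg _ (by positivity)
        apply mul_nonneg (mul_nonneg (by positivity) (by linarith))
        nlinarith
      linarith
    have h7 : (t ^ 2) ^ (1 : ℝ) ≤ (t ^ 2) ^ (ee t p) := Real.rpow_le_rpow_of_exponent_le hy1 h6
    rw [Real.rpow_one] at h7
    have h8 : 1 ≤ (p * t) ^ 2 := by nlinarith
    nlinarith [sq_nonneg p]

end Pool.Agent.SG
end

section

set_option autoImplicit false

namespace Pool.Agent.SG

theorem AL_of_le {t : ℝ} (ht : 1 < t) {f : Fo} (hp : PP (lam t) f) (h : gs (lam t) f ≤ t) :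
    AL t f := by
  induction f with
  | nil => trivial
  | cons c r ihc ihr =>
    obtain ⟨h1, h2, h3⟩ := hp
    have hr : 0 ≤ gs (lam t) r := gs_nonneg h3
    have hg : gs (lam t) (.cons c r) = 1 / (lam t - gs (lam t) c) + gs (lam t) r := rfl
    rw [hg] at h
    have hpos : 0 < 1 / (lam t - gs (lam t) c) := by positivity
    refine ⟨?_, ihr h3 (by linarith)⟩
    rw [div_le_iff₀ (by linarith)]
    have h4 : 1 / (lam t - gs (lam t) c) ≤ t := by linarith
    rw [div_le_iff₀ h2] at h4
    linarith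

theorem Light_lam_pos {t : ℝ} (ht : 1 < t) : 0 < lam t := by
  unfold lam; positivity

theorem Light_Ac_pos {t : ℝ} (ht : 1 < t) : 0 < Ac t := by
  unfold Ac
  have h : 1 < t ^ 4 := one_lt_pow₀ ht (by norm_num)
  exact div_pos (by positivity) (by linarith)

/-- one tree: `X` is the bound for the forest of children -/
theorem Light_tree {t : ℝ} (ht : 1 < t) {c : Fo} (hp : PP (lam t) c)
    (h2 : 0 < lam t - gs (lam t) c) (h3 : 1 / t ≤ lam t - gs (lam t) c) {X : ℝ}
    (hX : Ac t ≤ Wf t c) (hX' : Wf t c ≤ Ac t * X) :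
    Ac t ≤ (1 + ds (lam t) c) / (lam t - gs (lam t) c) ^ 2
        - 1 / (lam t * (lam t - gs (lam t) c)) + Ac t ∧
      (1 + ds (lam t) c) / (lam t - gs (lam t) c) ^ 2
        - 1 / (lam t * (lam t - gs (lam t) c)) + Ac t ≤
      2 * (1 - (lam t - gs (lam t) c) / lam t) / (lam t - gs (lam t) c) ^ 2
        + Ac t * (X - 1) / (lam t - gs (lam t) c) ^ 2 + Ac t := by
  have hl := Light_lam_pos ht
  have hg : 0 ≤ gs (lam t) c := gs_nonneg hp
  set p := lam t - gs (lam t) c with hpdef
  have hgc : gs (lam t) c = lam t - p := by rw [hpdef]; ring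
  unfold Wf at hX hX'
  rw [hgc] at hX hX' hg
  set l := lam t
  set D := ds l c
  have e1 : (l - p) / l = 1 - p / l := by field_simp
  rw [e1] at hX hX'
  have hpl : p / l ≤ 1 := by rw [div_le_one hl]; linarith
  constructor
  · have : 1 / (l * p) ≤ (1 + D) / p ^ 2 := by
      rw [div_le_div_iff₀ (by positivity) (by positivity)]
      have hD : p / l ≤ 1 + D := by linarith
      rw [div_le_iff₀ hl] at hD
      nlinarith [mul_le_mul_of_nonneg_right hD h2.le]
    linarith
  · have e2 : 2 * (1 - p / l) / p ^ 2 + Ac t * (X - 1) / p ^ 2 =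
        (2 - p / l + Ac t * (X - 1)) / p ^ 2 - 1 / (l * p) := by
      field_simp
      ring
    rw [e2]
    have : (1 + D) / p ^ 2 ≤ (2 - p / l + Ac t * (X - 1)) / p ^ 2 := by
      apply div_le_div_of_nonneg_right _ (by positivity)
      nlinarith
    linarith

theorem Light_Wf_cons (t : ℝ) (c r : Fo) :
    Wf t (.cons c r) = Wf t r + ((1 + ds (lam t) c) / (lam t - gs (lam t) c) ^ 2
        - 1 / (lam t * (lam t - gs (lam t) c))) := by
  unfold Wf
  have h1 : ds (lam t) (.cons c r) =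
    (1 + ds (lam t) c) / (lam t - gs (lam t) c) ^ 2 + ds (lam t) r := rfl
  have h2 : gs (lam t) (.cons c r) = 1 / (lam t - gs (lam t) c) + gs (lam t) r := rfl
  rw [h1, h2]
  have h3 : 1 / (lam t * (lam t - gs (lam t) c)) = 1 / (lam t - gs (lam t) c) / lam t := by
    rw [div_div, mul_comm]
  rw [h3]
  ring

theorem light {t : ℝ} (ht : 1 < t) {f : Fo} (hp : PP (lam t) f) (ha : AL t f) :
    Ac t ≤ Wf t f ∧ Wf t f ≤ Ac t * (t ^ 2) ^ ((f.size : ℝ) - lam t * gs (lam t) f) ∧
      lam t * gs (lam t) f ≤ f.size := by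
  have hl := Light_lam_pos ht
  have hA := Light_Ac_pos ht
  have hy : 1 < t ^ 2 := one_lt_pow₀ ht (by norm_num)
  have hy0 : 0 < t ^ 2 := by positivity
  induction f with
  | nil =>
    simp [Wf, gs, ds, Fo.size]
  | cons c r ihc ihr =>
    obtain ⟨h1, h2, h3⟩ := hp
    obtain ⟨ha1, ha2⟩ := ha
    have hgc : gs (lam t) c ≤ t := by
      have : lam t = t + 1 / t := rfl
      linarith
    obtain ⟨c1, c2, c3⟩ := ihc h1 (AL_of_le ht h1 hgc)
    obtain ⟨r1, r2, r3⟩ := ihr h3 ha2
    have hg0 : 0 ≤ gs (lam t) c := gs_nonneg h1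
    obtain ⟨t1, t2⟩ := Light_tree ht h1 h2 ha1 c1 c2
    have hI := calcI ht ha1 (by linarith)
    have hII := calcII ht ha1 (by linarith)
    have hee := ee_nonneg ht ha1 (by linarith)
    rw [Light_Wf_cons]
    set p := lam t - gs (lam t) c with hpdef
    have hgc' : gs (lam t) c = lam t - p := by rw [hpdef]; ring
    have hsz : ((Fo.cons c r).size : ℝ) = 1 + c.size + r.size := by
      simp [Fo.size]
    have hgs : gs (lam t) (.cons c r) = 1 / p + gs (lam t) r := rfl
    have hX1 : 1 ≤ (t ^ 2) ^ ((c.size : ℝ) - lam t * gs (lam t) c) :=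
      Real.one_le_rpow hy.le (by linarith)
    have hY1 : 1 ≤ (t ^ 2) ^ ((r.size : ℝ) - lam t * gs (lam t) r) :=
      Real.one_le_rpow hy.le (by linarith)
    have hE1 : 1 ≤ (t ^ 2) ^ (ee t p) := Real.one_le_rpow hy.le hee
    have hexp : ((c.size : ℝ) - lam t * gs (lam t) c) + ee t p = 1 + c.size - lam t * (1 / p) := by
      unfold ee; rw [hgc']; ring
    have hadd : (t ^ 2) ^ (((Fo.cons c r).size : ℝ) - lam t * gs (lam t) (.cons c r)) =
        (t ^ 2) ^ ((c.size : ℝ) - lam t * gs (lam t) c) * (t ^ 2) ^ (ee t p) *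
          (t ^ 2) ^ ((r.size : ℝ) - lam t * gs (lam t) r) := by
      rw [← Real.rpow_add hy0, ← Real.rpow_add hy0, hexp, hsz, hgs]
      congr 1; ring
    rw [hadd]
    set X := (t ^ 2) ^ ((c.size : ℝ) - lam t * gs (lam t) c)
    set Y := (t ^ 2) ^ ((r.size : ℝ) - lam t * gs (lam t) r)
    set E := (t ^ 2) ^ (ee t p)
    set A := Ac t
    have hp2 : 0 < p ^ 2 := by positivity
    have hZ : (1 + ds (lam t) c) / p ^ 2 - 1 / (lam t * p) + A ≤ A * X * E := by
      have h5 : A * (X - 1) / p ^ 2 ≤ A * (X - 1) * E := by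
        rw [div_le_iff₀ hp2]
        have : 0 ≤ A * (X - 1) := mul_nonneg hA.le (by linarith)
        nlinarith
      nlinarith
    refine ⟨by linarith, ?_, ?_⟩
    · have hXE : 1 ≤ X * E := by nlinarith
      have : 0 ≤ A * ((X * E - 1) * (Y - 1)) :=
        mul_nonneg hA.le (mul_nonneg (by linarith) (by linarith))
      nlinarith
    · rw [hsz, hgs]
      have : 0 ≤ 1 + (c.size : ℝ) - lam t * (1 / p) := by
        rw [← hexp]; linarith
      linarith

theorem Light_gs_ge {l : ℝ} {c : Fo} (hl : 0 < l) (hp : PP l c) (hc : c ≠ .nil) :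
    1 / l ≤ gs l c := by
  cases c with
  | nil => exact absurd rfl hc
  | cons a b =>
    obtain ⟨h1, h2, h3⟩ := hp
    have ha : 0 ≤ gs l a := gs_nonneg h1
    have hb : 0 ≤ gs l b := gs_nonneg h3
    have hg : gs l (.cons a b) = 1 / (l - gs l a) + gs l b := rfl
    rw [hg]
    have : 1 / l ≤ 1 / (l - gs l a) := one_div_le_one_div_of_le h2 (by linarith)
    linarith

theorem light_nc {t : ℝ} (ht : 1 < t) {f : Fo} (hp : PP (lam t) f) (ha : AL t f)
    (hn : ∀ k, f ≠ leaves k) :
    ∃ r g : ℝ, 1 ≤ r ∧ r ≤ t ^ 2 + 1 - t ^ 2 / (t ^ 2 + 1) ∧ 0 ≤ g ∧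
      gs (lam t) f = t / r + g ∧ (1 / lam t ≤ g ∨ ∃ c, f = .cons c .nil) ∧
      Wf t f ≤ Ac t * FF (t ^ 2) r *
        (t ^ 2) ^ ((f.size : ℝ) - 1 - lam t ^ 2 + (1 + 1 / t ^ 2) * r - lam t * g) := by
  have hl := Light_lam_pos ht
  have hA := Light_Ac_pos ht
  have ht0 : 0 < t := by linarith
  have hy : 1 < t ^ 2 := one_lt_pow₀ ht (by norm_num)
  have hy0 : 0 < t ^ 2 := by positivity
  induction f with
  | nil => exact absurd rfl (hn 0)
  | cons c r ihc ihr =>
    by_cases hc : c = .nil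
    · subst hc
      obtain ⟨h1, h2, h3⟩ := hp
      obtain ⟨ha1, ha2⟩ := ha
      have hn' : ∀ k, r ≠ leaves k := by
        intro k hk
        exact hn (k + 1) (by rw [hk]; rfl)
      obtain ⟨q, g, q1, q2, q3, q4, q5, q6⟩ := ihr h3 ha2 hn'
      refine ⟨q, g + 1 / lam t, q1, q2, by positivity, ?_, Or.inl (by linarith), ?_⟩
      · have hg : gs (lam t) (.cons .nil r) = 1 / (lam t - gs (lam t) .nil) + gs (lam t) r := rfl
        rw [hg, q4]
        simp [gs]
        ring
      · have hW : Wf t (.cons .nil r) = Wf t r := by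
          rw [Light_Wf_cons]
          simp only [gs, ds]
          field_simp
          ring
        rw [hW]
        have he : ((Fo.cons .nil r).size : ℝ) - 1 - lam t ^ 2 + (1 + 1 / t ^ 2) * q
            - lam t * (g + 1 / lam t) =
            (r.size : ℝ) - 1 - lam t ^ 2 + (1 + 1 / t ^ 2) * q - lam t * g := by
          have : lam t * (1 / lam t) = 1 := by field_simp
          simp only [Fo.size]
          push_cast
          linear_combination (-1) * this
        rw [he]
        exact q6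
    · obtain ⟨h1, h2, h3⟩ := hp
      obtain ⟨ha1, ha2⟩ := ha
      have hgc : gs (lam t) c ≤ t := by
        have : lam t = t + 1 / t := rfl
        linarith
      obtain ⟨c1, c2, c3⟩ := light ht h1 (AL_of_le ht h1 hgc)
      obtain ⟨r1, r2, r3⟩ := light ht h3 ha2
      have hg0 : 0 ≤ gs (lam t) c := gs_nonneg h1
      have hgr : 0 ≤ gs (lam t) r := gs_nonneg h3
      obtain ⟨t1, t2⟩ := Light_tree ht h1 h2 ha1 c1 c2
      have hcge := Light_gs_ge hl h1 hc
      rw [Light_Wf_cons]
      set p := lam t - gs (lam t) c with hpdef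
      have hgc' : gs (lam t) c = lam t - p := by rw [hpdef]; ring
      have hlt : lam t * t = t ^ 2 + 1 := by
        unfold lam; field_simp
      have hpt : 1 ≤ p * t := by rwa [div_le_iff₀ ht0] at ha1
      have hsz : ((Fo.cons c r).size : ℝ) = 1 + c.size + r.size := by
        simp [Fo.size]
      have hX1 : 1 ≤ (t ^ 2) ^ ((c.size : ℝ) - lam t * gs (lam t) c) :=
        Real.one_le_rpow hy.le (by linarith)
      have hY1 : 1 ≤ (t ^ 2) ^ ((r.size : ℝ) - lam t * gs (lam t) r) :=
        Real.one_le_rpow hy.le (by linarith)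
      refine ⟨p * t, gs (lam t) r, hpt, ?_, hgr, ?_, ?_, ?_⟩
      · have h5 : p ≤ lam t - 1 / lam t := by linarith
        have h6 : (lam t - 1 / lam t) * t = t ^ 2 + 1 - t ^ 2 / (t ^ 2 + 1) := by
          have : (1 / lam t) * t = t ^ 2 / (t ^ 2 + 1) := by
            rw [← hlt]; field_simp
          rw [sub_mul, hlt, this]
        rw [← h6]
        exact mul_le_mul_of_nonneg_right h5 ht0.le
      · have hg : gs (lam t) (.cons c r) = 1 / p + gs (lam t) r := rfl
        rw [hg]
        have : t / (p * t) = 1 / p := by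
          field_simp
        rw [this]
      · by_cases hr : r = .nil
        · exact Or.inr ⟨c, by rw [hr]⟩
        · exact Or.inl (Light_gs_ge hl h3 hr)
      · have hadd : (t ^ 2) ^ (((Fo.cons c r).size : ℝ) - 1 - lam t ^ 2
              + (1 + 1 / t ^ 2) * (p * t) - lam t * gs (lam t) r) =
            (t ^ 2) ^ ((c.size : ℝ) - lam t * gs (lam t) c) *
              (t ^ 2) ^ ((r.size : ℝ) - lam t * gs (lam t) r) := by
          rw [← Real.rpow_add hy0, hsz, hgc']
          have : (1 + 1 / t ^ 2) * (p * t) = lam t * p := by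
            unfold lam; field_simp
          rw [this]
          congr 1; ring
        rw [hadd]
        have hFF : Ac t * FF (t ^ 2) (p * t) = Ac t + 2 * (1 - p / lam t) / p ^ 2 := by
          have h7 : p / lam t = p * t / (t ^ 2 + 1) := by
            rw [← hlt]; field_simp
          rw [h7]
          unfold FF Ac
          have h8 : t ^ 4 - 1 = (t ^ 2 - 1) * (t ^ 2 + 1) := by ring
          rw [h8]
          have h9 : t ^ 2 - 1 ≠ 0 := by linarith
          have h10 : t ^ 2 + 1 ≠ 0 := by positivity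
          field_simp
        have hFF2 : 1 / p ^ 2 ≤ FF (t ^ 2) (p * t) := by
          have h11 : FF (t ^ 2) (p * t) - 1 / p ^ 2 =
              (p * t - 1) * (t ^ 2 * (p * t) + 1) / (t ^ 2 * (p * t) ^ 2) := by
            unfold FF
            field_simp
            ring
          have h12 : 0 ≤ (p * t - 1) * (t ^ 2 * (p * t) + 1) / (t ^ 2 * (p * t) ^ 2) := by
            apply div_nonneg (mul_nonneg (by linarith) (by positivity)) (by positivity)
          linarith
        set X := (t ^ 2) ^ ((c.size : ℝ) - lam t * gs (lam t) c)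
        set Y := (t ^ 2) ^ ((r.size : ℝ) - lam t * gs (lam t) r)
        set F := FF (t ^ 2) (p * t)
        set A := Ac t
        have hp2 : 0 < p ^ 2 := by positivity
        have hZ : (1 + ds (lam t) c) / p ^ 2 - 1 / (lam t * p) + A ≤ A * F * X := by
          have h5 : A * (X - 1) / p ^ 2 ≤ A * (X - 1) * F := by
            have : 0 ≤ A * (X - 1) := mul_nonneg hA.le (by linarith)
            calc A * (X - 1) / p ^ 2 = A * (X - 1) * (1 / p ^ 2) := by ring
              _ ≤ A * (X - 1) * F := mul_le_mul_of_nonneg_left hFF2 this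
          nlinarith
        set Z := (1 + ds (lam t) c) / p ^ 2 - 1 / (lam t * p) with hZdef
        have h13 : 0 ≤ Z * (Y - 1) := mul_nonneg (by linarith) (by linarith)
        have h14 : (Z + A) * Y ≤ A * F * X * Y := mul_le_mul_of_nonneg_right hZ (by linarith)
        nlinarith

end Pool.Agent.SG
end
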